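import Mathlib.Data.Nat.Bitwise
import Mathlib.Tactic.Ring
import Mathlib.Tactic.Linarith

/-!
A small RUP proof checker meant to be run by the kernel.
A literal is a natural number: `2 * x` says that variable `x` is true, `2 * x + 1` that it is false.
A clause is a list of literals, a formula is a list of clauses.
-/

namespace Pool.Agent.Lead.Sat

/-- positive literal of variable `x` -/
def pos (x : Nat) : Nat := 2 * x
/-- negative literal of variable `x` -/
def neg (x : Nat) : Nat := 2 * x + 1

/-- truth of a literal under the valuation `v` -/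
def LitT (v : Nat → Prop) (k : Nat) : Prop := v (k / 2) ↔ k % 2 = 0

@[simp] theorem litT_pos (v : Nat → Prop) (x : Nat) : LitT v (pos x) ↔ v x := by
  unfold LitT pos
  have h1 : 2 * x / 2 = x := by omega
  have h2 : 2 * x % 2 = 0 := by omega
  simp [h1, h2]

@[simp] theorem litT_neg (v : Nat → Prop) (x : Nat) : LitT v (neg x) ↔ ¬ v x := by
  unfold LitT neg
  have h1 : (2 * x + 1) / 2 = x := by omega
  have h2 : (2 * x + 1) % 2 = 1 := by omega
  simp [h1, h2]

/-- every clause of `F` has a true literal -/
def Models (v : Nat → Prop) (F : List (List Nat)) : Prop := ∀ c ∈ F, ∃ l ∈ c, LitT v l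

theorem models_append {v : Nat → Prop} {F G : List (List Nat)} :
    Models v (F ++ G) ↔ Models v F ∧ Models v G := by
  unfold Models
  simp only [List.mem_append]
  exact ⟨fun h => ⟨fun c hc => h c (Or.inl hc), fun c hc => h c (Or.inr hc)⟩,
    fun h c hc => hc.elim (h.1 c) (h.2 c)⟩

theorem litT_xor (v : Nat → Prop) (k : Nat) (h : LitT v k) : ¬ LitT v (k ^^^ 1) := by
  unfold LitT at *
  have h1 : (k ^^^ 1) / 2 = k / 2 := by
    rw [Nat.xor_div_two]; simp
  have h2 : (k ^^^ 1) % 2 = 0 ↔ ¬ k % 2 = 0 := by
    have := @Nat.xor_mod_two_eq_one k 1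
    omega
  rw [h1, h2]
  tauto

/-- a clause as a bit mask holds -/
def H (v : Nat → Prop) (m : Nat) : Prop := ∃ k, m.testBit k = true ∧ LitT v k

inductive Tr where
  | L (x : Nat) : Tr
  | N (l r : Tr) : Tr

noncomputable def Tr.get (g : Nat → Nat → Nat) (t : Tr) : Nat → Nat :=
  Tr.rec (motive := fun _ => Nat → Nat) (fun x j => g x j)
    (fun _ _ fl fr j => Nat.rec (motive := fun _ => Nat) (fl (Nat.shiftRight j 1))
      (fun _ _ => fr (Nat.shiftRight j 1)) (Nat.land j 1)) t

noncomputable def dec (B M fuel : Nat) : Nat → Nat :=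
  Nat.rec (motive := fun _ => Nat → Nat) (fun _ => 0)
    (fun _ ih c => Nat.rec (motive := fun _ => Nat) 0
      (fun k _ => Nat.lor (Nat.shiftLeft 1 k) (ih (Nat.shiftRight c B))) (Nat.land c M)) fuel

/-- table of clauses stored as bit masks of width `w` -/
noncomputable def clD (t : Tr) (w j : Nat) : Nat :=
  t.get (fun x i => Nat.mod (Nat.shiftRight x (Nat.mul i w)) (Nat.shiftLeft 1 w)) j

/-- table of clauses stored as lists of literals -/
noncomputable def clS (t : Tr) (B M j : Nat) : Nat :=
  dec B M 100000 (t.get (fun x i => Nat.shiftRight x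
    (Nat.land (Nat.shiftRight x (Nat.mul i 24)) 16777215)) j)

/-- the bit of the negated pivot -/
noncomputable def nb (M p : Nat) : Nat := Nat.shiftLeft 1 (Nat.xor (Nat.land p M) 1)

/-- the side clause with its pivot flipped out -/
noncomputable def cx (cl : Nat → Nat) (B M p : Nat) : Nat :=
  Nat.rec (motive := fun _ => Nat) 3
    (fun j _ => Nat.xor (cl j) (Nat.shiftLeft 1 (Nat.land p M))) (Nat.shiftRight p B)

/-- a chain of resolution steps -/
noncomputable def chain (f g : Nat → Nat) (base C : Nat) (K : Nat → Bool) (fuel : Nat) :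
    Nat → Nat → Bool :=
  Nat.rec (motive := fun _ => Nat → Nat → Bool) (fun _ _ => false)
    (fun _ ih R h =>
      Nat.rec (motive := fun _ => Bool)
        (Bool.rec (motive := fun _ => Bool) false (K (Nat.div h base)) (Nat.beq (Nat.lor R C) C))
        (fun p _ => ih (Nat.lor (Nat.xor R (f p)) (g p)) (Nat.div h base))
        (Nat.mod h base)) fuel

theorem H_three (v : Nat → Prop) : H v 3 := by
  by_cases h : v 0
  · exact ⟨0, by decide, by simp [LitT, h]⟩
  · exact ⟨1, by decide, by simp [LitT, h]⟩

theorem H_or_left {v : Nat → Prop} {a : Nat} (b : Nat) (h : H v a) : H v (a ||| b) := by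
  obtain ⟨k, hk, ht⟩ := h
  exact ⟨k, by rw [Nat.testBit_or, hk]; simp, ht⟩

theorem H_or_right {v : Nat → Prop} (a : Nat) {b : Nat} (h : H v b) : H v (a ||| b) := by
  obtain ⟨k, hk, ht⟩ := h
  exact ⟨k, by rw [Nat.testBit_or, hk]; simp, ht⟩

theorem H_xor {v : Nat → Prop} {a : Nat} (k : Nat) (h : H v a) (hk : ¬ LitT v k) :
    H v (a ^^^ (1 <<< k)) := by
  obtain ⟨l, hl, ht⟩ := h
  refine ⟨l, ?_, ht⟩
  have : k ≠ l := fun e => hk (e ▸ ht)
  rw [Nat.testBit_xor, hl, Nat.one_shiftLeft, Nat.testBit_two_pow]
  simp [this]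

theorem step_sound (v : Nat → Prop) (cl : Nat → Nat) (B M cur : Nat)
    (hc : ∀ i < cur, H v (cl i)) (R p : Nat) (hp : p < (cur + 1) <<< B) (hR : H v R) :
    H v (Nat.lor (Nat.xor R (nb M p)) (cx cl B M p)) := by
  have hj : Nat.shiftRight p B < cur + 1 := by
    show p >>> B < cur + 1
    rw [Nat.shiftRight_eq_div_pow]
    rw [Nat.shiftLeft_eq] at hp
    exact (Nat.div_lt_iff_lt_mul (Nat.two_pow_pos B)).mpr hp
  unfold cx
  generalize Nat.shiftRight p B = j at hj
  cases j with
  | zero => exact H_or_right _ (H_three v)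
  | succ j =>
    by_cases hk : LitT v (Nat.land p M)
    · exact H_or_left _ (H_xor _ hR (litT_xor v _ hk))
    · exact H_or_right _ (H_xor _ (hc j (by omega)) hk)

theorem chain_sound (v : Nat → Prop) (f g : Nat → Nat) (base C : Nat) (K : Nat → Bool)
    (hb : 0 < base)
    (hs : ∀ R p, p < base → H v R → H v (Nat.lor (Nat.xor R (f p)) (g p))) :
    ∀ (fuel R h : Nat), H v R → chain f g base C K fuel R h = true →
      H v C ∧ ∃ h', K h' = true := by
  intro fuel
  induction fuel with
  | zero => intro R h _ hr; exact absurd hr Bool.false_ne_true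
  | succ n ih =>
    intro R h hR hr
    have hr' : Nat.rec (motive := fun _ => Bool)
        (Bool.rec (motive := fun _ => Bool) false (K (Nat.div h base)) (Nat.beq (Nat.lor R C) C))
        (fun p _ => chain f g base C K n (Nat.lor (Nat.xor R (f p)) (g p)) (Nat.div h base))
        (Nat.mod h base) = true := hr
    have hlt : Nat.mod h base < base := Nat.mod_lt _ hb
    generalize Nat.mod h base = d at hr' hlt
    cases d with
    | zero =>
      have hr2 : Bool.rec (motive := fun _ => Bool) false (K (Nat.div h base))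
        (Nat.beq (Nat.lor R C) C) = true := hr'
      cases hq : Nat.beq (Nat.lor R C) C with
      | false => rw [hq] at hr2; exact absurd hr2 Bool.false_ne_true
      | true =>
        rw [hq] at hr2
        have e : R ||| C = C := Nat.eq_of_beq_eq_true hq
        exact ⟨e ▸ H_or_left _ hR, _, hr2⟩
    | succ p => exact ih _ _ (hs R p (by omega) hR) hr'

/-- checks the clauses packed in one word; the first argument after `fuel` is `cur + 1` -/
noncomputable def word (cl f g : Nat → Nat) (B : Nat) (K : Nat → Bool) (fuel : Nat) :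
    Nat → Nat → Bool :=
  Nat.rec (motive := fun _ => Nat → Nat → Bool) (fun _ _ => false)
    (fun _ ih c1 h => Nat.rec (motive := fun _ => Bool) false
      (fun cur _ => Nat.rec (motive := fun _ => Bool) (K (Nat.succ cur))
        (fun j _ => chain f g (Nat.shiftLeft (Nat.succ cur) B) (cl cur) (ih (Nat.add cur 2))
          10000000 (cl j) (Nat.div h (Nat.succ cur)))
        (Nat.mod h (Nat.succ cur))) c1) fuel

theorem word_sound (v : Nat → Prop) (cl : Nat → Nat) (B M : Nat) (K : Nat → Bool) :
    ∀ (fuel cur h : Nat), (∀ i < cur, H v (cl i)) →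
      word cl (nb M) (cx cl B M) B K fuel (Nat.succ cur) h = true →
      ∃ cur', (∀ i < cur', H v (cl i)) ∧ K (Nat.succ cur') = true := by
  intro fuel
  induction fuel with
  | zero => intro cur h _ hr; exact absurd hr Bool.false_ne_true
  | succ n ih =>
    intro cur h hc hr
    have hr' : Nat.rec (motive := fun _ => Bool) (K (Nat.succ cur))
        (fun j _ => chain (nb M) (cx cl B M) (Nat.shiftLeft (Nat.succ cur) B) (cl cur)
          (word cl (nb M) (cx cl B M) B K n (Nat.add cur 2))
          10000000 (cl j) (Nat.div h (Nat.succ cur)))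
        (Nat.mod h (Nat.succ cur)) = true := hr
    have hlt : Nat.mod h (Nat.succ cur) < Nat.succ cur := Nat.mod_lt _ (Nat.succ_pos _)
    generalize Nat.mod h (Nat.succ cur) = d at hr' hlt
    cases d with
    | zero => exact ⟨cur, hc, hr'⟩
    | succ j =>
      have hb : 0 < Nat.shiftLeft (Nat.succ cur) B := by
        show 0 < (cur + 1) <<< B
        rw [Nat.shiftLeft_eq]
        exact Nat.mul_pos (Nat.succ_pos _) (Nat.two_pow_pos B)
      obtain ⟨h1, h', h2⟩ := chain_sound v _ _ _ _ _ hb
        (fun R p hp hR => step_sound v cl B M cur hc R p hp hR) _ _ _ (hc j (by omega)) hr'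
      refine ih (cur + 1) h' ?_ h2
      intro i hi
      rcases Nat.lt_succ_iff_lt_or_eq.mp hi with h3 | h3
      · exact hc i h3
      · exact h3 ▸ h1

/-- checks the clauses `lo, lo + 1, …, hi - 1`; the last argument is `lo + 1` -/
noncomputable def chunk (cl : Nat → Nat) (B M hi : Nat) (hs : List Nat) : Nat → Bool :=
  List.rec (motive := fun _ => Nat → Bool) (fun c1 => Nat.beq c1 (Nat.succ hi))
    (fun h _ ih c1 => word cl (nb M) (cx cl B M) B ih 10000000 c1 h) hs

theorem chunk_sound (v : Nat → Prop) (cl : Nat → Nat) (B M hi : Nat) :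
    ∀ (hs : List Nat) (lo : Nat), chunk cl B M hi hs (Nat.succ lo) = true →
      (∀ i < lo, H v (cl i)) → ∀ i < hi, H v (cl i) := by
  intro hs
  induction hs with
  | nil =>
    intro lo h hl
    have : Nat.succ lo = Nat.succ hi := Nat.eq_of_beq_eq_true h
    have : lo = hi := by omega
    exact this ▸ hl
  | cons h t ih =>
    intro lo hh hl
    obtain ⟨c, h1, h2⟩ := word_sound v cl B M (chunk cl B M hi t) 10000000 lo h hl hh
    exact ih c h2 h1

noncomputable def maskOf (c : List Nat) : Nat :=
  List.rec (motive := fun _ => Nat) 0 (fun l _ ih => Nat.lor (Nat.shiftLeft 1 l) ih) c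

theorem maskOf_sound (v : Nat → Prop) : ∀ c : List Nat, (∃ l ∈ c, LitT v l) → H v (maskOf c) := by
  intro c
  induction c with
  | nil => rintro ⟨l, hl, _⟩; simp at hl
  | cons a t ih =>
    rintro ⟨l, hl, hlt⟩
    have e : maskOf (a :: t) = (1 <<< a) ||| maskOf t := rfl
    rcases List.mem_cons.mp hl with h1 | h1
    · subst h1
      exact ⟨l, by rw [e, Nat.testBit_or, Nat.one_shiftLeft, Nat.testBit_two_pow]; simp, hlt⟩
    · obtain ⟨k, hk, hkt⟩ := ih ⟨l, h1, hlt⟩
      exact ⟨k, by rw [e, Nat.testBit_or, hk]; simp, hkt⟩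

/-- the clauses of `F` are the clauses `lo, …, hi - 1` of the table; the last argument is `lo + 1` -/
noncomputable def start (cl : Nat → Nat) (hi : Nat) (F : List (List Nat)) : Nat → Bool :=
  List.rec (motive := fun _ => Nat → Bool) (fun c1 => Nat.beq c1 (Nat.succ hi))
    (fun c _ ih c1 => Nat.rec (motive := fun _ => Bool) false
      (fun cur _ => Bool.rec (motive := fun _ => Bool) false (ih (Nat.add cur 2))
        (Nat.beq (maskOf c) (cl cur))) c1) F

theorem start_sound (v : Nat → Prop) (cl : Nat → Nat) (hi : Nat) :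
    ∀ (F : List (List Nat)) (lo : Nat), start cl hi F (Nat.succ lo) = true → Models v F →
      (∀ i < lo, H v (cl i)) → ∀ i < hi, H v (cl i) := by
  intro F
  induction F with
  | nil =>
    intro lo h _ hl
    have : Nat.succ lo = Nat.succ hi := Nat.eq_of_beq_eq_true h
    have : lo = hi := by omega
    exact this ▸ hl
  | cons c t ih =>
    intro lo hh hs hl
    have hh' : Bool.rec (motive := fun _ => Bool) false (start cl hi t (Nat.add lo 2))
        (Nat.beq (maskOf c) (cl lo)) = true := hh
    cases hb : Nat.beq (maskOf c) (cl lo) with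
    | false => rw [hb] at hh'; exact absurd hh' Bool.false_ne_true
    | true =>
      rw [hb] at hh'
      refine ih (lo + 1) hh' (fun d hd => hs d (List.mem_cons_of_mem _ hd)) ?_
      intro i hi'
      rcases Nat.lt_succ_iff_lt_or_eq.mp hi' with h1 | h1
      · exact hl i h1
      · subst h1
        rw [← Nat.eq_of_beq_eq_true hb]
        exact maskOf_sound v c (hs c List.mem_cons_self)

theorem base (v : Nat → Prop) (cl : Nat → Nat) : ∀ i < 0, H v (cl i) :=
  fun _ h => absurd h (Nat.not_lt_zero _)

theorem finish (v : Nat → Prop) (cl : Nat → Nat) (m : Nat) (h0 : Nat.beq (cl m) 0 = true)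
    (h : ∀ i < Nat.succ m, H v (cl i)) : False := by
  obtain ⟨k, hk, _⟩ := h m (Nat.lt_succ_self m)
  rw [Nat.eq_of_beq_eq_true h0] at hk
  simp at hk

end Pool.Agent.Lead.Sat
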