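import Mathlib

/-! Analytic part: near a grid configuration, eight points carry a pencil of cubics with a ninth
base point. -/

namespace Pool.Agent.Lead.Cub

open Filter Topology

noncomputable def cub (a : Fin 10 → ℂ) (v : Fin 3 → ℂ) : ℂ :=
  a 0 * v 0 ^ 3 + a 1 * (v 0 ^ 2 * v 1) + a 2 * (v 0 * v 1 ^ 2) + a 3 * v 1 ^ 3
    + a 4 * (v 0 ^ 2 * v 2) + a 5 * (v 0 * v 1 * v 2) + a 6 * (v 1 ^ 2 * v 2)
    + a 7 * (v 0 * v 2 ^ 2) + a 8 * (v 1 * v 2 ^ 2) + a 9 * v 2 ^ 3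

noncomputable def cubX (a : Fin 10 → ℂ) (v : Fin 3 → ℂ) : ℂ :=
  3 * a 0 * v 0 ^ 2 + 2 * a 1 * (v 0 * v 1) + a 2 * v 1 ^ 2
    + 2 * a 4 * (v 0 * v 2) + a 5 * (v 1 * v 2) + a 7 * v 2 ^ 2

abbrev E := (Fin 11 → Fin 3 → ℂ) × (Fin 10 → ℂ) × (Fin 10 → ℂ) × (Fin 3 → ℂ)
abbrev T := (Fin 11 → Fin 3 → ℂ) × (Fin 8 → ℂ) × (Fin 8 → ℂ) × ℂ × ℂ

def io (i : Fin 8) : Fin 11 := ⟨i.1, by omega⟩
def ka (j : Fin 3) : Fin 11 := ⟨8 + j.1, by omega⟩

noncomputable def f (e : E) : T :=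
  (e.1, fun i => cub e.2.1 (e.1 (io i)), fun i => cub e.2.2.1 (e.1 (io i)),
    cub e.2.1 e.2.2.2, cub e.2.2.1 e.2.2.2)

noncomputable def p0 : Fin 11 → Fin 3 → ℂ :=
  ![![-1, -1, 1], ![-1, 0, 1], ![-1, 1, 1], ![0, -1, 1], ![0, 1, 1], ![1, -1, 1], ![1, 0, 1],
    ![1, 1, 1], ![2, 2, 1], ![2, 3, 1], ![3, 2, 1]]
noncomputable def a0 : Fin 10 → ℂ := ![1, 0, 0, 0, 0, 0, 0, -1, 0, 0]
noncomputable def b0 : Fin 10 → ℂ := ![0, 0, 0, 1, 0, 0, 0, 0, -1, 0]
noncomputable def x0 : Fin 3 → ℂ := ![0, 0, 1]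
noncomputable def e0 : E := (p0, a0, b0, x0)

lemma cub_contDiff {X : Type} [NormedAddCommGroup X] [NormedSpace ℂ X] {a : X → Fin 10 → ℂ}
    {v : X → Fin 3 → ℂ} (ha : ContDiff ℂ 1 a) (hv : ContDiff ℂ 1 v) :
    ContDiff ℂ 1 (fun e => cub (a e) (v e)) := by
  unfold cub
  have ha' : ∀ k, ContDiff ℂ 1 (fun e => a e k) := fun k => contDiff_pi.1 ha k
  have hv' : ∀ k, ContDiff ℂ 1 (fun e => v e k) := fun k => contDiff_pi.1 hv k
  have := ha' 0; have := ha' 1; have := ha' 2; have := ha' 3; have := ha' 4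
  have := ha' 5; have := ha' 6; have := ha' 7; have := ha' 8; have := ha' 9
  have := hv' 0; have := hv' 1; have := hv' 2
  fun_prop

lemma f_contDiff : ContDiff ℂ 1 f := by
  unfold f
  refine ContDiff.prodMk (by fun_prop) (ContDiff.prodMk ?_ (ContDiff.prodMk ?_
    (ContDiff.prodMk ?_ ?_)))
  · exact contDiff_pi.2 fun i => cub_contDiff (by fun_prop) (by fun_prop)
  · exact contDiff_pi.2 fun i => cub_contDiff (by fun_prop) (by fun_prop)
  · exact cub_contDiff (by fun_prop) (by fun_prop)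
  · exact cub_contDiff (by fun_prop) (by fun_prop)

lemma dir {D : E →L[ℂ] T} (hf : HasFDerivAt f D e0) (δ : E) (c y z : T)
    (h : ∀ t : ℂ, f (e0 + t • δ) = c + t • y + t ^ 3 • z) : D δ = y := by
  have h1 : HasDerivAt (fun t : ℂ => e0 + t • δ) δ 0 := by
    simpa using ((hasDerivAt_id (0 : ℂ)).smul_const δ).const_add e0
  have h2 : HasDerivAt (fun t : ℂ => f (e0 + t • δ)) (D δ) 0 := by
    have hf' : HasFDerivAt f D (e0 + (0 : ℂ) • δ) := by simpa using hf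
    exact hf'.comp_hasDerivAt (0 : ℂ) h1
  have h3 : HasDerivAt (fun t : ℂ => c + t • y + t ^ 3 • z) y 0 := by
    have a1 := ((hasDerivAt_id (0 : ℂ)).smul_const y).const_add c
    have a2 := ((hasDerivAt_pow 3 (0 : ℂ)).smul_const z)
    have a3 := a1.fun_add a2
    simpa using a3
  have : (fun t : ℂ => f (e0 + t • δ)) = fun t : ℂ => c + t • y + t ^ 3 • z := funext h
  rw [this] at h2
  exact h2.unique h3

lemma cub_add_smul (a d : Fin 10 → ℂ) (t : ℂ) (v : Fin 3 → ℂ) :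
    cub (a + t • d) v = cub a v + t * cub d v := by
  simp [cub]; ring

lemma f_e0 : f e0 = (p0, 0, 0, 0, 0) := by
  simp only [f, e0, Prod.mk.injEq, true_and]
  refine ⟨?_, ?_, ?_, ?_⟩
  · funext i; fin_cases i <;> simp [cub, a0, p0, io] <;> norm_num
  · funext i; fin_cases i <;> simp [cub, b0, p0, io] <;> norm_num
  · simp [cub, a0, x0]
  · simp [cub, b0, x0]

noncomputable def interp (y : Fin 8 → ℂ) : Fin 10 → ℂ :=
  ![0,
    ((-1) * y 0 + (1) * y 2 + (2) * y 3 + (-2) * y 4 + (-1) * y 5 + (1) * y 7) / 4,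
    ((-1) * y 0 + (2) * y 1 + (-1) * y 2 + (1) * y 5 + (-2) * y 6 + (1) * y 7) / 4,
    0,
    ((1) * y 0 + (1) * y 2 + (-2) * y 3 + (-2) * y 4 + (1) * y 5 + (1) * y 7) / 4,
    ((1) * y 0 + (-1) * y 2 + (-1) * y 5 + (1) * y 7) / 4,
    ((1) * y 0 + (-2) * y 1 + (1) * y 2 + (1) * y 5 + (-2) * y 6 + (1) * y 7) / 4,
    ((-2) * y 1 + (2) * y 6) / 4,
    ((-2) * y 3 + (2) * y 4) / 4,
    ((-1) * y 0 + (2) * y 1 + (-1) * y 2 + (2) * y 3 + (2) * y 4 + (-1) * y 5 + (2) * y 6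
      + (-1) * y 7) / 4]

lemma interp_spec (y : Fin 8 → ℂ) : (fun i => cub (interp y) (p0 (io i))) = y := by
  funext i
  fin_cases i <;> simp [cub, interp, p0, io] <;> ring

lemma surj {D : E →L[ℂ] T} (hf : HasFDerivAt f D e0) : D.range = ⊤ := by
  have hfst : ∀ δ : E, (D δ).1 = δ.1 := by
    have h1 : HasFDerivAt (fun e => (f e).1) ((ContinuousLinearMap.fst ℂ _ _).comp D) e0 :=
      hf.fst
    have h2 : HasFDerivAt (fun e : E => (f e).1) (ContinuousLinearMap.fst ℂ _ _) e0 :=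
      hasFDerivAt_fst
    intro δ
    have := congrArg (fun L => L δ) (h1.unique h2)
    simpa using this
  have hA : ∀ d : Fin 10 → ℂ, D (0, d, 0, 0)
      = (0, fun i => cub d (p0 (io i)), 0, cub d x0, 0) := by
    intro d
    refine dir hf _ (f e0) _ 0 fun t => ?_
    simp only [f, e0, Prod.smul_mk, Prod.mk_add_mk, smul_zero, add_zero, cub_add_smul,
      Prod.mk.injEq, smul_eq_mul, mul_zero, true_and, and_true]
    funext i; simp
  have hB : ∀ d : Fin 10 → ℂ, D (0, 0, d, 0)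
      = (0, 0, fun i => cub d (p0 (io i)), 0, cub d x0) := by
    intro d
    refine dir hf _ (f e0) _ 0 fun t => ?_
    simp only [f, e0, Prod.smul_mk, Prod.mk_add_mk, smul_zero, add_zero, cub_add_smul,
      Prod.mk.injEq, smul_eq_mul, mul_zero, true_and, and_true]
    funext i; simp
  have hX : ∀ u v : ℂ, D (0, 0, 0, ![u, v, 0]) = (0, 0, 0, -u, -v) := by
    intro u v
    refine dir hf _ (f e0) _ (0, 0, 0, u ^ 3, v ^ 3) fun t => ?_
    simp only [f, e0, Prod.smul_mk, Prod.mk_add_mk, smul_zero, add_zero,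
      Prod.mk.injEq, smul_eq_mul, true_and]
    constructor
    · simp [cub, a0, x0]; ring
    · simp [cub, b0, x0]; ring
  rw [LinearMap.range_eq_top]
  intro y
  set r : T := y - D (y.1, 0, 0, 0) with hr
  have hr1 : r.1 = 0 := by simp [hr, hfst]
  refine ⟨(y.1, 0, 0, 0) + (0, interp r.2.1, 0, 0) + (0, 0, interp r.2.2.1, 0)
    + (0, 0, 0, ![cub (interp r.2.1) x0 - r.2.2.2.1, cub (interp r.2.2.1) x0 - r.2.2.2.2, 0]), ?_⟩
  change D _ = y
  rw [map_add, map_add, map_add, hA, hB, hX, interp_spec, interp_spec]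
  have : y = D (y.1, 0, 0, 0) + r := by simp [hr]
  rw [add_assoc, add_assoc]
  conv_rhs => rw [this]
  congr 1
  obtain ⟨r1, r2, r3, r4, r5⟩ := r
  simp only at hr1
  subst hr1
  simp

lemma map_f : map f (𝓝 e0) = 𝓝 (p0, 0, 0, 0, 0) := by
  have h := (f_contDiff.contDiffAt (x := e0)).hasStrictFDerivAt one_ne_zero
  rw [← f_e0]
  exact h.map_nhds_eq_of_surj (surj h.hasFDerivAt)

lemma near {S : Set E} (hS : S ∈ 𝓝 e0) :
    {p : Fin 11 → Fin 3 → ℂ | ∃ e ∈ S, f e = (p, 0, 0, 0, 0)} ∈ 𝓝 p0 := by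
  have h1 : f '' S ∈ 𝓝 ((p0, 0, 0, 0, 0) : T) := by
    rw [← map_f]; exact image_mem_map hS
  have h2 : Continuous (fun p : Fin 11 → Fin 3 → ℂ => ((p, 0, 0, 0, 0) : T)) := by fun_prop
  exact h2.continuousAt.preimage_mem_nhds h1

lemma baire {U : Set (Fin 11 → Fin 3 → ℂ)} {q : Fin 11 → Fin 3 → ℂ} (hU : U ∈ 𝓝 q)
    (G : ℕ → MvPolynomial (Fin 11 × Fin 3) ℂ) (hG : ∀ k, G k ≠ 0) :
    ∃ p ∈ U, ∀ k, MvPolynomial.eval (fun ij => p ij.1 ij.2) (G k) ≠ 0 := by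
  have han : ∀ k, AnalyticOnNhd ℂ (fun p : Fin 11 → Fin 3 → ℂ =>
      MvPolynomial.eval (fun ij : Fin 11 × Fin 3 => p ij.1 ij.2) (G k)) Set.univ := by
    intro k
    exact AnalyticOnNhd.eval_linearMap' (𝕜 := ℂ) (E := Fin 11 → Fin 3 → ℂ)
      (fun ij : Fin 11 × Fin 3 =>
        (LinearMap.proj ij.2 : (Fin 3 → ℂ) →ₗ[ℂ] ℂ).comp (LinearMap.proj ij.1)) (G k)
  have hd : Dense (⋂ k, {p : Fin 11 → Fin 3 → ℂ |
      MvPolynomial.eval (fun ij : Fin 11 × Fin 3 => p ij.1 ij.2) (G k) ≠ 0}) := by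
    refine dense_iInter_of_isOpen (fun k => ?_) (fun k => ?_)
    · exact isOpen_ne_fun (continuousOn_univ.1 (han k).continuousOn) continuous_const
    · intro z
      by_contra hz
      rw [mem_closure_iff_frequently, not_frequently] at hz
      have h0 : (fun p : Fin 11 → Fin 3 → ℂ =>
          MvPolynomial.eval (fun ij : Fin 11 × Fin 3 => p ij.1 ij.2) (G k)) = fun _ => 0 := by
        refine AnalyticOnNhd.eq_of_eventuallyEq (han k) analyticOnNhd_const (z₀ := z) ?_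
        filter_upwards [hz] with p hp
        simpa using hp
      apply hG k
      refine MvPolynomial.funext fun x => ?_
      have := congrFun h0 (fun i j => x (i, j))
      simpa using this
  obtain ⟨p, hp1, hp2⟩ := hd.inter_nhds_nonempty hU
  exact ⟨p, hp2, fun k => (Set.mem_iInter.1 hp1) k⟩

end Pool.Agent.Lead.Cub
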