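import Mathlib

set_option autoImplicit false

namespace Pool.Agent.Lead.Fpp11

def dn (b : ℕ) : ℕ := [1, 2, 4, 8, 25, 37, 74, 134, 462, 703, 1151].getD b 0

def up (a : ℕ) : ℕ := [1585, 1986, 1956, 1880, 1552, 1568, 1344, 896, 256, 512, 1024].getD a 0

def pc (d : ℕ) : ℕ := ((List.range 11).filter fun i => d.testBit i).length

def pick (p : ℕ × ℕ) (L : List (ℕ × ℕ)) : ℕ × ℕ :=
  L.foldl (fun a b => if pc b.2 < pc a.2 then b else a) p

def upd (x v : ℕ) (p : ℕ × ℕ) : ℕ × ℕ :=
  (p.1, if (dn x).testBit p.1 then p.2 &&& dn v else if (dn p.1).testBit x then p.2 &&& up v else p.2)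

def search : ℕ → List (ℕ × ℕ) → Bool
  | 0, _ => false
  | _ + 1, [] => false
  | n + 1, p :: L =>
    (List.range 11).all fun v => !((pick p L).2.testBit v) ||
      ((((p :: L).filter fun r => r.1 != (pick p L).1).map (upd (pick p L).1 v)).any
          (fun r => r.2 == 0) ||
        search n (((p :: L).filter fun r => r.1 != (pick p L).1).map (upd (pick p L).1 v)))

def init : List (ℕ × ℕ) := (List.range 11).map fun x => (x, (2 ^ 11 - 1) ^^^ (dn x ||| up x))

lemma search_init : search 12 init = true := by decide +kernel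

lemma pick_mem (L : List (ℕ × ℕ)) : ∀ p, pick p L ∈ p :: L := by
  induction L with
  | nil => intro p; simp [pick]
  | cons b L ih =>
    intro p
    have e : pick p (b :: L) = pick (if pc b.2 < pc p.2 then b else p) L := rfl
    rw [e]
    have := ih (if pc b.2 < pc p.2 then b else p)
    split_ifs at this ⊢ <;> simp only [List.mem_cons] at this ⊢ <;> tauto

lemma dn_up : ∀ a < 11, ∀ b < 11, (dn b).testBit a = (up a).testBit b := by decide +kernel

lemma sound (f : ℕ → ℕ) (hlt : ∀ x, f x < 11)
    (hm : ∀ a < 11, ∀ b < 11, (dn b).testBit a = true → (dn (f b)).testBit (f a) = true) (n : ℕ) :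
    ∀ L, (∀ p ∈ L, p.1 < 11 ∧ p.2.testBit (f p.1) = true) → search n L = false := by
  induction n with
  | zero => intro L _; rfl
  | succ n ih =>
    intro L hL
    rcases L with _ | ⟨p, L⟩
    · rfl
    obtain ⟨h1, h2⟩ := hL _ (pick_mem L p)
    have key : ∀ r ∈ (((p :: L).filter fun r => r.1 != (pick p L).1).map
        (upd (pick p L).1 (f (pick p L).1))), r.1 < 11 ∧ r.2.testBit (f r.1) = true := by
      intro r hr
      obtain ⟨s, hs, rfl⟩ := List.mem_map.1 hr
      obtain ⟨h3, h4⟩ := hL s (List.mem_filter.1 hs).1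
      refine ⟨h3, ?_⟩
      simp only [upd]
      split_ifs with c1 c2
      · rw [Nat.testBit_and, h4, hm _ h3 _ h1 c1]; rfl
      · rw [Nat.testBit_and, h4, ← dn_up _ (hlt _) _ (hlt _), hm _ h1 _ h3 c2]; rfl
      · exact h4
    rw [search, List.all_eq_false]
    refine ⟨f (pick p L).1, List.mem_range.2 (hlt _), ?_⟩
    rw [h2, ih _ key]
    simp only [Bool.not_true, Bool.or_false, Bool.false_or, Bool.not_eq_true, List.any_eq_false,
      beq_iff_eq]
    intro r hr h0
    have := (key r hr).2
    rw [h0] at this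
    simp at this

def X : Type := Fin 11

instance : Fintype X := inferInstanceAs (Fintype (Fin 11))
instance : DecidableEq X := inferInstanceAs (DecidableEq (Fin 11))

def leX (a b : Fin 11) : Prop := (dn b.1).testBit a.1 = true

instance (a b : Fin 11) : Decidable (leX a b) := by unfold leX; infer_instance

instance : PartialOrder X where
  le := leX
  le_refl := by show ∀ a : Fin 11, leX a a; decide +kernel
  le_trans := by show ∀ a b c : Fin 11, leX a b → leX b c → leX a c; decide +kernel
  le_antisymm := by show ∀ a b : Fin 11, leX a b → leX b a → a = b; decide +kernel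

lemma init_ok : ∀ x < 11, ∀ v < 11, (dn v).testBit x = false → (dn x).testBit v = false →
    ((2 ^ 11 - 1) ^^^ (dn x ||| up x)).testBit v = true := by decide +kernel

lemma fpp (f : X →o X) : ∃ x, f x = x := by
  by_contra hc
  push Not at hc
  have h1 : ∀ x, ¬ x ≤ f x := by
    intro x hx
    obtain ⟨y, -, hy⟩ := (Set.toFinite {y | y ≤ f y}).exists_le_maximal hx
    exact hc y (le_antisymm (hy.2 (f.mono hy.1) hy.1) hy.1)
  have h2 : ∀ x, ¬ f x ≤ x := by
    intro x hx
    obtain ⟨y, -, hy⟩ := (Set.toFinite {y | f y ≤ y}).exists_le_minimal hx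
    exact hc y (le_antisymm hy.1 (hy.2 (f.mono hy.1) hy.1))
  let F : Fin 11 → Fin 11 := f
  let g : ℕ → ℕ := fun n => if h : n < 11 then (F ⟨n, h⟩).1 else 0
  have hg : ∀ n (h : n < 11), g n = (F ⟨n, h⟩).1 := fun n h => dif_pos h
  have hlt : ∀ x, g x < 11 := by
    intro x
    by_cases h : x < 11
    · rw [hg x h]; exact (F _).2
    · simp [g, h]
  have := sound g hlt (fun a ha b hb h => by
    rw [hg a ha, hg b hb]
    exact f.mono (a := (⟨a, ha⟩ : Fin 11)) (b := (⟨b, hb⟩ : Fin 11)) (show leX ⟨a, ha⟩ ⟨b, hb⟩ from h)) 12 init (by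
    intro p hp
    obtain ⟨x, hx, rfl⟩ := List.mem_map.1 hp
    have hx := List.mem_range.1 hx
    refine ⟨hx, init_ok x hx _ (hlt x) ?_ ?_⟩
    · rw [hg x hx]
      exact Bool.eq_false_iff.2 (h1 ⟨x, hx⟩)
    · rw [hg x hx]
      exact Bool.eq_false_iff.2 (h2 ⟨x, hx⟩))
  rw [search_init] at this
  exact Bool.noConfusion this


end Pool.Agent.Lead.Fpp11
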