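import Mathlib

open Finset Function FreeGroup

namespace Pool.Agent.Lead.FreeSph

variable {α : Type} [DecidableEq α]

/-- inverse letter -/
def bar (c : α × Bool) : α × Bool := (c.1, !c.2)

omit [DecidableEq α] in
@[simp] lemma bar_bar (c : α × Bool) : bar (bar c) = c := by simp [bar]

omit [DecidableEq α] in
lemma rel_iff (a b : α × Bool) : (a.1 = b.1 → a.2 = b.2) ↔ b ≠ bar a := by
  obtain ⟨a1, a2⟩ := a
  obtain ⟨b1, b2⟩ := b
  simp only [bar, ne_eq, Prod.mk.injEq, not_and]
  constructor
  · intro h h1 h2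
    have := h h1.symm
    subst this
    cases a2 <;> simp at h2
  · intro h h1
    have := h h1.symm
    cases a2 <;> cases b2 <;> simp_all

omit [DecidableEq α] in
lemma invRev_single (c : α × Bool) : invRev [c] = [bar c] := by simp [invRev, bar]

/-- cone of a word -/
def Cone (w : List (α × Bool)) : Set (FreeGroup α) := {g | w <+: g.toWord}

lemma cone_mul {v : List (α × Bool)} {y : α × Bool} (hv : IsReduced (v ++ [y])) {h : FreeGroup α}
    (hh : h ∈ Cone [y]) : mk v * h ∈ Cone (v ++ [y]) := by
  obtain ⟨t, ht⟩ := hh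
  have h1 : IsReduced ([y] ++ t) := ht ▸ isReduced_toWord
  have h2 : IsReduced (v ++ [y] ++ t) := hv.append_overlap h1 (by simp)
  have h3 : mk v * h = mk (v ++ [y] ++ t) := by
    rw [← mk_toWord (x := h), ← ht, mul_mk, List.append_assoc]
  show v ++ [y] <+: (mk v * h).toWord
  rw [h3, toWord_mk, h2.reduce_eq]
  exact List.prefix_append _ _

lemma cone_letter {x : α × Bool} {h : FreeGroup α} (hh : h ∉ Cone [bar x]) :
    mk [x] * h ∈ Cone [x] := by
  have h2 : IsReduced ([x] ++ h.toWord) := by
    have h1 : IsReduced h.toWord := isReduced_toWord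
    cases hw : h.toWord with
    | nil => simp
    | cons y t =>
      rw [hw] at h1
      simp only [List.singleton_append, isReduced_cons_cons]
      refine ⟨(rel_iff _ _).2 ?_, h1⟩
      rintro rfl
      exact hh ⟨t, by simp [hw]⟩
  have h3 : mk [x] * h = mk ([x] ++ h.toWord) := by
    rw [← mul_mk, mk_toWord]
  show [x] <+: (mk [x] * h).toWord
  rw [h3, toWord_mk, h2.reduce_eq]
  exact List.prefix_append _ _

lemma cone_step {u v : List (α × Bool)} {x : α × Bool} (hu : IsReduced (u ++ [x]))
    (hv : IsReduced (v ++ [bar x])) {g : FreeGroup α} (hg : g ∉ Cone (v ++ [bar x])) :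
    mk u * mk [x] * (mk v)⁻¹ * g ∈ Cone (u ++ [x]) := by
  have h1 : (mk v)⁻¹ * g ∉ Cone [bar x] := by
    intro h
    have := cone_mul hv h
    simp only [mul_inv_cancel_left] at this
    exact hg this
  have := cone_mul hu (cone_letter h1)
  rw [mul_assoc, mul_assoc]
  exact this

/-- Ping-pong with a base point. -/
lemma pingpong {ι G : Type} [Group G] (a : ι → G) (X : ι × Bool → Set G)
    (h1 : ∀ c, (1 : G) ∉ X c) (hd : ∀ c d g, g ∈ X c → g ∈ X d → c = d)
    (ht : ∀ i g, g ∉ X (i, false) → a i * g ∈ X (i, true))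
    (hf : ∀ i g, g ∉ X (i, true) → (a i)⁻¹ * g ∈ X (i, false)) : Injective (FreeGroup.lift a) := by
  classical
  have step : ∀ (c : ι × Bool) (g : G), g ∉ X (bar c) →
      (FreeGroup.lift a) (mk [c]) * g ∈ X c := by
    rintro ⟨i, b⟩ g hg
    cases b
    · simpa using hf i g hg
    · simpa using ht i g hg
  have key : ∀ (t : List (ι × Bool)) (c : ι × Bool), IsReduced (c :: t) →
      (FreeGroup.lift a) (mk (c :: t)) ∈ X c := by
    intro t
    induction t with
    | nil => intro c _; simpa using step c 1 (h1 _)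
    | cons d t ih =>
      intro c h
      rw [isReduced_cons_cons] at h
      have h2 := ih d h.2
      have h3 : mk (c :: d :: t) = mk [c] * mk (d :: t) := by rw [mul_mk]; rfl
      rw [h3, _root_.map_mul]
      refine step c _ fun h4 => ?_
      exact (rel_iff _ _).1 h.1 (hd _ _ _ h2 h4)
  rw [injective_iff_map_eq_one]
  intro w hw
  cases hw' : w.toWord with
  | nil => exact toWord_eq_nil_iff.1 hw'
  | cons c t =>
    have := key t c (hw' ▸ isReduced_toWord)
    rw [← hw', mk_toWord, hw] at this
    exact absurd this (h1 _)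

lemma free_of_words {ι : Type} (U V : ι → List (α × Bool)) (x : ι → α × Bool)
    (hU : ∀ i, IsReduced (U i ++ [x i])) (hV : ∀ i, IsReduced (V i ++ [bar (x i)]))
    (hUU : ∀ i j w, U i ++ [x i] <+: w → U j ++ [x j] <+: w → i = j)
    (hVV : ∀ i j w, V i ++ [bar (x i)] <+: w → V j ++ [bar (x j)] <+: w → i = j)
    (hUV : ∀ i j w, U i ++ [x i] <+: w → V j ++ [bar (x j)] <+: w → False) :
    Injective (FreeGroup.lift fun i => mk (U i) * mk [x i] * (mk (V i))⁻¹) := by
  refine pingpong _ (fun c => if c.2 then Cone (U c.1 ++ [x c.1]) else Cone (V c.1 ++ [bar (x c.1)]))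
    ?_ ?_ ?_ ?_
  · rintro ⟨i, b⟩
    cases b <;> simp [Cone]
  · rintro ⟨i, b⟩ ⟨j, b'⟩ g h1 h2
    cases b <;> cases b'
    · rw [hVV i j _ h1 h2]
    · exact (hUV j i _ h2 h1).elim
    · exact (hUV i j _ h1 h2).elim
    · rw [hUU i j _ h1 h2]
  · intro i g hg
    exact cone_step (hU i) (hV i) hg
  · intro i g hg
    have := cone_step (x := bar (x i)) (hV i) (by simpa using hU i) (g := g) (by simpa using hg)
    have e : (mk (U i) * mk [x i] * (mk (V i))⁻¹)⁻¹ = mk (V i) * mk [bar (x i)] * (mk (U i))⁻¹ := by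
      rw [← invRev_single, ← inv_mk]; group
    rw [e]
    exact this

lemma transfer {ι G : Type} [Group G] [Fintype ι] (a : ι → G) (h : Injective (FreeGroup.lift a)) :
    ∃ A : Finset G, A.card = Fintype.card ι ∧ (∀ g ∈ A, ∃ i, a i = g) ∧
      Injective (FreeGroup.lift fun x : A => (x : G)) := by
  classical
  have ha : Injective a := by
    intro i j hij
    apply FreeGroup.of_injective
    apply h
    simpa using hij
  have hex : ∀ g : (univ.image a : Finset G), ∃ i, a i = g := fun g => by
    obtain ⟨i, -, hi⟩ := mem_image.1 g.2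
    exact ⟨i, hi⟩
  choose e he using hex
  refine ⟨univ.image a, by rw [card_image_of_injective _ ha, card_univ], fun g hg => by simpa using hg, ?_⟩
  have : (FreeGroup.lift fun x : (univ.image a : Finset G) => (x : G))
      = (FreeGroup.lift a).comp (FreeGroup.map e) := by
    ext x; simp [he]
  rw [this]
  refine h.comp (FreeGroup.map_injective ?_)
  intro x y hxy
  apply Subtype.ext
  rw [← he, ← he, hxy]

variable [Fintype α]

/-- reduced words of length `j+1` with first letter `c` -/
def R : ℕ → α × Bool → Finset (List (α × Bool))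
  | 0, c => {[c]}
  | j + 1, c => (univ.erase (bar c)).biUnion fun d => (R j d).image (c :: ·)

lemma mem_R : ∀ (j : ℕ) (c : α × Bool) (w : List (α × Bool)),
    w ∈ R j c ↔ ∃ t, w = c :: t ∧ t.length = j ∧ IsReduced (c :: t)
  | 0, c, w => by
    simp only [R, mem_singleton, List.length_eq_zero_iff]
    constructor
    · rintro rfl; exact ⟨[], rfl, rfl, by simp⟩
    · rintro ⟨t, rfl, rfl, -⟩; rfl
  | j + 1, c, w => by
    simp only [R, mem_biUnion, mem_erase, mem_univ, and_true, mem_image, mem_R j]
    constructor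
    · rintro ⟨d, hd, _, ⟨t, rfl, h1, h2⟩, rfl⟩
      exact ⟨d :: t, rfl, by simp [h1], isReduced_cons_cons.2 ⟨(rel_iff _ _).2 hd, h2⟩⟩
    · rintro ⟨t, rfl, h1, h2⟩
      cases t with
      | nil => simp at h1
      | cons d t =>
        rw [isReduced_cons_cons] at h2
        exact ⟨d, (rel_iff _ _).1 h2.1, _, ⟨t, rfl, by simpa using h1, h2.2⟩, rfl⟩

lemma card_R : ∀ (j : ℕ) (c : α × Bool), (R j c).card = (2 * Fintype.card α - 1) ^ j
  | 0, c => by simp [R]
  | j + 1, c => by
    rw [R, card_biUnion]
    · rw [Finset.sum_congr rfl (g := fun _ => (2 * Fintype.card α - 1) ^ j)]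
      · simp [pow_succ, mul_comm]
      · intro d _
        rw [card_image_of_injective _ (List.cons_injective), card_R j d]
    · intro d _ d' _ hne
      simp only [Finset.disjoint_left, mem_image, mem_R]
      rintro _ ⟨_, ⟨t, rfl, -⟩, rfl⟩ ⟨_, ⟨t', rfl, -⟩, h⟩
      simp only [List.cons.injEq, true_and] at h
      exact hne h.1.symm

omit [DecidableEq α] [Fintype α] in
lemma red_invRev {w : List (α × Bool)} (h : IsReduced w) : IsReduced (invRev w) := by
  classical
  rw [isReduced_iff_reduce_eq, reduce_invRev, h.reduce_eq]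

omit [DecidableEq α] [Fintype α] in
lemma red_reverse {w : List (α × Bool)} (h : IsReduced w) : IsReduced w.reverse := by
  unfold FreeGroup.IsReduced at *
  rw [List.isChain_reverse]
  exact h.imp fun a b h1 h2 => (h1 h2.symm).symm

omit [Fintype α] in
lemma norm_word {u t : List (α × Bool)} {x : α × Bool} (hu : IsReduced (u ++ [x]))
    (ht : IsReduced (x :: t)) :
    (mk u * mk [x] * (mk (invRev t))⁻¹).norm = u.length + 1 + t.length := by
  rw [inv_mk, invRev_invRev, mul_mk, mul_mk, FreeGroup.norm, toWord_mk,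
    (hu.append_overlap (L₃ := t) ht (by simp)).reduce_eq]
  simp; omega

omit [DecidableEq α] [Fintype α] in
lemma pre_eq {a b w : List (α × Bool)} (ha : a <+: w) (hb : b <+: w) (h : a.length = b.length) :
    a = b :=
  (List.prefix_of_prefix_length_le ha hb h.le).eq_of_length h

lemma lower_odd (m : ℕ) : ∃ A : Finset (FreeGroup α),
    A.card = Fintype.card α * (2 * Fintype.card α - 1) ^ m ∧ (∀ g ∈ A, g.norm = 2 * m + 1) ∧
      Injective (FreeGroup.lift fun x : A => (x : FreeGroup α)) := by
  let ι := Σ i : α, (R m (i, true) : Finset _)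
  have hex : ∀ p : ι, ∃ t, p.2.1 = (p.1, true) :: t ∧ t.length = m ∧ IsReduced ((p.1, true) :: t) :=
    fun p => (mem_R _ _ _).1 p.2.2
  choose t ht1 ht2 ht3 using hex
  have hinj : ∀ p q : ι, (p.1, true) :: t p = (q.1, true) :: t q → p = q := by
    rintro ⟨i, w⟩ ⟨j, w'⟩ h
    have h1 : i = j := by simp only [List.cons.injEq, Prod.mk.injEq] at h; exact h.1.1
    subst h1
    congr 1
    apply Subtype.ext
    exact (ht1 ⟨i, w⟩).trans (h.trans (ht1 ⟨i, w'⟩).symm)
  have e1 : ∀ p : ι, (t p).reverse ++ [(p.1, true)] = ((p.1, true) :: t p).reverse := by simp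
  have e2 : ∀ p : ι, invRev (t p) ++ [bar (p.1, true)] = invRev ((p.1, true) :: t p) := by
    intro p; rw [invRev_cons, invRev_single]
  have hfree := free_of_words (fun p : ι => (t p).reverse) (fun p => invRev (t p))
    (fun p => (p.1, true)) (fun p => e1 p ▸ red_reverse (ht3 p))
    (fun p => e2 p ▸ red_invRev (ht3 p))
    (fun p q w h1 h2 => by
      have := pre_eq h1 h2 (by simp [ht2])
      rw [e1, e1] at this
      exact hinj _ _ (List.reverse_injective this))
    (fun p q w h1 h2 => by
      have := pre_eq h1 h2 (by simp [ht2])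
      rw [e2, e2] at this
      exact hinj _ _ (invRev_injective this))
    (fun p q w h1 h2 => by
      have := pre_eq h1 h2 (by simp [ht2])
      have := List.append_inj_right' this rfl
      simp [bar] at this)
  obtain ⟨A, h1, h2, h3⟩ := transfer _ hfree
  refine ⟨A, ?_, ?_, h3⟩
  · rw [h1]; simp [ι, card_R]
  · intro g hg
    obtain ⟨p, rfl⟩ := h2 g hg
    rw [norm_word (e1 p ▸ red_reverse (ht3 p)) (ht3 p)]
    simp [ht2]; omega

/-- signed permutation of letters sending `x` to `(z, true)` -/
def tau (z : α) (x c : α × Bool) : α × Bool := (Equiv.swap x.1 z c.1, if x.2 then c.2 else !c.2)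

omit [Fintype α] in
lemma tau_inj (z : α) (x : α × Bool) : Injective (tau z x) := by
  rintro ⟨a, b⟩ ⟨a', b'⟩ h
  simp only [tau, Prod.mk.injEq, EmbeddingLike.apply_eq_iff_eq] at h
  obtain ⟨rfl, h⟩ := h
  split_ifs at h <;> simp_all

omit [Fintype α] in
lemma tau_self (z : α) (x : α × Bool) : tau z x x = (z, true) := by
  obtain ⟨a, b⟩ := x
  cases b <;> simp [tau]

omit [Fintype α] in
lemma tau_red (z : α) (x : α × Bool) {w : List (α × Bool)} (h : IsReduced w) :
    IsReduced (w.map (tau z x)) := by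
  unfold FreeGroup.IsReduced at *
  rw [List.isChain_map]
  refine h.imp fun a b h1 h2 => ?_
  simp only [tau, EmbeddingLike.apply_eq_iff_eq] at h2 ⊢
  rw [h1 h2]

lemma lower_even (z : α) (m : ℕ) : ∃ A : Finset (FreeGroup α),
    A.card = (2 * Fintype.card α - 1) ^ (m + 1) ∧ (∀ g ∈ A, g.norm = 2 * (m + 1)) ∧
      Injective (FreeGroup.lift fun x : A => (x : FreeGroup α)) := by
  let ι := Σ x : {x : α × Bool // x ≠ (z, true)}, (R m x.1 : Finset _)
  have hex : ∀ p : ι, ∃ t, p.2.1 = p.1.1 :: t ∧ t.length = m ∧ IsReduced (p.1.1 :: t) :=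
    fun p => (mem_R _ _ _).1 p.2.2
  choose t ht1 ht2 ht3 using hex
  have hinj : ∀ p q : ι, p.1.1 :: t p = q.1.1 :: t q → p = q := by
    rintro ⟨i, w⟩ ⟨j, w'⟩ h
    have h1 : i = j := by simp only [List.cons.injEq] at h; exact Subtype.ext h.1
    subst h1
    congr 1
    apply Subtype.ext
    exact (ht1 ⟨i, w⟩).trans (h.trans (ht1 ⟨i, w'⟩).symm)
  let U : ι → List (α × Bool) := fun p => invRev ((p.1.1 :: t p).map (tau z p.1.1))
  have e1 : ∀ p : ι, U p ++ [p.1.1] = invRev (bar p.1.1 :: (p.1.1 :: t p).map (tau z p.1.1)) := by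
    intro p; rw [invRev_cons, invRev_single, bar_bar]
  have hU : ∀ p : ι, IsReduced (U p ++ [p.1.1]) := by
    intro p
    rw [e1]
    apply red_invRev
    have := tau_red z p.1.1 (ht3 p)
    rw [List.map_cons] at this ⊢
    rw [isReduced_cons_cons]
    refine ⟨(rel_iff _ _).2 ?_, this⟩
    rw [tau_self, bar_bar]
    exact p.1.2.symm
  have e2 : ∀ p : ι, invRev (t p) ++ [bar p.1.1] = invRev (p.1.1 :: t p) := by
    intro p; rw [invRev_cons, invRev_single]
  have hfree := free_of_words U (fun p => invRev (t p))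
    (fun p => p.1.1) hU (fun p => e2 p ▸ red_invRev (ht3 p))
    (fun p q w h1 h2 => by
      have := pre_eq h1 h2 (by simp [U, ht2])
      have h3 : p.1.1 = q.1.1 := by simpa using List.append_inj_right' this rfl
      have h4 := invRev_injective (List.append_inj_left' this rfl)
      rw [← h3] at h4
      have h5 := List.map_injective_iff.2 (tau_inj z p.1.1) h4
      exact hinj _ _ (by rw [← h3]; exact h5))
    (fun p q w h1 h2 => by
      have := pre_eq h1 h2 (by simp [ht2])
      rw [e2, e2] at this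
      exact hinj _ _ (invRev_injective this))
    (fun p q w h1 h2 => by
      have h3 : U p <+: w := (List.prefix_append _ _).trans h1
      have := pre_eq h3 h2 (by simp [U, ht2])
      rw [e2] at this
      have h4 := invRev_injective this
      rw [List.map_cons, tau_self] at h4
      exact q.1.2 (List.cons.inj h4).1.symm)
  obtain ⟨A, h1, h2, h3⟩ := transfer _ hfree
  refine ⟨A, ?_, ?_, h3⟩
  · rw [h1]; simp [ι, card_R, pow_succ, mul_comm]
  · intro g hg
    obtain ⟨p, rfl⟩ := h2 g hg
    rw [norm_word (hU p) (ht3 p)]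
    simp [U, ht2]; omega

end Pool.Agent.Lead.FreeSph
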