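import Mathlib

namespace Pool.Agent.Lead.Godd

set_option synthInstance.maxSize 100000
set_option maxRecDepth 100000

def adjB (a b : Fin 10) : Bool :=
  (a.val < 5 && b.val < 5 && ((a.val + 1) % 5 == b.val || (b.val + 1) % 5 == a.val)) ||
  (a.val + 5 == b.val || b.val + 5 == a.val) ||
  (5 ≤ a.val && 5 ≤ b.val && ((a.val + 2) % 5 == b.val % 5 || (b.val + 2) % 5 == a.val % 5))

def P : SimpleGraph (Fin 10) where
  Adj a b := adjB a b = true
  symm := ⟨by decide⟩
  loopless := ⟨by decide⟩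

def wf (a b : Fin 10) : ℕ := if a.val + 5 = b.val ∨ b.val + 5 = a.val then 6 else 3

def w : Sym2 (Fin 10) → ℕ := Sym2.lift ⟨wf, by decide⟩

theorem w_mk (a b : Fin 10) : w s(a, b) = wf a b := rfl

theorem key : ∀ b0 b1 b2 b3 b4 b5 b6 b7 b8 b9 b10 b11 b12 b13 b14 : Bool,
    (b0.toNat + b4.toNat + b5.toNat) % 2 = 0 →
    (b0.toNat + b1.toNat + b6.toNat) % 2 = 0 →
    (b1.toNat + b2.toNat + b7.toNat) % 2 = 0 →
    (b2.toNat + b3.toNat + b8.toNat) % 2 = 0 →
    (b3.toNat + b4.toNat + b9.toNat) % 2 = 0 →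
    (b5.toNat + b10.toNat + b13.toNat) % 2 = 0 →
    (b6.toNat + b11.toNat + b14.toNat) % 2 = 0 →
    (b7.toNat + b10.toNat + b12.toNat) % 2 = 0 →
    (b8.toNat + b11.toNat + b13.toNat) % 2 = 0 →
    (b9.toNat + b12.toNat + b14.toNat) % 2 = 0 →
    b5.toNat + b6.toNat + b7.toNat + b8.toNat + b9.toNat ≤ (b0.toNat + b1.toNat + b2.toNat + b3.toNat + b4.toNat) + (b10.toNat + b11.toNat + b12.toNat + b13.toNat + b14.toNat) ∧
    (b5.toNat + b6.toNat + b7.toNat + b8.toNat + b9.toNat = (b0.toNat + b1.toNat + b2.toNat + b3.toNat + b4.toNat) + (b10.toNat + b11.toNat + b12.toNat + b13.toNat + b14.toNat) → (b0.toNat + b1.toNat + b2.toNat + b3.toNat + b4.toNat) % 2 = 0) := by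
  decide +kernel

theorem cut : ∀ S : Finset (Fin 10), S = ∅ ∨ S = Finset.univ ∨
    12 ≤ ∑ u : Fin 10, ∑ v : Fin 10, if (u ∈ S ∧ v ∉ S ∧ adjB u v = true) then wf u v else 0 := by
  decide +kernel

theorem ev : ∀ v : Fin 10, Even (∑ u : Fin 10, if adjB v u = true then wf v u else 0) := by
  decide +kernel

theorem detour : ∀ a b : Fin 10, adjB a b = true → ∃ c d e : Fin 10,
    adjB a c = true ∧ adjB c d = true ∧ adjB d e = true ∧ adjB e b = true ∧
    c ≠ b ∧ c ≠ a ∧ d ≠ a ∧ d ≠ b ∧ e ≠ a ∧ e ≠ b := by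
  decide +kernel

theorem even_deg {x : Fin 10} (q : P.Walk x x) (hq : q.IsTrail) (v : Fin 10) :
    Even (∑ u : Fin 10, if s(v, u) ∈ q.edges then 1 else 0) := by
  have h := (hq.even_countP_edges_iff v).2 (by simp)
  rw [List.countP_eq_length_filter, ← List.toFinset_card_of_nodup (hq.edges_nodup.filter _)] at h
  rw [← Finset.card_filter]
  convert h using 1
  refine Finset.card_bij (fun u _ => s(v, u)) ?_ ?_ ?_
  · intro u hu; simpa using hu
  · intro a _ b _ hab; exact Sym2.congr_right.mp hab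
  · intro e he
    simp only [List.mem_toFinset, List.mem_filter, decide_eq_true_eq] at he
    obtain ⟨u, rfl⟩ := Sym2.mem_iff_exists.mp he.2
    exact ⟨u, by simpa using he.1, rfl⟩

end Pool.Agent.Lead.Godd
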