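import Mathlib

set_option autoImplicit false
set_option linter.unusedSectionVars false

open MeasureTheory Set Topology Pointwise Filter Function
open scoped ENNReal NNReal

namespace Pool.Agent.Lead.HaarPack

variable {G : Type*} [Group G] [TopologicalSpace G] [IsTopologicalGroup G]
  [LocallyCompactSpace G] [T2Space G] [MeasurableSpace G] [BorelSpace G]
  (μ : Measure G) [μ.IsHaarMeasure] [μ.Regular]

lemma right_bound {K : Set G} (hK : IsCompact K) :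
    ∃ C : ℝ≥0∞, C ≠ ∞ ∧ C ≠ 0 ∧
      ∀ x ∈ K, ∀ H : Set G, MeasurableSet H → μ ((· * x) ⁻¹' H) ≤ C * μ H := by
  obtain ⟨A, hA, hA1⟩ := exists_compact_mem_nhds (1 : G)
  have hpos : μ A ≠ 0 := (Measure.measure_pos_of_mem_nhds μ hA1).ne'
  have hfin : μ (A * K⁻¹) ≠ ∞ := (hA.mul hK.inv).measure_lt_top.ne
  refine ⟨μ (A * K⁻¹) / μ A + 1, ?_, by simp, ?_⟩
  · exact ENNReal.add_ne_top.2 ⟨ENNReal.div_ne_top hfin hpos, ENNReal.one_ne_top⟩
  intro x hx H hH
  have : (Measure.map (· * x) μ).Regular := Measure.Regular.map (Homeomorph.mulRight x)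
  have h := Measure.isMulLeftInvariant_eq_smul_of_regular (Measure.map (· * x) μ) μ
  set c := Measure.haarScalarFactor (Measure.map (· * x) μ) μ
  have key : ∀ S : Set G, MeasurableSet S → μ ((· * x) ⁻¹' S) = c * μ S := by
    intro S hS
    rw [← Measure.map_apply (measurable_mul_const x) hS, h]
    simp
  have hc : (c : ℝ≥0∞) ≤ μ (A * K⁻¹) / μ A := by
    rw [ENNReal.le_div_iff_mul_le (Or.inl hpos) (Or.inl hA.measure_lt_top.ne),
      ← key A hA.measurableSet]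
    apply measure_mono
    intro g hg
    exact ⟨g * x, hg, x⁻¹, by simpa using hx, by simp⟩
  rw [key H hH]
  gcongr
  exact hc.trans le_self_add

lemma exists_meas {D X Z H : Set G} (hD : IsCompact D) (hX : IsCompact X) (hZ : IsCompact Z)
    (hH : IsOpen H) (hZH : Z ⊆ H) :
    ∃ S : Set (G × G), MeasurableSet S ∧ (∀ g ∈ D, ∀ x ∈ X, g * x ∈ Z → (g, x) ∈ S) ∧
      ∀ p ∈ S, p.1 * p.2 ∈ H := by
  have hc : IsCompact ((D ×ˢ X) ∩ (fun p : G × G => p.1 * p.2) ⁻¹' Z) :=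
    (hD.prod hX).inter_right (hZ.isClosed.preimage continuous_mul)
  have ho : IsOpen ((fun p : G × G => p.1 * p.2) ⁻¹' H) := hH.preimage continuous_mul
  have : ∀ p ∈ (D ×ˢ X) ∩ (fun p : G × G => p.1 * p.2) ⁻¹' Z, ∃ u v : Set G, IsOpen u ∧ IsOpen v ∧
      p ∈ u ×ˢ v ∧ u ×ˢ v ⊆ (fun p : G × G => p.1 * p.2) ⁻¹' H := by
    rintro ⟨a, b⟩ hp
    obtain ⟨u, v, hu, hv, ha, hb, h⟩ := isOpen_prod_iff.1 ho a b (hZH hp.2)
    exact ⟨u, v, hu, hv, ⟨ha, hb⟩, h⟩
  choose! u v hu hv hp hs using this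
  obtain ⟨t, ht, hcov⟩ := hc.elim_nhds_subcover (fun p => u p ×ˢ v p)
    (fun p hp' => ((hu p hp').prod (hv p hp')).mem_nhds (hp p hp'))
  refine ⟨⋃ p ∈ t, u p ×ˢ v p, ?_, ?_, ?_⟩
  · exact Finset.measurableSet_biUnion _ fun p hp' =>
      (hu p (ht p hp')).measurableSet.prod (hv p (ht p hp')).measurableSet
  · intro g hg x hx hz
    exact hcov ⟨⟨hg, hx⟩, hz⟩
  · intro p hp'
    simp only [mem_iUnion] at hp'
    obtain ⟨q, hq, hpq⟩ := hp'
    exact hs q (ht q hq) hpq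

lemma avg {D K : Set G} (hD : IsCompact D) (hD0 : μ D ≠ 0) (hK : IsCompact K) :
    ∃ θ : ℝ≥0∞, θ ≠ 0 ∧ ∀ X Z : Set G, IsCompact X → IsCompact Z → X ⊆ K → μ Z < θ →
      ∃ g ∈ D, 2 * μ (X ∩ (g * ·) ⁻¹' Z) ≤ μ X := by
  obtain ⟨C, hC, hC0, hb⟩ := right_bound μ hK
  have h2C : 2 * C ≠ ∞ := ENNReal.mul_ne_top (by simp) hC
  have h2C0 : 2 * C ≠ 0 := mul_ne_zero (by simp) hC0
  refine ⟨μ D / (2 * C), (ENNReal.div_pos hD0 h2C).ne', ?_⟩
  intro X Z hX hZ hXK hZθ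
  have hDne : D.Nonempty := nonempty_of_measure_ne_zero hD0
  by_cases hX0 : μ X = 0
  · obtain ⟨g, hg⟩ := hDne
    refine ⟨g, hg, ?_⟩
    rw [measure_mono_null inter_subset_left hX0]; simp
  obtain ⟨H, hZH, hH, hμH⟩ := Z.exists_isOpen_lt_of_lt _ hZθ
  have hlt : 2 * C * μ H < μ D := by
    rw [ENNReal.lt_div_iff_mul_lt (Or.inl h2C0) (Or.inl h2C)] at hμH
    rwa [mul_comm]
  obtain ⟨S, hS, h1, h2⟩ := exists_meas hD hX hZ hH hZH
  by_contra hcon
  push Not at hcon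
  have : IsFiniteMeasure (μ.restrict D) := ⟨by simpa using hD.measure_lt_top⟩
  have : IsFiniteMeasure (μ.restrict X) := ⟨by simpa using hX.measure_lt_top⟩
  have hA : μ X * μ D ≤ 2 * ((μ.restrict D).prod (μ.restrict X)) S := by
    rw [Measure.prod_apply hS, ← lintegral_const_mul' _ _ (by simp), ← setLIntegral_const]
    refine setLIntegral_mono' hD.measurableSet fun g hg => (hcon g hg).le.trans ?_
    refine mul_le_mul_right ?_ 2
    rw [Measure.restrict_apply' hX.measurableSet]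
    apply measure_mono
    rintro x ⟨hx, hz⟩
    exact ⟨h1 g hg x hx hz, hx⟩
  have hB : ((μ.restrict D).prod (μ.restrict X)) S ≤ C * μ H * μ X := by
    rw [Measure.prod_apply_symm hS, ← setLIntegral_const]
    refine setLIntegral_mono' hX.measurableSet fun x hx => ?_
    refine le_trans ?_ (hb x (hXK hx) H hH.measurableSet)
    refine (Measure.restrict_apply_le _ _).trans (measure_mono ?_)
    intro g hg
    exact h2 _ hg
  have : μ X * μ D < μ X * μ D := by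
    calc μ X * μ D ≤ 2 * (C * μ H * μ X) := hA.trans (by gcongr)
      _ = μ X * (2 * C * μ H) := by ring
      _ < μ X * μ D := ENNReal.mul_lt_mul_right hX0 hX.measure_lt_top.ne hlt
  exact lt_irrefl _ this

/-- `T` is covered by countably many Borel sets with pairwise disjoint left translates in `R`. -/
def Emb (T R : Set G) : Prop :=
  ∃ s : Set (G × Set G), s.Countable ∧ (∀ p ∈ s, MeasurableSet p.2 ∧ p.1 • p.2 ⊆ R) ∧
    s.PairwiseDisjoint (fun p => p.1 • p.2) ∧ T ⊆ ⋃ p ∈ s, p.2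

omit [TopologicalSpace G] [IsTopologicalGroup G] [LocallyCompactSpace G] [T2Space G]
  [BorelSpace G] in
lemma Emb.mono {T T' R R' : Set G} (h : Emb T R) (hT : T' ⊆ T) (hR : R ⊆ R') : Emb T' R' := by
  obtain ⟨s, h1, h2, h3, h4⟩ := h
  exact ⟨s, h1, fun p hp => ⟨(h2 p hp).1, (h2 p hp).2.trans hR⟩, h3, hT.trans h4⟩

omit [TopologicalSpace G] [IsTopologicalGroup G] [LocallyCompactSpace G] [T2Space G]
  [BorelSpace G] in
lemma Emb.iUnion {ι : Type} [Countable ι] {T R : ι → Set G} (h : ∀ i, Emb (T i) (R i))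
    (hd : Pairwise (Disjoint on R)) : Emb (⋃ i, T i) (⋃ i, R i) := by
  choose s h1 h2 h3 h4 using h
  refine ⟨⋃ i, s i, countable_iUnion h1, ?_, ?_, ?_⟩
  · intro p hp
    obtain ⟨i, hi⟩ := mem_iUnion.1 hp
    exact ⟨(h2 i p hi).1, (h2 i p hi).2.trans (subset_iUnion R i)⟩
  · intro p hp q hq hpq
    obtain ⟨i, hi⟩ := mem_iUnion.1 hp
    obtain ⟨j, hj⟩ := mem_iUnion.1 hq
    by_cases hij : i = j
    · subst hij; exact h3 i hi hj hpq
    · exact Disjoint.mono (h2 i p hi).2 (h2 j q hj).2 (hd hij)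
  · intro x hx
    obtain ⟨i, hi⟩ := mem_iUnion.1 hx
    have := h4 i hi
    simp only [mem_iUnion] at this ⊢
    obtain ⟨p, hp, hxp⟩ := this
    exact ⟨p, ⟨i, hp⟩, hxp⟩

omit [TopologicalSpace G] [IsTopologicalGroup G] [LocallyCompactSpace G] [T2Space G]
  [BorelSpace G] in
lemma Emb.union {T T' R R' : Set G} (h : Emb T R) (h' : Emb T' R') (hd : Disjoint R R') :
    Emb (T ∪ T') (R ∪ R') := by
  have := Emb.iUnion (ι := Bool) (T := fun b => cond b T T') (R := fun b => cond b R R')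
    (fun b => by cases b <;> assumption) (by
      intro a b hab
      cases a <;> cases b <;> simp_all [Function.onFun, hd.symm])
  rwa [← union_eq_iUnion, ← union_eq_iUnion] at this

omit [TopologicalSpace G] [IsTopologicalGroup G] [LocallyCompactSpace G] [T2Space G]
  [BorelSpace G] in
lemma Emb.single {T R : Set G} (g : G) (hT : MeasurableSet T) (h : g • T ⊆ R) : Emb T R :=
  ⟨{(g, T)}, countable_singleton _, by simp [hT, h], pairwiseDisjoint_singleton _ _, by simp⟩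

omit [LocallyCompactSpace G] [T2Space G] in
lemma Emb.translate {T R : Set G} (h : Emb T R) (x : G) : Emb (x • T) R := by
  obtain ⟨s, h1, h2, h3, h4⟩ := h
  have e : ∀ p : G × Set G, (p.1 * x⁻¹) • x • p.2 = p.1 • p.2 := by
    intro p; rw [smul_smul]; simp
  refine ⟨(fun p : G × Set G => (p.1 * x⁻¹, x • p.2)) '' s, h1.image _, ?_, ?_, ?_⟩
  · rintro _ ⟨p, hp, rfl⟩
    exact ⟨(h2 p hp).1.const_smul x, by simpa only [e] using (h2 p hp).2⟩
  · rintro _ ⟨p, hp, rfl⟩ _ ⟨q, hq, rfl⟩ hpq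
    have : p ≠ q := fun h => hpq (by rw [h])
    simpa only [Function.onFun, e] using h3 hp hq this
  · rintro _ ⟨y, hy, rfl⟩
    have := h4 hy
    simp only [mem_iUnion] at this ⊢
    obtain ⟨p, hp, hyp⟩ := this
    exact ⟨_, ⟨p, hp, rfl⟩, smul_mem_smul_set hyp⟩

lemma place_aux {D K U V : Set G} {θ : ℝ≥0∞} (hV : IsCompact V) (hV1 : (1 : G) ∈ V)
    (hVK : V ⊆ K) (hDU : D * K ⊆ U)
    (hθ : ∀ X Z : Set G, IsCompact X → IsCompact Z → X ⊆ K * K → μ Z < θ →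
      ∃ g ∈ D, 2 * μ (X ∩ (g * ·) ⁻¹' Z) ≤ μ X) (n : ℕ) :
    ∀ L Q : Set G, IsCompact L → IsCompact Q → L ⊆ K → μ (L * V) < 2 ^ n * μ V →
      μ (Q * V) + 2 * μ (L * V) < θ →
      ∃ Q', IsCompact Q' ∧ Q ⊆ Q' ∧ μ Q' ≤ μ (Q * V) + 2 * μ (L * V) ∧ Emb L ((U ∩ Q') \ Q) := by
  induction n with
  | zero =>
    intro L Q hL hQ _ h1 _
    have hL0 : L = ∅ := by
      by_contra hne
      obtain ⟨x, hx⟩ := nonempty_iff_ne_empty.2 hne
      have : μ (x • V) ≤ μ (L * V) := measure_mono (smul_set_subset_mul hx)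
      rw [measure_smul] at this
      simp only [pow_zero, one_mul] at h1
      exact absurd h1 (not_lt.2 this)
    refine ⟨Q, hQ, subset_rfl, (measure_mono (subset_mul_left _ hV1)).trans le_self_add, ?_⟩
    exact ⟨∅, countable_empty, by simp, pairwiseDisjoint_empty, by simp [hL0]⟩
  | succ n ih =>
    intro L Q hL hQ hLK h1 h2
    obtain ⟨g, hg, hgX⟩ := hθ (L * V) (Q * V) (hL.mul hV) (hQ.mul hV) (mul_subset_mul hLK hVK)
      (lt_of_le_of_lt le_self_add h2)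
    set L' := L ∩ (g * ·) ⁻¹' Q with hL'
    set Q1 := Q ∪ g • L with hQ1
    have hL'c : IsCompact L' := hL.inter_right (hQ.isClosed.preimage (continuous_const_mul g))
    have hQ1c : IsCompact Q1 := hQ.union (hL.smul g)
    have e1 : 2 * μ (L' * V) ≤ μ (L * V) := by
      refine le_trans ?_ hgX
      gcongr
      rintro _ ⟨x, ⟨hx, hx'⟩, v, hv, rfl⟩
      exact ⟨⟨x, hx, v, hv, rfl⟩, g * x, hx', v, hv, by simp [mul_assoc]⟩
    have e2 : μ (Q1 * V) ≤ μ (Q * V) + μ (L * V) := by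
      rw [hQ1, union_mul, smul_mul_assoc]
      refine (measure_union_le _ _).trans ?_
      rw [measure_smul]
    have e3 : μ (Q1 * V) + 2 * μ (L' * V) ≤ μ (Q * V) + 2 * μ (L * V) := by
      calc _ ≤ μ (Q * V) + μ (L * V) + μ (L * V) := add_le_add e2 e1
        _ = _ := by ring
    have e4 : μ (L' * V) < 2 ^ n * μ V := by
      have : 2 * μ (L' * V) < 2 * (2 ^ n * μ V) := by
        calc _ ≤ _ := e1
          _ < _ := h1
          _ = _ := by ring
      exact lt_of_mul_lt_mul_left' this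
    obtain ⟨Q', c1, c2, c3, c4⟩ := ih L' Q1 hL'c hQ1c (inter_subset_left.trans hLK) e4
      (e3.trans_lt h2)
    refine ⟨Q', c1, subset_union_left.trans c2, c3.trans e3, ?_⟩
    have c5 : Emb (L \ L') ((U ∩ Q1) \ Q) := by
      refine Emb.single g (hL.measurableSet.diff hL'c.measurableSet) ?_
      rintro _ ⟨x, ⟨hx, hx'⟩, rfl⟩
      exact ⟨⟨hDU ⟨g, hg, x, hLK hx, rfl⟩, Or.inr ⟨x, hx, rfl⟩⟩, fun h => hx' ⟨hx, h⟩⟩
    refine (c4.union c5 ?_).mono ?_ ?_
    · exact Set.disjoint_left.2 fun y hy hy' => hy.2 hy'.1.2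
    · intro y hy
      by_cases h : y ∈ L'
      · exact Or.inl h
      · exact Or.inr ⟨hy, h⟩
    · rintro y (hy | hy)
      · exact ⟨hy.1, fun h => hy.2 (Or.inl h)⟩
      · exact ⟨⟨hy.1.1, c2 hy.1.2⟩, hy.2⟩

lemma place {D K U : Set G} {θ : ℝ≥0∞} (hK1 : K ∈ 𝓝 (1 : G)) (hDU : D * K ⊆ U)
    (hθ : ∀ X Z : Set G, IsCompact X → IsCompact Z → X ⊆ K * K → μ Z < θ →
      ∃ g ∈ D, 2 * μ (X ∩ (g * ·) ⁻¹' Z) ≤ μ X) {L Q : Set G} (hL : IsCompact L)
    (hQ : IsCompact Q) {x : G} (hLK : L ⊆ x • K) {a b : ℝ≥0∞} (ha : μ Q < a) (hb : μ L < b)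
    (hab : a + 2 * b ≤ θ) :
    ∃ Q', IsCompact Q' ∧ Q ⊆ Q' ∧ μ Q' ≤ a + 2 * b ∧ Emb L ((U ∩ Q') \ Q) := by
  have hL0 : IsCompact (x⁻¹ • L) := hL.smul _
  have hb0 : μ (x⁻¹ • L) < b := by rwa [measure_smul]
  obtain ⟨H1, s1, o1, m1⟩ := (x⁻¹ • L).exists_isOpen_lt_of_lt _ hb0
  obtain ⟨H2, s2, o2, m2⟩ := Q.exists_isOpen_lt_of_lt _ ha
  obtain ⟨V1, n1, t1⟩ := compact_open_separated_mul_right hL0 o1 s1
  obtain ⟨V2, n2, t2⟩ := compact_open_separated_mul_right hQ o2 s2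
  obtain ⟨V, nV, sV, cV⟩ := local_compact_nhds (inter_mem (inter_mem n1 n2) hK1)
  have f1 : μ (x⁻¹ • L * V) ≤ μ H1 :=
    measure_mono ((mul_subset_mul_left fun y hy => (sV hy).1.1).trans t1)
  have f2 : μ (Q * V) ≤ μ H2 :=
    measure_mono ((mul_subset_mul_left fun y hy => (sV hy).1.2).trans t2)
  have hV0 : μ V ≠ 0 := (Measure.measure_pos_of_mem_nhds μ nV).ne'
  obtain ⟨n, hn⟩ := ENNReal.exists_nat_mul_gt hV0
    (show μ (x⁻¹ • L * V) ≠ ∞ from (hL0.mul cV).measure_lt_top.ne)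
  have hn' : μ (x⁻¹ • L * V) < 2 ^ n * μ V := by
    refine hn.trans_le ?_
    gcongr
    exact_mod_cast (Nat.lt_two_pow_self (n := n)).le
  have hlt : μ (Q * V) + 2 * μ (x⁻¹ • L * V) < a + 2 * b := by
    refine ENNReal.add_lt_add_of_lt_of_le ?_ (f2.trans_lt m2) ?_
    · exact ENNReal.mul_ne_top (by simp) (hL0.mul cV).measure_lt_top.ne
    · gcongr; exact (f1.trans_lt m1).le
  obtain ⟨Q', c1, c2, c3, c4⟩ := place_aux μ cV (mem_of_mem_nhds nV) (fun y hy => (sV hy).2) hDU hθ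
    n (x⁻¹ • L) Q hL0 hQ (by rwa [← Set.subset_smul_set_iff]) hn' (hlt.trans_le hab)
  refine ⟨Q', c1, c2, c3.trans hlt.le, ?_⟩
  simpa using c4.translate x

end Pool.Agent.Lead.HaarPack
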