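import Pool.Agent.Lead.HaarPack1

set_option autoImplicit false
set_option linter.unusedSectionVars false

open MeasureTheory Set Topology Pointwise Filter Function
open scoped ENNReal NNReal

namespace Pool.Agent.Lead.HaarPack

variable {G : Type*} [Group G] [TopologicalSpace G] [IsTopologicalGroup G]
  [LocallyCompactSpace G] [T2Space G] [MeasurableSpace G] [BorelSpace G]
  (μ : Measure G) [μ.IsHaarMeasure] [μ.Regular]

lemma sigma_cover {O N : Set G} (hO : IsOpen O) (hOf : μ O ≠ ∞) (hN : N ∈ 𝓝 (1 : G)) :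
    ∃ C : ℕ → Set G, (∀ n, IsCompact (C n) ∧ μ (C n \ O) = 0 ∧ ∃ x : G, C n ⊆ x • N) ∧
      O ⊆ ⋃ n, C n := by
  have h1 : ∀ n : ℕ, ∃ W : Set G, W ∈ 𝓝 (1 : G) ∧ IsCompact W ∧ W ⊆ N ∧
      ∃ K : Set G, IsCompact K ∧ μ (O \ K) < (n : ℝ≥0∞)⁻¹ ∧ K * W ⊆ O := by
    intro n
    obtain ⟨K, hKO, hK, hμ⟩ := hO.measurableSet.exists_isCompact_sdiff_lt hOf
      (ε := (n : ℝ≥0∞)⁻¹) (by simp)
    obtain ⟨V, nV, tV⟩ := compact_open_separated_mul_right hK hO hKO
    obtain ⟨W, nW, sW, cW⟩ := local_compact_nhds (inter_mem nV hN)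
    exact ⟨W, nW, cW, fun y hy => (sW hy).2, K, hK, hμ,
      (mul_subset_mul_left fun y hy => (sW hy).1).trans tV⟩
  choose W' nW' cW' sW' K cK mK tK using h1
  set W : ℕ → Set G := fun n => ⋂ i ∈ Finset.range (n + 1), W' i with hW
  have hWs : ∀ n i, i ≤ n → W n ⊆ W' i := fun n i hi =>
    biInter_subset_of_mem (Finset.mem_range.2 (Nat.lt_succ_of_le hi))
  have nW : ∀ n, W n ∈ 𝓝 (1 : G) := fun n => (biInter_finset_mem _).2 fun i _ => nW' i
  have cW : ∀ n, IsCompact (W n) := fun n =>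
    (cW' 0).of_isClosed_subset (isClosed_biInter fun i _ => (cW' i).isClosed)
      (hWs n 0 (Nat.zero_le _))
  have aW : Antitone W := fun m n hmn =>
    subset_iInter₂ fun i hi => hWs n i ((Nat.le_of_lt_succ (Finset.mem_range.1 hi)).trans hmn)
  have null : ∀ a ∈ ⋂ n, W n, μ ((· * a⁻¹) ⁻¹' O \ O) = 0 := by
    intro a ha
    obtain ⟨C, hC, -, hb⟩ := right_bound μ (isCompact_singleton (x := a⁻¹))
    have hle : ∀ n : ℕ, μ ((· * a⁻¹) ⁻¹' O \ O) ≤ C * (n : ℝ≥0∞)⁻¹ := by
      intro n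
      calc _ ≤ μ ((· * a⁻¹) ⁻¹' (O \ K n)) := by
            apply measure_mono
            rintro y ⟨hy, hy'⟩
            refine ⟨hy, fun h => hy' (tK n ⟨_, h, a, hWs n n le_rfl (mem_iInter.1 ha n), ?_⟩)⟩
            simp
        _ ≤ C * μ (O \ K n) := hb _ rfl _ (hO.measurableSet.diff (cK n).measurableSet)
        _ ≤ _ := by gcongr; exact (mK n).le
    have ht : Tendsto (fun n : ℕ => C * (n : ℝ≥0∞)⁻¹) atTop (𝓝 (C * 0)) :=
      ENNReal.Tendsto.const_mul ENNReal.tendsto_inv_nat_nhds_zero (Or.inr hC)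
    rw [mul_zero] at ht
    exact le_antisymm (ge_of_tendsto' ht hle) zero_le
  have claim1 : ∀ x ∈ O, ∃ n, μ (x • W n \ O) = 0 := by
    intro x hx
    set P : Set G := ⋃ a ∈ ⋂ n, W n, (· * a⁻¹) ⁻¹' O with hP
    have oP : IsOpen P := isOpen_biUnion fun a _ => hO.preimage (continuous_mul_const _)
    obtain ⟨n, hn⟩ := exists_subset_nhds_of_isCompact (V := W) aW.directed_ge cW
      (U := (x * ·) ⁻¹' P) (by
        intro a ha
        refine (oP.preimage (continuous_const_mul x)).mem_nhds ?_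
        exact mem_biUnion ha (by simpa using hx))
    refine ⟨n, ?_⟩
    obtain ⟨t, ht, tf, hcov⟩ := ((cW n).smul x).elim_finite_subcover_image
      (b := ⋂ n, W n) (c := fun a => (· * a⁻¹) ⁻¹' O)
      (fun a _ => hO.preimage (continuous_mul_const _)) (by
        rintro _ ⟨y, hy, rfl⟩
        exact hn hy)
    refine measure_mono_null (t := ⋃ a ∈ t, ((· * a⁻¹) ⁻¹' O \ O)) ?_
      ((measure_biUnion_null_iff tf.countable).2 fun a ha => null a (ht ha))
    rintro y ⟨hy, hy'⟩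
    have := hcov hy
    simp only [mem_iUnion] at this ⊢
    obtain ⟨a, ha, hya⟩ := this
    exact ⟨a, ha, hya, hy'⟩
  have claim2 : ∀ n, ∃ u : Set G, u.Countable ∧ (∀ x ∈ u, μ (x • W n \ O) = 0) ∧
      ∀ y, μ (y • W n \ O) = 0 → ∃ x ∈ u, y ∈ x • W n := by
    intro n
    obtain ⟨V0, nV0, hV0⟩ := exists_nhds_split_inv (nW n)
    obtain ⟨V, nV, sV, cV⟩ := local_compact_nhds nV0
    have V1 : (1 : G) ∈ V := mem_of_mem_nhds nV
    have VW : V ⊆ W n := fun v hv => by simpa using hV0 v (sV hv) 1 (sV V1)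
    obtain ⟨u, hu, hd, hm⟩ := Vitali.exists_disjoint_subfamily_covering_enlargement
      (fun x : G => x • V) {y | μ (y • W n \ O) = 0} (fun _ => 1) 2 (by norm_num)
      (fun _ _ => zero_le_one) 1 (fun _ _ => le_rfl) (fun a _ => ⟨_, smul_mem_smul_set V1⟩)
    refine ⟨u, ?_, hu, ?_⟩
    · have hc := Measure.countable_meas_pos_of_disjoint_of_meas_iUnion_ne_top μ
        (As := fun x : u => (x : G) • V ∩ O)
        (fun x => (cV.smul _).measurableSet.inter hO.measurableSet)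
        (fun x y hxy => Disjoint.mono inter_subset_left inter_subset_left
          (hd x.2 y.2 (Subtype.coe_ne_coe.2 hxy)))
        (ne_top_of_le_ne_top hOf (measure_mono (iUnion_subset fun x => inter_subset_right)))
      have : {x : u | 0 < μ ((x : G) • V ∩ O)} = univ := by
        refine eq_univ_of_forall fun x => ?_
        have h0 : μ ((x : G) • V \ O) = 0 :=
          measure_mono_null (sdiff_subset_sdiff_left (smul_set_mono VW)) (hu x.2)
        have h2 := measure_le_inter_add_sdiff μ ((x : G) • V) O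
        rw [h0, add_zero, measure_smul] at h2
        exact (Measure.measure_pos_of_mem_nhds μ nV).trans_le h2
      rw [this, countable_univ_iff] at hc
      exact countable_coe_iff.1 hc
    · intro y hy
      obtain ⟨x, hx, ⟨z, ⟨v, hv, rfl⟩, ⟨w, hw, e⟩⟩, -⟩ := hm y hy
      refine ⟨x, hx, w / v, hV0 w (sV hw) v (sV hv), ?_⟩
      simp only [smul_eq_mul] at e ⊢
      rw [div_eq_mul_inv, ← mul_assoc, e]; simp
  choose u uc u1 u2 using claim2
  have hc : (insert ∅ (⋃ n, (fun x : G => x • W n) '' u n)).Countable :=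
    (countable_iUnion fun n => (uc n).image _).insert _
  obtain ⟨C, hC⟩ := hc.exists_eq_range (insert_nonempty _ _)
  refine ⟨C, fun n => ?_, fun x hx => ?_⟩
  · have : C n ∈ insert ∅ (⋃ n, (fun x : G => x • W n) '' u n) := hC ▸ mem_range_self n
    rcases this with h | h
    · rw [h]; simp
    · obtain ⟨m, y, hy, e⟩ := mem_iUnion.1 h
      rw [← e]
      exact ⟨(cW m).smul y, u1 m y hy, y, smul_set_mono ((hWs m m le_rfl).trans (sW' m))⟩
  · obtain ⟨n, hn⟩ := claim1 x hx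
    obtain ⟨y, hy, hxy⟩ := u2 n x hn
    have : y • W n ∈ range C := hC ▸ Or.inr (mem_iUnion.2 ⟨n, y, hy, rfl⟩)
    obtain ⟨m, hm⟩ := this
    exact mem_iUnion.2 ⟨m, hm ▸ hxy⟩

lemma cover {O N : Set G} (hO : IsOpen O) (hOf : μ O ≠ ∞) (hN : N ∈ 𝓝 (1 : G))
    {ε : ℕ → ℝ≥0∞} (hε : ∀ n, ε n ≠ 0) :
    ∃ (L : ℕ → Set G) (m : ℕ → ℝ≥0∞), (∀ n, IsCompact (L n) ∧ μ (L n) < m n + ε n ∧
      ∃ x : G, L n ⊆ x • N) ∧ ∑' n, m n ≤ μ O ∧ O ⊆ ⋃ n, L n := by
  obtain ⟨C, hC, hcov⟩ := sigma_cover μ hO hOf (interior_mem_nhds.2 hN)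
  have step : ∀ (n : ℕ) (T : Set G), ∃ L : Set G, (IsCompact T ∧ T ⊆ C n) → IsCompact L ∧
      T ⊆ interior L ∧ μ L < μ T + ε n ∧ ∃ x : G, L ⊆ x • N := by
    intro n T
    by_cases h : IsCompact T ∧ T ⊆ C n
    · obtain ⟨x, hx⟩ := (hC n).2.2
      obtain ⟨H, s1, o1, m1⟩ := T.exists_isOpen_lt_add h.1.measure_lt_top.ne (hε n) (μ := μ)
      obtain ⟨L, c1, c2, c3⟩ := exists_compact_between h.1 (o1.inter (isOpen_interior.smul x))
        (subset_inter s1 (h.2.trans hx))
      exact ⟨L, fun _ => ⟨c1, c2, (measure_mono fun y hy => (c3 hy).1).trans_lt m1, x,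
        fun y hy => smul_set_mono interior_subset (c3 hy).2⟩⟩
    · exact ⟨∅, fun h' => absurd h' h⟩
  choose f hf using step
  let P : ℕ → Set G := fun n => Nat.rec ∅ (fun j S => S ∪ interior (f j (C j \ S))) n
  have hP : ∀ n, P (n + 1) = P n ∪ interior (f n (C n \ P n)) := fun n => rfl
  have oP : ∀ n, IsOpen (P n) := by
    intro n
    induction n with
    | zero => exact isOpen_empty
    | succ n ih => exact ih.union isOpen_interior
  have mP : Monotone P := monotone_nat_of_le_succ fun n => subset_union_left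
  have cT : ∀ n, IsCompact (C n \ P n) := fun n => (hC n).1.diff (oP n)
  have hf' := fun n => hf n (C n \ P n) ⟨cT n, sdiff_subset⟩
  refine ⟨fun n => f n (C n \ P n), fun n => μ (C n \ P n),
    fun n => ⟨(hf' n).1, (hf' n).2.2.1, (hf' n).2.2.2⟩, ?_, ?_⟩
  · have hd : Pairwise (Disjoint on fun n => C n \ P n) := by
      refine (pairwise_disjoint_on _).2 ?_
      intro i j hij
      refine Set.disjoint_left.2 fun y hy hy' => hy'.2 (mP hij ?_)
      exact Or.inr ((hf' i).2.1 hy)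
    rw [← measure_iUnion hd fun n => (cT n).measurableSet]
    refine (measure_le_inter_add_sdiff μ _ O).trans ?_
    have : μ ((⋃ n, C n \ P n) \ O) = 0 := by
      refine measure_mono_null (t := ⋃ n, C n \ O) ?_ (measure_iUnion_null fun n => (hC n).2.1)
      rintro y ⟨hy, hy'⟩
      obtain ⟨n, hn⟩ := mem_iUnion.1 hy
      exact mem_iUnion.2 ⟨n, hn.1, hy'⟩
    rw [this, add_zero]
    exact measure_mono inter_subset_right
  · have hs : ∀ n, P n ⊆ ⋃ n, f n (C n \ P n) := by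
      intro n
      induction n with
      | zero => exact empty_subset _
      | succ n ih =>
        exact union_subset ih (interior_subset.trans (subset_iUnion (fun n => f n (C n \ P n)) n))
    intro y hy
    obtain ⟨n, hn⟩ := mem_iUnion.1 (hcov hy)
    rcases em (y ∈ P n) with h | h
    · exact hs n h
    · exact hs (n + 1) (Or.inr ((hf' n).2.1 ⟨hn, h⟩))

theorem emb_small {U : Set G} (hU : IsOpen U) (hne : U.Nonempty) :
    ∃ δ : ℝ≥0∞, δ ≠ 0 ∧ ∀ O : Set G, IsOpen O → μ O < δ → Emb O U := by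
  obtain ⟨u, hu⟩ := hne
  obtain ⟨D, nD, sD, cD⟩ := local_compact_nhds (hU.mem_nhds hu)
  obtain ⟨K0, nK0, tK0⟩ := compact_open_separated_mul_right cD hU sD
  obtain ⟨K, nK, sK, cK⟩ := local_compact_nhds nK0
  have hDU : D * K ⊆ U := (mul_subset_mul_left sK).trans tK0
  obtain ⟨θ, hθ0, hθ⟩ := avg μ cD (Measure.measure_pos_of_mem_nhds μ nD).ne' (cK.mul cK)
  have hδ : θ / 5 ≠ 0 := (ENNReal.div_pos hθ0 (by simp)).ne'
  refine ⟨θ / 5, hδ, fun O hO hμ => ?_⟩
  obtain ⟨ε, hε, hs⟩ := ENNReal.exists_pos_sum_of_countable hδ ℕ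
  have hε' : ∀ n, (ε n : ℝ≥0∞) ≠ 0 := fun n => by simpa using (hε n).ne'
  obtain ⟨L, m, hL, hm, hcov⟩ := cover μ hO hμ.ne_top nK hε'
  set c : ℕ → ℝ≥0∞ := fun n => ε n + 2 * (m n + ε n) with hc
  have hcs : ∑' n, c n ≤ θ := by
    simp only [hc]
    rw [ENNReal.tsum_add, ENNReal.tsum_mul_left, ENNReal.tsum_add]
    calc _ ≤ θ / 5 + 2 * (θ / 5 + θ / 5) := by
          gcongr
          exact hm.trans hμ.le
      _ = 5 * (θ / 5) := by ring
      _ = θ := ENNReal.mul_div_cancel (by simp) (by simp)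
  have step : ∀ (n : ℕ) (Q : Set G), ∃ Q' : Set G,
      (IsCompact Q ∧ μ Q ≤ ∑ i ∈ Finset.range n, c i) →
      (IsCompact Q' ∧ μ Q' ≤ ∑ i ∈ Finset.range (n + 1), c i) ∧ Q ⊆ Q' ∧
        Emb (L n) ((U ∩ Q') \ Q) := by
    intro n Q
    by_cases h : IsCompact Q ∧ μ Q ≤ ∑ i ∈ Finset.range n, c i
    · obtain ⟨x, hx⟩ := (hL n).2.2
      have e : μ Q + ε n + 2 * (m n + ε n) ≤ ∑ i ∈ Finset.range (n + 1), c i := by
        rw [Finset.sum_range_succ, add_assoc]
        exact add_le_add h.2 le_rfl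
      obtain ⟨Q', c1, c2, c3, c4⟩ := place μ nK hDU hθ (hL n).1 h.1 hx
        (ENNReal.lt_add_right h.1.measure_lt_top.ne (hε' n)) (hL n).2.1
        (e.trans ((ENNReal.sum_le_tsum _).trans hcs))
      exact ⟨Q', fun _ => ⟨⟨c1, c3.trans e⟩, c2, c4⟩⟩
    · exact ⟨∅, fun h' => absurd h' h⟩
  choose f hf using step
  let Q : ℕ → Set G := fun n => Nat.rec ∅ f n
  have hQ : ∀ n, IsCompact (Q n) ∧ μ (Q n) ≤ ∑ i ∈ Finset.range n, c i := by
    intro n
    induction n with
    | zero => exact ⟨isCompact_empty, by simp [Q]⟩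
    | succ n ih => exact (hf n (Q n) ih).1
  have mQ : Monotone Q := monotone_nat_of_le_succ fun n => (hf n (Q n) (hQ n)).2.1
  have := Emb.iUnion (T := L) (R := fun n => (U ∩ Q (n + 1)) \ Q n)
    (fun n => (hf n (Q n) (hQ n)).2.2) (by
      refine (pairwise_disjoint_on _).2 ?_
      intro i j hij
      exact Set.disjoint_left.2 fun y hy hy' => hy'.2 (mQ hij hy.1.2))
  exact this.mono hcov (iUnion_subset fun n y hy => hy.1.1)

omit [T2Space G] [LocallyCompactSpace G] in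
theorem Emb.partition {E U : Set G} (hE : MeasurableSet E) (h : Emb E U) :
    ∃ F : Set G, F ⊆ U ∧ ∃ (A B : ℕ → Set G) (g : ℕ → G),
      (∀ i, MeasurableSet (A i)) ∧ (∀ i, MeasurableSet (B i)) ∧
      Pairwise (fun i j => Disjoint (A i) (A j)) ∧ Pairwise (fun i j => Disjoint (B i) (B j)) ∧
      (⋃ i, A i) = E ∧ (⋃ i, B i) = F ∧ ∀ i, (fun x => g i * x) '' A i = B i := by
  obtain ⟨s, h1, h2, h3, h4⟩ := h
  obtain ⟨f, hf⟩ := (h1.insert ((1 : G), (∅ : Set G))).exists_eq_range (insert_nonempty _ _)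
  have hm : ∀ n, f n = (1, ∅) ∨ f n ∈ s := fun n => by
    have : f n ∈ insert ((1 : G), (∅ : Set G)) s := hf ▸ mem_range_self n
    exact this
  have m1 : ∀ n, MeasurableSet (f n).2 := fun n => by
    rcases hm n with h | h
    · rw [h]; exact MeasurableSet.empty
    · exact (h2 _ h).1
  have m2 : ∀ n, (f n).1 • (f n).2 ⊆ U := fun n => by
    rcases hm n with h | h
    · rw [h]; simp
    · exact (h2 _ h).2
  set A : ℕ → Set G := fun n => E ∩ disjointed (fun n => (f n).2) n with hA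
  have mA : ∀ n, MeasurableSet (A n) := fun n => hE.inter (MeasurableSet.disjointed m1 n)
  have sA : ∀ n, A n ⊆ (f n).2 := fun n =>
    inter_subset_right.trans (disjointed_subset (fun n => (f n).2) n)
  have dA : Pairwise (fun i j => Disjoint (A i) (A j)) := fun i j hij =>
    Disjoint.mono inter_subset_right inter_subset_right (disjoint_disjointed _ hij)
  refine ⟨⋃ n, (f n).1 • A n, iUnion_subset fun n => (smul_set_mono (sA n)).trans (m2 n),
    A, fun n => (f n).1 • A n, fun n => (f n).1, mA, fun n => (mA n).const_smul _, dA, ?_, ?_,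
    rfl, fun n => rfl⟩
  · intro i j hij
    by_cases e : f i = f j
    · show Disjoint ((f i).1 • A i) ((f j).1 • A j)
      rw [e]
      exact Set.disjoint_smul_set.2 (dA hij)
    · refine Disjoint.mono (smul_set_mono (sA i)) (smul_set_mono (sA j)) ?_
      rcases hm i with h | h
      · rw [h]; simp
      rcases hm j with h' | h'
      · rw [h']; simp
      exact h3 h h' e
  · rw [hA, ← inter_iUnion, iUnion_disjointed]
    refine inter_eq_left.2 fun y hy => ?_
    have := h4 hy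
    simp only [mem_iUnion] at this ⊢
    obtain ⟨p, hp, hyp⟩ := this
    have : p ∈ range f := hf ▸ Or.inr hp
    obtain ⟨n, rfl⟩ := this
    exact ⟨n, hyp⟩

end Pool.Agent.Lead.HaarPack
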