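import Pool.Agent.H13.Kron

set_option autoImplicit false

open MeasureTheory Set Filter Topology
open scoped ENNReal

namespace Pool.Agent.Lead.Haight

lemma many_primes (h M0 : ℕ) :
    ∃ M, M0 ≤ M ∧ h ≤ ((Finset.Ioc M (2 * M)).filter Nat.Prime).card := by
  by_contra hc
  push Not at hc
  set M := M0 + 4 * h + 1 with hM
  have hM0 : (0 : ℝ) < M := by positivity
  have key : ∀ j : ℕ, ∑ p ∈ (Finset.Ioc M (2 ^ j * M)).filter Nat.Prime, (1 / p : ℝ) ≤
      h / M * (2 - 2 / 2 ^ j) := by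
    intro j
    induction j with
    | zero => simp
    | succ j ih =>
      have h1 : M ≤ 2 ^ j * M := Nat.le_mul_of_pos_left _ (by positivity)
      have h2 : 2 ^ j * M ≤ 2 ^ (j + 1) * M := by rw [pow_succ]; nlinarith
      rw [← Finset.Ioc_union_Ioc_eq_Ioc h1 h2, Finset.filter_union, Finset.sum_union
        (Finset.disjoint_filter_filter (Finset.Ioc_disjoint_Ioc_of_le le_rfl))]
      have h3 : ∑ p ∈ (Finset.Ioc (2 ^ j * M) (2 ^ (j + 1) * M)).filter Nat.Prime, (1 / p : ℝ) ≤
          h * (1 / (2 ^ j * M)) := by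
        refine (Finset.sum_le_card_nsmul _ _ (1 / (2 ^ j * M) : ℝ) ?_).trans ?_
        · intro p hp
          have := (Finset.mem_Ioc.1 (Finset.mem_filter.1 hp).1).1
          apply one_div_le_one_div_of_le (by positivity)
          exact_mod_cast this.le
        · rw [nsmul_eq_mul]
          have := (hc (2 ^ j * M) (by omega)).le
          rw [show 2 * (2 ^ j * M) = 2 ^ (j + 1) * M by ring] at this
          gcongr
      refine (add_le_add ih h3).trans (le_of_eq ?_)
      field_simp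
      ring
  have h1 := one_half_le_sum_primes_ge_one_div (M + 1)
  set T := 4 ^ ((M + 1).primesBelow.card + 1) with hT
  have h2 := key T
  have h3 : ∑ p ∈ T.succ.primesBelow \ (M + 1).primesBelow, (1 / p : ℝ) ≤
      ∑ p ∈ (Finset.Ioc M (2 ^ T * M)).filter Nat.Prime, (1 / p : ℝ) := by
    refine Finset.sum_le_sum_of_subset_of_nonneg ?_ fun _ _ _ => by positivity
    intro p hp
    simp only [Finset.mem_sdiff, Nat.mem_primesBelow, not_and, Finset.mem_filter,
      Finset.mem_Ioc] at hp ⊢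
    have a1 : T < 2 ^ T := Nat.lt_two_pow_self
    have a2 : 2 ^ T ≤ 2 ^ T * M := Nat.le_mul_of_pos_right _ (by omega)
    refine ⟨⟨?_, by omega⟩, hp.1.2⟩
    by_contra hh
    exact hp.2 (by omega) hp.1.2
  have h4 : (h : ℝ) / M * (2 - 2 / 2 ^ T) ≤ h / M * 2 := by
    gcongr
    have : (0 : ℝ) ≤ 2 / 2 ^ T := by positivity
    linarith
  have h5 : (h : ℝ) / M * 2 < 1 / 2 := by
    rw [div_mul_eq_mul_div, div_lt_iff₀ hM0, hM]
    push_cast
    have : (0 : ℝ) ≤ M0 := by positivity
    linarith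
  linarith

lemma log_indep {d : Type} [Fintype d] (q : d → ℕ) (hq : ∀ i, (q i).Prime)
    (hi : Function.Injective q) (n : d → ℤ) (h : ∑ i, (n i : ℝ) * Real.log (q i) = 0) : n = 0 := by
  classical
  have e : ∏ i, q i ^ (n i).toNat = ∏ i, q i ^ (-n i).toNat := by
    have hp : ∀ i, (0 : ℝ) < q i := fun i => by exact_mod_cast (hq i).pos
    have : (∏ i, (q i : ℝ) ^ (n i).toNat) = ∏ i, (q i : ℝ) ^ (-n i).toNat := by
      apply Real.log_injOn_pos (Finset.prod_pos fun i _ => pow_pos (hp i) _)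
        (Finset.prod_pos fun i _ => pow_pos (hp i) _)
      rw [Real.log_prod fun i _ => (pow_pos (hp i) _).ne',
        Real.log_prod fun i _ => (pow_pos (hp i) _).ne', ← sub_eq_zero, ← Finset.sum_sub_distrib,
        ← h]
      refine Finset.sum_congr rfl fun i _ => ?_
      rw [Real.log_pow, Real.log_pow, ← sub_mul]
      congr 1
      have := Int.toNat_sub_toNat_neg (n i)
      exact_mod_cast this
    exact_mod_cast this
  funext j
  have f : ∀ a : d → ℕ, (∏ i, q i ^ a i).factorization (q j) = a j := by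
    intro a
    rw [Nat.factorization_prod fun i _ => (pow_pos (hq i).pos _).ne', Finset.sum_apply',
      Finset.sum_eq_single j]
    · simp [(hq j).factorization]
    · intro i _ hij
      simp [(hq i).factorization, hi.ne hij]
    · simp
  have := f (fun i => (n i).toNat)
  rw [e, f] at this
  simp only [Pi.zero_apply]
  omega

lemma kron_log {d : Type} [Fintype d] (q : d → ℕ) (hq : ∀ i, (q i).Prime)
    (hi : Function.Injective q) (θ : d → UnitAddCircle) {η : ℝ} (hη : 0 < η) :
    ∃ ξ : ℝ, (ξ = 0 ∨ 1 ≤ |ξ|) ∧ ∀ i, ‖((ξ * Real.log (q i) : ℝ) : UnitAddCircle) - θ i‖ < η := by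
  have hc : (range fun p : (d → ℤ) × ℤ => (p.2 : ℝ) / ∑ i, (p.1 i : ℝ) * Real.log (q i)).Countable :=
    countable_range _
  obtain ⟨g, hg, hg1⟩ := (hc.dense_compl ℝ).exists_mem_open (isOpen_Ioi (a := (1 : ℝ)))
    nonempty_Ioi
  set γ : UnitAddTorus d := fun i => ((g * Real.log (q i) : ℝ) : UnitAddCircle) with hγ
  have htop := Pool.Agent.H13.Kron.kron (fun i => g * Real.log (q i)) (by
      intro n hn k hk
      have h0 : ∑ i, (n i : ℝ) * Real.log (q i) ≠ 0 := fun h => hn (log_indep q hq hi n h)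
      refine hg ⟨(n, k), ?_⟩
      simp only
      rw [div_eq_iff h0, ← hk, Finset.mul_sum]
      exact Finset.sum_congr rfl fun i _ => by ring)
    (AddSubgroup.zmultiples γ).topologicalClosure (AddSubgroup.isClosed_topologicalClosure _)
    (AddSubgroup.le_topologicalClosure _ (AddSubgroup.mem_zmultiples γ))
  have hm : θ ∈ closure (AddSubgroup.zmultiples γ : Set (UnitAddTorus d)) := by
    have : θ ∈ (AddSubgroup.zmultiples γ).topologicalClosure := by rw [htop]; trivial
    exact this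
  obtain ⟨_, ⟨m, rfl⟩, hd⟩ := Metric.mem_closure_iff.1 hm η hη
  refine ⟨m * g, ?_, fun i => ?_⟩
  · by_cases h0 : m = 0
    · left; simp [h0]
    · right
      rw [abs_mul]
      have a1 : (1 : ℝ) ≤ |(m : ℝ)| := by exact_mod_cast Int.one_le_abs h0
      have a2 : (1 : ℝ) ≤ |g| := (le_of_lt hg1).trans (le_abs_self g)
      nlinarith
  · have := (dist_le_pi_dist θ (m • γ) i).trans_lt hd
    rw [dist_comm, dist_eq_norm] at this
    have e : (m • γ) i = (((m : ℝ) * g * Real.log (q i) : ℝ) : UnitAddCircle) := by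
      rw [Pi.smul_apply, hγ]
      simp only
      rw [← AddCircle.coe_zsmul, zsmul_eq_mul, mul_assoc]
    rwa [← e]

lemma vol_bound {ξ δ : ℝ} (hξ : 1 ≤ |ξ|) (hδ : 0 ≤ δ) (hδ1 : δ ≤ 1) :
    volume {t ∈ Icc (1 : ℝ) 2 | ‖((ξ * Real.log t : ℝ) : UnitAddCircle)‖ ≤ δ} ≤
      ENNReal.ofReal (28 * δ) := by
  set K : ℕ := ⌈|ξ|⌉₊ + 1 with hK
  have hKξ : (K : ℝ) ≤ 3 * |ξ| := by
    have := (Nat.ceil_lt_add_one (abs_nonneg ξ)).le
    rw [hK]; push_cast; linarith
  have hKξ' : |ξ| + 1 ≤ K := by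
    have := Nat.le_ceil |ξ|
    rw [hK]; push_cast; linarith
  have hsub : {t ∈ Icc (1 : ℝ) 2 | ‖((ξ * Real.log t : ℝ) : UnitAddCircle)‖ ≤ δ} ⊆
      ⋃ k ∈ Finset.Icc (-(K : ℤ)) K, {t ∈ Icc (1 : ℝ) 2 | |ξ * Real.log t - k| ≤ δ} := by
    rintro t ⟨ht, h⟩
    rw [UnitAddCircle.norm_eq] at h
    have l0 : 0 ≤ Real.log t := Real.log_nonneg ht.1
    have l1 : Real.log t ≤ 1 := by
      have := Real.log_le_sub_one_of_pos (show 0 < t by linarith [ht.1])
      linarith [ht.2]
    have l2 : |ξ * Real.log t| ≤ |ξ| := by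
      rw [abs_mul, abs_of_nonneg l0]; nlinarith [abs_nonneg ξ]
    simp only [mem_iUnion, Finset.mem_Icc]
    refine ⟨round (ξ * Real.log t), ?_, ht, h⟩
    have a := abs_le.1 h
    have b := abs_le.1 l2
    constructor
    · have : (-(K : ℝ)) ≤ (round (ξ * Real.log t) : ℝ) := by linarith
      exact_mod_cast this
    · have : (round (ξ * Real.log t) : ℝ) ≤ K := by linarith
      exact_mod_cast this
  have hpiece : ∀ k : ℤ, volume {t ∈ Icc (1 : ℝ) 2 | |ξ * Real.log t - k| ≤ δ} ≤
      ENNReal.ofReal (4 * δ / |ξ|) := by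
    intro k
    refine (Real.volume_le_diam _).trans (Metric.ediam_le ?_)
    have aux : ∀ s t : ℝ, s ∈ Icc (1 : ℝ) 2 → t ∈ Icc (1 : ℝ) 2 →
        s - t ≤ 2 * |Real.log s - Real.log t| := by
      intro s t hs ht
      have s0 : 0 < s := by linarith [hs.1]
      have t0 : 0 < t := by linarith [ht.1]
      have := Real.log_le_sub_one_of_pos (div_pos t0 s0)
      rw [Real.log_div t0.ne' s0.ne'] at this
      have e : s - t = s * (1 - t / s) := by field_simp
      have a := le_abs_self (Real.log s - Real.log t)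
      have b := abs_nonneg (Real.log s - Real.log t)
      rw [e]
      nlinarith [hs.2]
    rintro s ⟨hs, hs'⟩ t ⟨ht, ht'⟩
    rw [edist_dist, Real.dist_eq]
    apply ENNReal.ofReal_le_ofReal
    have l : |Real.log s - Real.log t| ≤ 2 * δ / |ξ| := by
      rw [le_div_iff₀ (by linarith), ← abs_mul]
      have a := abs_le.1 hs'
      have b := abs_le.1 ht'
      rw [abs_le]; constructor <;> nlinarith
    have a := aux s t hs ht
    have b := aux t s ht hs
    rw [abs_sub_comm] at b
    have e : 4 * δ / |ξ| = 2 * (2 * δ / |ξ|) := by ring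
    rw [abs_le, e]; constructor <;> linarith
  refine (measure_mono hsub).trans ((measure_biUnion_finset_le _ _).trans ?_)
  refine (Finset.sum_le_card_nsmul _ _ _ fun k _ => hpiece k).trans ?_
  rw [nsmul_eq_mul, ← ENNReal.ofReal_natCast, ← ENNReal.ofReal_mul (by positivity)]
  apply ENNReal.ofReal_le_ofReal
  have hc : ((Finset.Icc (-(K : ℤ)) K).card : ℝ) = 2 * K + 1 := by
    rw [Int.card_Icc]
    have : ((K : ℤ) + 1 - -(K : ℤ)).toNat = 2 * K + 1 := by omega
    rw [this]; push_cast; ring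
  rw [hc, mul_div_assoc', div_le_iff₀ (by linarith)]
  nlinarith

lemma norm_le_int (a : ℝ) (z : ℤ) : ‖(a : UnitAddCircle)‖ ≤ |a - z| := by
  rw [UnitAddCircle.norm_eq]; exact round_le a z

lemma stage (h M0 : ℕ) (hh : 2 ≤ h) :
    ∃ ξ : ℝ, 1 ≤ |ξ| ∧ ∀ x : ℝ, 0 < x → ∃ p : ℕ, M0 < p ∧ ∀ r : ℕ, 1 ≤ r → 2 * r ≤ p →
      ‖((ξ * Real.log (p * x / r) : ℝ) : UnitAddCircle)‖ ≤ 3 / h := by
  classical
  obtain ⟨M, hM, hc⟩ := many_primes h (M0 + 1)
  obtain ⟨P, hP, hPc⟩ := Finset.exists_subset_card_eq hc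
  set e : Fin h → ℕ := fun j => P.orderEmbOfFin hPc j with he
  have e1 : ∀ j, (M < e j ∧ e j ≤ 2 * M) ∧ (e j).Prime := fun j => by
    have := hP (P.orderEmbOfFin_mem hPc j)
    simpa only [Finset.mem_filter, Finset.mem_Ioc] using this
  have e2 : Function.Injective e := (P.orderEmbOfFin hPc).injective
  have h0 : (0 : ℝ) < h := by positivity
  have M1 : (1 : ℝ) ≤ M := by exact_mod_cast (by omega : 1 ≤ M)
  set η : ℝ := 1 / (h * M) with hη
  have η0 : 0 < η := by positivity
  have η1 : M * η = 1 / h := by rw [hη]; field_simp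
  have η2 : η ≤ 1 / h := by nlinarith
  obtain ⟨ξ, hξ, hk⟩ := kron_log
    (d := Fin h ⊕ {q // q ∈ (Finset.range (M + 1)).filter Nat.Prime}) (Sum.elim e Subtype.val)
    (by
      rintro (j | q)
      · exact (e1 j).2
      · exact (Finset.mem_filter.1 q.2).2)
    (by
      refine Function.Injective.sumElim e2 Subtype.val_injective fun j q hjq => ?_
      have := Finset.mem_range.1 (Finset.mem_filter.1 q.2).1
      have := (e1 j).1.1
      omega)
    (Sum.elim (fun j => (((j : ℝ) / h : ℝ) : UnitAddCircle)) 0) η0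
  have small : ∀ r : ℕ, 1 ≤ r → r ≤ M → ‖((ξ * Real.log r : ℝ) : UnitAddCircle)‖ ≤ r * η := by
    intro r
    induction r using Nat.strong_induction_on with
    | _ r ih =>
      intro r1 rM
      by_cases hr : r = 1
      · subst hr; simp [η0.le]
      obtain ⟨q, hq, s, rfl⟩ := Nat.exists_prime_and_dvd hr
      have q2 := hq.two_le
      have s1 : 1 ≤ s := Nat.pos_of_ne_zero (by rintro rfl; simp at r1)
      have a1 : s + 1 ≤ q * s := by nlinarith
      have a2 : q ≤ q * s := Nat.le_mul_of_pos_right _ s1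
      have b1 := ih s (by omega) s1 (by omega)
      have b2 := hk (Sum.inr ⟨q, Finset.mem_filter.2 ⟨Finset.mem_range.2 (by omega), hq⟩⟩)
      simp only [Sum.elim_inr, Pi.zero_apply, sub_zero] at b2
      rw [Nat.cast_mul, Real.log_mul (by positivity) (by positivity), mul_add, AddCircle.coe_add]
      refine (norm_add_le _ _).trans ?_
      have a3 : (s : ℝ) + 1 ≤ q * s := by exact_mod_cast a1
      nlinarith
  refine ⟨ξ, hξ.resolve_left ?_, fun x hx => ?_⟩
  · rintro rfl
    have b := hk (Sum.inl ⟨1, by omega⟩)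
    simp only [Sum.elim_inl, zero_mul, AddCircle.coe_zero, zero_sub, norm_neg, Nat.cast_one] at b
    have h2 : (2 : ℝ) ≤ h := by exact_mod_cast hh
    have c : |(1 / h : ℝ)| ≤ |(1 : ℝ)| / 2 := by
      rw [abs_of_pos (by positivity), abs_one]
      exact one_div_le_one_div_of_le (by norm_num) h2
    rw [(AddCircle.norm_coe_eq_abs_iff (1 : ℝ) one_ne_zero).2 c, abs_of_pos (by positivity)] at b
    linarith
  · set y : ℝ := -(ξ * Real.log x) with hy
    have f0 := Int.fract_nonneg y
    have f1 := Int.fract_lt_one y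
    have jl : ⌊h * Int.fract y⌋₊ < h := by
      rw [Nat.floor_lt (by positivity)]; nlinarith
    set j : Fin h := ⟨_, jl⟩ with hj
    have b1 : ‖(((j : ℝ) / h + ξ * Real.log x : ℝ) : UnitAddCircle)‖ ≤ 1 / h := by
      refine (norm_le_int _ (-⌊y⌋)).trans ?_
      have c1 : (j : ℝ) ≤ h * Int.fract y := Nat.floor_le (by positivity)
      have c2 : h * Int.fract y < (j : ℝ) + 1 := Nat.lt_floor_add_one _
      have c3 : (j : ℝ) / h + ξ * Real.log x - ((-⌊y⌋ : ℤ) : ℝ) = (j - h * Int.fract y) / h := by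
        rw [Int.fract, hy]; push_cast; field_simp; ring
      rw [c3, abs_div, abs_of_pos h0]
      gcongr
      rw [abs_le]; constructor <;> linarith
    refine ⟨e j, by have := (e1 j).1.1; omega, fun r r1 r2 => ?_⟩
    have rM : r ≤ M := by have := (e1 j).1.2; omega
    have b2 := hk (Sum.inl j)
    simp only [Sum.elim_inl] at b2
    have b3 := small r r1 rM
    have p0 : (0 : ℝ) < e j := by exact_mod_cast (e1 j).2.pos
    have r0 : (0 : ℝ) < r := by exact_mod_cast r1
    have c : ((ξ * Real.log (e j * x / r) : ℝ) : UnitAddCircle) =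
        (((ξ * Real.log (e j) : ℝ) : UnitAddCircle) - (((j : ℝ) / h : ℝ) : UnitAddCircle)) +
        (((j : ℝ) / h + ξ * Real.log x : ℝ) : UnitAddCircle) -
        ((ξ * Real.log r : ℝ) : UnitAddCircle) := by
      rw [← AddCircle.coe_sub, ← AddCircle.coe_add, ← AddCircle.coe_sub,
        Real.log_div (by positivity) r0.ne', Real.log_mul p0.ne' hx.ne']
      congr 1; ring
    rw [c]
    refine (norm_sub_le _ _).trans ((add_le_add (norm_add_le _ _) le_rfl).trans ?_)
    have rM' : (r : ℝ) ≤ M := by exact_mod_cast rM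
    have : (3 : ℝ) / h = 1 / h + 1 / h + 1 / h := by ring
    nlinarith

end Pool.Agent.Lead.Haight
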