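import Mathlib

open MonoidAlgebra

namespace Pool.Agent.Lead.Heis

/-- The discrete Heisenberg group: `(i, j, l)` stands for `y^j z^l x^i`. -/
@[ext] structure Q where
  i : ℤ
  j : ℤ
  l : ℤ

instance : Mul Q := ⟨fun a b => ⟨a.i + b.i, a.j + b.j, a.l + b.l + a.i * b.j⟩⟩
instance : One Q := ⟨⟨0, 0, 0⟩⟩
instance : Inv Q := ⟨fun a => ⟨-a.i, -a.j, -a.l + a.i * a.j⟩⟩

@[simp] lemma mul_i (a b : Q) : (a * b).i = a.i + b.i := rfl
@[simp] lemma mul_j (a b : Q) : (a * b).j = a.j + b.j := rfl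
@[simp] lemma mul_l (a b : Q) : (a * b).l = a.l + b.l + a.i * b.j := rfl
@[simp] lemma one_i : (1 : Q).i = 0 := rfl
@[simp] lemma one_j : (1 : Q).j = 0 := rfl
@[simp] lemma one_l : (1 : Q).l = 0 := rfl
@[simp] lemma inv_i (a : Q) : a⁻¹.i = -a.i := rfl
@[simp] lemma inv_j (a : Q) : a⁻¹.j = -a.j := rfl
@[simp] lemma inv_l (a : Q) : a⁻¹.l = -a.l + a.i * a.j := rfl

instance : Group Q := Group.ofLeftAxioms
  (fun a b c => by ext <;> simp <;> ring) (fun a => by ext <;> simp)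
  (fun a => by ext <;> simp)

def qx : Q := ⟨1, 0, 0⟩
def qy : Q := ⟨0, 1, 0⟩
def qz : Q := ⟨0, 0, 1⟩

lemma zpow_ij (p : Q) (n : ℤ) : (p ^ n).i = n * p.i ∧ (p ^ n).j = n * p.j := by
  induction n using Int.induction_on with
  | zero => simp
  | succ n ih => rw [zpow_add_one]; simp only [mul_i, mul_j, ih.1, ih.2]; constructor <;> ring
  | pred n ih => rw [zpow_sub_one]; simp only [mul_i, mul_j, ih.1, ih.2, inv_i, inv_j]; constructor <;> ring

lemma zpow_c (d : ℤ) (n : ℤ) : (⟨0, 0, d⟩ : Q) ^ n = ⟨0, 0, n * d⟩ := by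
  induction n using Int.induction_on with
  | zero => ext <;> simp
  | succ n ih => rw [zpow_add_one, ih]; ext <;> simp; ring
  | pred n ih => rw [zpow_sub_one, ih]; ext <;> simp; ring

/-- The endomorphism with `x ↦ p`, `y ↦ q`. -/
def endo (p q : Q) : Q →* Q := MonoidHom.mk'
  (fun g => q ^ g.j * ⟨0, 0, g.l * (p.i * q.j - p.j * q.i)⟩ * p ^ g.i) (by
    intro a b
    simp only [mul_i, mul_j, mul_l, zpow_add]
    have h1 := zpow_ij p a.i
    have h2 := zpow_ij q b.j
    generalize p ^ a.i = A at *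
    generalize q ^ b.j = B at *
    generalize p ^ b.i = C at *
    generalize q ^ a.j = D at *
    ext <;> simp [h1.1, h1.2, h2.1, h2.2] <;> ring)

lemma endo_x (p q : Q) : endo p q qx = p := by
  ext <;> simp [endo, qx]
lemma endo_y (p q : Q) : endo p q qy = q := by
  ext <;> simp [endo, qy]

lemma normal_form (g : Q) : g = qy ^ g.j * (qx * qy * qx⁻¹ * qy⁻¹) ^ g.l * qx ^ g.i := by
  have h : qx * qy * qx⁻¹ * qy⁻¹ = ⟨0, 0, 1⟩ := by ext <;> simp [qx, qy]
  have hx : ∀ n : ℤ, qx ^ n = ⟨n, 0, 0⟩ := by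
    intro n
    induction n using Int.induction_on with
    | zero => ext <;> simp
    | succ n ih => rw [zpow_add_one, ih]; ext <;> simp [qx]
    | pred n ih => rw [zpow_sub_one, ih]; ext <;> simp [qx]; ring
  have hy : ∀ n : ℤ, qy ^ n = ⟨0, n, 0⟩ := by
    intro n
    induction n using Int.induction_on with
    | zero => ext <;> simp
    | succ n ih => rw [zpow_add_one, ih]; ext <;> simp [qy]
    | pred n ih => rw [zpow_sub_one, ih]; ext <;> simp [qy]; ring
  rw [h, zpow_c, hx, hy]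
  ext <;> simp

abbrev R : Type := MonoidAlgebra ℤ Q

/-- lexicographic comparison -/
def le' (a b : Q) : Prop := a.i < b.i ∨ (a.i = b.i ∧ (a.j < b.j ∨ (a.j = b.j ∧ a.l ≤ b.l)))

lemma exists_max (s : Finset Q) (hs : s.Nonempty) : ∃ a ∈ s, ∀ b ∈ s, le' b a := by
  obtain ⟨a, ha, h⟩ := s.exists_max_image (fun a => toLex (a.i, toLex (a.j, a.l))) hs
  refine ⟨a, ha, fun b hb => ?_⟩
  have := h b hb
  simp only [Prod.Lex.toLex_le_toLex] at this
  exact this

lemma exists_min (s : Finset Q) (hs : s.Nonempty) : ∃ a ∈ s, ∀ b ∈ s, le' a b := by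
  obtain ⟨a, ha, h⟩ := s.exists_min_image (fun a => toLex (a.i, toLex (a.j, a.l))) hs
  refine ⟨a, ha, fun b hb => ?_⟩
  have := h b hb
  simp only [Prod.Lex.toLex_le_toLex] at this
  exact this

lemma uniq {a b a0 b0 : Q} (ha : le' a a0) (hb : le' b b0) (h : a * b = a0 * b0) :
    a = a0 ∧ b = b0 := by
  have h1 := congrArg Q.i h
  have h2 := congrArg Q.j h
  have h3 := congrArg Q.l h
  simp only [mul_i, mul_j, mul_l] at h1 h2 h3
  unfold le' at ha hb
  have e1 : a.i = a0.i := by omega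
  have e2 : b.j = b0.j := by omega
  rw [e1, e2] at h3
  constructor <;> ext <;> omega

lemma supp_ne {t : R} (ht : t ≠ 0) : t.coeff.support.Nonempty := by
  rw [Finsupp.support_nonempty_iff]
  simpa using ht

lemma mul_top {t s : R} (ht : t ≠ 0) (hs : s ≠ 0) : ∃ a b : Q, (t * s).coeff (a * b) ≠ 0 ∧
    a ∈ t.coeff.support ∧ b ∈ s.coeff.support ∧ (∀ a' ∈ t.coeff.support, a'.i ≤ a.i) ∧
    (∀ b' ∈ s.coeff.support, b'.i ≤ b.i) := by
  obtain ⟨a, ha, h1⟩ := exists_max _ (supp_ne ht)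
  obtain ⟨b, hb, h2⟩ := exists_max _ (supp_ne hs)
  refine ⟨a, b, ?_, ha, hb, fun x hx => ?_, fun x hx => ?_⟩
  · rw [coeff_mul_mul_of_uniqueMul fun a' b' ha' hb' h => uniq (h1 _ ha') (h2 _ hb') h]
    exact mul_ne_zero (Finsupp.mem_support_iff.1 ha) (Finsupp.mem_support_iff.1 hb)
  · have := h1 x hx; unfold le' at this; omega
  · have := h2 x hx; unfold le' at this; omega

lemma mul_bot {t s : R} (ht : t ≠ 0) (hs : s ≠ 0) : ∃ a b : Q, (t * s).coeff (a * b) ≠ 0 ∧
    a ∈ t.coeff.support ∧ b ∈ s.coeff.support ∧ (∀ a' ∈ t.coeff.support, a.i ≤ a'.i) ∧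
    (∀ b' ∈ s.coeff.support, b.i ≤ b'.i) := by
  obtain ⟨a, ha, h1⟩ := exists_min _ (supp_ne ht)
  obtain ⟨b, hb, h2⟩ := exists_min _ (supp_ne hs)
  refine ⟨a, b, ?_, ha, hb, fun x hx => ?_, fun x hx => ?_⟩
  · rw [coeff_mul_mul_of_uniqueMul fun a' b' ha' hb' h => by
      have := uniq (h1 _ ha') (h2 _ hb') h.symm
      exact ⟨this.1.symm, this.2.symm⟩]
    exact mul_ne_zero (Finsupp.mem_support_iff.1 ha) (Finsupp.mem_support_iff.1 hb)
  · have := h1 x hx; unfold le' at this; omega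
  · have := h2 x hx; unfold le' at this; omega

lemma R_mul_ne {t s : R} (ht : t ≠ 0) (hs : s ≠ 0) : t * s ≠ 0 := by
  obtain ⟨a, b, h, -⟩ := mul_top ht hs
  intro h0
  rw [h0] at h
  simp at h

abbrev A2 : Type := Multiplicative (ℤ × ℤ)
abbrev S : Type := MonoidAlgebra ℤ A2

def i0 : A2 →* Q := MonoidHom.mk' (fun a => ⟨0, a.toAdd.1, a.toAdd.2⟩) (by
  intro a b; ext <;> simp)
def s0 : A2 →* A2 := MonoidHom.mk' (fun a => Multiplicative.ofAdd (a.toAdd.1, a.toAdd.2 + a.toAdd.1))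
  (by intro a b; apply Multiplicative.toAdd.injective; ext <;> simp; ring)

noncomputable def ι : S →+* R := mapDomainRingHom ℤ i0
noncomputable def σ : S →+* S := mapDomainRingHom ℤ s0
noncomputable def X : R := single qx 1

lemma ι_single (a : A2) (c : ℤ) : ι (single a c) = single (i0 a) c := by simp [ι]
lemma σ_single (a : A2) (c : ℤ) : σ (single a c) = single (s0 a) c := by simp [σ]

lemma X_comm (s : S) : X * ι s = ι (σ s) * X := by
  induction s using induction_linear with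
  | zero => simp
  | add a b ha hb => simp [mul_add, add_mul, ha, hb]
  | single a c =>
    rw [σ_single, ι_single, ι_single, X, single_mul_single, single_mul_single]
    congr 1
    · ext <;> simp [qx, i0, s0]
    · ring

lemma supp_ι (s : S) : ∀ g : Q, (ι s).coeff g ≠ 0 → g.i = 0 := by
  classical
  induction s using induction_linear with
  | zero => simp
  | add a b ha hb =>
    intro g hg
    by_contra h
    have h1 := mt (ha g) h
    have h2 := mt (hb g) h
    push Not at h1 h2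
    simp [h1, h2] at hg
  | single a c =>
    intro g hg
    rw [ι_single, coeff_single, Finsupp.single_apply] at hg
    split_ifs at hg with h
    · rw [← h]; rfl
    · simp at hg

lemma homog {t s : R} {c : S} (h : t * s = ι c) (hc : ι c ≠ 0) :
    ∃ d : ℤ, ∀ g ∈ t.coeff.support, g.i = d := by
  have ht : t ≠ 0 := by rintro rfl; simp at h; exact hc h.symm
  have hs : s ≠ 0 := by rintro rfl; simp at h; exact hc h.symm
  obtain ⟨a, b, h1, -, h3, h4, h5⟩ := mul_top ht hs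
  obtain ⟨a', b', h1', -, h3', h4', h5'⟩ := mul_bot ht hs
  rw [h] at h1 h1'
  have e1 := supp_ι c _ h1
  have e2 := supp_ι c _ h1'
  simp only [mul_i] at e1 e2
  refine ⟨a.i, fun g hg => ?_⟩
  have := h4 g hg
  have := h4' g hg
  have := h5 b' h3'
  omega

noncomputable def Z : S := single (Multiplicative.ofAdd (0, 1)) 1
noncomputable def Y : S := single (Multiplicative.ofAdd (1, -1)) 1
noncomputable def y : S := single (Multiplicative.ofAdd (1, 0)) 1

lemma ZY : y = Z * Y := by rw [Z, Y, y, single_mul_single]; rfl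
lemma σZ : σ Z = Z := by rw [Z, σ_single]; rfl
lemma σY : σ Y = Z * Y := by rw [← ZY, Y, σ_single]; rfl
lemma Zunit : IsUnit Z := IsUnit.of_mul_eq_one (single (Multiplicative.ofAdd (0, -1)) 1) (by
  rw [Z, single_mul_single]; rfl)
lemma Yunit : IsUnit Y := IsUnit.of_mul_eq_one (single (Multiplicative.ofAdd (-1, 1)) 1) (by
  rw [Y, single_mul_single]; rfl)

noncomputable def β : S := Z ^ 2 - 1
noncomputable def a0 : S := 1 + β * (y - 1) * (Z * y - 1)
noncomputable def a1 : S := 1 + β * (Y - 1) * (y - 1)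
noncomputable def ra : R := ι a0
noncomputable def rb : R := ι (β * (Z * y - 1)) - ι (β * (y - 1)) * X

lemma σβ : σ β = β := by simp [β, σZ]
lemma σa1 : σ a1 = a0 := by simp [a1, a0, σβ, σY, σZ, ZY]

lemma rb_mul (s : S) : rb * ι s = ι (β * (Z * y - 1) * s) - ι (β * (y - 1) * σ s) * X := by
  rw [rb, sub_mul, mul_assoc, X_comm, ← mul_assoc, ← map_mul, ← map_mul]

lemma coprime : ∃ e1 e2 : S, a0 * e1 + β * (Z * y - 1) * a1 * e2 = 1 := by
  have h1 : IsCoprime a0 (β * (Z * y - 1)) := ⟨1, -(y - 1), by simp only [a0]; ring⟩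
  have h2 : IsCoprime a0 (β * (y - 1)) := ⟨1, -(Z * y - 1), by simp only [a0]; ring⟩
  have h3 : IsCoprime a0 Y := by
    obtain ⟨u, hu⟩ := Yunit
    exact ⟨0, ↑u⁻¹, by simp [← hu]⟩
  have h4 : IsCoprime a0 (β * (β * (y - 1)) * Y) := (h2.of_mul_right_left.mul_right h2).mul_right h3
  have h5 : IsCoprime a0 a1 := by
    have : a1 = -(β * (β * (y - 1)) * Y) + a0 * 1 := by simp only [a0, a1, β, ZY]; ring
    rw [this]
    exact h4.neg_right.add_mul_left_right 1
  obtain ⟨p, q, h⟩ := h1.mul_right h5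
  exact ⟨p, q, by linear_combination h⟩

lemma unimod : ∃ c1 c2 : R, ra * c1 + rb * c2 = 1 := by
  obtain ⟨e1, e2, h⟩ := coprime
  refine ⟨ι e1 + ι (β * (y - 1) * σ e2) * X, ι (a1 * e2), ?_⟩
  rw [rb_mul, ra, mul_add, ← mul_assoc, ← map_mul, ← map_mul, map_mul σ, σa1]
  have : a0 * (β * (y - 1) * σ e2) = β * (y - 1) * (a0 * σ e2) := by ring
  have h' : ι (a0 * e1) + ι (β * (Z * y - 1) * (a1 * e2)) = 1 := by
    rw [← map_add, ← mul_assoc, h, map_one]
  rw [this, ← h']
  abel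

lemma ker1 : ∃ f : R, ra * f + rb * ι (a0 * a1) = 0 := by
  refine ⟨-(ι (β * (Z * y - 1) * a1) - ι (β * (y - 1) * σ a0) * X), ?_⟩
  rw [rb_mul, ra, mul_neg, mul_sub, ← mul_assoc, ← map_mul, ← map_mul, map_mul σ, σa1]
  have e1 : a0 * (β * (Z * y - 1) * a1) = β * (Z * y - 1) * (a0 * a1) := by ring
  have e2 : a0 * (β * (y - 1) * σ a0) = β * (y - 1) * (σ a0 * a0) := by ring
  rw [e1, e2]
  abel

lemma ker2 : ∃ (f : R) (g : S), ra * f + rb * (ι a0 + ι g * X) = 0 := by
  obtain ⟨e1, e2, h⟩ := coprime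
  set e := β * (y - 1) * σ a0 * e2 with he
  refine ⟨-(ι (β * (Z * y - 1))) + ι (β * (y - 1) * σ a0 * e1) * X
    + ι (β * (y - 1) * σ e) * X * X, a1 * e, ?_⟩
  rw [mul_add rb, ← mul_assoc rb, rb_mul, rb_mul, ra, mul_add, mul_add, mul_neg, ← mul_assoc,
    ← mul_assoc, ← mul_assoc, ← map_mul, ← map_mul, ← map_mul, map_mul σ a1, σa1, sub_mul]
  have k1 : a0 * (β * (Z * y - 1)) = β * (Z * y - 1) * a0 := by ring
  have k2 : a0 * (β * (y - 1) * σ e) = β * (y - 1) * (a0 * σ e) := by ring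
  have k3 : β * (Z * y - 1) * (a1 * e) = β * (y - 1) * σ a0 - a0 * (β * (y - 1) * σ a0 * e1) := by
    rw [he]; linear_combination (β * (y - 1) * σ a0) * h
  rw [k1, k2, k3, map_sub, sub_mul]
  abel

abbrev K : Type := ZMod 17
instance : Fact (Nat.Prime 17) := ⟨by norm_num⟩

lemma two_ne : (2 : K) ≠ 0 := by decide
lemma ft_ne : (14 : K) ≠ 0 := by decide

/-- a representation on sequences -/
noncomputable def ρ0 : Q →* Module.End K (ℤ → K) where
  toFun g :=
    { toFun := fun f n => 2 ^ g.l * (14 * 2 ^ n) ^ g.j * f (n + g.i)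
      map_add' := fun f f' => by funext n; simp [mul_add]
      map_smul' := fun c f => by funext n; simp; ring }
  map_one' := by ext f n; simp
  map_mul' g g' := by
    refine LinearMap.ext fun f => funext fun n => ?_
    simp only [mul_i, mul_j, mul_l, LinearMap.coe_mk, AddHom.coe_mk, Module.End.mul_apply]
    have h : (14 * 2 ^ n : K) ≠ 0 := mul_ne_zero ft_ne (zpow_ne_zero _ two_ne)
    rw [zpow_add₀ two_ne, zpow_add₀ two_ne, zpow_add₀ h, zpow_add₀ two_ne, ← mul_assoc (14 : K),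
      mul_zpow _ ((2 : K) ^ g.i), ← zpow_mul, add_assoc]
    ring

noncomputable def ρ : R →ₐ[ℤ] Module.End K (ℤ → K) := lift ℤ _ Q ρ0

noncomputable def ev (n : ℤ) : S →ₐ[ℤ] K := lift ℤ _ A2
  { toFun := fun a => 2 ^ a.toAdd.2 * (14 * 2 ^ n) ^ a.toAdd.1
    map_one' := by simp
    map_mul' := fun a b => by
      have h : (14 * 2 ^ n : K) ≠ 0 := mul_ne_zero ft_ne (zpow_ne_zero _ two_ne)
      simp only [toAdd_mul, Prod.snd_add, Prod.fst_add]
      rw [zpow_add₀ two_ne, zpow_add₀ h]; ring }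

lemma ρ_ι (s : S) (f : ℤ → K) (n : ℤ) : ρ (ι s) f n = ev n s * f n := by
  induction s using induction_linear with
  | zero => simp
  | add a b ha hb => simp [add_mul, ha, hb]
  | single a c =>
    rw [ι_single]
    simp [ρ, ev, ρ0, i0, mul_assoc]

lemma ρ_X (f : ℤ → K) (n : ℤ) : ρ X f n = f (n + 1) := by simp [ρ, X, ρ0, qx]

lemma ρ_homog {t : R} {d : ℤ} (h : ∀ g ∈ t.coeff.support, g.i = d) (f : ℤ → K) (n : ℤ) :
    ρ t f n = ρ t 1 n * f (n + d) := by
  simp only [ρ, lift_apply, Finsupp.sum, LinearMap.coe_sum, Finset.sum_apply, Finset.sum_mul]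
  refine Finset.sum_congr rfl fun g hg => ?_
  simp [ρ0, h g hg, mul_assoc]

lemma evZ (n : ℤ) : ev n Z = 2 := by simp [ev, Z]
lemma evy (n : ℤ) : ev n y = 14 * 2 ^ n := by simp [ev, y]
lemma ev0 : ev 0 a0 = 0 := by simp [a0, β, evZ, evy]; decide
lemma ev1 : ev 1 a0 ≠ 0 := by simp [a0, β, evZ, evy]; decide
lemma ev2 : ev 0 (β * (y - 1)) ≠ 0 := by
  simp only [β, map_mul, map_sub, map_pow, evZ, evy, map_one, zpow_zero]; decide

/-- The row `(ra, rb)` is not a row of an invertible matrix. -/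
lemma not_free (q t : R) (h0 : ra * q + rb * t = 0)
    (h : ∀ f g : R, ra * f + rb * g = 0 → ∃ c, g = t * c) : False := by
  classical
  obtain ⟨f1, h1⟩ := ker1
  obtain ⟨f2, g2, h2⟩ := ker2
  obtain ⟨c1, hc1⟩ := h _ _ h1
  obtain ⟨c2, hc2⟩ := h _ _ h2
  have hne : ι (a0 * a1) ≠ 0 := by
    intro h3
    have h4 := ρ_ι (a0 * a1) 1 2
    rw [h3] at h4
    have e : ev 2 Y * 2 = 14 * 2 ^ (2 : ℤ) := by rw [← evy, ZY, map_mul, evZ, mul_comm]
    have e2 : ev 2 Y = 28 := by
      apply mul_right_cancel₀ two_ne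
      rw [e]; norm_num
    simp only [map_zero, LinearMap.zero_apply, Pi.zero_apply, a0, a1, β, map_mul, map_add, map_one,
      map_sub, map_pow, evZ, evy, e2, Pi.one_apply] at h4
    norm_num at h4
    revert h4
    decide
  obtain ⟨d, hd⟩ := homog hc1.symm hne
  have h5 := congrArg (fun r : R => ρ r (Pi.single (1 + d) 1) 0) h0
  simp only [map_add, map_mul ρ, LinearMap.add_apply, Module.End.mul_apply, Pi.add_apply, ra, rb,
    map_sub ρ, LinearMap.sub_apply, Pi.sub_apply, ρ_ι, ev0, zero_mul, zero_add, ρ_X, map_zero,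
    LinearMap.zero_apply, Pi.zero_apply] at h5
  rw [ρ_homog hd, ρ_homog hd _ 1] at h5
  simp only [zero_add, Pi.single_eq_same, mul_one] at h5
  rw [Pi.single_eq_of_ne (by omega), mul_zero, mul_zero, zero_sub, neg_eq_zero] at h5
  have h6 : ρ t 1 1 = 0 := by
    rcases mul_eq_zero.1 h5 with h | h
    · exact absurd h ev2
    · exact h
  have h7 := congrArg (fun r : R => ρ r (Pi.single 1 1) 1) hc2
  simp only [map_add, map_mul, LinearMap.add_apply, Module.End.mul_apply, Pi.add_apply, ρ_ι,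
    ρ_X] at h7
  rw [ρ_homog hd, h6, Pi.single_eq_of_ne (by norm_num : (1 + 1 : ℤ) ≠ 1)] at h7
  exact ev1 (by simpa using h7)

end Pool.Agent.Lead.Heis
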