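import Mathlib

set_option autoImplicit false

open Polynomial

namespace Pool.Agent.Lead.JR

/-- Dickson polynomials -/
noncomputable def D (μ : ℚ) : ℕ → ℚ[X]
  | 0 => 2
  | 1 => X
  | n + 2 => X * D μ (n + 1) - C μ * D μ n

lemma D_eval (l : ℚ) (θ : ℝ) : ∀ n : ℕ,
    aeval (2 * (l : ℝ) * Real.cos θ) (D (l ^ 2) n) = 2 * (l : ℝ) ^ n * Real.cos (n * θ)
  | 0 => by simp [D, map_ofNat]
  | 1 => by simp [D]
  | n + 2 => by
    have h1 := D_eval l θ (n + 1)
    have h0 := D_eval l θ n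
    have e : Real.cos (((n + 2 : ℕ) : ℝ) * θ) =
        2 * Real.cos θ * Real.cos (((n + 1 : ℕ) : ℝ) * θ) - Real.cos (n * θ) := by
      have a1 : ((n + 2 : ℕ) : ℝ) * θ = ((n + 1 : ℕ) : ℝ) * θ + θ := by push_cast; ring
      have a2 : (n : ℝ) * θ = ((n + 1 : ℕ) : ℝ) * θ - θ := by push_cast; ring
      rw [a1, a2, Real.cos_add, Real.cos_sub]; ring
    simp only [D, map_sub, map_mul, aeval_X, aeval_C, h1, h0, e, eq_ratCast]
    push_cast
    ring

lemma D_deg (μ : ℚ) : ∀ n : ℕ, (D μ n).natDegree ≤ n ∧ (D μ (n + 1)).IsMonicOfDegree (n + 1)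
  | 0 => ⟨by simp [D], by simpa [D] using isMonicOfDegree_X ℚ⟩
  | n + 1 => by
    obtain ⟨h0, h1⟩ := D_deg μ n
    refine ⟨h1.natDegree_eq.le, ?_⟩
    have h2 : (X * D μ (n + 1)).IsMonicOfDegree (n + 1 + 1) := by
      have := (isMonicOfDegree_X ℚ).mul h1
      rwa [add_comm 1 (n + 1)] at this
    refine h2.sub ?_
    exact lt_of_le_of_lt (natDegree_C_mul_le _ _) (by omega)

/-- the basis used for adjusting coefficients -/
noncomputable def B (μ c : ℚ) (k : ℕ) : ℚ[X] := if k = 0 then 1 else (D μ k).comp (X - C c)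

lemma comp_monic {p F : ℚ[X]} {n d : ℕ} (hp : p.IsMonicOfDegree n) (hF : F.IsMonicOfDegree d)
    (hd : d ≠ 0) : (p.comp F).IsMonicOfDegree (n * d) := by
  refine ⟨by rw [natDegree_comp, hp.natDegree_eq, hF.natDegree_eq], ?_⟩
  exact hp.monic.comp hF.monic (by rw [hF.natDegree_eq]; exact hd)

lemma B_monic (μ c : ℚ) (k : ℕ) : (B μ c k).IsMonicOfDegree k := by
  unfold B
  split_ifs with h
  · subst h; simp
  · obtain ⟨k, rfl⟩ := Nat.exists_eq_succ_of_ne_zero h
    simpa using comp_monic (D_deg μ k).2 (isMonicOfDegree_X_sub_one c) one_ne_zero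

lemma B_eval (l c : ℚ) (θ : ℝ) {k : ℕ} (hk : k ≠ 0) :
    aeval ((c : ℝ) + 2 * l * Real.cos θ) (B (l ^ 2) c k) = 2 * (l : ℝ) ^ k * Real.cos (k * θ) := by
  simp only [B, if_neg hk, aeval_comp, map_sub, aeval_X, aeval_C, eq_ratCast, add_sub_cancel_left]
  exact D_eval l θ k

lemma B_bound (l c : ℚ) (hl : 0 ≤ l) (θ : ℝ) (k : ℕ) :
    |aeval ((c : ℝ) + 2 * l * Real.cos θ) (B (l ^ 2) c k)| ≤ 2 * (l : ℝ) ^ k := by
  rcases eq_or_ne k 0 with rfl | hk
  · simp [B]
  · have hl' : (0 : ℝ) ≤ l := by exact_mod_cast hl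
    rw [B_eval l c θ hk, abs_mul, abs_of_nonneg (by positivity)]
    exact mul_le_of_le_one_right (by positivity) (Real.abs_cos_le_one _)

lemma adjust (l c : ℚ) (hl : 0 ≤ l) : ∀ (j : ℕ) (H : ℚ[X]), ∃ E : ℚ[X],
    (∀ i, j ≤ i → E.coeff i = 0) ∧
    (∀ θ : ℝ, |aeval ((c : ℝ) + 2 * l * Real.cos θ) E| ≤ 4 * ∑ k ∈ Finset.range j, (l : ℝ) ^ k) ∧
    ∀ i, i < j → ∃ z : ℤ, (H + E).coeff i = 2 * z
  | 0, H => ⟨0, by simp, by simp, by simp⟩
  | j + 1, H => by
    set a : ℚ := 2 * ⌈H.coeff j / 2⌉ - H.coeff j with ha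
    have ha0 : 0 ≤ a := by have := Int.le_ceil (H.coeff j / 2); linarith
    have ha2 : a ≤ 2 := by have := Int.ceil_lt_add_one (H.coeff j / 2); linarith
    obtain ⟨E, h1, h2, h3⟩ := adjust l c hl j (H + C a * B (l ^ 2) c j)
    have hB := B_monic (l ^ 2) c j
    refine ⟨C a * B (l ^ 2) c j + E, fun i hi => ?_, fun θ => ?_, fun i hi => ?_⟩
    · rw [coeff_add, coeff_C_mul, h1 i (by omega),
        coeff_eq_zero_of_natDegree_lt (by rw [hB.natDegree_eq]; omega)]
      simp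
    · rw [map_add, map_mul, aeval_C, Finset.sum_range_succ]
      refine (abs_add_le _ _).trans ?_
      have hb := B_bound l c hl θ j
      have ha0' : (0 : ℝ) ≤ a := by exact_mod_cast ha0
      have ha2' : (a : ℝ) ≤ 2 := by exact_mod_cast ha2
      rw [abs_mul, eq_ratCast, abs_of_nonneg ha0']
      have := h2 θ
      have := mul_le_mul ha2' hb (abs_nonneg _) (by norm_num)
      linarith
    · rw [← add_assoc]
      rcases Nat.lt_succ_iff_lt_or_eq.mp hi with hi | rfl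
      · exact h3 i hi
      · refine ⟨⌈H.coeff i / 2⌉, ?_⟩
        have : (B (l ^ 2) c i).coeff i = 1 := by
          have := hB.monic.coeff_natDegree
          rwa [hB.natDegree_eq] at this
        rw [coeff_add, coeff_add, coeff_C_mul, h1 i le_rfl, this, ha]; ring

lemma top_even {F : ℚ[X]} {d : ℕ} (hF : F.IsMonicOfDegree (d + 1)) (K : ℕ) :
    ∃ N0 : ℕ, 0 < N0 ∧ ∀ N, N0 ∣ N → ∀ i, (d + 1) * N ≤ i + K →
      ∃ z : ℤ, (F ^ N - X ^ ((d + 1) * N) : ℚ[X]).coeff i = 2 * z := by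
  obtain ⟨U, hU⟩ : ∃ U, U = F - X ^ (d + 1) := ⟨_, rfl⟩
  have hUd : U.natDegree ≤ d := by
    have := hF.natDegree_sub_X_pow (by omega)
    rw [← hU] at this
    omega
  obtain ⟨b, hb0, hb⟩ := IsLocalization.integerNormalization_spec (S := ℚ) (nonZeroDivisors ℤ) U
  generalize IsLocalization.integerNormalization (nonZeroDivisors ℤ) U = V at hb
  have hb0 : b ≠ 0 := nonZeroDivisors.ne_zero hb0
  refine ⟨2 * K.factorial * b.natAbs ^ K, by
    have := K.factorial_pos; have := Int.natAbs_pos.mpr hb0; positivity, fun N hN i hi => ?_⟩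
  have hFU : F = U + X ^ (d + 1) := by rw [hU]; ring
  rw [hFU, add_pow, Finset.sum_range_succ']
  simp only [pow_zero, one_mul, Nat.sub_zero, Nat.choose_zero_right, Nat.cast_one, mul_one,
    ← pow_mul, add_sub_cancel_right, finsetSum_coeff]
  refine Finset.sum_induction _ (fun x : ℚ => ∃ z : ℤ, x = 2 * z) ?_ ⟨0, by simp⟩ ?_
  · rintro _ _ ⟨x, rfl⟩ ⟨y, rfl⟩
    exact ⟨x + y, by push_cast; ring⟩
  intro k hk
  rw [Finset.mem_range] at hk
  by_cases hkK : k + 1 ≤ K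
  · obtain ⟨s, rfl⟩ := hN
    obtain ⟨t, ht⟩ : (k + 1) ∣ K.factorial := Nat.dvd_factorial (by omega) hkK
    obtain ⟨M, hM⟩ : ∃ M, 2 * K.factorial * b.natAbs ^ K * s = M + 1 := ⟨_, by
      symm; apply Nat.sub_add_cancel; omega⟩
    have hc : (M + 1).choose (k + 1) = 2 * t * b.natAbs ^ K * s * M.choose k := by
      have := Nat.add_one_mul_choose_eq M k
      refine Nat.eq_of_mul_eq_mul_right (show 0 < k + 1 by omega) ?_
      rw [← this, ← hM, ht]; ring
    obtain ⟨w, hw⟩ : b ^ (k + 1) ∣ ((b.natAbs ^ K : ℕ) : ℤ) := by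
      push_cast
      exact (pow_dvd_pow _ hkK).trans (pow_dvd_pow_of_dvd (self_dvd_abs _) _)
    rw [hM, hc]
    refine ⟨t * w * s * M.choose k * (V ^ (k + 1) * X ^ ((d + 1) * (M + 1 - (k + 1)))).coeff i, ?_⟩
    have e1 : (((V ^ (k + 1) * X ^ ((d + 1) * (M + 1 - (k + 1)))).coeff i : ℤ) : ℚ) =
        (b : ℚ) ^ (k + 1) * (U ^ (k + 1) * X ^ ((d + 1) * (M + 1 - (k + 1)))).coeff i := by
      have : (V ^ (k + 1) * X ^ ((d + 1) * (M + 1 - (k + 1)))).map (algebraMap ℤ ℚ) =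
          C ((b : ℚ) ^ (k + 1)) * (U ^ (k + 1) * X ^ ((d + 1) * (M + 1 - (k + 1)))) := by
        rw [Polynomial.map_mul, Polynomial.map_pow, Polynomial.map_pow, map_X, hb, zsmul_eq_mul,
          mul_pow, map_pow, map_intCast]
        ring
      have := congrArg (fun p => coeff p i) this
      simpa only [coeff_map, eq_intCast, coeff_C_mul] using this
    have hw' : ((b.natAbs : ℕ) : ℚ) ^ K = (b : ℚ) ^ (k + 1) * w := by
      have := congrArg (Int.cast : ℤ → ℚ) hw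
      rwa [Int.cast_natCast, Nat.cast_pow, Int.cast_mul, Int.cast_pow] at this
    rw [mul_comm _ ((_ : ℕ) : ℚ[X]), ← C_eq_natCast, coeff_C_mul, Int.cast_mul, e1]
    generalize (U ^ (k + 1) * X ^ ((d + 1) * (M + 1 - (k + 1)))).coeff i = u
    simp only [Nat.cast_mul, Nat.cast_pow, Int.cast_mul, Int.cast_natCast, hw']
    push_cast
    ring
  · refine ⟨0, ?_⟩
    rw [coeff_eq_zero_of_natDegree_lt]
    · simp
    · have h1 : (U ^ (k + 1)).natDegree ≤ (k + 1) * d :=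
        natDegree_pow_le.trans (Nat.mul_le_mul_left _ hUd)
      have h2 : (U ^ (k + 1) * X ^ ((d + 1) * (N - (k + 1))) * ((N.choose (k + 1) : ℕ) : ℚ[X])).natDegree
          ≤ (k + 1) * d + (d + 1) * (N - (k + 1)) := by
        refine natDegree_mul_le.trans ?_
        rw [natDegree_natCast, add_zero]
        exact natDegree_mul_le.trans (add_le_add h1 (natDegree_X_pow_le _))
      obtain ⟨r, rfl⟩ : ∃ r, N = k + 1 + r := ⟨N - (k + 1), by omega⟩
      rw [Nat.add_sub_cancel_left] at h2 ⊢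
      have : (d + 1) * (k + 1 + r) = (k + 1) * d + (d + 1) * r + (k + 1) := by ring
      omega

lemma roots_real {p : ℝ[X]} {n : ℕ} (hp : p.IsMonicOfDegree n) (s : ℕ → ℝ)
    (hs : ∀ i, i < n → s i < s (i + 1))
    (ha : ∀ i, i < n → p.eval (s i) * p.eval (s (i + 1)) < 0) (z : ℂ) (hz : aeval z p = 0) :
    z.im = 0 ∧ s 0 ≤ z.re ∧ z.re ≤ s n := by
  classical
  have mono : ∀ i j, i ≤ j → j ≤ n → s i ≤ s j := by
    intro i j hij hj
    induction j, hij using Nat.le_induction with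
    | base => exact le_rfl
    | succ j _ ih => exact (ih (by omega)).trans (hs j (by omega)).le
  have hr : ∀ i : Fin n, ∃ r, s i < r ∧ r < s (i + 1) ∧ p.eval r = 0 := by
    intro i
    have hc : ContinuousOn (fun x => p.eval x) (Set.Icc (s i) (s (i + 1))) :=
      p.continuous.continuousOn
    rcases mul_neg_iff.mp (ha i i.2) with ⟨h1, h2⟩ | ⟨h1, h2⟩
    · obtain ⟨r, hr, h0⟩ := intermediate_value_Ioo' (hs i i.2).le hc ⟨h2, h1⟩
      exact ⟨r, hr.1, hr.2, h0⟩
    · obtain ⟨r, hr, h0⟩ := intermediate_value_Ioo (hs i i.2).le hc ⟨h1, h2⟩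
      exact ⟨r, hr.1, hr.2, h0⟩
  choose r h1 h2 h3 using hr
  have hinj : Function.Injective fun i => (r i : ℂ) := by
    have : StrictMono r := fun i j hij =>
      (h2 i).trans_le ((mono _ _ (by exact hij) j.2.le).trans (h1 j).le)
    exact fun i j h => this.injective (Complex.ofReal_injective h)
  have hm : (p.map (algebraMap ℝ ℂ)) ≠ 0 := (hp.monic.map _).ne_zero
  have := roots_eq_of_natDegree_le_card_of_ne_zero (p := p.map (algebraMap ℝ ℂ))
    (S := Finset.univ.image fun i => (r i : ℂ)) (by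
      intro x hx
      obtain ⟨i, -, rfl⟩ := Finset.mem_image.mp hx
      rw [eval_map_algebraMap]
      have : aeval (algebraMap ℝ ℂ (r i)) p = algebraMap ℝ ℂ (aeval (r i) p) :=
        aeval_algebraMap_apply ℂ (r i) p
      simpa [h3 i] using this) (by
      rw [Finset.card_image_of_injective _ hinj, natDegree_map, hp.natDegree_eq]; simp) hm
  have hz' : z ∈ (p.map (algebraMap ℝ ℂ)).roots := by
    rw [mem_roots hm, IsRoot, eval_map_algebraMap, hz]
  rw [this] at hz'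
  obtain ⟨i, -, rfl⟩ := Finset.mem_image.mp (Finset.mem_val.mp hz')
  refine ⟨by simp, ?_, ?_⟩
  · exact (mono 0 i (Nat.zero_le _) i.2.le).trans (h1 i).le
  · exact (h2 i).le.trans (mono _ _ i.2 le_rfl)

lemma exists_poly (s : ℝ) (hs : 4 < s) (Q : ℕ) : ∃ q : ℕ, q.Prime ∧ Q < q ∧ ∃ (g : ℤ[X]) (σ : ℤ),
    (σ = 1 ∨ σ = -1) ∧ g.natDegree + 1 < q ∧
    ∀ z : ℂ, aeval z (X ^ q + 2 * (X * g + C σ) : ℤ[X]) = 0 → z.im = 0 ∧ 0 ≤ z.re ∧ z.re ≤ s := by
  obtain ⟨δ, hδ0, hδs⟩ := exists_rat_btwn (show (0 : ℝ) < (s - 4) / 5 by linarith)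
  set l : ℚ := 1 + δ with hl
  set c : ℚ := δ + 2 * l with hc
  have hlR : (l : ℝ) = 1 + δ := by rw [hl]; push_cast; ring
  have hcR : (c : ℝ) = δ + 2 * l := by rw [hc]; push_cast; ring
  have hl1 : (1 : ℝ) < l := by linarith
  have hl0 : (0 : ℚ) ≤ l := by
    have : (0 : ℝ) ≤ l := by linarith
    exact_mod_cast this
  obtain ⟨K, hK⟩ := pow_unbounded_of_one_lt (max (4 / (δ : ℝ)) (2 / δ)) hl1
  have hK1 : 4 / (δ : ℝ) < l ^ K := (le_max_left _ _).trans_lt hK
  have hK2 : 2 / (δ : ℝ) < l ^ K := (le_max_right _ _).trans_lt hK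
  rw [div_lt_iff₀ hδ0] at hK1 hK2
  obtain ⟨N0, hN0, hev⟩ := top_even (B_monic (l ^ 2) c (K + 1)) K
  obtain ⟨q, hq, hQ, hq1⟩ := Nat.exists_prime_gt_modEq_one (k := (K + 1) * N0) (Q + 2)
    (by positivity)
  obtain ⟨t, ht⟩ : (K + 1) * N0 ∣ q - 1 := (Nat.modEq_iff_dvd' hq.one_le).mp hq1.symm
  obtain ⟨N, hN⟩ : ∃ N, N0 * t = N + 1 := by
    refine ⟨N0 * t - 1, (Nat.sub_add_cancel ?_).symm⟩
    rcases Nat.eq_zero_or_pos t with rfl | h
    · omega
    · exact Nat.mul_pos hN0 h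
  obtain ⟨m, hm⟩ : ∃ m, m = (K + 1) * (N + 1) := ⟨_, rfl⟩
  have hqm : q = m + 1 := by rw [hm, ← hN, ← mul_assoc, ← ht]; omega
  have hKm : K < m := by rw [hm]; nlinarith
  set F := B (l ^ 2) c (K + 1) with hF
  set G := (D ((l ^ (K + 1)) ^ 2) (N + 1)).comp F with hG
  have hGev : ∀ θ : ℝ, aeval ((c : ℝ) + 2 * l * Real.cos θ) G = 2 * (l : ℝ) ^ m * Real.cos (m * θ) := by
    intro θ
    rw [hG, aeval_comp, hF, B_eval l c θ (by omega)]
    have := D_eval (l ^ (K + 1)) (((K + 1 : ℕ) : ℝ) * θ) (N + 1)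
    rw [Rat.cast_pow] at this
    rw [this, ← pow_mul, hm, ← mul_assoc]
    push_cast
    ring_nf
  have hGtop : ∀ i, m - K ≤ i → ∃ z : ℤ, (G - X ^ m : ℚ[X]).coeff i = 2 * z := by
    intro i hi
    obtain ⟨z, hz⟩ := hev (N + 1) ⟨t, hN.symm⟩ i (by omega)
    refine ⟨z, ?_⟩
    rw [← hz, ← hm]
    have h1 : (D ((l ^ (K + 1)) ^ 2) (N + 1) - X ^ (N + 1)).natDegree < N + 1 :=
      (D_deg _ N).2.natDegree_sub_X_pow (by omega)
    have h2 : G - X ^ m = F ^ (N + 1) - X ^ m +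
        (D ((l ^ (K + 1)) ^ 2) (N + 1) - X ^ (N + 1)).comp F := by
      rw [sub_comp, pow_comp, X_comp, hG]; ring
    have h3 : ((D ((l ^ (K + 1)) ^ 2) (N + 1) - X ^ (N + 1)).comp F).natDegree < i := by
      rw [natDegree_comp, (B_monic (l ^ 2) c (K + 1)).natDegree_eq]
      have : (D ((l ^ (K + 1)) ^ 2) (N + 1) - X ^ (N + 1)).natDegree * (K + 1) ≤ N * (K + 1) :=
        Nat.mul_le_mul_right _ (by omega)
      have : m = N * (K + 1) + (K + 1) := by rw [hm]; ring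
      omega
    rw [h2, coeff_add, coeff_eq_zero_of_natDegree_lt h3, add_zero]
  have hGm : G.IsMonicOfDegree m := by
    rw [hm, mul_comm]
    exact comp_monic (D_deg _ N).2 (B_monic _ _ _) (by omega)
  obtain ⟨E, hE1, hE2, hE3⟩ := adjust l c hl0 (m - K) G
  have hW : ∀ i, ∃ z : ℤ, (G + E - X ^ m : ℚ[X]).coeff i = 2 * z := by
    intro i
    by_cases hi : i < m - K
    · obtain ⟨z, hz⟩ := hE3 i hi
      exact ⟨z, by rw [coeff_sub, hz, coeff_X_pow, if_neg (by omega), sub_zero]⟩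
    · obtain ⟨z, hz⟩ := hGtop i (by omega)
      exact ⟨z, by rw [add_sub_right_comm, coeff_add, hz, hE1 i (by omega), add_zero]⟩
  have hEd : E.natDegree < m := by
    rcases eq_or_ne E 0 with rfl | h0
    · simp; omega
    · by_contra h
      exact h0 (leadingCoeff_eq_zero.mp (hE1 _ (by omega)))
  have hWd : (G + E - X ^ m : ℚ[X]).natDegree < m :=
    (hGm.add_right hEd).natDegree_sub_X_pow (by omega)
  obtain ⟨g, hg1, hg2⟩ : ∃ g : ℤ[X], g.map (algebraMap ℤ ℚ) = C (1 / 2) * (G + E - X ^ m) ∧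
      g.natDegree < m := by
    have : (C (1 / 2) * (G + E - X ^ m) : ℚ[X]) ∈ lifts (algebraMap ℤ ℚ) := by
      rw [lifts_iff_coeff_lifts]
      intro i
      obtain ⟨z, hz⟩ := hW i
      exact ⟨z, by rw [coeff_C_mul, hz]; simp⟩
    obtain ⟨g, h1, h2⟩ := exists_degree_eq_of_mem_lifts this
    refine ⟨g, h1, ?_⟩
    rw [natDegree_eq_of_degree_eq h2]
    exact (natDegree_C_mul_le _ _).trans_lt hWd
  set σ : ℤ := -(-1) ^ m with hσ
  refine ⟨q, hq, by omega, g, σ, ?_, by omega, fun z hz => ?_⟩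
  · rcases neg_one_pow_eq_or ℤ m with h | h <;> simp [hσ, h]
  set f : ℤ[X] := X ^ q + 2 * (X * g + C σ) with hf
  have hfm : f.IsMonicOfDegree q := by
    refine (isMonicOfDegree_X_pow ℤ q).add_right ?_
    have h1 : (X * g + C σ).natDegree ≤ m := by
      refine (natDegree_add_le _ _).trans (max_le (natDegree_mul_le.trans ?_) (by simp))
      have := natDegree_X_le (R := ℤ)
      omega
    have h2 : (2 * (X * g + C σ)).natDegree ≤ (X * g + C σ).natDegree := natDegree_C_mul_le 2 _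
    omega
  have hfev : ∀ y : ℝ, (f.map (algebraMap ℤ ℝ)).eval y = y * (aeval y G + aeval y E) + 2 * σ := by
    intro y
    have h1 : aeval y g = 1 / 2 * (aeval y G + aeval y E - y ^ m) := by
      rw [← aeval_map_algebraMap ℚ, hg1]; simp
    rw [eval_map_algebraMap, hf, hqm]
    simp only [map_add, map_mul, map_pow, aeval_X, h1, map_ofNat, eq_intCast, map_intCast]
    ring
  have hmR : (0 : ℝ) < m := by exact_mod_cast (show 0 < m by omega)
  let θ : ℕ → ℝ := fun j => ((m : ℝ) - j) * Real.pi / m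
  let p : ℕ → ℝ := fun i => match i with
    | 0 => 0
    | j + 1 => (c : ℝ) + 2 * l * Real.cos (θ j)
  have hθ : ∀ j, j ≤ m → θ j ∈ Set.Icc 0 Real.pi := by
    intro j hj
    have : (j : ℝ) ≤ m := by exact_mod_cast hj
    have h0 : (0 : ℝ) ≤ j := by positivity
    refine ⟨div_nonneg (mul_nonneg (by linarith) Real.pi_pos.le) hmR.le, ?_⟩
    rw [div_le_iff₀ hmR]
    nlinarith [Real.pi_pos]
  have hp : ∀ j, (δ : ℝ) ≤ p (j + 1) := fun j => by
    have := Real.neg_one_le_cos (θ j)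
    simp only [p, hcR]; nlinarith
  have hsign : ∀ i, i ≤ m + 1 → 0 < (-1) ^ (m + i + 1) * (f.map (algebraMap ℤ ℝ)).eval (p i) := by
    intro i hi
    rw [hfev]
    rcases i with _ | j
    · simp only [p, hσ]
      rcases neg_one_pow_eq_or ℝ m with h | h <;> simp [pow_succ, h]
    · have e1 : aeval (p (j + 1)) G = 2 * (l : ℝ) ^ m * (-1) ^ (m + j) := by
        simp only [p]
        rw [hGev]
        obtain ⟨r, rfl⟩ : ∃ r, m = j + r := ⟨m - j, by omega⟩
        have : ((j + r : ℕ) : ℝ) * θ j = (r : ℕ) * Real.pi := by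
          simp only [θ]; field_simp; push_cast; ring
        rw [this, Real.cos_nat_mul_pi, show j + r + j = r + 2 * j by ring, pow_add (-1 : ℝ), pow_mul]
        simp
      have e2 : |aeval (p (j + 1)) E| ≤ (l : ℝ) ^ m := by
        refine (hE2 (θ j)).trans ?_
        rw [geom_sum_eq hl1.ne', show (l : ℝ) - 1 = δ by linarith, ← mul_div_assoc,
          div_le_iff₀ hδ0]
        have : (l : ℝ) ^ m = l ^ (m - K) * l ^ K := by rw [← pow_add]; congr 1; omega
        have h0 : (0 : ℝ) < l ^ (m - K) := by positivity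
        rw [this]
        nlinarith
      have e3 : (l : ℝ) ^ K ≤ l ^ m := pow_le_pow_right₀ hl1.le hKm.le
      have e4 := hp j
      have e5 : 2 < p (j + 1) * l ^ m := by
        have : (l : ℝ) ^ K * δ ≤ l ^ m * p (j + 1) := mul_le_mul e3 e4 hδ0.le (by positivity)
        linarith
      have e6 : ((σ : ℤ) : ℝ) = 1 ∨ ((σ : ℤ) : ℝ) = -1 := by
        rcases neg_one_pow_eq_or ℝ m with h | h <;> simp [hσ, h]
      rw [e1, show m + (j + 1) + 1 = m + j + 2 by ring, pow_add]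
      have e7 := abs_le.mp e2
      have e8 : 0 < p (j + 1) := hδ0.trans_le e4
      rcases neg_one_pow_eq_or ℝ (m + j) with h | h <;> rw [h] <;> rcases e6 with h' | h' <;>
        rw [h'] <;> nlinarith
  have hmap : (f.map (algebraMap ℤ ℝ)).IsMonicOfDegree (m + 1) :=
    ⟨by rw [hfm.monic.natDegree_map, hfm.natDegree_eq, hqm], hfm.monic.map _⟩
  have := roots_real hmap p (fun i hi => ?_) (fun i hi => ?_) z
    (by rw [aeval_map_algebraMap]; exact hz)
  · refine ⟨this.1, this.2.1, this.2.2.trans ?_⟩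
    have := Real.cos_le_one (θ m)
    simp only [p, hcR]
    nlinarith
  · rcases i with _ | j
    · exact hδ0.trans_le (hp 0)
    · have : Real.cos (θ j) < Real.cos (θ (j + 1)) := by
        refine Real.strictAntiOn_cos (hθ _ (by omega)) (hθ _ (by omega)) ?_
        simp only [θ]
        push_cast
        gcongr
        linarith
      simp only [p]
      nlinarith
  · have h1 := hsign i (by omega)
    have h2 := hsign (i + 1) (by omega)
    rw [show m + (i + 1) + 1 = m + i + 1 + 1 by ring, pow_succ _ (m + i + 1)] at h2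
    rcases neg_one_pow_eq_or ℝ (m + i + 1) with h | h <;> rw [h] at h1 h2 <;> nlinarith

end Pool.Agent.Lead.JR
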