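import Pool.Agent.Lead.JR1

set_option autoImplicit false

open Polynomial NumberField IsDedekindDomain IntermediateField

namespace Pool.Agent.Lead.JR

lemma nonsplit (M : Type) [Field M] [NumberField M] {q d : ℕ} (hq : q.Prime)
    (hd : Module.finrank ℚ M = q * d) (hd0 : 0 < d) (h2 : 2 ^ d < q) (g : ℤ[X]) {σ : ℤ}
    (hσ : σ = 1 ∨ σ = -1) (hf : (X ^ q + 2 * (X * g + C σ) : ℤ[X]).IsMonicOfDegree q)
    (hsep : ((X ^ q + 2 * (X * g + C σ) : ℤ[X]).map (algebraMap ℤ M)).Separable) :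
    ¬ ((X ^ q + 2 * (X * g + C σ) : ℤ[X]).map (algebraMap ℤ M)).Splits := by
  classical
  intro hs
  set f : ℤ[X] := X ^ q + 2 * (X * g + C σ) with hfdef
  have hq2 : 2 < q := lt_of_le_of_lt (Nat.le_self_pow hd0.ne' 2) h2
  have hN2 : Ideal.absNorm (Ideal.span {(2 : 𝓞 M)}) = 2 ^ (q * d) := by
    have := Ideal.absNorm_span_natCast (S := 𝓞 M) 2
    rw [RingOfIntegers.rank, hd] at this
    exact_mod_cast this
  obtain ⟨P, hP, hP2⟩ := Ideal.exists_le_maximal (Ideal.span {(2 : 𝓞 M)}) (by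
    intro h
    rw [h, Ideal.absNorm_top] at hN2
    have : 1 < 2 ^ (q * d) := Nat.one_lt_two_pow (Nat.mul_pos hq.pos hd0).ne'
    omega)
  have h2P : (2 : 𝓞 M) ∈ P := hP2 (Ideal.mem_span_singleton_self _)
  let v : HeightOneSpectrum (𝓞 M) := ⟨P, hP.isPrime, fun h => by
    rw [h, Ideal.mem_bot] at h2P
    exact two_ne_zero h2P⟩
  set w := v.valuation M with hw
  have hw2' : w 2 = v.intValuation 2 := by
    rw [← v.valuation_of_algebraMap (K := M)]
    congr 1
  have hw2 : w 2 < 1 := by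
    rw [hw2']
    exact (v.intValuation_lt_one_iff_mem _).mpr h2P
  have hw20 : w 2 ≠ 0 := by simp
  have hfM : (f.map (algebraMap ℤ M)).Monic := hf.monic.map _
  set R := (f.map (algebraMap ℤ M)).roots with hR
  have hroot : ∀ β ∈ R, aeval β f = 0 := fun β hβ => by
    rw [hR, mem_roots hfM.ne_zero, IsRoot, eval_map_algebraMap] at hβ
    exact hβ
  have hint : ∀ β ∈ R, ∀ p : ℤ[X], w (aeval β p) ≤ 1 := by
    intro β hβ p
    have hi : IsIntegral ℤ β := ⟨f, hf.monic, hroot β hβ⟩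
    have : aeval β p = algebraMap (𝓞 M) M (aeval (⟨β, hi⟩ : 𝓞 M) p) :=
      aeval_algebraMap_apply M (⟨β, hi⟩ : 𝓞 M) p
    rw [this]
    exact v.valuation_le_one _
  have hval : ∀ β ∈ R, w β < 1 ∧ w β ^ q = w 2 := by
    intro β hβ
    have e : β ^ q = -(2 * aeval β (X * g + C σ)) := by
      have := hroot β hβ
      rw [hfdef, map_add, map_mul, map_pow, aeval_X, map_ofNat] at this
      linear_combination this
    have e' : w β ^ q = w 2 * w (aeval β (X * g + C σ)) := by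
      rw [← map_pow, e, Valuation.map_neg, map_mul]
    have h1 : w β < 1 := by
      by_contra h
      have h3 : 1 ≤ w β ^ q := one_le_pow₀ (not_lt.mp h)
      have h4 : w 2 * w (aeval β (X * g + C σ)) ≤ w 2 * 1 := by
        gcongr; exact hint β hβ _
      rw [mul_one, ← e'] at h4
      exact absurd (h3.trans h4) (not_le.mpr hw2)
    refine ⟨h1, ?_⟩
    have h5 : w (aeval β (X * g)) < 1 := by
      rw [map_mul, aeval_X, map_mul]
      calc w β * w (aeval β g) ≤ w β * 1 := by gcongr; exact hint β hβ _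
        _ < 1 := by rwa [mul_one]
    have h6 : w (aeval β (C σ)) = 1 := by rcases hσ with rfl | rfl <;> simp
    rw [e', map_add, Valuation.map_add_eq_of_lt_right _ (by rw [h6]; exact h5), h6, mul_one]
  have hcard : R.card = q := by
    rw [hR, ← hs.natDegree_eq_card_roots, hf.monic.natDegree_map, hf.natDegree_eq]
  obtain ⟨β0, hβ0⟩ := Multiset.card_pos_iff_exists_mem.mp (show 0 < R.card by omega)
  set γ := w β0 with hγ
  have hall : ∀ β ∈ R, w β = γ := fun β hβ =>
    (pow_left_inj₀ (by simp) (by simp) hq.ne_zero).mp ((hval β hβ).2.trans (hval β0 hβ0).2.symm)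
  have hγ1 : γ < 1 := (hval β0 hβ0).1
  have hγq : γ ^ q = w 2 := (hval β0 hβ0).2
  have hγ0 : γ ≠ 0 := fun h => hw20 (by rw [← hγq, h, zero_pow hq.ne_zero])
  have hβ00 : β0 ≠ 0 := fun h => hγ0 (by rw [hγ, h, map_zero])
  have hNP : Ideal.absNorm P ≤ 2 ^ d := by
    have h1 : (2 : 𝓞 M) ∈ v.asIdeal ^ q := by
      rw [← v.intValuation_le_pow_iff_mem, ← hw2', ← hγq]
      have : γ ≤ WithZero.exp (-1 : ℤ) := by
        rw [← WithZero.exp_log hγ0] at hγ1 ⊢
        rw [← WithZero.exp_zero, WithZero.exp_lt_exp] at hγ1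
        exact WithZero.exp_le_exp.mpr (by omega)
      refine (pow_le_pow_left₀ (by simp) this q).trans (le_of_eq ?_)
      rw [← WithZero.exp_nsmul]; simp
    have h3 : Ideal.absNorm (P ^ q) ∣ Ideal.absNorm (Ideal.span {(2 : 𝓞 M)}) :=
      Ideal.absNorm_dvd_absNorm_of_le ((Ideal.span_singleton_le_iff_mem _).mpr h1)
    rw [map_pow, hN2, mul_comm, pow_mul] at h3
    exact (Nat.pow_le_pow_iff_left hq.ne_zero).mp (Nat.le_of_dvd (by positivity) h3)
  have hex : ∀ β : M, ∃ a : 𝓞 M, β ∈ R → w (algebraMap (𝓞 M) M a - β / β0) < 1 := by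
    intro β
    by_cases hβ : β ∈ R
    · obtain ⟨a, ha⟩ := v.exists_valuation_sub_lt_of_integer (K := M) (x := β / β0)
        (by rw [map_div₀, ← hw, hall β hβ, ← hγ, div_self hγ0]) 1
      exact ⟨a, fun _ => ha⟩
    · exact ⟨0, fun h => absurd h hβ⟩
  choose a ha using hex
  have : Finite (𝓞 M ⧸ P) := Ideal.finiteQuotientOfFreeOfNeBot P v.ne_bot
  let _ : Fintype (𝓞 M ⧸ P) := Fintype.ofFinite _
  obtain ⟨β, hβ, β', hβ', hne, heq⟩ := Finset.exists_ne_map_eq_of_card_lt_of_maps_to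
    (s := R.toFinset) (t := (Finset.univ : Finset (𝓞 M ⧸ P))) (f := fun β => Ideal.Quotient.mk P (a β))
    (by
      rw [Multiset.toFinset_card_of_nodup (nodup_roots hsep), hcard, Finset.card_univ,
        ← Nat.card_eq_fintype_card, ← Submodule.cardQuot_apply, ← Ideal.absNorm_apply]
      omega) (fun _ _ => Finset.mem_univ _)
  rw [Multiset.mem_toFinset] at hβ hβ'
  have hclose : w (β - β') < γ := by
    have h1 : w (algebraMap (𝓞 M) M (a β - a β')) < 1 :=
      (v.valuation_lt_one_iff_mem (K := M) _).mpr (Ideal.Quotient.eq.mp heq)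
    have e : β - β' = β0 * (algebraMap (𝓞 M) M (a β - a β') -
        (algebraMap (𝓞 M) M (a β) - β / β0) + (algebraMap (𝓞 M) M (a β') - β' / β0)) := by
      rw [map_sub]; field_simp; ring
    rw [e, map_mul]
    refine mul_lt_of_lt_one_right (zero_lt_iff.mpr hγ0) ?_
    exact w.map_add_lt (w.map_sub_lt h1 (ha β hβ)) (ha β' hβ')
  have hder := hs.eval_root_derivative hfM hβ
  rw [← hR] at hder
  have hmem : β' ∈ R.erase β := (Multiset.mem_erase_of_ne hne.symm).mpr hβ'
  have hlt : w (eval β (f.map (algebraMap ℤ M)).derivative) < γ ^ (q - 1) := by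
    rw [hder, ← Multiset.cons_erase hmem, Multiset.map_cons, Multiset.prod_cons, map_mul,
      map_multiset_prod]
    have h1 : (Multiset.map w (Multiset.map (fun x => β - x) ((R.erase β).erase β'))).prod ≤
        γ ^ (q - 2) := by
      refine (Multiset.prod_le_pow_card _ γ ?_).trans (le_of_eq ?_)
      · intro x hx
        simp only [Multiset.map_map, Multiset.mem_map, Function.comp] at hx
        obtain ⟨y, hy, rfl⟩ := hx
        have hyR : y ∈ R := Multiset.mem_of_mem_erase (Multiset.mem_of_mem_erase hy)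
        exact w.map_sub_le (hall β hβ).le (hall y hyR).le
      · rw [Multiset.card_map, Multiset.card_map, Multiset.card_erase_of_mem hmem,
          Multiset.card_erase_of_mem hβ, hcard]
        rfl
    calc _ ≤ w (β - β') * γ ^ (q - 2) := by gcongr
      _ < γ * γ ^ (q - 2) := mul_lt_mul_of_pos_right hclose (pow_pos (zero_lt_iff.mpr hγ0) _)
      _ = γ ^ (q - 1) := by rw [← pow_succ']; congr 1; omega
  have heq2 : w (eval β (f.map (algebraMap ℤ M)).derivative) = γ ^ (q - 1) := by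
    have e : eval β (f.map (algebraMap ℤ M)).derivative =
        (q : M) * β ^ (q - 1) + 2 * aeval β (derivative (X * g + C σ)) := by
      rw [derivative_map, eval_map_algebraMap, hfdef, derivative_add, derivative_X_pow,
        derivative_mul (f := 2)]
      simp [map_ofNat]
    have hwq : w (q : M) = 1 := by
      obtain ⟨k, hk⟩ := hq.odd_of_ne_two (by omega)
      have h1 : w ((k : ℕ) : M) ≤ 1 := by simpa using hint β hβ (k : ℤ[X])
      have h3 : w (2 * (k : M)) < 1 := by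
        rw [map_mul]
        calc w 2 * w (k : M) ≤ w 2 * 1 := by gcongr
          _ < 1 := by rwa [mul_one]
      rw [hk]; push_cast
      rw [Valuation.map_add_eq_of_lt_right _ (by simpa using h3), map_one]
    have h1 : w ((q : M) * β ^ (q - 1)) = γ ^ (q - 1) := by
      rw [map_mul, hwq, one_mul, map_pow, hall β hβ]
    rw [e, Valuation.map_add_eq_of_lt_left _ ?_, h1]
    rw [h1, map_mul]
    calc w 2 * w (aeval β (derivative (X * g + C σ))) ≤ w 2 * 1 := by gcongr; exact hint β hβ _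
      _ = γ ^ q := by rw [mul_one, hγq]
      _ < γ ^ (q - 1) := pow_lt_pow_right_of_lt_one₀ (zero_lt_iff.mpr hγ0) hγ1 (by omega)
  exact absurd heq2 hlt.ne

/-- the algebraic numbers -/
abbrev Ω : Type := AlgebraicClosure ℚ

lemma algClosure : IsAlgClosure ℚ Ω := by
  have h : (DivisionRing.toRatAlgebra : Algebra ℚ Ω) = AlgebraicClosure.instAlgebra ℚ :=
    Subsingleton.elim _ _
  have := AlgebraicClosure.instIsAlgClosure ℚ
  convert this
  rfl

lemma isAlg : Algebra.IsAlgebraic ℚ Ω := algClosure.isAlgebraic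

/-- all complex conjugates lie in `[0, s]` -/
def Good (s : ℝ) (x : Ω) : Prop :=
  ∀ z : ℂ, aeval z (minpoly ℚ x) = 0 → z.im = 0 ∧ 0 ≤ z.re ∧ z.re ≤ s

lemma norm_one {z t : ℂ} (h : z ^ 2 - t * z + 1 = 0) (h1 : t.im = 0) (h2 : -2 ≤ t.re)
    (h3 : t.re ≤ 2) : ‖z‖ = 1 := by
  have hre := congrArg Complex.re h
  have him := congrArg Complex.im h
  simp [sq, h1] at hre him
  have : z.re * z.re + z.im * z.im = 1 := by
    by_cases hy : z.im = 0
    · rw [hy] at hre ⊢
      have h4 : t.re ^ 2 ≤ 4 := by nlinarith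
      have h5 : (2 * z.re - t.re) ^ 2 = t.re ^ 2 - 4 := by nlinarith
      have h6 : 2 * z.re - t.re = 0 := by
        apply pow_eq_zero_iff (two_ne_zero) |>.mp; nlinarith [sq_nonneg (2 * z.re - t.re)]
      nlinarith
    · have : t.re = 2 * z.re := by
        apply mul_right_cancel₀ hy; linarith
      rw [this] at hre; linarith
  rw [Complex.norm_def, Complex.normSq_apply, this, Real.sqrt_one]

lemma kron {α : Ω} (hi : IsIntegral ℤ α) (hg : Good 4 α) (τ : Ω →+* Ω) (F : Subfield Ω)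
    (hF : α ∈ F) : τ α ∈ F := by
  obtain ⟨r, hr⟩ := IsAlgClosed.exists_pow_nat_eq ((α - 2) ^ 2 - 4) two_pos
  obtain ⟨ζ, hζ⟩ : ∃ ζ : Ω, ζ ^ 2 - (α - 2) * ζ + 1 = 0 :=
    ⟨(α - 2 + r) / 2, by linear_combination hr / 4⟩
  have hζ0 : ζ ≠ 0 := by rintro rfl; simp at hζ
  have hα : α = 2 + (ζ + ζ⁻¹) := by field_simp; linear_combination -hζ
  have hζi : IsIntegral ℤ ζ := by
    have h1 : IsIntegral (integralClosure ℤ Ω) ζ := by
      refine ⟨X ^ 2 - C (⟨α, hi⟩ - 2) * X + 1, by monicity!, ?_⟩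
      rw [← aeval_def]
      simp only [map_add, map_sub, map_mul, map_pow, aeval_X, aeval_C, map_one, map_ofNat]
      exact hζ
    exact isIntegral_trans ζ h1
  have hζq : IsIntegral ℚ ζ := hζi.tower_top
  have : FiniteDimensional ℚ ℚ⟮ζ⟯ := adjoin.finiteDimensional hζq
  have : NumberField ℚ⟮ζ⟯ := {}
  obtain ⟨n, hn, hpow⟩ := NumberField.Embeddings.pow_eq_one_of_norm_eq_one ℚ⟮ζ⟯ ℂ
    (x := AdjoinSimple.gen ℚ ζ) ((isIntegral_algHom_iff (ℚ⟮ζ⟯.val.toRingHom.toIntAlgHom)
      Subtype.val_injective).mp hζi) (by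
      intro φ
      set y := AdjoinSimple.gen ℚ ζ with hy
      have hy0 : y ≠ 0 := fun h => hζ0 (congrArg Subtype.val h)
      have h1 : minpoly ℚ (2 + (y + y⁻¹)) = minpoly ℚ α := by
        rw [hα]
        exact (minpoly.algHom_eq ℚ⟮ζ⟯.val Subtype.val_injective (2 + (y + y⁻¹))).symm
      have h2 := hg (φ (2 + (y + y⁻¹))) (by
        rw [← h1]
        exact (aeval_algHom_apply φ.toRatAlgHom _ _).trans (by rw [minpoly.aeval, map_zero]))
      have h3 : φ y ≠ 0 := (map_ne_zero φ).mpr hy0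
      refine norm_one (t := φ (2 + (y + y⁻¹)) - 2) ?_ (by simpa using h2.1)
        (by have := h2.2.1; simp only [Complex.sub_re, Complex.re_ofNat]; linarith)
        (by have := h2.2.2; simp only [Complex.sub_re, Complex.re_ofNat]; linarith)
      simp only [map_add, map_ofNat, map_inv₀]
      field_simp
      ring)
  have hpow' : ζ ^ n = 1 := congrArg Subtype.val hpow
  have hfin : IsOfFinOrder ζ := isOfFinOrder_iff_pow_eq_one.mpr ⟨n, hn, hpow'⟩
  have : NeZero (orderOf ζ) := ⟨hfin.orderOf_pos.ne'⟩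
  obtain ⟨i, -, hi'⟩ := (IsPrimitiveRoot.orderOf ζ).eq_pow_of_pow_eq_one (ξ := τ ζ)
    (by rw [← map_pow, pow_orderOf_eq_one, map_one])
  have h1 : ζ + ζ⁻¹ ∈ F := by
    have : ζ + ζ⁻¹ = α - 2 := by rw [hα]; ring
    rw [this]
    exact F.sub_mem hF (ofNat_mem F 2)
  have key : ∀ k : ℕ, ζ ^ k + ζ⁻¹ ^ k ∈ F ∧ ζ ^ (k + 1) + ζ⁻¹ ^ (k + 1) ∈ F := by
    intro k
    induction k with
    | zero => exact ⟨by simpa using F.add_mem F.one_mem F.one_mem, by simpa using h1⟩
    | succ k ih =>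
      refine ⟨ih.2, ?_⟩
      have : ζ ^ (k + 1 + 1) + ζ⁻¹ ^ (k + 1 + 1) =
          (ζ + ζ⁻¹) * (ζ ^ (k + 1) + ζ⁻¹ ^ (k + 1)) - (ζ ^ k + ζ⁻¹ ^ k) := by
        have h := mul_inv_cancel₀ hζ0
        generalize ζ⁻¹ = η at h ⊢
        linear_combination (-(ζ ^ k + η ^ k)) * h
      rw [this]
      exact F.sub_mem (F.mul_mem h1 ih.2) ih.1
  rw [hα, map_add, map_add, map_inv₀, map_ofNat, ← hi', ← inv_pow]
  exact F.add_mem (ofNat_mem F 2) (key i).1

lemma step (L : IntermediateField ℚ Ω) [FiniteDimensional ℚ L] (s : ℝ) (hs : 4 < s) :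
    ∃ β : Ω, IsIntegral ℤ β ∧ Good s β ∧ β ∉ L ∧
      ∀ α ∈ L ⊔ ℚ⟮β⟯, IsIntegral ℤ α → Good 4 α → α ∈ L := by
  set d := Module.finrank ℚ L with hd
  have hd0 : 0 < d := Module.finrank_pos
  obtain ⟨q, hq, hQ, g, σ, hσ, hg, hroots⟩ := exists_poly s hs (2 ^ d)
  have hdq : d < q := (Nat.lt_two_pow_self).trans hQ
  set f : ℤ[X] := X ^ q + 2 * (X * g + C σ) with hfdef
  have hlow : (2 * (X * g + C σ) : ℤ[X]).natDegree < q := by
    have h1 : (X * g + C σ).natDegree ≤ g.natDegree + 1 := by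
      refine (natDegree_add_le _ _).trans (max_le (natDegree_mul_le.trans ?_) (by simp))
      have := natDegree_X_le (R := ℤ)
      omega
    have h2 : (2 * (X * g + C σ)).natDegree ≤ (X * g + C σ).natDegree := natDegree_C_mul_le 2 _
    omega
  have hfm : f.IsMonicOfDegree q := (isMonicOfDegree_X_pow ℤ q).add_right hlow
  have hirr : Irreducible f := by
    refine Polynomial.IsEisensteinAt.irreducible (𝓟 := Ideal.span {2}) ⟨?_, ?_, ?_⟩
      ((Ideal.span_singleton_prime two_ne_zero).mpr Int.prime_two) hfm.monic.isPrimitive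
      (by rw [hfm.natDegree_eq]; exact hq.pos)
    · rw [hfm.monic.leadingCoeff, Ideal.mem_span_singleton]; norm_num
    · intro n hn
      rw [hfm.natDegree_eq] at hn
      rw [Ideal.mem_span_singleton, hfdef, coeff_add, coeff_X_pow, if_neg hn.ne, zero_add]
      exact ⟨_, coeff_C_mul _⟩
    · rw [Ideal.span_singleton_pow, Ideal.mem_span_singleton, hfdef, coeff_add, coeff_X_pow,
        if_neg hq.pos.ne, zero_add]
      rcases hσ with rfl | rfl <;> simp
  have hirrQ : Irreducible (f.map (algebraMap ℤ ℚ)) :=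
    (hfm.monic.irreducible_iff_irreducible_map_fraction_map).mp hirr
  obtain ⟨β, hβ⟩ := IsAlgClosed.exists_aeval_eq_zero Ω f (by
    rw [degree_eq_natDegree hfm.monic.ne_zero, hfm.natDegree_eq]
    exact_mod_cast hq.ne_zero)
  have hβi : IsIntegral ℤ β := ⟨f, hfm.monic, hβ⟩
  have hβq : IsIntegral ℚ β := hβi.tower_top
  have hβL : IsIntegral L β := hβq.tower_top
  have hmin : minpoly ℚ β = f.map (algebraMap ℤ ℚ) :=
    (minpoly.eq_of_irreducible_of_monic hirrQ (by rwa [aeval_map_algebraMap]) (hfm.monic.map _)).symm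
  have : FiniteDimensional L L⟮β⟯ := adjoin.finiteDimensional hβL
  have : NumberField L := {}
  have : NumberField L⟮β⟯ := NumberField.of_module_finite L _
  have htower : Module.finrank ℚ L⟮β⟯ = d * Module.finrank L L⟮β⟯ :=
    (Module.finrank_mul_finrank ℚ L L⟮β⟯).symm
  have hdvd : minpoly L β ∣ f.map (algebraMap ℤ L) :=
    minpoly.dvd L β (by rwa [aeval_map_algebraMap])
  have hdegL : (f.map (algebraMap ℤ L)).natDegree = q := by
    rw [hfm.monic.natDegree_map, hfm.natDegree_eq]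
  have hr : Module.finrank L L⟮β⟯ = q := by
    have h1 : Module.finrank L L⟮β⟯ ≤ q := by
      rw [adjoin.finrank hβL, ← hdegL]
      exact natDegree_le_of_dvd hdvd (hfm.monic.map _).ne_zero
    have h2 : q ∣ Module.finrank ℚ L⟮β⟯ := by
      have h3 := minpoly.degree_dvd (K := ℚ) (x := AdjoinSimple.gen L β)
        (Algebra.IsIntegral.isIntegral _)
      rw [← minpoly.algHom_eq ((L⟮β⟯.val).restrictScalars ℚ) Subtype.val_injective] at h3
      change (minpoly ℚ β).natDegree ∣ _ at h3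
      rwa [hmin, hfm.monic.natDegree_map, hfm.natDegree_eq] at h3
    rw [htower] at h2
    rcases (Nat.Prime.dvd_mul hq).mp h2 with h | h
    · exact absurd (Nat.le_of_dvd hd0 h) (by omega)
    · exact le_antisymm h1 (Nat.le_of_dvd Module.finrank_pos h)
  have hminL : minpoly L β = f.map (algebraMap ℤ L) :=
    (eq_of_monic_of_dvd_of_natDegree_le (minpoly.monic hβL) (hfm.monic.map _) hdvd
      (by rw [hdegL, ← adjoin.finrank hβL, hr])).symm
  refine ⟨β, hβi, fun z hz => hroots z (by rwa [hmin, aeval_map_algebraMap] at hz), fun h => ?_,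
    fun α hα hαi hαg => ?_⟩
  · have : L⟮β⟯ = ⊥ := adjoin_simple_eq_bot_iff.mpr ⟨⟨β, h⟩, rfl⟩
    rw [this, IntermediateField.finrank_bot] at hr
    exact hq.one_lt.ne hr
  by_contra hαL
  rw [← restrictScalars_adjoin_eq_sup, mem_restrictScalars] at hα
  have hle : L⟮α⟯ ≤ L⟮β⟯ := adjoin_simple_le_iff.mpr hα
  have heq : L⟮α⟯ = L⟮β⟯ := by
    have h1 := IntermediateField.finrank_dvd_of_le_right hle
    rw [hr] at h1
    rcases (Nat.dvd_prime hq).mp h1 with h | h
    · rw [IntermediateField.finrank_eq_one_iff, adjoin_simple_eq_bot_iff] at h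
      obtain ⟨x, rfl⟩ := h
      exact absurd x.2 hαL
    · exact eq_of_le_of_finrank_eq hle (h.trans hr.symm)
  refine nonsplit L⟮β⟯ hq (d := d) (by rw [htower, hr, mul_comm]) hd0 hQ g hσ hfm ?_ ?_
  · have := hirrQ.separable.map (f := algebraMap ℚ L⟮β⟯)
    rwa [Polynomial.map_map, RingHom.ext_int ((algebraMap ℚ L⟮β⟯).comp _) (algebraMap ℤ L⟮β⟯)] at this
  · have := algClosure
    have : Normal ℚ Ω := IsAlgClosure.normal ℚ Ω
    have hN : Normal L Ω := Normal.tower_top_of_normal ℚ L Ω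
    have := IntermediateField.splits_of_splits (F := L⟮β⟯) (p := minpoly L β)
      (IsAlgClosed.splits _) (fun x hx => by
        obtain ⟨τ, hτ⟩ := minpoly.exists_algEquiv_of_root' hβL.isAlgebraic (mem_rootSet.mp hx).2
        have h1 : β ∈ L⟮α⟯ := heq ▸ mem_adjoin_simple_self L β
        have h2 : τ β ∈ L⟮α⟯.map (τ : Ω →ₐ[L] Ω) := ⟨β, h1, rfl⟩
        rw [adjoin_map, Set.image_singleton] at h2
        have h3 : L⟮(τ : Ω →ₐ[L] Ω) α⟯ ≤ L⟮β⟯ := adjoin_simple_le_iff.mpr
          (kron hαi hαg (τ : Ω →+* Ω) L⟮β⟯.toSubfield hα)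
        exact hτ ▸ h3 h2)
    rwa [hminL, Polynomial.map_map,
      RingHom.ext_int ((algebraMap L L⟮β⟯).comp _) (algebraMap ℤ L⟮β⟯)] at this

/-- the totally real algebraic numbers -/
def TR : IntermediateField ℚ Ω where
  carrier := {x | ∀ φ : Ω →ₐ[ℚ] ℂ, (φ x).im = 0}
  mul_mem' ha hb φ := by simp [ha φ, hb φ]
  add_mem' ha hb φ := by simp [ha φ, hb φ]
  algebraMap_mem' r φ := by simp
  inv_mem' x hx φ := by simp [hx φ]

lemma tower : ∃ (K : IntermediateField ℚ Ω) (β : ℕ → Ω), K ≤ TR ∧ Function.Injective β ∧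
    (∀ n, β n ∈ K ∧ IsIntegral ℤ (β n) ∧ Good (4 + 1 / (n + 1 : ℝ)) (β n)) ∧
    ∀ α ∈ K, IsIntegral ℤ α → Good 4 α → α ∈ (⊥ : IntermediateField ℚ Ω) := by
  have hstep : ∀ (n : ℕ) (L : {L : IntermediateField ℚ Ω // FiniteDimensional ℚ L}),
      ∃ β : Ω, IsIntegral ℤ β ∧ Good (4 + 1 / (n + 1 : ℝ)) β ∧ β ∉ L.1 ∧
      ∀ α ∈ L.1 ⊔ ℚ⟮β⟯, IsIntegral ℤ α → Good 4 α → α ∈ L.1 := fun n L =>
    have := L.2
    step L.1 _ (by have : (0 : ℝ) < 1 / (n + 1 : ℝ) := by positivity
                   linarith)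
  choose b hb1 hb2 hb3 hb4 using hstep
  let L : ℕ → {L : IntermediateField ℚ Ω // FiniteDimensional ℚ L} := fun n =>
    Nat.rec ⟨⊥, inferInstance⟩ (fun n L => ⟨L.1 ⊔ ℚ⟮b n L⟯,
      have := L.2
      have := adjoin.finiteDimensional ((hb1 n L).tower_top (A := ℚ))
      IntermediateField.finiteDimensional_sup _ _⟩) n
  have hL : ∀ n, (L (n + 1)).1 = (L n).1 ⊔ ℚ⟮b n (L n)⟯ := fun n => rfl
  have hmono : Monotone fun n => (L n).1 := monotone_nat_of_le_succ fun n => by
    rw [hL]; exact le_sup_left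
  have hmem : ∀ n, b n (L n) ∈ (L (n + 1)).1 := fun n => by
    rw [hL]; exact (le_sup_right : ℚ⟮b n (L n)⟯ ≤ _) (mem_adjoin_simple_self ℚ _)
  refine ⟨⨆ n, (L n).1, fun n => b n (L n), iSup_le fun n => ?_, ?_,
    fun n => ⟨le_iSup (fun n => (L n).1) (n + 1) (hmem n), hb1 _ _, hb2 _ _⟩, fun α hα hi hg => ?_⟩
  · induction n with
    | zero => exact bot_le
    | succ n ih =>
      rw [hL]
      refine sup_le ih (adjoin_simple_le_iff.mpr fun φ => (hb2 n (L n) _ ?_).1)
      rw [aeval_algHom_apply, minpoly.aeval, map_zero]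
  · refine Function.Injective.of_lt_imp_ne fun m n hmn h => hb3 n (L n) ?_
    rw [← h]
    exact hmono (show m + 1 ≤ n from hmn) (hmem m)
  · have h1 : α ∈ ((⨆ n, (L n).1 : IntermediateField ℚ Ω) : Set Ω) := hα
    rw [IntermediateField.coe_iSup_of_directed hmono.directed_le, Set.mem_iUnion] at h1
    obtain ⟨n, hn⟩ := h1
    induction n with
    | zero => exact hn
    | succ n ih => exact ih (hb4 n (L n) α hn hi hg)

end Pool.Agent.Lead.JR
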