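import Mathlib

set_option autoImplicit false

namespace Pool.Agent.Lead.Kf

open MvPolynomial

abbrev S := MvPolynomial (Fin 4) ℚ

noncomputable def kill (i : Fin 4) : S →ₐ[ℚ] S := aeval (fun j => if j = i then 0 else X j)

theorem kill_self (i : Fin 4) : kill i (X i) = 0 := by simp [kill]

theorem kill_ne {i j : Fin 4} (h : j ≠ i) : kill i (X j) = X j := by simp [kill, h]

theorem kill_dec (i : Fin 4) (p : S) : ∃ q, p = kill i p + X i * q := by
  induction p using MvPolynomial.induction_on with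
  | C r => exact ⟨0, by simp [kill]⟩
  | add a b ha hb =>
    obtain ⟨p, h1⟩ := ha
    obtain ⟨p', h2⟩ := hb
    exact ⟨p + p', by rw [map_add]; linear_combination h1 + h2⟩
  | mul_X a j ha =>
    obtain ⟨p, h1⟩ := ha
    by_cases h : j = i
    · subst h
      exact ⟨a, by rw [map_mul, kill_self]; ring⟩
    · exact ⟨p * X j, by rw [map_mul, kill_ne h]; linear_combination X j * h1⟩

theorem ndvd {j k : Fin 4} (h : k ≠ j) (n : ℕ) : ¬ (X j : S) ∣ X k ^ n := by
  intro hd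
  exact h (X_dvd_X.1 (X_prime.dvd_of_dvd_pow hd)).symm

theorem ndvd2 {j k l : Fin 4} (h : k ≠ j) (h' : l ≠ j) : ¬ (X j : S) ∣ X k ^ 2 + X l ^ 2 := by
  intro hd
  have := map_dvd (eval (fun m => if m = j then (0 : ℚ) else 1)) hd
  simp [h, h'] at this

theorem c1 {i j k l : Fin 4} (hij : j ≠ i) (hik : k ≠ i) (hil : l ≠ i) (hjk : k ≠ j) (hjl : l ≠ j)
    (r a b : S) (h : X i * r = a * (X i ^ 2 + X j ^ 2) + b * (X k ^ 2 + X l ^ 2)) :
    ∃ a' b', r = a' * (X i ^ 2 + X j ^ 2) + b' * (X k ^ 2 + X l ^ 2) := by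
  have h1 := congrArg (kill i) h
  simp only [map_mul, map_add, map_pow, kill_self, kill_ne hij, kill_ne hik, kill_ne hil] at h1
  have d : (X j : S) ^ 2 ∣ kill i b * (X k ^ 2 + X l ^ 2) := ⟨-kill i a, by linear_combination -h1⟩
  obtain ⟨s, hs⟩ := X_prime.pow_dvd_of_dvd_mul_right 2 (ndvd2 hjk hjl) d
  have ha : kill i a = -(X k ^ 2 + X l ^ 2) * s := by
    apply mul_left_cancel₀ (pow_ne_zero 2 (X_ne_zero (R := ℚ) j))
    rw [hs] at h1
    linear_combination -h1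
  obtain ⟨a', e1⟩ := kill_dec i a
  obtain ⟨b', e2⟩ := kill_dec i b
  rw [ha] at e1
  rw [hs] at e2
  refine ⟨a', b' - X i * s, mul_left_cancel₀ (X_ne_zero (R := ℚ) i) ?_⟩
  rw [h, e1, e2]
  ring

theorem c2 {i j k l : Fin 4} (hij : j ≠ i) (hik : k ≠ i) (hil : l ≠ i) (hjk : k ≠ j) (hjl : l ≠ j)
    (hkl : l ≠ k) (r u a b : S)
    (h : X k * r = u * X i + a * (X i ^ 2 + X j ^ 2) + b * (X k ^ 2 + X l ^ 2)) :
    ∃ u' a' b', r = u' * X i + a' * (X i ^ 2 + X j ^ 2) + b' * (X k ^ 2 + X l ^ 2) := by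
  have h1 := congrArg (fun p => kill i (kill k p)) h
  simp only [map_mul, map_add, map_pow, kill_self, kill_ne hij, kill_ne hik.symm, kill_ne hil,
    kill_ne hjk.symm, kill_ne hkl, map_zero] at h1
  have d : (X j : S) ^ 2 ∣ kill i (kill k b) * X l ^ 2 :=
    ⟨-kill i (kill k a), by linear_combination -h1⟩
  obtain ⟨s, hs⟩ := X_prime.pow_dvd_of_dvd_mul_right 2 (ndvd hjl 2) d
  obtain ⟨b4, e1⟩ := kill_dec k b
  obtain ⟨b3, e2⟩ := kill_dec i (kill k b)
  rw [hs] at e2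
  rw [e2] at e1
  have h2 : X k * (r - b4 * (X k ^ 2 + X l ^ 2)) =
      X i * (u + a * X i + b3 * (X k ^ 2 + X l ^ 2)) + X j ^ 2 * (a + s * (X k ^ 2 + X l ^ 2)) := by
    rw [mul_sub, h, e1]
    ring
  generalize hr : r - b4 * (X k ^ 2 + X l ^ 2) = r' at h2
  generalize u + a * X i + b3 * (X k ^ 2 + X l ^ 2) = U at h2
  generalize a + s * (X k ^ 2 + X l ^ 2) = V at h2
  have h3 := congrArg (kill i) h2
  simp only [map_mul, map_add, map_pow, kill_self, kill_ne hij, kill_ne hik] at h3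
  have d2 : (X j : S) ^ 2 ∣ kill i r' * X k ^ 1 := ⟨kill i V, by linear_combination h3⟩
  obtain ⟨w, hw⟩ := X_prime.pow_dvd_of_dvd_mul_right 2 (ndvd hjk 1) d2
  obtain ⟨r2, e3⟩ := kill_dec i r'
  rw [hw] at e3
  exact ⟨r2 - w * X i, w, b4, by linear_combination hr + e3⟩

theorem c3 (r u v a b : S)
    (h : X 1 * r = u * X 0 + v * X 2 + a * (X 0 ^ 2 + X 1 ^ 2) + b * (X 2 ^ 2 + X 3 ^ 2)) :
    ∃ u' v' w b', r = u' * X 0 + v' * X 2 + w * X 1 + b' * (X 2 ^ 2 + X 3 ^ 2) := by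
  have h1 := congrArg (fun p => kill 0 (kill 2 p)) h
  simp only [map_mul, map_add, map_pow, kill_self, kill_ne (show (1 : Fin 4) ≠ 0 by decide),
    kill_ne (show (0 : Fin 4) ≠ 2 by decide), kill_ne (show (3 : Fin 4) ≠ 0 by decide),
    kill_ne (show (1 : Fin 4) ≠ 2 by decide), kill_ne (show (3 : Fin 4) ≠ 2 by decide),
    map_zero] at h1
  have d : (X 1 : S) ∣ kill 0 (kill 2 b) * X 3 ^ 2 :=
    ⟨kill 0 (kill 2 r) - kill 0 (kill 2 a) * X 1, by linear_combination -h1⟩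
  obtain ⟨s, hs⟩ := (X_prime.dvd_or_dvd d).resolve_right (ndvd (by decide) 2)
  have h2 : kill 0 (kill 2 r) = kill 0 (kill 2 a) * X 1 + s * X 3 ^ 2 := by
    apply mul_left_cancel₀ (X_ne_zero (R := ℚ) 1)
    rw [hs] at h1
    linear_combination h1
  obtain ⟨r1, e1⟩ := kill_dec 2 r
  obtain ⟨r2, e2⟩ := kill_dec 0 (kill 2 r)
  exact ⟨r2, r1 - s * X 2, kill 0 (kill 2 a), s, by linear_combination e1 + e2 + h2⟩

theorem c4 (r u v w a b : S)
    (h : X 3 * r = u * X 0 + v * X 2 + w * X 1 + a * (X 0 ^ 2 + X 1 ^ 2) +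
      b * (X 2 ^ 2 + X 3 ^ 2)) :
    ∃ u' v' w' s, r = u' * X 0 + v' * X 2 + w' * X 1 + s * X 3 := by
  have h1 := congrArg (fun p => kill 1 (kill 0 (kill 2 p))) h
  simp only [map_mul, map_add, map_pow, kill_self, kill_ne (show (1 : Fin 4) ≠ 0 by decide),
    kill_ne (show (0 : Fin 4) ≠ 2 by decide), kill_ne (show (3 : Fin 4) ≠ 0 by decide),
    kill_ne (show (1 : Fin 4) ≠ 2 by decide), kill_ne (show (3 : Fin 4) ≠ 2 by decide),
    kill_ne (show (3 : Fin 4) ≠ 1 by decide), map_zero] at h1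
  have h2 : kill 1 (kill 0 (kill 2 r)) = kill 1 (kill 0 (kill 2 b)) * X 3 := by
    apply mul_left_cancel₀ (X_ne_zero (R := ℚ) 3)
    linear_combination h1
  obtain ⟨r1, e1⟩ := kill_dec 2 r
  obtain ⟨r2, e2⟩ := kill_dec 0 (kill 2 r)
  obtain ⟨r3, e3⟩ := kill_dec 1 (kill 0 (kill 2 r))
  exact ⟨r2, r1, r3, kill 1 (kill 0 (kill 2 b)), by linear_combination e1 + e2 + e3 + h2⟩

/-- value at the origin of a second derivative -/
noncomputable def d2 (i j : Fin 4) : S →+ ℚ where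
  toFun p := constantCoeff (pderiv i (pderiv j p))
  map_zero' := by simp
  map_add' := by simp

/-- value at the origin of a third derivative -/
noncomputable def d3 (i j k : Fin 4) : S →+ ℚ where
  toFun p := constantCoeff (pderiv i (pderiv j (pderiv k p)))
  map_zero' := by simp
  map_add' := by simp

theorem d2_apply (i j : Fin 4) (p : S) : d2 i j p = constantCoeff (pderiv i (pderiv j p)) := rfl

theorem d3_apply (i j k : Fin 4) (p : S) :
    d3 i j k p = constantCoeff (pderiv i (pderiv j (pderiv k p))) := rfl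

theorem d2_mul (i j m n : Fin 4) (p : S) : d2 i j (p * (X m * X n)) =
    constantCoeff p * ((if m = i ∧ n = j then 1 else 0) + (if m = j ∧ n = i then 1 else 0)) := by
  rw [d2_apply]
  simp only [Derivation.leibniz, map_add, smul_eq_mul, map_mul, constantCoeff_X, pderiv_X,
    Pi.single_apply]
  by_cases h1 : m = i <;> by_cases h2 : m = j <;> by_cases h3 : n = i <;> by_cases h4 : n = j <;>
    simp [h1, h2, h3, h4] <;> simp_all

theorem d2_lin (m : Fin 4) (hm : m ≠ 0) (hm' : m ≠ 3) (p : S) : d2 0 3 (p * X m) = 0 := by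
  rw [d2_apply]
  simp [Derivation.leibniz, pderiv_X, Pi.single_apply, hm, hm']

noncomputable def D1 : S →+ ℚ := d3 3 0 0 - d3 3 1 1

noncomputable def D2 : S →+ ℚ := d3 0 2 2 - d3 0 3 3

theorem D1_J (a b : S) : D1 (a * (X 0 ^ 2 + X 1 ^ 2) + b * (X 2 ^ 2 + X 3 ^ 2)) = 0 := by
  simp only [D1, AddMonoidHom.sub_apply, d3_apply, pow_two]
  simp [Derivation.leibniz, pderiv_X, Pi.single_apply]

theorem D2_J (a b : S) : D2 (a * (X 0 ^ 2 + X 1 ^ 2) + b * (X 2 ^ 2 + X 3 ^ 2)) = 0 := by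
  simp only [D2, AddMonoidHom.sub_apply, d3_apply, pow_two]
  simp [Derivation.leibniz, pderiv_X, Pi.single_apply]

theorem d2_J (a b : S) : d2 0 3 (a * (X 0 ^ 2 + X 1 ^ 2) + b * (X 2 ^ 2 + X 3 ^ 2)) = 0 := by
  simp only [pow_two, mul_add, map_add, d2_mul]
  simp

/-- a general element of the product ideal -/
noncomputable def G (a : Fin 4 → S) : S :=
  a 0 * (X 0 * X 1) + a 1 * (X 0 * X 3) + a 2 * (X 2 * X 1) + a 3 * (X 2 * X 3)

theorem d2_G (r : S) (a : Fin 4 → S) :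
    d2 0 3 (r * G a) = constantCoeff r * constantCoeff (a 1) := by
  simp only [G, mul_add, ← mul_assoc r, map_add, d2_mul]
  simp

theorem D1_G (m : Fin 4) (c : ℚ) (a : Fin 4 → S) :
    D1 (C c * X m * G a) = if m = 0 then 2 * c * constantCoeff (a 1) else 0 := by
  simp only [D1, G, AddMonoidHom.sub_apply, d3_apply]
  fin_cases m <;> simp [Derivation.leibniz, pderiv_X, Pi.single_apply] <;> ring

theorem D2_G (m : Fin 4) (c : ℚ) (a : Fin 4 → S) :
    D2 (C c * X m * G a) = if m = 3 then -2 * c * constantCoeff (a 1) else 0 := by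
  simp only [D2, G, AddMonoidHom.sub_apply, d3_apply]
  fin_cases m <;> simp [Derivation.leibniz, pderiv_X, Pi.single_apply] <;> ring

theorem lin (p : S) (hp : p.IsHomogeneous 1) :
    ∃ c : Fin 4 → ℚ, p = C (c 0) * X 0 + C (c 1) * X 1 + C (c 2) * X 2 + C (c 3) * X 3 := by
  have h : p ∈ homogeneousSubmodule (Fin 4) ℚ 1 := hp
  rw [homogeneousSubmodule_one_eq_span_X, Submodule.mem_span_range_iff_exists_fun] at h
  obtain ⟨c, rfl⟩ := h
  exact ⟨c, by simp [Fin.sum_univ_four, smul_eq_C_mul]⟩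

end Pool.Agent.Lead.Kf
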