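import Mathlib

set_option autoImplicit false
set_option linter.style.haveILetI false
open Polynomial

namespace Pool.Agent.Lead.LS

variable {K : Type} [Field K]

abbrev T (K : Type) [Field K] : Type := FreeAlgebra K (Fin 3)

noncomputable def x (i : Fin 3) : T K := FreeAlgebra.ι K i

noncomputable def eps : T K →ₐ[K] K := FreeAlgebra.lift K (fun _ => (0 : K))

@[simp] lemma eps_x (i : Fin 3) : eps (x i : T K) = 0 := by simp [eps, x]

noncomputable def Fox (i : Fin 3) : T K →ₐ[K] Matrix (Fin 2) (Fin 2) (T K) :=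
  FreeAlgebra.lift K (fun j => !![x j, if j = i then 1 else 0; 0, 0])

lemma Fox_entries (i : Fin 3) (g : T K) :
    Fox i g 0 0 = g ∧ Fox i g 1 0 = 0 ∧ Fox i g 1 1 = algebraMap K (T K) (eps g) := by
  induction g using FreeAlgebra.induction with
  | grade0 r =>
    rw [AlgHom.commutes, AlgHom.commutes]
    simp [Matrix.algebraMap_matrix_apply]
  | grade1 j =>
    have : Fox i (FreeAlgebra.ι K j) = !![x j, if j = i then 1 else 0; 0, 0] := by
      simp [Fox]
    rw [this]
    have h2 : eps (FreeAlgebra.ι K j : T K) = 0 := eps_x j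
    simp [h2, x]
  | mul a b ha hb =>
    simp [map_mul, Matrix.mul_apply, Fin.sum_univ_two, ha.1, ha.2.1, ha.2.2, hb.1, hb.2.1, hb.2.2]
  | add a b ha hb =>
    simp [map_add, ha.1, ha.2.1, ha.2.2, hb.1, hb.2.1, hb.2.2]

noncomputable def R (i : Fin 3) : T K →ₗ[K] T K where
  toFun g := Fox i g 0 1
  map_add' a b := by simp
  map_smul' c a := by simp

lemma R_mul (i : Fin 3) (a b : T K) : R i (a * b) = a * R i b + eps b • R i a := by
  show Fox i (a * b) 0 1 = a * Fox i b 0 1 + eps b • Fox i a 0 1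
  rw [map_mul, Matrix.mul_apply, Fin.sum_univ_two, (Fox_entries i a).1, (Fox_entries i b).2.2,
    Algebra.smul_def, Algebra.commutes]

lemma R_x (i j : Fin 3) : R i (x j : T K) = if j = i then 1 else 0 := by
  show Fox i (x j) 0 1 = _
  simp [Fox, x]

lemma R_algebraMap (i : Fin 3) (c : K) : R i (algebraMap K (T K) c) = 0 := by
  show Fox i (algebraMap K (T K) c) 0 1 = 0
  rw [AlgHom.commutes]
  simp [Matrix.algebraMap_matrix_apply]

lemma R_one (i : Fin 3) : R i (1 : T K) = 0 := by
  simpa using R_algebraMap (K := K) i 1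

lemma R_mul_x (i j : Fin 3) (y : T K) : R i (y * x j) = if j = i then y else 0 := by
  rw [R_mul, R_x, eps_x]; split_ifs <;> simp

noncomputable def rho : T K →ₐ[K] Module.End K (T K) := FreeAlgebra.lift K (fun i => R i)

@[simp] lemma rho_x (i : Fin 3) : rho (x i : T K) = R i := by simp [rho, x]

lemma rho_mul_apply (a b y : T K) : rho (a * b) y = rho a (rho b y) := by
  rw [map_mul]; rfl

noncomputable def Hom (K : Type) [Field K] (n : ℕ) : Submodule K (T K) :=
  (Submodule.span K (Set.range (x : Fin 3 → T K))) ^ n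

noncomputable def Lt (K : Type) [Field K] (m : ℕ) : Submodule K (T K) :=
  ⨆ j ∈ Set.Iio m, Hom K j

lemma Lt_le {m : ℕ} {Q : Submodule K (T K)} (h : ∀ j < m, Hom K j ≤ Q) : Lt K m ≤ Q :=
  iSup₂_le h

lemma Hom_le_Lt {j m : ℕ} (h : j < m) : Hom K j ≤ Lt K m :=
  le_iSup₂_of_le (f := fun j (_ : j ∈ Set.Iio m) => Hom K j) j h le_rfl

lemma Lt_mono {a b : ℕ} (h : a ≤ b) : Lt K a ≤ Lt K b :=
  Lt_le fun _ hj => Hom_le_Lt (lt_of_lt_of_le hj h)

lemma Lt_zero {y : T K} (h : y ∈ Lt K 0) : y = 0 := by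
  have : Lt K 0 ≤ ⊥ := Lt_le fun j hj => absurd hj (Nat.not_lt_zero j)
  exact (Submodule.mem_bot K).1 (this h)

lemma Hom_zero_le {Q : Submodule K (T K)} (h : (1 : T K) ∈ Q) : Hom K 0 ≤ Q := by
  rw [Hom, pow_zero, Submodule.one_le]; exact h

lemma Hom_succ_le {n : ℕ} {Q : Submodule K (T K)}
    (h : ∀ y ∈ Hom K n, ∀ i, y * x i ∈ Q) : Hom K (n + 1) ≤ Q := by
  rw [Hom, pow_succ, Submodule.mul_le]
  intro y hy u hu
  induction hu using Submodule.span_induction with
  | mem u hu => obtain ⟨i, rfl⟩ := hu; exact h y hy i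
  | zero => simp
  | add a b _ _ ha hb => rw [mul_add]; exact Q.add_mem ha hb
  | smul c a _ ha => rw [mul_smul_comm]; exact Q.smul_mem c ha

lemma one_mem_Hom : (1 : T K) ∈ Hom K 0 := by
  rw [Hom, pow_zero]; exact Submodule.one_le.1 le_rfl

lemma x_mem_Hom (i : Fin 3) : (x i : T K) ∈ Hom K 1 := by
  rw [Hom, pow_one]; exact Submodule.subset_span ⟨i, rfl⟩

lemma mul_mem_Hom {a b : ℕ} {y z : T K} (hy : y ∈ Hom K a) (hz : z ∈ Hom K b) :
    y * z ∈ Hom K (a + b) := by
  rw [Hom, pow_add]; exact Submodule.mul_mem_mul hy hz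

lemma pow_mem_Hom {a : ℕ} {y : T K} (hy : y ∈ Hom K a) (n : ℕ) : y ^ n ∈ Hom K (a * n) := by
  induction n with
  | zero => simpa using one_mem_Hom
  | succ n ih => rw [pow_succ, Nat.mul_succ]; exact mul_mem_Hom ih hy

lemma eps_Hom {n : ℕ} {y : T K} (hy : y ∈ Hom K (n + 1)) : eps y = 0 := by
  have : Hom K (n + 1) ≤ LinearMap.ker (eps (K := K)).toLinearMap :=
    Hom_succ_le fun y _ i => by simp
  exact this hy

lemma R_Hom_succ (i : Fin 3) {n : ℕ} {y : T K} (hy : y ∈ Hom K (n + 1)) : R i y ∈ Hom K n := by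
  have : Hom K (n + 1) ≤ (Hom K n).comap (R i) := Hom_succ_le fun y hy j => by
    rw [Submodule.mem_comap, R_mul_x]; split_ifs
    · exact hy
    · exact zero_mem _
  exact this hy

lemma R_Lt (i : Fin 3) {m : ℕ} {y : T K} (hy : y ∈ Lt K (m + 1)) : R i y ∈ Lt K m := by
  have : Lt K (m + 1) ≤ (Lt K m).comap (R i) := Lt_le fun j hj => by
    rcases j with _ | j
    · exact Hom_zero_le (by rw [Submodule.mem_comap, R_one]; exact zero_mem _)
    · intro y hy
      exact Hom_le_Lt (by omega) (R_Hom_succ i hy)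
  exact this hy

lemma rho_lower (g : T K) : ∀ (m : ℕ) (b : T K), b ∈ Lt K (m + 1) →
    rho g b - eps g • b ∈ Lt K m := by
  induction g using FreeAlgebra.induction with
  | grade0 r =>
    intro m b _
    rw [AlgHom.commutes, AlgHom.commutes]
    simp
  | grade1 j =>
    intro m b hb
    have h1 : rho (FreeAlgebra.ι K j : T K) = R j := rho_x j
    have h2 : eps (FreeAlgebra.ι K j : T K) = 0 := eps_x j
    rw [h1, h2, zero_smul, sub_zero]
    exact R_Lt j hb
  | mul g1 g2 h1 h2 =>
    intro m b hb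
    have hc := h2 m b hb
    have h3 := h1 m _ (Lt_mono (Nat.le_succ m) hc)
    have h4 := (Lt K m).add_mem ((Lt K m).add_mem h3 ((Lt K m).smul_mem (eps g1) hc))
      ((Lt K m).smul_mem (eps g2) (h1 m b hb))
    have e : rho (g1 * g2) b - eps (g1 * g2) • b =
        rho g1 (rho g2 b - eps g2 • b) - eps g1 • (rho g2 b - eps g2 • b) +
          eps g1 • (rho g2 b - eps g2 • b) + eps g2 • (rho g1 b - eps g1 • b) := by
      rw [rho_mul_apply, map_mul, map_sub, map_smul]
      module
    rw [e]; exact h4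
  | add g1 g2 h1 h2 =>
    intro m b hb
    have := (Lt K m).add_mem (h1 m b hb) (h2 m b hb)
    have e : rho (g1 + g2) b - eps (g1 + g2) • b =
        rho g1 b - eps g1 • b + (rho g2 b - eps g2 • b) := by
      rw [map_add, map_add, LinearMap.add_apply]
      module
    rw [e]; exact this

lemma rho_pow_zero {f : T K} (hf : eps f = 0) : ∀ (n : ℕ) (y : T K), y ∈ Lt K n →
    rho (f ^ n) y = 0 := by
  intro n
  induction n with
  | zero => intro y hy; rw [Lt_zero hy, map_zero]
  | succ n ih =>
    intro y hy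
    rw [pow_succ, rho_mul_apply]
    apply ih
    have := rho_lower f n y hy
    rwa [hf, zero_smul, sub_zero] at this

noncomputable def app (y : T K) : T K →ₗ[K] T K where
  toFun p := rho p y
  map_add' a b := by simp
  map_smul' c a := by simp

lemma rho_Hom_zero : ∀ (l : ℕ) (y : T K), y ∈ Lt K l → ∀ p ∈ Hom K l, rho p y = 0 := by
  intro l
  induction l with
  | zero => intro y hy p _; rw [Lt_zero hy, map_zero]
  | succ l ih =>
    intro y hy
    have : Hom K (l + 1) ≤ LinearMap.ker (app y) := Hom_succ_le fun p hp i => by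
      show rho (p * x i) y = 0
      rw [rho_mul_apply, rho_x]
      exact ih _ (R_Lt i hy) p hp
    exact fun p hp => this hp

lemma rho_Hom_Hom : ∀ (l m : ℕ) (y : T K), y ∈ Hom K (m + l) → ∀ p ∈ Hom K l,
    rho p y ∈ Hom K m := by
  intro l
  induction l with
  | zero =>
    intro m y hy
    have : Hom K 0 ≤ (Hom K m).comap (app y) := Hom_zero_le (by
      show rho 1 y ∈ Hom K m
      simpa using hy)
    exact fun p hp => this hp
  | succ l ih =>
    intro m y hy
    have : Hom K (l + 1) ≤ (Hom K m).comap (app y) := Hom_succ_le fun p hp i => by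
      show rho (p * x i) y ∈ Hom K m
      rw [rho_mul_apply, rho_x]
      exact ih m _ (R_Hom_succ i hy) p hp
    exact fun p hp => this hp

lemma eps_rho_Lt {N : ℕ} {y r : T K} (hy : y ∈ Hom K N) (hr : r ∈ Lt K N) :
    eps (rho r y) = 0 := by
  have : Lt K N ≤ LinearMap.ker ((eps (K := K)).toLinearMap ∘ₗ app y) := Lt_le fun j hj p hp => by
    show eps (rho p y) = 0
    obtain ⟨m, rfl⟩ : ∃ m, N = (m + 1) + j := ⟨N - j - 1, by omega⟩
    exact eps_Hom (rho_Hom_Hom j (m + 1) y hy p hp)
  exact this hr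

lemma mul_mem_Lt {a b : ℕ} {y z : T K} (hy : y ∈ Lt K a) (hz : z ∈ Lt K b) :
    y * z ∈ Lt K (a + b) := by
  have : Lt K a ≤ (Lt K (a + b)).comap (LinearMap.mulRight K z) := Lt_le fun j hj y hy => by
    have : Lt K b ≤ (Lt K (a + b)).comap (LinearMap.mulLeft K y) := Lt_le fun k hk z hz =>
      Hom_le_Lt (by omega) (mul_mem_Hom hy hz)
    exact this hz
  exact this hy

lemma exists_Lt (f : T K) : ∃ D, f ∈ Lt K D := by
  induction f using FreeAlgebra.induction with
  | grade0 r =>
    refine ⟨1, Hom_le_Lt Nat.one_pos ?_⟩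
    rw [Algebra.algebraMap_eq_smul_one]
    exact Submodule.smul_mem _ _ one_mem_Hom
  | grade1 j => exact ⟨2, Hom_le_Lt (by omega) (x_mem_Hom j)⟩
  | mul a b ha hb =>
    obtain ⟨D, hD⟩ := ha
    obtain ⟨E, hE⟩ := hb
    exact ⟨D + E, mul_mem_Lt hD hE⟩
  | add a b ha hb =>
    obtain ⟨D, hD⟩ := ha
    obtain ⟨E, hE⟩ := hb
    exact ⟨D + E, add_mem (Lt_mono (by omega) hD) (Lt_mono (by omega) hE)⟩

lemma rho_mul_x (i : Fin 3) (g : T K) : ∀ y : T K,
    rho g (y * x i) = rho (R i g) y + eps g • (y * x i) := by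
  induction g using FreeAlgebra.induction with
  | grade0 r =>
    intro y
    rw [R_algebraMap, AlgHom.commutes, AlgHom.commutes]
    simp
  | grade1 j =>
    intro y
    show rho (x j) (y * x i) = rho (R i (x j)) y + eps (x j) • (y * x i)
    rw [rho_x, R_mul_x, R_x, eps_x]
    by_cases h : i = j
    · subst h; simp
    · rw [if_neg h, if_neg (Ne.symm h)]; simp
  | mul g1 g2 h1 h2 =>
    intro y
    rw [rho_mul_apply, h2, map_add, map_smul, h1, R_mul, map_add, map_smul, map_mul eps,
      LinearMap.add_apply, LinearMap.smul_apply, rho_mul_apply]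
    module
  | add g1 g2 h1 h2 =>
    intro y
    rw [map_add, LinearMap.add_apply, h1, h2, map_add, map_add, map_add, LinearMap.add_apply]
    module

noncomputable def wd (p : List (Fin 3)) : T K := (p.map x).prod

lemma wd_mem (p : List (Fin 3)) : (wd p : T K) ∈ Hom K p.length := by
  induction p with
  | nil => exact one_mem_Hom
  | cons i p ih =>
    have := mul_mem_Hom (x_mem_Hom (K := K) i) ih
    rw [add_comm] at this
    simpa [wd] using this

noncomputable def Y (f : T K) (p : List (Fin 3)) (n : ℕ) : T K →ₗ[K] T K :=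
  rho (f ^ n * rho (wd p) f)

lemma Y_rec {f : T K} (hf : eps f = 0) (p : List (Fin 3)) (n : ℕ) (i : Fin 3) (y : T K) :
    Y f p (n + 1) (y * x i) =
      Y f (i :: p) (n + 1) y + eps (rho (wd p) f) • Y f [i] n y := by
  unfold Y
  rw [rho_mul_x, R_mul]
  have h1 : R i (rho (wd p) f) = rho (wd (i :: p)) f := by
    have : (wd (i :: p) : T K) = x i * wd p := by simp [wd]
    rw [this, rho_mul_apply, rho_x]
  have h2 : R i (f ^ (n + 1)) = f ^ n * rho (wd [i]) f := by
    have : (wd [i] : T K) = x i := by simp [wd]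
    rw [pow_succ, R_mul, hf, zero_smul, add_zero, this, rho_x]
  have h3 : eps (f ^ (n + 1) * rho (wd p) f) = 0 := by
    rw [map_mul, map_pow, hf]; simp
  rw [h1, h2, h3, zero_smul, add_zero, map_add, map_smul]
  rfl

noncomputable def Xi (f : T K) (p : List (Fin 3)) (l : ℕ) : T K →ₗ[K] (ℕ → T K → T K) where
  toFun b := fun n y => Y f p (n + l) (y * b)
  map_add' a b := by funext n y; simp [mul_add]
  map_smul' c a := by funext n y; simp

noncomputable def gen (f : T K) (q : List (Fin 3)) (j : ℕ) : ℕ → T K → T K :=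
  fun n y => Y f q (n + j) y

noncomputable def E (f : T K) (D l : ℕ) : Submodule K (ℕ → T K → T K) :=
  Submodule.span K {g | ∃ q j, q.length < D ∧ j ≤ l ∧ g = gen f q j}

noncomputable def sh : (ℕ → T K → T K) →ₗ[K] (ℕ → T K → T K) where
  toFun g := fun n => g (n + 1)
  map_add' _ _ := rfl
  map_smul' _ _ := rfl

lemma Y_long {f : T K} {D : ℕ} (hD : f ∈ Lt K D) {p : List (Fin 3)} (hp : D ≤ p.length) (n : ℕ) :
    Y f p n = 0 := by
  unfold Y
  rw [rho_Hom_zero _ f (Lt_mono hp hD) _ (wd_mem p), mul_zero, map_zero]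

lemma Xi_mem {f : T K} (hf : eps f = 0) {D : ℕ} (hD : f ∈ Lt K D) :
    ∀ (l : ℕ) (p : List (Fin 3)), Hom K l ≤ (E f D l).comap (Xi f p l) := by
  intro l
  induction l with
  | zero =>
    intro p
    apply Hom_zero_le
    rw [Submodule.mem_comap]
    by_cases hp : p.length < D
    · apply Submodule.subset_span
      refine ⟨p, 0, hp, le_rfl, ?_⟩
      funext n y
      simp [Xi, gen]
    · have : Xi f p 0 1 = 0 := by
        funext n y
        simp [Xi, Y_long hD (not_lt.1 hp)]
      rw [this]; exact zero_mem _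
  | succ l ih =>
    intro p
    apply Hom_succ_le
    intro b hb i
    rw [Submodule.mem_comap]
    have e : Xi f p (l + 1) (b * x i) =
        sh (Xi f (i :: p) l b) + eps (rho (wd p) f) • Xi f [i] l b := by
      funext n y
      show Y f p (n + (l + 1)) (y * (b * x i)) =
        Y f (i :: p) (n + 1 + l) (y * b) + eps (rho (wd p) f) • Y f [i] (n + l) (y * b)
      rw [← mul_assoc, ← add_assoc, Y_rec hf, show n + 1 + l = n + l + 1 by omega]
    have h1 : E f D l ≤ E f D (l + 1) := Submodule.span_mono (by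
      rintro g ⟨q, j, hq, hj, rfl⟩
      exact ⟨q, j, hq, by omega, rfl⟩)
    have h2 : E f D l ≤ (E f D (l + 1)).comap sh := Submodule.span_le.2 (by
      rintro g ⟨q, j, hq, hj, rfl⟩
      apply Submodule.subset_span
      refine ⟨q, j + 1, hq, by omega, ?_⟩
      funext n y
      show Y f q (n + 1 + j) y = Y f q (n + (j + 1)) y
      rw [show n + 1 + j = n + (j + 1) by omega])
    rw [e]
    exact add_mem (h2 (ih _ hb)) (Submodule.smul_mem _ _ (h1 (ih _ hb)))

lemma kill {f : T K} (hf : eps f = 0) {M : ℕ} {φ : T K} (hk : ∀ q, Xi f q M φ = 0)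
    (a : T K) {m : ℕ} {b : T K} (hb : b ∈ Hom K m) (p : List (Fin 3)) (n : ℕ) :
    Y f p (n + M + m) (a * φ * b) = 0 := by
  obtain ⟨D, hD⟩ := exists_Lt f
  have h1 := Xi_mem hf hD m p hb
  rw [Submodule.mem_comap] at h1
  let evl : (ℕ → T K → T K) →ₗ[K] T K :=
    { toFun := fun g => g (n + M) (a * φ)
      map_add' := fun _ _ => rfl
      map_smul' := fun _ _ => rfl }
  have h2 : E f D m ≤ LinearMap.ker evl := Submodule.span_le.2 (by
    rintro g ⟨q, j, -, -, rfl⟩
    show Y f q (n + M + j) (a * φ) = 0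
    have := congrFun (congrFun (hk q) (n + j)) a
    rw [show n + M + j = n + j + M by omega]
    exact this)
  exact h2 h1

/-- The killing lemma. -/
lemma kill_all {f : T K} (hf : eps f = 0) {M : ℕ} (hM : 0 < M) (Φ : Set (T K))
    (hΦ : ∀ φ ∈ Φ, φ ∈ Hom K M ∧ ∀ q, Xi f q M φ = 0) (v ψ : T K)
    (hψ : ψ ∈ Algebra.adjoin K Φ ∨ ψ ∈ Lt K M) : rho (f ^ (2 * M + 1) * v) ψ = 0 := by
  set P := Subalgebra.toSubmodule (Algebra.adjoin K Φ) with hP
  set G := P * Lt K M with hG
  have hLG : Lt K M ≤ G := fun b hb => by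
    have := Submodule.mul_mem_mul (show (1 : T K) ∈ P from (Algebra.adjoin K Φ).one_mem) hb
    rwa [one_mul] at this
  have hPG : ∀ a ∈ P, ∀ g ∈ G, a * g ∈ G := by
    intro a ha
    have : G ≤ G.comap (LinearMap.mulLeft K a) := by
      rw [hG, Submodule.mul_le]
      intro u hu b hb
      show a * (u * b) ∈ P * Lt K M
      rw [← mul_assoc]
      exact Submodule.mul_mem_mul ((Algebra.adjoin K Φ).mul_mem ha hu) hb
    exact fun g hg => this hg
  have hRP : ∀ i, ∀ a ∈ Algebra.adjoin K Φ, R i a ∈ G := by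
    intro i a ha
    induction ha using Algebra.adjoin_induction with
    | mem φ hφ =>
      obtain ⟨M', rfl⟩ : ∃ M', M = M' + 1 := ⟨M - 1, by omega⟩
      exact hLG (Hom_le_Lt (by omega) (R_Hom_succ i (hΦ φ hφ).1))
    | algebraMap r => rw [R_algebraMap]; exact zero_mem _
    | add a b _ _ ha hb => rw [map_add]; exact add_mem ha hb
    | mul a b ha' _ ha hb =>
      rw [R_mul]; exact add_mem (hPG a ha' _ hb) (Submodule.smul_mem _ _ ha)
  have hRG : ∀ i, G ≤ G.comap (R i) := by
    intro i
    rw [hG, Submodule.mul_le]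
    intro u hu b hb
    rw [Submodule.mem_comap, R_mul]
    exact add_mem (Submodule.mul_mem_mul hu (R_Lt i (Lt_mono (Nat.le_succ M) hb)))
      (Submodule.smul_mem _ _ (hRP i u hu))
  have hrho : ∀ v : T K, ∀ g ∈ G, rho v g ∈ G := by
    intro v
    induction v using FreeAlgebra.induction with
    | grade0 r =>
      intro g hg
      rw [AlgHom.commutes, Module.algebraMap_end_apply]
      exact Submodule.smul_mem _ _ hg
    | grade1 j =>
      intro g hg
      have h1 : rho (FreeAlgebra.ι K j : T K) = R j := rho_x j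
      rw [h1]; exact hRG j hg
    | mul a b ha hb => intro g hg; rw [rho_mul_apply]; exact ha _ (hb _ hg)
    | add a b ha hb =>
      intro g hg; rw [map_add, LinearMap.add_apply]; exact add_mem (ha _ hg) (hb _ hg)
  have hψG : ψ ∈ G := by
    rcases hψ with h | h
    · have := Submodule.mul_mem_mul (show ψ ∈ P from h) (Hom_le_Lt hM one_mem_Hom)
      rwa [mul_one] at this
    · exact hLG h
  -- `f ^ (2 M + 1)` kills `G`
  have hkill : G ≤ LinearMap.ker (rho (f ^ (2 * M + 1))) := by
    rw [hG, Submodule.mul_le]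
    intro u hu b hb
    let Z : Submodule K (T K) :=
      { carrier := {t | ∀ a : T K, rho (f ^ (2 * M + 1)) (a * t * b) = 0}
        add_mem' := fun {s t} hs ht a => by
          rw [mul_add, add_mul, map_add, hs a, ht a, add_zero]
        zero_mem' := fun a => by simp
        smul_mem' := fun c t ht a => by
          rw [mul_smul_comm, smul_mul_assoc, map_smul, ht a, smul_zero] }
    have hu' : ∃ c : K, u - algebraMap K (T K) c ∈ Z := by
      have hu2 : u ∈ Algebra.adjoin K Φ := hu
      clear hu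
      induction hu2 using Algebra.adjoin_induction with
      | mem φ hφ =>
        refine ⟨0, ?_⟩
        rw [map_zero, sub_zero]
        intro a
        have : Lt K M ≤ LinearMap.ker (rho (f ^ (2 * M + 1)) ∘ₗ LinearMap.mulLeft K (a * φ)) :=
          Lt_le fun m hm b hb => by
            show rho (f ^ (2 * M + 1)) (a * φ * b) = 0
            have h1 := kill hf (hΦ φ hφ).2 a hb [] (M - m)
            rw [show M - m + M + m = 2 * M by omega] at h1
            have h2 : (wd [] : T K) = 1 := by simp [wd]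
            unfold Y at h1
            rw [h2, map_one, Module.End.one_apply, ← pow_succ] at h1
            exact h1
        exact this hb
      | algebraMap r => exact ⟨r, by rw [sub_self]; exact zero_mem _⟩
      | add s t _ _ hs ht =>
        obtain ⟨c, hc⟩ := hs
        obtain ⟨d, hd⟩ := ht
        refine ⟨c + d, ?_⟩
        have := add_mem hc hd
        convert this using 1
        rw [map_add]; abel
      | mul s t _ _ hs ht =>
        obtain ⟨c, hc⟩ := hs
        obtain ⟨d, hd⟩ := ht
        refine ⟨c * d, ?_⟩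
        have h1 : s * (t - algebraMap K (T K) d) ∈ Z := fun a => by
          rw [← mul_assoc]; exact hd (a * s)
        have := add_mem h1 (Z.smul_mem d hc)
        have e : s * t - algebraMap K (T K) (c * d) =
            s * (t - algebraMap K (T K) d) + d • (s - algebraMap K (T K) c) := by
          simp only [Algebra.algebraMap_eq_smul_one, mul_sub, mul_smul_comm, mul_one]
          module
        rw [e]; exact this
    obtain ⟨c, hc⟩ := hu'
    have h1 := hc 1
    have h2 : rho (f ^ (2 * M + 1)) b = 0 := rho_pow_zero hf _ b (Lt_mono (by omega) hb)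
    rw [one_mul, sub_mul, map_sub, ← Algebra.smul_def, map_smul, h2, smul_zero, sub_zero] at h1
    exact h1
  rw [rho_mul_apply]
  exact hkill (hrho v ψ hψG)

end Pool.Agent.Lead.LS
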