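import Pool.Agent.Lead.LS1

set_option autoImplicit false
set_option linter.style.haveILetI false
open Polynomial

namespace Pool.Agent.Lead.LS

variable {K : Type} [Field K]

noncomputable def ev : T K →ₐ[K] K[X][X] :=
  FreeAlgebra.lift K (fun i : Fin 3 => (![X, C X, 1] : Fin 3 → K[X][X]) i)

lemma ev_x (i : Fin 3) : ev (x i : T K) = (![X, C X, 1] : Fin 3 → K[X][X]) i := by
  simp [ev, x]

noncomputable def cf (e : ℕ × ℕ) : K[X][X] →ₗ[K] K where
  toFun p := (p.coeff e.1).coeff e.2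
  map_add' a b := by simp
  map_smul' c a := by simp

noncomputable def dg (p : K[X][X]) : ℕ × ℕ := (p.natDegree, p.leadingCoeff.natDegree)

lemma dg_mul {p q : K[X][X]} (hp : p ≠ 0) (hq : q ≠ 0) : dg (p * q) = dg p + dg q := by
  unfold dg
  rw [natDegree_mul hp hq, leadingCoeff_mul,
    natDegree_mul (leadingCoeff_ne_zero.2 hp) (leadingCoeff_ne_zero.2 hq)]
  rfl

lemma dg_pow {p : K[X][X]} (n : ℕ) : dg (p ^ n) = n • dg p := by
  unfold dg
  rw [natDegree_pow, leadingCoeff_pow, natDegree_pow]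
  simp

lemma cf_dg {p : K[X][X]} (hp : p ≠ 0) : cf (dg p) p ≠ 0 := by
  show (p.coeff p.natDegree).coeff p.leadingCoeff.natDegree ≠ 0
  exact leadingCoeff_ne_zero.2 (leadingCoeff_ne_zero.2 hp)

lemma cf_lt {p : K[X][X]} {e : ℕ × ℕ} (h : toLex (dg p) < toLex e) : cf e p = 0 := by
  show (p.coeff e.1).coeff e.2 = 0
  rw [Prod.Lex.toLex_lt_toLex] at h
  rcases h with h | ⟨h1, h2⟩
  · rw [coeff_eq_zero_of_natDegree_lt (p := p) h, coeff_zero]
  · have h3 : p.natDegree = e.1 := h1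
    rw [← h3]
    exact coeff_eq_zero_of_natDegree_lt h2

lemma cf_bound : ∀ (M : ℕ) (φ : T K), φ ∈ Hom K M → ∀ e : ℕ × ℕ, (M < e.1 ∨ M < e.2) →
    cf e (ev φ) = 0 := by
  intro M
  let Q : ℕ → Submodule K (T K) := fun M =>
    { carrier := {φ | ∀ e : ℕ × ℕ, (M < e.1 ∨ M < e.2) → cf e (ev φ) = 0}
      add_mem' := fun {a b} ha hb e he => by rw [map_add, map_add, ha e he, hb e he, add_zero]
      zero_mem' := fun e _ => by simp
      smul_mem' := fun c a ha e he => by rw [map_smul, map_smul, ha e he, smul_zero] }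
  suffices h : Hom K M ≤ Q M from fun φ hφ => h hφ
  induction M with
  | zero =>
    apply Hom_zero_le
    rintro ⟨a, b⟩ he
    show ((ev (1 : T K)).coeff a).coeff b = 0
    rw [map_one, coeff_one]
    split_ifs with h
    · rw [coeff_one, if_neg]; simp only at he; omega
    · simp
  | succ M ih =>
    apply Hom_succ_le
    rintro y hy i ⟨a, b⟩ he
    have h := ih hy
    show ((ev (y * x i)).coeff a).coeff b = 0
    simp only at he
    rw [map_mul, ev_x]
    fin_cases i
    · show ((ev y * X).coeff a).coeff b = 0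
      rcases a with _ | a
      · simp
      · rw [coeff_mul_X]
        exact h (a, b) (by simp only; omega)
    · show ((ev y * C X).coeff a).coeff b = 0
      rw [coeff_mul_C]
      rcases b with _ | b
      · simp
      · rw [coeff_mul_X]
        exact h (a, b) (by simp only; omega)
    · show ((ev y * 1).coeff a).coeff b = 0
      rw [mul_one]
      exact h (a, b) (by simp only; omega)

def det3 (a b c : ℕ × ℕ) : ℤ :=
  ((b.1 : ℤ) - a.1) * ((c.2 : ℤ) - a.2) - ((b.2 : ℤ) - a.2) * ((c.1 : ℤ) - a.1)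

lemma noncollinear (M : ℕ) (Λ : Finset (ℕ × ℕ)) (hb : ∀ e ∈ Λ, e.1 ≤ M ∧ e.2 ≤ M)
    (hc : M + 1 < Λ.card) : ∃ a ∈ Λ, ∃ b ∈ Λ, ∃ c ∈ Λ, det3 a b c ≠ 0 := by
  by_contra hcon
  push Not at hcon
  obtain ⟨a, ha, b, hb', hab⟩ := Finset.one_lt_card.1 (by omega : 1 < Λ.card)
  have key : ∀ g : ℕ × ℕ → ℕ, (∀ e ∈ Λ, g e ≤ M) → Set.InjOn g Λ → False := by
    intro g hg hinj
    have := Finset.card_le_card_of_injOn (t := Finset.range (M + 1)) g
      (fun e he => by simpa [Nat.lt_succ_iff] using hg e he) hinj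
    rw [Finset.card_range] at this
    omega
  by_cases h1 : a.1 = b.1
  · have h2 : a.2 ≠ b.2 := fun h2 => hab (Prod.ext h1 h2)
    refine key Prod.snd (fun e he => (hb e he).2) ?_
    intro c hc d hd hcd
    have e1 := hcon a ha b hb' c hc
    have e2 := hcon a ha b hb' d hd
    unfold det3 at e1 e2
    have hcd' : (c.2 : ℤ) = d.2 := by exact_mod_cast hcd
    have h3 : ((b.2 : ℤ) - a.2) * ((c.1 : ℤ) - d.1) = 0 := by
      linear_combination e2 - e1 + ((b.1 : ℤ) - a.1) * hcd'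
    rcases mul_eq_zero.1 h3 with h4 | h4
    · exact absurd (by omega) h2
    · exact Prod.ext (by omega) hcd
  · refine key Prod.fst (fun e he => (hb e he).1) ?_
    intro c hc d hd hcd
    have e1 := hcon a ha b hb' c hc
    have e2 := hcon a ha b hb' d hd
    unfold det3 at e1 e2
    have hcd' : (c.1 : ℤ) = d.1 := by exact_mod_cast hcd
    have h3 : ((b.1 : ℤ) - a.1) * ((c.2 : ℤ) - d.2) = 0 := by
      linear_combination e1 - e2 + ((b.2 : ℤ) - a.2) * hcd'
    rcases mul_eq_zero.1 h3 with h4 | h4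
    · exact absurd (by omega) h1
    · exact Prod.ext hcd (by omega)

structure St (K : Type) [Field K] where
  N : ℕ
  φ : Fin 3 → T K
  pos : 0 < N
  hom : ∀ k, φ k ∈ Hom K N
  ne : ∀ k, ev (φ k) ≠ 0
  det : det3 (dg (ev (φ 0))) (dg (ev (φ 1))) (dg (ev (φ 2))) ≠ 0

noncomputable def St.init : St K where
  N := 1
  φ := x
  pos := one_pos
  hom := x_mem_Hom
  ne := by
    intro k
    rw [ev_x]
    fin_cases k <;> simp
  det := by
    simp only [ev_x]
    simp [dg, det3]

lemma E_fin (f : T K) (D l : ℕ) :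
    Module.Finite K (E f D l) ∧ Module.finrank K (E f D l) ≤
      Nat.card {q : List (Fin 3) // q.length < D} * (l + 1) := by
  haveI : Finite {q : List (Fin 3) // q.length < D} := List.finite_length_lt (Fin 3) D
  haveI := Fintype.ofFinite {q : List (Fin 3) // q.length < D}
  have hset : {g | ∃ q j, q.length < D ∧ j ≤ l ∧ g = gen f q j} =
      Set.range (fun e : {q : List (Fin 3) // q.length < D} × Fin (l + 1) => gen f e.1.1 e.2) := by
    ext g
    constructor
    · rintro ⟨q, j, hq, hj, rfl⟩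
      exact ⟨(⟨q, hq⟩, ⟨j, by omega⟩), rfl⟩
    · rintro ⟨⟨q, j⟩, rfl⟩
      exact ⟨q.1, j, q.2, by omega, rfl⟩
  unfold E
  rw [hset]
  refine ⟨Module.Finite.span_of_finite K (Set.finite_range _), ?_⟩
  have := finrank_range_le_card (R := K)
    (fun e : {q : List (Fin 3) // q.length < D} × Fin (l + 1) => gen f e.1.1 e.2)
  rw [Fintype.card_prod, Fintype.card_fin, ← Nat.card_eq_fintype_card] at this
  exact this

theorem step (st : St K) {f : T K} (hf : eps f = 0) (L : ℕ) :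
    ∃ st' : St K, L < st'.N ∧ (∀ k, st'.φ k ∈ Algebra.adjoin K (Set.range st.φ)) ∧
      ∀ k q, Xi f q st'.N (st'.φ k) = 0 := by
  classical
  obtain ⟨D, hD⟩ := exists_Lt f
  haveI : Finite {q : List (Fin 3) // q.length < D} := List.finite_length_lt (Fin 3) D
  haveI := Fintype.ofFinite {q : List (Fin 3) // q.length < D}
  set c := Nat.card {q : List (Fin 3) // q.length < D} with hc
  set N := st.N with hN
  have hNpos : 0 < N := st.pos
  set h := (c * c + 1) * (2 * N + 1) + L + 1 with hh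
  set M := N * (2 * h) with hM
  let ψ : Fin h × Fin h → T K := fun e =>
    st.φ 0 ^ (2 * h - e.1 - e.2) * st.φ 1 ^ (e.1 : ℕ) * st.φ 2 ^ (e.2 : ℕ)
  have hψhom : ∀ e, ψ e ∈ Hom K M := by
    intro e
    have := mul_mem_Hom (mul_mem_Hom (pow_mem_Hom (st.hom 0) (2 * h - e.1 - e.2))
      (pow_mem_Hom (st.hom 1) e.1)) (pow_mem_Hom (st.hom 2) e.2)
    have h1 := e.1.2
    have h2 := e.2.2
    rwa [← mul_add, ← mul_add, show 2 * h - e.1 - e.2 + e.1 + e.2 = 2 * h by omega] at this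
  have hψadj : ∀ e, ψ e ∈ Algebra.adjoin K (Set.range st.φ) := by
    intro e
    have hk : ∀ k, st.φ k ∈ Algebra.adjoin K (Set.range st.φ) :=
      fun k => Algebra.subset_adjoin ⟨k, rfl⟩
    exact mul_mem (mul_mem (pow_mem (hk 0) _) (pow_mem (hk 1) _)) (pow_mem (hk 2) _)
  have hψne : ∀ e, ev (ψ e) ≠ 0 := by
    intro e
    simp only [ψ, map_mul, map_pow]
    exact mul_ne_zero (mul_ne_zero (pow_ne_zero _ (st.ne 0)) (pow_ne_zero _ (st.ne 1)))
      (pow_ne_zero _ (st.ne 2))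
  have hψdg : ∀ e, dg (ev (ψ e)) = (2 * h - e.1 - e.2) • dg (ev (st.φ 0)) +
      (e.1 : ℕ) • dg (ev (st.φ 1)) + (e.2 : ℕ) • dg (ev (st.φ 2)) := by
    intro e
    simp only [ψ, map_mul, map_pow]
    rw [dg_mul (mul_ne_zero (pow_ne_zero _ (st.ne 0)) (pow_ne_zero _ (st.ne 1)))
      (pow_ne_zero _ (st.ne 2)), dg_mul (pow_ne_zero _ (st.ne 0)) (pow_ne_zero _ (st.ne 1)),
      dg_pow, dg_pow, dg_pow]
  have hinj : ∀ e e', dg (ev (ψ e)) = dg (ev (ψ e')) → e = e' := by
    rintro ⟨a, b⟩ ⟨a', b'⟩ he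
    rw [hψdg, hψdg] at he
    have hdet := st.det
    unfold det3 at hdet
    generalize dg (ev (st.φ 0)) = u at he hdet
    generalize dg (ev (st.φ 1)) = v at he hdet
    generalize dg (ev (st.φ 2)) = w at he hdet
    have h1 := congrArg Prod.fst he
    have h2 := congrArg Prod.snd he
    simp only [Prod.fst_add, Prod.snd_add, Prod.smul_fst, Prod.smul_snd, smul_eq_mul] at h1 h2
    have ha := a.2
    have hb := b.2
    have ha' := a'.2
    have hb' := b'.2
    obtain ⟨r, hr⟩ : ∃ r, 2 * h = r + a + b := ⟨2 * h - a - b, by omega⟩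
    obtain ⟨r', hr'⟩ : ∃ r, 2 * h = r + a' + b' := ⟨2 * h - a' - b', by omega⟩
    rw [show 2 * h - a - b = r by omega, show 2 * h - a' - b' = r' by omega] at h1 h2
    have hrr : (r : ℤ) = r' + a' + b' - a - b := by omega
    have h1' : (r : ℤ) * u.1 + a * v.1 + b * w.1 = r' * u.1 + a' * v.1 + b' * w.1 := by
      exact_mod_cast h1
    have h2' : (r : ℤ) * u.2 + a * v.2 + b * w.2 = r' * u.2 + a' * v.2 + b' * w.2 := by
      exact_mod_cast h2
    rw [hrr] at h1' h2'
    have e1 : (((a : ℕ) : ℤ) - (a' : ℕ)) * (((v.1 : ℤ) - u.1) * ((w.2 : ℤ) - u.2) -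
        ((v.2 : ℤ) - u.2) * ((w.1 : ℤ) - u.1)) = 0 := by
      linear_combination ((w.2 : ℤ) - u.2) * h1' - ((w.1 : ℤ) - u.1) * h2'
    have e2 : (((b : ℕ) : ℤ) - (b' : ℕ)) * (((v.1 : ℤ) - u.1) * ((w.2 : ℤ) - u.2) -
        ((v.2 : ℤ) - u.2) * ((w.1 : ℤ) - u.1)) = 0 := by
      linear_combination ((v.1 : ℤ) - u.1) * h2' - ((v.2 : ℤ) - u.2) * h1'
    have e1' := (mul_eq_zero.1 e1).resolve_right hdet
    have e2' := (mul_eq_zero.1 e2).resolve_right hdet
    have e3 : a = a' := Fin.ext (by omega)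
    have e4 : b = b' := Fin.ext (by omega)
    rw [e3, e4]
  let Θ : (Fin h × Fin h → K) →ₗ[K] T K := Fintype.linearCombination K ψ
  have hΘ : ∀ a, Θ a = ∑ e, a e • ψ e := fun a => Fintype.linearCombination_apply K ψ a
  have hΘhom : ∀ a, Θ a ∈ Hom K M := fun a => by
    rw [hΘ]; exact Submodule.sum_mem _ fun e _ => Submodule.smul_mem _ _ (hψhom e)
  have hΘadj : ∀ a, Θ a ∈ Algebra.adjoin K (Set.range st.φ) := fun a => by
    rw [hΘ]; exact Subalgebra.sum_mem _ fun e _ => Subalgebra.smul_mem _ (hψadj e) _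
  have hΘne : ∀ a, a ≠ 0 → ev (Θ a) ≠ 0 := by
    intro a ha
    obtain ⟨e0, he0⟩ := Function.ne_iff.1 ha
    obtain ⟨e, he, hmax⟩ := Finset.exists_max_image (Finset.univ.filter (fun e => a e ≠ 0))
      (fun e => toLex (dg (ev (ψ e)))) ⟨e0, by simpa using he0⟩
    have hae : a e ≠ 0 := by simpa using he
    intro h0
    have h1 := congrArg (cf (dg (ev (ψ e)))) h0
    rw [hΘ, map_sum, map_sum, map_zero, Finset.sum_eq_single e] at h1
    · rw [map_smul, map_smul, smul_eq_mul] at h1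
      exact mul_ne_zero hae (cf_dg (hψne e)) h1
    · intro e' _ hne
      rw [map_smul, map_smul, smul_eq_mul]
      by_cases ha' : a e' = 0
      · rw [ha', zero_mul]
      · rw [cf_lt, mul_zero]
        refine lt_of_le_of_ne (hmax e' (by simpa using ha')) ?_
        intro h2
        exact hne (hinj _ _ (toLex.injective h2))
    · simp
  obtain ⟨hEfin, hErank⟩ := E_fin f D M
  let Γ : (Fin h × Fin h → K) →ₗ[K] ({q : List (Fin 3) // q.length < D} → E f D M) :=
    LinearMap.pi fun q => LinearMap.codRestrict (E f D M) (Xi f q.1 M ∘ₗ Θ)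
      (fun a => Xi_mem hf hD M q.1 (hΘhom a))
  have hrank := LinearMap.finrank_range_add_finrank_ker Γ
  have hr1 : Module.finrank K (LinearMap.range Γ) ≤ c * (c * (M + 1)) := by
    refine (Submodule.finrank_le _).trans ?_
    rw [Module.finrank_pi_fintype, Finset.sum_const, Finset.card_univ, smul_eq_mul,
      ← Nat.card_eq_fintype_card]
    exact Nat.mul_le_mul_left _ hErank
  rw [Module.finrank_fintype_fun_eq_card, Fintype.card_prod, Fintype.card_fin] at hrank
  have hker : M + 1 < Module.finrank K (LinearMap.ker Γ) := by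
    have h1 : (c * c + 1) * (M + 1) < h * h := by
      have h2 : M + 1 ≤ (2 * N + 1) * h := by
        have : 1 ≤ h := by omega
        rw [hM]; nlinarith
      have h3 : (c * c + 1) * (2 * N + 1) < h := by omega
      calc (c * c + 1) * (M + 1) ≤ (c * c + 1) * ((2 * N + 1) * h) := Nat.mul_le_mul_left _ h2
        _ = ((c * c + 1) * (2 * N + 1)) * h := by ring
        _ < h * h := Nat.mul_lt_mul_of_pos_right h3 (by omega)
    nlinarith
  let Λ : Finset (ℕ × ℕ) := (Finset.range (M + 1) ×ˢ Finset.range (M + 1)).filter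
    (fun e => ∃ a ∈ LinearMap.ker Γ, a ≠ 0 ∧ dg (ev (Θ a)) = e)
  have hΛmem : ∀ a ∈ LinearMap.ker Γ, a ≠ 0 → dg (ev (Θ a)) ∈ Λ := by
    intro a ha ha0
    have h1 := cf_dg (hΘne a ha0)
    have h2 : ¬ (M < (dg (ev (Θ a))).1 ∨ M < (dg (ev (Θ a))).2) :=
      fun h2 => h1 (cf_bound M _ (hΘhom a) _ h2)
    simp only [Λ, Finset.mem_filter, Finset.mem_product, Finset.mem_range]
    exact ⟨⟨by omega, by omega⟩, a, ha, ha0, rfl⟩
  let J : LinearMap.ker Γ →ₗ[K] (Λ → K) :=
    LinearMap.pi fun e => cf e.1 ∘ₗ (ev (K := K)).toLinearMap ∘ₗ Θ ∘ₗ (LinearMap.ker Γ).subtype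
  have hJ : Function.Injective J := by
    rw [← LinearMap.ker_eq_bot, LinearMap.ker_eq_bot']
    intro a ha
    by_contra ha0
    have ha1 : a.1 ≠ 0 := fun h0 => ha0 (Subtype.ext h0)
    exact cf_dg (hΘne a.1 ha1) (congrFun ha ⟨_, hΛmem a.1 a.2 ha1⟩)
  have hcard := LinearMap.finrank_le_finrank_of_injective hJ
  rw [Module.finrank_fintype_fun_eq_card, Fintype.card_coe] at hcard
  obtain ⟨e0, he0, e1, he1, e2, he2, hdet⟩ := noncollinear M Λ (fun e he => by
    simp only [Λ, Finset.mem_filter, Finset.mem_product, Finset.mem_range] at he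
    omega) (by omega)
  obtain ⟨a0, ha0, hn0, rfl⟩ := (Finset.mem_filter.1 he0).2
  obtain ⟨a1, ha1, hn1, rfl⟩ := (Finset.mem_filter.1 he1).2
  obtain ⟨a2, ha2, hn2, rfl⟩ := (Finset.mem_filter.1 he2).2
  let a : Fin 3 → (Fin h × Fin h → K) := ![a0, a1, a2]
  have haker : ∀ k, a k ∈ LinearMap.ker Γ := by
    intro k; fin_cases k <;> assumption
  have hane : ∀ k, a k ≠ 0 := by
    intro k; fin_cases k <;> assumption
  refine ⟨⟨M, fun k => Θ (a k), by rw [hM]; positivity, fun k => hΘhom _,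
    fun k => hΘne _ (hane k), hdet⟩, ?_, fun k => hΘadj _, ?_⟩
  · show L < M
    have : h ≤ M := by rw [hM]; nlinarith
    omega
  · intro k q
    show Xi f q M (Θ (a k)) = 0
    by_cases hq : q.length < D
    · exact congrArg Subtype.val (congrFun (haker k) ⟨q, hq⟩)
    · funext n y
      simp [Xi, Y_long hD (not_lt.1 hq)]

noncomputable def zz (s t : K) : T K := t • x 0 + s • x 1 + x 2

lemma eps_zz (s t : K) : eps (zz s t) = 0 := by simp [zz]

lemma zz_mem (s t : K) : zz s t ∈ Hom K 1 :=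
  add_mem (add_mem (Submodule.smul_mem _ _ (x_mem_Hom 0)) (Submodule.smul_mem _ _ (x_mem_Hom 1)))
    (x_mem_Hom 2)

lemma evalEval_smul' (s t c : K) (p : K[X][X]) : evalEval s t (c • p) = c * evalEval s t p := by
  rw [evalEval_smul, smul_eq_mul]

lemma rho_zz (s t : K) : ∀ (N : ℕ) (φ : T K), φ ∈ Hom K N → ∀ a : T K,
    rho (zz s t ^ N) (a * φ) = evalEval s t (ev φ) • a := by
  intro N
  let Q : ℕ → Submodule K (T K) := fun N =>
    { carrier := {φ | ∀ a : T K, rho (zz s t ^ N) (a * φ) = evalEval s t (ev φ) • a}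
      add_mem' := fun {u v} hu hv a => by
        rw [mul_add, map_add, hu a, hv a, map_add, evalEval_add, add_smul]
      zero_mem' := fun a => by simp
      smul_mem' := fun c u hu a => by
        rw [mul_smul_comm, map_smul, hu a, map_smul, evalEval_smul', mul_smul] }
  suffices h : Hom K N ≤ Q N from fun φ hφ => h hφ
  induction N with
  | zero =>
    apply Hom_zero_le
    intro a
    simp
  | succ N ih =>
    apply Hom_succ_le
    intro y hy i a
    have h1 : rho (zz s t) (a * y * x i) = evalEval s t (ev (x i : T K)) • (a * y) := by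
      rw [ev_x]
      simp only [zz, map_add, map_smul, rho_x, LinearMap.add_apply, LinearMap.smul_apply, R_mul_x]
      fin_cases i <;> simp [evalEval_C]
    rw [pow_succ, rho_mul_apply, ← mul_assoc, h1, map_smul, ih hy a, map_mul, evalEval_mul,
      smul_smul, mul_comm]

/-- Main existence theorem. -/
theorem exists_ideal (fs : ℕ → T K) (hfs : ∀ i, eps (fs i) = 0) (L : ℕ → St K → ℕ) :
    ∃ (s : ℕ → St K) (I : Ideal (T K)), I.IsTwoSided ∧
      (∀ i, ∃ n, fs i ^ n ∈ I) ∧ (∀ i, i < (s i).N) ∧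
      (∀ i, ∀ r ∈ I, ∀ ψ ∈ Algebra.adjoin K (Set.range (s i).φ), ∀ m, ψ ∈ Hom K m →
        (m ≤ (s i).N ∨ m ≤ L i (s i)) → rho r ψ = 0) := by
  choose nxt hnxt using fun (i : ℕ) (st : St K) => step st (hfs i) (st.N + L i st)
  obtain ⟨s, hs⟩ : ∃ s : ℕ → St K, ∀ i, s (i + 1) = nxt i (s i) :=
    ⟨fun n => Nat.rec St.init (fun i st => nxt i st) n, fun i => rfl⟩
  have hlt : ∀ i, (s i).N + L i (s i) < (s (i + 1)).N := fun i => by
    rw [hs]; exact (hnxt i (s i)).1
  have hmono : StrictMono fun i => (s i).N :=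
    strictMono_nat_of_lt_succ fun i => by have := hlt i; omega
  have hadj : ∀ i j, i ≤ j →
      Algebra.adjoin K (Set.range (s j).φ) ≤ Algebra.adjoin K (Set.range (s i).φ) := by
    intro i j hij
    induction j, hij using Nat.le_induction with
    | base => exact le_rfl
    | succ j _ ih =>
      refine le_trans (Algebra.adjoin_le ?_) ih
      rintro _ ⟨k, rfl⟩
      rw [hs]; exact (hnxt j (s j)).2.1 k
  let Ψ : Set (T K) :=
    {ψ | ∃ i, ψ ∈ Algebra.adjoin K (Set.range (s i).φ) ∧ ψ ∈ Lt K (s (i + 1)).N}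
  let I : Ideal (T K) :=
    { carrier := {r | ∀ ψ ∈ Ψ, ∀ v, rho (r * v) ψ = 0}
      add_mem' := fun {a b} ha hb ψ hψ v => by
        rw [add_mul, map_add, LinearMap.add_apply, ha ψ hψ v, hb ψ hψ v, add_zero]
      zero_mem' := fun ψ _ v => by simp
      smul_mem' := fun c a ha ψ hψ v => by
        rw [smul_eq_mul, mul_assoc, rho_mul_apply, ha ψ hψ v, map_zero] }
  refine ⟨s, I, ⟨fun {a} b ha ψ hψ v => by rw [mul_assoc]; exact ha ψ hψ _⟩, ?_, ?_, ?_⟩
  · intro j
    refine ⟨2 * (s (j + 1)).N + 1, ?_⟩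
    rintro ψ ⟨i, h1, h2⟩ v
    apply kill_all (hfs j) (s (j + 1)).pos (Set.range (s (j + 1)).φ)
    · rintro _ ⟨k, rfl⟩
      refine ⟨(s (j + 1)).hom k, ?_⟩
      rw [hs]; exact (hnxt j (s j)).2.2 k
    · by_cases hij : j + 1 ≤ i
      · exact Or.inl (hadj _ _ hij h1)
      · have h3 : i + 1 ≤ j + 1 := by omega
        exact Or.inr (Lt_mono (hmono.monotone h3) h2)
  · intro i
    induction i with
    | zero => exact (s 0).pos
    | succ i ih => have := hlt i; omega
  · intro i r hr ψ hψ m hm hle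
    have := hr ψ ⟨i, hψ, Hom_le_Lt (by have := hlt i; omega) hm⟩ 1
    rwa [mul_one] at this

end Pool.Agent.Lead.LS
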