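import Mathlib

set_option autoImplicit false
open Polynomial

namespace Pool.Agent.Lead.Mathieu1

/-- Step A: a multiple of `A` of the form `Q(f) f` with `Q(0) ≠ 0`. -/
lemma exists_Q (A f : ℂ[X]) (hA : A ≠ 0) (hf : f ≠ 0)
    (h : ∀ r, f.IsRoot r → A.rootMultiplicity r ≤ f.rootMultiplicity r) :
    ∃ Q : ℂ[X], Q.eval 0 ≠ 0 ∧ A ∣ Q.comp f * f := by
  classical
  set s1 := A.roots.filter (fun r => ¬ f.IsRoot r) with hs1
  set s0 := A.roots.filter (fun r => f.IsRoot r) with hs0
  refine ⟨(s1.map (fun r => X - C (f.eval r))).prod, ?_, ?_⟩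
  · rw [eval_multiset_prod]
    apply Multiset.prod_ne_zero
    intro h0
    simp only [Multiset.map_map, Function.comp, Multiset.mem_map] at h0
    obtain ⟨r, hr, hr0⟩ := h0
    rw [hs1, Multiset.mem_filter] at hr
    apply hr.2
    simpa using hr0
  · have hsplit : A = C A.leadingCoeff * (A.roots.map (fun r => X - C r)).prod :=
      (IsAlgClosed.splits A).eq_prod_roots
    have hr : A.roots = s1 + s0 := by
      rw [hs1, hs0, add_comm]; exact (Multiset.filter_add_not _ _).symm
    have h1 : (s1.map (fun r => X - C r)).prod ∣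
        ((s1.map (fun r => X - C (f.eval r))).prod).comp f := by
      rw [multiset_prod_comp, Multiset.map_map]
      apply Multiset.prod_dvd_prod_of_dvd
      intro r _
      simpa using X_sub_C_dvd_sub_C_eval (p := f) (a := r)
    have h0 : (s0.map (fun r => X - C r)).prod ∣ f := by
      rw [Multiset.prod_X_sub_C_dvd_iff_le_roots hf, Multiset.le_iff_count]
      intro r
      rw [hs0, Multiset.count_filter]
      split_ifs with hr
      · rw [count_roots, count_roots]; exact h r hr
      · exact Nat.zero_le _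
    have hu : IsUnit (C A.leadingCoeff) :=
      isUnit_C.2 (IsUnit.mk0 _ (leadingCoeff_ne_zero.2 hA))
    rw [hsplit, hu.mul_left_dvd, hr, Multiset.map_add, Multiset.prod_add]
    exact mul_dvd_mul h1 h0

/-- Step B. -/
lemma phi_root (φ f Q : ℂ[X]) (hf : f ≠ 0) (hQ : Q.eval 0 ≠ 0)
    (h : φ * derivative f = Q.comp f * f) (r : ℂ) (hr : f.IsRoot r) :
    φ.eval r = 0 ∧ (derivative φ).eval r ≠ 0 := by
  obtain ⟨u, hu, hnd⟩ := exists_eq_pow_rootMultiplicity_mul_and_not_dvd f hf r
  have hpos : 0 < f.rootMultiplicity r := (rootMultiplicity_pos hf).2 hr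
  obtain ⟨k, hk⟩ : ∃ k, f.rootMultiplicity r = k + 1 := ⟨_, (Nat.succ_pred_eq_of_pos hpos).symm⟩
  rw [hk] at hu
  have hur : u.eval r ≠ 0 := fun h0 => hnd (dvd_iff_isRoot.2 h0)
  have hQf : (Q.comp f).eval r = Q.eval 0 := by
    rw [eval_comp, hr.eq_zero]
  have hd : derivative f = (X - C r) ^ k * (C ((k : ℂ) + 1) * u + (X - C r) * derivative u) := by
    conv_lhs => rw [hu]
    simp only [derivative_mul, derivative_pow, derivative_sub, derivative_X, derivative_C,
      Nat.add_sub_cancel, map_add, map_natCast, map_one, Nat.cast_add, Nat.cast_one]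
    ring
  have key : φ * (C ((k : ℂ) + 1) * u + (X - C r) * derivative u) = Q.comp f * (X - C r) * u := by
    have hne : (X - C r : ℂ[X]) ^ k ≠ 0 := pow_ne_zero _ (X_sub_C_ne_zero r)
    apply mul_left_cancel₀ hne
    have h2 : φ * derivative f = Q.comp f * ((X - C r) ^ (k + 1) * u) := by rw [h, ← hu]
    rw [hd] at h2
    linear_combination h2
  have hk1 : ((k : ℂ) + 1) ≠ 0 := by exact_mod_cast Nat.succ_ne_zero k
  have e1 : φ.eval r = 0 := by
    have := congrArg (eval r) key
    simp only [eval_mul, eval_add, eval_C, eval_sub, eval_X, sub_self, zero_mul, add_zero,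
      mul_zero] at this
    rcases mul_eq_zero.1 this with h0 | h0
    · exact h0
    · exact absurd h0 (mul_ne_zero hk1 hur)
  refine ⟨e1, ?_⟩
  intro h0
  have := congrArg (fun p => eval r (derivative p)) key
  simp only [derivative_mul, eval_mul, eval_add, eval_C, eval_sub, eval_X, sub_self, zero_mul,
    add_zero, mul_zero, e1, h0, derivative_sub, derivative_X, derivative_C, eval_one, eval_zero,
    sub_zero, mul_one, zero_add, hQf] at this
  exact (mul_ne_zero hQ hur) this.symm

lemma noeth (f : ℂ[X]) (hm : f.Monic) (hd : f.natDegree ≠ 0) :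
    IsNoetherian (Algebra.adjoin ℂ {f}) ℂ[X] := by
  set A := Algebra.adjoin ℂ {f}
  haveI : Algebra.FiniteType ℂ A := Algebra.FiniteType.adjoin_of_finite (Set.finite_singleton f)
  haveI : IsNoetherianRing A := Algebra.FiniteType.isNoetherianRing ℂ A
  haveI : Algebra.FiniteType A ℂ[X] := Algebra.FiniteType.of_restrictScalars_finiteType ℂ A ℂ[X]
  have hX : IsIntegral A (X : ℂ[X]) := by
    apply IsIntegral.of_aeval_monic (p := f.map (algebraMap ℂ A)) (hm.map _)
    · rwa [hm.natDegree_map]
    · rw [aeval_map_algebraMap, aeval_X_left_apply]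
      exact isIntegral_algebraMap (R := A) (A := ℂ[X])
        (x := ⟨f, Algebra.subset_adjoin (Set.mem_singleton f)⟩)
  haveI : Algebra.IsIntegral A ℂ[X] := by
    constructor
    intro p
    induction p using Polynomial.induction_on' with
    | add p q hp hq => exact hp.add hq
    | monomial n a =>
      rw [← C_mul_X_pow_eq_monomial]
      refine IsIntegral.mul ?_ (hX.pow n)
      exact isIntegral_algebraMap (R := A) (A := ℂ[X]) (x := algebraMap ℂ A a)
  haveI : Module.Finite A ℂ[X] := Algebra.IsIntegral.finite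
  infer_instance

theorem core (σ ρ : ℂ[X]) (V : Submodule ℂ ℂ[X])
    (hD : ∀ g, σ * derivative g + ρ * g ∈ V) (hσ : σ ≠ 0)
    (hsq : ∀ r, σ.IsRoot r → (derivative σ).eval r ≠ 0 ∧
      ∃ a : ℝ, 0 < a ∧ ρ.eval r = a * (derivative σ).eval r)
    (f : ℂ[X]) (hmon : f.Monic) (hd : f.natDegree ≠ 0) (hm : ∀ m, 1 ≤ m → f ^ m ∈ V) :
    (1 : ℂ[X]) ∈ V := by
  classical
  have hf : f ≠ 0 := hmon.ne_zero
  have hf' : derivative f ≠ 0 := fun h0 => hd (natDegree_eq_zero_of_derivative_eq_zero h0)
  obtain ⟨Q, hQ, E, hE⟩ := exists_Q (σ * derivative f) f (mul_ne_zero hσ hf') hf (by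
    intro r hr
    rw [rootMultiplicity_mul (mul_ne_zero hσ hf'), derivative_rootMultiplicity_of_root hr]
    have hpos : 0 < f.rootMultiplicity r := (rootMultiplicity_pos hf).2 hr
    have h1 : σ.rootMultiplicity r ≤ 1 := by
      by_contra hc
      push Not at hc
      have := (one_lt_rootMultiplicity_iff_isRoot hσ).1 hc
      exact (hsq r this.1).1 this.2
    omega)
  set φ := σ * E with hφ
  set ψ := σ * derivative E + ρ * E with hψ
  have hφf : φ * derivative f = Q.comp f * f := by rw [hE, hφ]; ring
  have hroot := phi_root φ f Q hf hQ hφf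
  have hψr : ∀ r, f.IsRoot r → ∃ a : ℝ, 0 < a ∧ ψ.eval r = a * (derivative φ).eval r := by
    intro r hr
    by_cases hs : σ.IsRoot r
    · obtain ⟨-, a, ha, hρ⟩ := hsq r hs
      refine ⟨a, ha, ?_⟩
      simp only [hψ, hφ, derivative_mul, eval_add, eval_mul, hs.eq_zero, hρ]
      ring
    · have hE0 : E.eval r = 0 := by
        have := (hroot r hr).1
        rw [hφ, eval_mul] at this
        exact (mul_eq_zero.1 this).resolve_left hs
      refine ⟨1, one_pos, ?_⟩
      simp only [hψ, hφ, derivative_mul, eval_add, eval_mul, hE0]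
      push_cast; ring
  -- the submodule K
  let K : Submodule ℂ ℂ[X] :=
    { carrier := {g | ∀ h : ℂ[X], g * h.comp f ∈ V}
      add_mem' := fun {a b} ha hb h => by rw [add_mul]; exact V.add_mem (ha h) (hb h)
      zero_mem' := fun h => by rw [zero_mul]; exact V.zero_mem
      smul_mem' := fun c a ha h => by rw [smul_mul_assoc]; exact V.smul_mem c (ha h) }
  have hKmul : ∀ g ∈ K, ∀ p : ℂ[X], p.comp f * g ∈ K := by
    intro g hg p h
    have := hg (p * h)
    rw [mul_comp] at this
    convert this using 1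
    ring
  have hfK : f ∈ K := by
    intro h
    induction h using Polynomial.induction_on' with
    | add p q hp hq => rw [add_comp, mul_add]; exact V.add_mem hp hq
    | monomial n a =>
      have : f * ((monomial n) a).comp f = a • f ^ (n + 1) := by
        rw [monomial_comp, smul_eq_C_mul]; ring
      rw [this]
      exact V.smul_mem a (hm _ (by omega))
  have hΘ : ∀ g : ℂ[X], g * f ∈ K → φ * derivative g + ψ * g ∈ K := by
    intro g hg h
    have e : (φ * derivative g + ψ * g) * h.comp f =
        (σ * derivative (E * g * h.comp f) + ρ * (E * g * h.comp f))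
          - g * f * (Q * derivative h).comp f := by
      simp only [derivative_mul, derivative_comp, mul_comp, hψ]
      have : σ * E * derivative f = Q.comp f * f := hφf
      linear_combination (-(g * (derivative h).comp f)) * this
    rw [e]
    exact V.sub_mem (hD _) (hg _)
  have hΘK : ∀ g ∈ K, φ * derivative g + ψ * g ∈ K := by
    intro g hg
    apply hΘ
    have := hKmul g hg X
    rwa [X_comp, mul_comm] at this
  have hΘ1 : ψ ∈ K := by
    have := hΘ 1 (by rwa [one_mul])
    simpa using this
  -- the induction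
  let good : ℂ[X] → Prop := fun P =>
    (∃ χ : ℂ[X], φ * derivative P = χ * P ∧
      ∀ r, f.IsRoot r → ∃ n : ℕ, χ.eval r = n * (derivative φ).eval r) ∧ ∃ g, 1 - P * g ∈ K
  have good1 : good 1 := ⟨⟨0, by simp, fun r _ => ⟨0, by simp⟩⟩, 1, by simp⟩
  have step : ∀ P, good P → ∀ r, f.IsRoot r → good (P * (X - C r)) := by
    rintro P ⟨⟨χ, hχ, hχr⟩, g, hg⟩ r hr
    obtain ⟨φr, hφr⟩ : (X - C r) ∣ φ := dvd_iff_isRoot.2 (hroot r hr).1
    refine ⟨⟨χ + φr, ?_, ?_⟩, ?_⟩
    · simp only [derivative_mul, derivative_sub, derivative_X, derivative_C]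
      linear_combination (X - C r) * hχ + P * hφr
    · intro s hs
      obtain ⟨n, hn⟩ := hχr s hs
      by_cases hsr : s = r
      · subst hsr
        refine ⟨n + 1, ?_⟩
        have : (derivative φ).eval s = φr.eval s := by
          rw [hφr]; simp
        rw [eval_add, hn, this]; push_cast; ring
      · refine ⟨n, ?_⟩
        have h0 := (hroot s hs).1
        rw [hφr, eval_mul] at h0
        have h1 : φr.eval s = 0 := by
          refine (mul_eq_zero.1 h0).resolve_left ?_
          simpa [sub_eq_zero] using hsr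
        rw [eval_add, hn, h1, add_zero]
    · obtain ⟨n, hn⟩ := hχr r hr
      obtain ⟨a, ha, hψa⟩ := hψr r hr
      have hc : (n + a : ℂ) * (derivative φ).eval r ≠ 0 := by
        refine mul_ne_zero ?_ (hroot r hr).2
        have : (0 : ℝ) < n + a := by positivity
        exact_mod_cast this.ne'
      set c := (n + a : ℂ) * (derivative φ).eval r with hcdef
      -- Θ (P g) ∈ K
      have h1 : P * (χ * g + φ * derivative g + ψ * g) ∈ K := by
        have h2 := K.sub_mem hΘ1 (hΘK _ hg)
        convert h2 using 1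
        simp only [derivative_sub, derivative_one, derivative_mul]
        linear_combination (-g) * hχ
      set T := χ * g + φ * derivative g + ψ * g with hT
      have hTr : T.eval r = c * g.eval r := by
        simp only [hT, eval_add, eval_mul, hn, hψa, (hroot r hr).1, hcdef]; ring
      obtain ⟨w, hw⟩ : (X - C r) ∣ g - C c⁻¹ * T := by
        rw [dvd_iff_isRoot, IsRoot.def, eval_sub, eval_mul, eval_C, hTr]
        field_simp
        ring
      refine ⟨w, ?_⟩
      have h3 := K.add_mem hg (K.smul_mem c⁻¹ h1)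
      convert h3 using 1
      rw [smul_eq_C_mul]
      linear_combination P * hw
  have stepM : ∀ s : Multiset ℂ, (∀ r ∈ s, f.IsRoot r) → ∀ P, good P →
      good (P * (s.map (fun r => X - C r)).prod) := by
    intro s
    induction s using Multiset.induction_on with
    | empty => intro _ P hP; simpa using hP
    | cons r s ih =>
      intro hs P hP
      have := ih (fun t ht => hs t (Multiset.mem_cons_of_mem ht)) _
        (step P hP r (hs r (Multiset.mem_cons_self r s)))
      rw [Multiset.map_cons, Multiset.prod_cons, ← mul_assoc]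
      exact this
  have hfprod : f = (f.roots.map (fun r => X - C r)).prod := by
    have := (IsAlgClosed.splits f).eq_prod_roots
    rwa [hmon.leadingCoeff, map_one, one_mul] at this
  have goodN : ∀ N : ℕ, good (f ^ N) := by
    intro N
    induction N with
    | zero => simpa using good1
    | succ N ih =>
      have := stepM f.roots (fun r hr => isRoot_of_mem_roots hr) _ ih
      rwa [← hfprod, ← pow_succ] at this
  -- Noetherian step
  haveI := noeth f hmon hd
  let Kn : ℕ → Submodule (Algebra.adjoin ℂ {f}) ℂ[X] := fun n =>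
    { carrier := {g | f ^ n * g ∈ K}
      add_mem' := fun {a b} ha hb => by
        show f ^ n * (a + b) ∈ K
        rw [mul_add]; exact K.add_mem ha hb
      zero_mem' := by
        show f ^ n * 0 ∈ K
        rw [mul_zero]; exact K.zero_mem
      smul_mem' := fun c a ha => by
        obtain ⟨c, hc⟩ := c
        rw [Algebra.adjoin_singleton_eq_range_aeval] at hc
        obtain ⟨p, rfl⟩ := hc
        show f ^ n * (aeval f p * a) ∈ K
        have := hKmul _ ha p
        rw [comp_eq_aeval] at this
        convert this using 1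
        ring }
  have hmono : Monotone Kn := by
    apply monotone_nat_of_le_succ
    intro n g hg
    show f ^ (n + 1) * g ∈ K
    have := hKmul _ hg X
    rw [X_comp] at this
    convert this using 1
    ring
  obtain ⟨n, hn⟩ := (monotone_stabilizes_iff_noetherian.2 this) ⟨Kn, hmono⟩
  obtain ⟨-, g, hg⟩ := goodN n
  have h1 : g ∈ Kn (n + 1) := by
    show f ^ (n + 1) * g ∈ K
    have h2 := hKmul _ hg X
    rw [X_comp] at h2
    have h3 := K.sub_mem hfK h2
    convert h3 using 1
    ring
  have h2 : g ∈ Kn n := by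
    have := hn (n + 1) (Nat.le_succ n)
    simp only [OrderHom.coe_mk] at this
    rw [this]; exact h1
  have h3 : (1 : ℂ[X]) ∈ K := by
    have := K.add_mem hg (show f ^ n * g ∈ K from h2)
    simpa using this
  simpa using h3 1

/-- If `D` raises degrees by one, then `1 ∈ V` forces `V = ⊤`. -/
lemma top_of_one (σ ρ : ℂ[X]) (V : Submodule ℂ ℂ[X])
    (hD : ∀ g, σ * derivative g + ρ * g ∈ V)
    (hlead : ∀ j : ℕ, ∃ c : ℂ, c ≠ 0 ∧ ∃ a b : ℂ,
      σ * derivative (X ^ j) + ρ * X ^ j = C c * X ^ (j + 1) + C a * X ^ j + C b * X ^ (j - 1))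
    (h1 : (1 : ℂ[X]) ∈ V) (p : ℂ[X]) : p ∈ V := by
  have hX : ∀ j : ℕ, (X : ℂ[X]) ^ j ∈ V := by
    intro j
    induction j using Nat.strong_induction_on with
    | _ j ih =>
      rcases j with _ | j
      · simpa using h1
      · obtain ⟨c, hc, a, b, h⟩ := hlead j
        have h2 := V.smul_mem c⁻¹ (V.sub_mem (V.sub_mem (hD (X ^ j))
          (V.smul_mem a (ih j (by omega)))) (V.smul_mem b (ih (j - 1) (by omega))))
        convert h2 using 1
        rw [h]
        simp only [smul_eq_C_mul]
        have : C c⁻¹ * C c = (1 : ℂ[X]) := by rw [← C_mul, inv_mul_cancel₀ hc, C_1]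
        linear_combination (-(X : ℂ[X]) ^ (j + 1)) * this
  induction p using Polynomial.induction_on' with
  | add p q hp hq => exact V.add_mem hp hq
  | monomial n a =>
    rw [← C_mul_X_pow_eq_monomial, ← smul_eq_C_mul]
    exact V.smul_mem a (hX n)

theorem mathieu (σ τ : ℂ[X]) (hσ : σ ≠ 0)
    (hsq : ∀ r, σ.IsRoot r → (derivative σ).eval r ≠ 0 ∧
      ∃ a : ℝ, 0 < a ∧ (derivative σ + τ).eval r = a * (derivative σ).eval r)
    (hlead : ∀ j : ℕ, ∃ c : ℂ, c ≠ 0 ∧ ∃ a b : ℂ,
      σ * derivative (X ^ j) + (derivative σ + τ) * X ^ j =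
        C c * X ^ (j + 1) + C a * X ^ j + C b * X ^ (j - 1))
    (a b : ℂ[X]) (h : ∀ m : ℕ, 1 ≤ m → ∃ f : ℂ[X], σ * a ^ m = σ * derivative f + τ * f) :
    ∀ m : ℕ, 1 ≤ m → ∃ f : ℂ[X], σ * (b * a ^ m) = σ * derivative f + τ * f := by
  let V : Submodule ℂ ℂ[X] :=
    { carrier := {p | ∃ f : ℂ[X], σ * p = σ * derivative f + τ * f}
      add_mem' := by
        rintro p q ⟨f, hf⟩ ⟨g, hg⟩
        exact ⟨f + g, by rw [derivative_add]; linear_combination hf + hg⟩
      zero_mem' := ⟨0, by simp⟩
      smul_mem' := by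
        rintro c p ⟨f, hf⟩
        refine ⟨c • f, ?_⟩
        rw [derivative_smul]
        simp only [smul_eq_C_mul]
        linear_combination C c * hf }
  have hD : ∀ g, σ * derivative g + (derivative σ + τ) * g ∈ V := by
    intro g
    exact ⟨σ * g, by rw [derivative_mul]; ring⟩
  intro m hm
  by_cases ha : a = 0
  · refine ⟨0, ?_⟩
    rw [ha, zero_pow (by omega)]; simp
  have hlc : a.leadingCoeff ≠ 0 := leadingCoeff_ne_zero.2 ha
  have h1 : (1 : ℂ[X]) ∈ V := by
    have hmon : (C a.leadingCoeff⁻¹ * a).Monic := monic_C_mul_of_mul_leadingCoeff_eq_one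
      (inv_mul_cancel₀ hlc)
    have hpow : ∀ m, 1 ≤ m → (C a.leadingCoeff⁻¹ * a) ^ m ∈ V := by
      intro m hm
      rw [mul_pow, ← C_pow, ← smul_eq_C_mul]
      exact V.smul_mem _ (h m hm)
    by_cases hd : (C a.leadingCoeff⁻¹ * a).natDegree = 0
    · have := hpow 1 le_rfl
      rwa [hmon.natDegree_eq_zero.1 hd, one_pow] at this
    · exact core σ _ V hD hσ hsq _ hmon hd hpow
  exact top_of_one σ _ V hD hlead h1 _

end Pool.Agent.Lead.Mathieu1
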