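import Mathlib

namespace Pool.Agent.Lead.MinDec
open MeasureTheory Set Filter Topology Pointwise ComplexConjugate

lemma null_sub_left {N : Set ℝ} (hN : volume N = 0) (s : ℝ) : volume {y : ℝ | y - s ∈ N} = 0 := by
  have : {y : ℝ | y - s ∈ N} = (fun y => y + (-s)) ⁻¹' N := by
    ext y; simp [sub_eq_add_neg]
  rw [this, measure_preimage_add_right]; exact hN

lemma null_sub_right {N : Set ℝ} (hN : volume N = 0) (s : ℝ) : volume {y : ℝ | s - y ∈ N} = 0 := by
  have h1 : volume (-N) = 0 := by rw [Measure.measure_neg]; exact hN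
  have := null_sub_left h1 s
  convert this using 2
  ext y; simp

lemma avoid {X N : Set ℝ} (hX : volume X ≠ 0) (hN : volume N = 0) (F : Finset ℝ) :
    volume {y | y ∈ X ∧ ∀ s ∈ F, y - s ∉ N ∧ s - y ∉ N} ≠ 0 := by
  intro h0
  apply hX
  have h1 : volume (⋃ s ∈ F, ({y : ℝ | y - s ∈ N} ∪ {y : ℝ | s - y ∈ N})) = 0 := by
    refine (measure_biUnion_null_iff F.countable_toSet).2 ?_
    intro s _
    exact measure_union_null (null_sub_left hN s) (null_sub_right hN s)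
  refine measure_mono_null ?_ (measure_union_null h0 h1)
  intro y hy
  by_cases h : ∀ s ∈ F, y - s ∉ N ∧ s - y ∉ N
  · exact Or.inl ⟨hy, h⟩
  · right
    push Not at h
    obtain ⟨s, hs, h⟩ := h
    simp only [mem_iUnion, mem_union, mem_ofPred_eq]
    refine ⟨s, hs, ?_⟩
    by_cases h2 : y - s ∈ N
    · exact Or.inl h2
    · exact Or.inr (h h2)

lemma sel {X N : Set ℝ} (hX : volume X ≠ 0) (hN : volume N = 0) :
    ∃ x : ℕ → ℝ, (∀ n, x n ∈ X) ∧ ∀ i j, i ≠ j → x i - x j ∉ N := by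
  obtain ⟨x, hx, h⟩ := exists_seq_of_forall_finset_exists (fun y => y ∈ X)
    (fun s y => y - s ∉ N ∧ s - y ∉ N) (by
      intro F _
      obtain ⟨y, hy⟩ := nonempty_of_measure_ne_zero (avoid hX hN F)
      exact ⟨y, hy.1, hy.2⟩)
  refine ⟨x, hx, fun i j hij => ?_⟩
  rcases lt_or_gt_of_ne hij with h1 | h1
  · exact (h i j h1).2
  · exact (h j i h1).1

lemma tr {K : Set ℝ} (hK : IsCompact K) (h0 : volume K ≠ 0) (m : ℕ) :
    ∃ ρ > 0, ∀ F : Finset ℝ, F.card ≤ m → (∀ s ∈ F, |s| < ρ) →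
      volume {y | ∀ s ∈ F, y - s ∈ K} ≠ 0 := by
  have htop : volume K ≠ ⊤ := hK.measure_lt_top.ne
  set ε : ENNReal := volume K / (m + 1) with hε
  have hε0 : ε ≠ 0 := by
    rw [hε]; simp [h0]
  have := eventually_nhds_zero_measure_vadd_sdiff_lt (μ := volume) hK hK.isClosed hε0
  obtain ⟨ρ, hρ, hb⟩ := Metric.eventually_nhds_iff.1 this
  refine ⟨ρ, hρ, fun F hF hs h1 => ?_⟩
  have hsub : K ⊆ {y | ∀ s ∈ F, y - s ∈ K} ∪ ⋃ s ∈ F, {y | y ∈ K ∧ y - s ∉ K} := by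
    intro y hy
    by_cases h : ∀ s ∈ F, y - s ∈ K
    · exact Or.inl h
    · right
      push Not at h
      obtain ⟨s, hs, h⟩ := h
      simp only [mem_iUnion, mem_ofPred_eq]
      exact ⟨s, hs, hy, h⟩
  have h2 : ∀ s ∈ F, volume {y | y ∈ K ∧ y - s ∉ K} ≤ ε := by
    intro s hsF
    have h3 := hb (y := -s) (by simpa [Real.dist_eq] using hs s hsF)
    have : {y | y ∈ K ∧ y - s ∉ K} = (fun y => y + (-s)) ⁻¹' (((-s) +ᵥ K) \ K) := by
      ext y
      simp [mem_vadd_set_iff_neg_vadd_mem, sub_eq_add_neg]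
    rw [this, measure_preimage_add_right]
    exact h3.le
  have h4 : volume K ≤ m * ε := by
    calc volume K ≤ volume {y | ∀ s ∈ F, y - s ∈ K} + volume (⋃ s ∈ F, {y | y ∈ K ∧ y - s ∉ K}) :=
          (measure_mono hsub).trans (measure_union_le _ _)
      _ ≤ 0 + ∑ s ∈ F, volume {y | y ∈ K ∧ y - s ∉ K} := by
          rw [h1]; gcongr; exact measure_biUnion_finset_le _ _
      _ ≤ 0 + ∑ s ∈ F, ε := by gcongr with s hs; exact h2 s hs
      _ = F.card * ε := by simp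
      _ ≤ m * ε := by gcongr
  have h5 : ((m : ENNReal) + 1) * ε = volume K := by
    rw [hε]; exact ENNReal.mul_div_cancel (by simp) (by simp)
  have hεtop : ε ≠ ⊤ := by
    rw [hε]; exact ENNReal.div_ne_top htop (by simp)
  have h6 : (m : ENNReal) * ε + ε ≤ m * ε + 0 := by
    rw [add_zero]
    calc (m : ENNReal) * ε + ε = (m + 1) * ε := by ring
      _ = volume K := h5
      _ ≤ m * ε := h4
  have h7 : (m : ENNReal) * ε ≠ ⊤ := ENNReal.mul_ne_top (by simp) hεtop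
  have := (ENNReal.add_le_add_iff_left h7).1 h6
  exact hε0 (by simpa using this)

lemma compact_sub {E N : Set ℝ} (hE : MeasurableSet E) (h0 : volume E ≠ 0) (hN : volume N = 0) :
    ∃ K, IsCompact K ∧ volume K ≠ 0 ∧ K ⊆ E ∧ ∀ x ∈ K, x ∉ N := by
  obtain ⟨N', hNN', hN'm, hN'⟩ := exists_measurable_superset_of_null hN
  have h1 : 0 < volume (E \ N') := by
    rw [measure_sdiff_null hN']; exact pos_iff_ne_zero.2 h0
  obtain ⟨K, hK, hKc, hKp⟩ := (hE.diff hN'm).exists_lt_isCompact h1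
  exact ⟨K, hKc, hKp.ne', fun x hx => (hK hx).1, fun x hx h => (hK hx).2 (hNN' h)⟩

/-- the structure of a locally positive definite function. -/
structure PD (D : Set ℝ) (h : ℝ → ℂ) (H : ℝ) : Prop where
  pd : ∀ (ι : Type) [Fintype ι] (c : ι → ℂ) (t : ι → ℝ), (∀ i j, t i - t j ∈ D) →
    0 ≤ (∑ i, ∑ j, c i * conj (c j) * h (t i - t j)).re
  symm : ∀ x ∈ D, -x ∈ D
  herm : ∀ x ∈ D, h (-x) = conj (h x)
  bd : ∀ x ∈ D, ‖h x‖ ≤ H
  zero : h 0 = H

noncomputable def G (h : ℝ → ℂ) (α β γ : ℂ) (x y z : ℕ → ℝ) (i j : ℕ) : ℝ :=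
  ‖α‖ ^ 2 * (h (x i - x j)).re + ‖β‖ ^ 2 * (h (y i - y j)).re + ‖γ‖ ^ 2 * (h (z i - z j)).re
   + 2 * (α * conj β * h (x i - y j)).re + 2 * (α * conj γ * h (x i - z j)).re
   + 2 * (β * conj γ * h (y i - z j)).re

lemma pd3 {D : Set ℝ} {h : ℝ → ℂ} {H : ℝ} (P : PD D h H) (m : ℕ) (hm : 0 < m) (α β γ : ℂ)
    (x y z : ℕ → ℝ)
    (hxx : ∀ i < m, ∀ j < m, x i - x j ∈ D) (hyy : ∀ i < m, ∀ j < m, y i - y j ∈ D)
    (hzz : ∀ i < m, ∀ j < m, z i - z j ∈ D) (hxy : ∀ i < m, ∀ j < m, x i - y j ∈ D)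
    (hxz : ∀ i < m, ∀ j < m, x i - z j ∈ D) (hyz : ∀ i < m, ∀ j < m, y i - z j ∈ D)
    (u : ℝ) (hu : ∀ i < m, ∀ j < m, i ≠ j → G h α β γ x y z i j ≤ u) :
    0 ≤ (m - 1) * u + (‖α‖ + ‖β‖ + ‖γ‖) ^ 2 * H := by
  have rev : ∀ a b : ℝ, a - b ∈ D → b - a ∈ D := fun a b hab => by
    simpa using P.symm _ hab
  have hrev : ∀ a b : ℝ, a - b ∈ D → h (b - a) = conj (h (a - b)) := fun a b hab => by
    rw [← P.herm _ hab]; simp
  have key := P.pd (Fin 3 × Fin m) (fun p => ![α, β, γ] p.1) (fun p => ![x, y, z] p.1 p.2) (by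
    rintro ⟨a, i⟩ ⟨b, j⟩
    have hi := i.2
    have hj := j.2
    fin_cases a <;> fin_cases b <;> simp <;>
      first
      | exact hxx _ hi _ hj | exact hyy _ hi _ hj | exact hzz _ hi _ hj
      | exact hxy _ hi _ hj | exact hxz _ hi _ hj | exact hyz _ hi _ hj
      | exact rev _ _ (hxy _ hj _ hi) | exact rev _ _ (hxz _ hj _ hi)
      | exact rev _ _ (hyz _ hj _ hi))
  have swap : ∀ (a b : ℂ) (p q : ℕ → ℝ), (∀ i < m, ∀ j < m, p i - q j ∈ D) →
      (∑ i : Fin m, ∑ j : Fin m, (b * conj a * h (q i - p j)).re)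
       = ∑ i : Fin m, ∑ j : Fin m, (a * conj b * h (p i - q j)).re := by
    intro a b p q hpq
    rw [Finset.sum_comm]
    refine Finset.sum_congr rfl fun i _ => Finset.sum_congr rfl fun j _ => ?_
    rw [hrev _ _ (hpq _ i.2 _ j.2), ← Complex.conj_re]
    simp [mul_comm]
  have sq : ∀ (a w : ℂ), (a * conj a * w).re = ‖a‖ ^ 2 * w.re := by
    intro a w
    rw [Complex.mul_conj, Complex.normSq_eq_norm_sq]
    rw [Complex.re_ofReal_mul]
  have e1 : (∑ p : Fin 3 × Fin m, ∑ q : Fin 3 × Fin m, (![α, β, γ] p.1) * conj (![α, β, γ] q.1) *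
      h (![x, y, z] p.1 p.2 - ![x, y, z] q.1 q.2)).re
      = ∑ i : Fin m, ∑ j : Fin m, G h α β γ x y z i j := by
    simp only [Fintype.sum_prod_type, Fin.sum_univ_three, Complex.re_sum, Complex.add_re,
      Finset.sum_add_distrib, G, Matrix.cons_val_zero, Matrix.cons_val_one, Matrix.cons_val_two,
      Matrix.head_cons, Matrix.tail_cons]
    rw [swap α β x y hxy, swap α γ x z hxz, swap β γ y z hyz]
    simp only [sq, two_mul, Finset.sum_add_distrib]
    ring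
  rw [e1] at key
  have hH : 0 ≤ H := le_trans (norm_nonneg _) (P.bd _ (hxx 0 hm 0 hm))
  have diag : ∀ i < m, G h α β γ x y z i i ≤ (‖α‖ + ‖β‖ + ‖γ‖) ^ 2 * H := by
    intro i hi
    have b1 : ∀ (a b : ℂ) (w : ℝ), w ∈ D → (a * conj b * h w).re ≤ ‖a‖ * ‖b‖ * H := by
      intro a b w hw
      refine (Complex.re_le_norm _).trans ?_
      rw [norm_mul, norm_mul, Complex.norm_conj]
      exact mul_le_mul_of_nonneg_left (P.bd w hw) (by positivity)
    have := b1 α β _ (hxy i hi i hi)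
    have := b1 α γ _ (hxz i hi i hi)
    have := b1 β γ _ (hyz i hi i hi)
    simp only [G, sub_self, P.zero, Complex.ofReal_re]
    nlinarith
  have row : ∀ i : Fin m, ∑ j : Fin m, G h α β γ x y z i j
      ≤ (m - 1) * u + (‖α‖ + ‖β‖ + ‖γ‖) ^ 2 * H := by
    intro i
    rw [← Finset.sum_erase_add _ _ (Finset.mem_univ i)]
    have : ∑ j ∈ Finset.univ.erase i, G h α β γ x y z i (j : Fin m) ≤ ∑ j ∈ Finset.univ.erase i, u := by
      refine Finset.sum_le_sum fun j hj => hu _ i.2 _ j.2 ?_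
      intro e
      exact (Finset.mem_erase.1 hj).1 (Fin.ext e).symm
    have h2 : ∑ j ∈ Finset.univ.erase i, u = (m - 1) * u := by
      rw [Finset.sum_const, Finset.card_erase_of_mem (Finset.mem_univ i), Finset.card_univ,
        Fintype.card_fin, nsmul_eq_mul, Nat.cast_sub hm]
      simp
    have := diag i i.2
    linarith
  have tot : ∑ i : Fin m, ∑ j : Fin m, G h α β γ x y z i j
      ≤ m * ((m - 1) * u + (‖α‖ + ‖β‖ + ‖γ‖) ^ 2 * H) := by
    refine (Finset.sum_le_sum fun i _ => row i).trans ?_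
    rw [Finset.sum_const, Finset.card_univ, Fintype.card_fin, nsmul_eq_mul]
  have hm' : (0 : ℝ) < m := by exact_mod_cast hm
  exact nonneg_of_mul_nonneg_right (le_trans key tot) hm' |> fun h => h

end Pool.Agent.Lead.MinDec
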