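import Mathlib
import Pool.Agent.Lead.MinDec1

namespace Pool.Agent.Lead.MinDec
open MeasureTheory Set Filter Topology Pointwise ComplexConjugate

lemma big_m (u C : ℝ) (hu : u < 0) : ∃ m : ℕ, 0 < m ∧ (m - 1) * u + C < 0 := by
  obtain ⟨n, hn⟩ := exists_nat_gt (C / (-u))
  refine ⟨n + 1, by omega, ?_⟩
  rw [div_lt_iff₀ (by linarith)] at hn
  push_cast
  nlinarith

lemma exists_ball {W : Set ℝ} (hW : volume W ≠ 0) (g : ℝ → ℂ) {ε : ℝ} (hε : 0 < ε) :
    ∃ a : ℂ, volume (W ∩ g ⁻¹' Metric.ball a ε) ≠ 0 := by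
  by_contra hc
  push Not at hc
  apply hW
  have : W ⊆ ⋃ n : ℕ, (W ∩ g ⁻¹' Metric.ball (TopologicalSpace.denseSeq ℂ n) ε) := by
    intro x hx
    obtain ⟨n, hn⟩ := (TopologicalSpace.denseRange_denseSeq ℂ).exists_dist_lt (g x) hε
    exact mem_iUnion.2 ⟨n, hx, hn⟩
  exact measure_mono_null this (measure_iUnion_null fun n => hc _)

lemma exists_small {W : Set ℝ} (hW : volume W ≠ 0) {ε : ℝ} (hε : 0 < ε) :
    ∃ a : ℝ, volume (W ∩ Metric.ball a ε) ≠ 0 := by
  by_contra hc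
  push Not at hc
  apply hW
  have : W ⊆ ⋃ n : ℕ, (W ∩ Metric.ball (TopologicalSpace.denseSeq ℝ n) ε) := by
    intro x hx
    obtain ⟨n, hn⟩ := (TopologicalSpace.denseRange_denseSeq ℝ).exists_dist_lt x hε
    exact mem_iUnion.2 ⟨n, hx, hn⟩
  exact measure_mono_null this (measure_iUnion_null fun n => hc _)

lemma re_le_of_close {w a θ : ℂ} {e : ℝ} (hθ : ‖θ‖ = 1) (ha : (‖a‖ : ℂ) = θ * a)
    (hw : ‖w - a‖ ≤ e) : (-2 * θ * conj (1 : ℂ) * w).re ≤ -2 * ‖a‖ + 2 * e := by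
  have h1 : -2 * θ * conj (1 : ℂ) * w = -2 * (‖a‖ : ℂ) + (-2 * θ * (w - a)) := by
    rw [ha]; simp; ring
  rw [h1, Complex.add_re]
  have h2 : (-2 * θ * (w - a)).re ≤ 2 * e := by
    refine (Complex.re_le_norm _).trans ?_
    rw [norm_mul, norm_mul, hθ]
    simp
    linarith
  have h3 : (-2 * (‖a‖ : ℂ)).re = -2 * ‖a‖ := by simp
  linarith

lemma stage1 {D : Set ℝ} {h : ℝ → ℂ} {H : ℝ} (P : PD D h H) (hH : 0 ≤ H)
    (app : ∀ ε > 0, ∃ δ > 0, (∀ x, |x| < δ → x ∈ D) ∧ ∃ g : ℝ → ℂ, Measurable g ∧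
      ∀ᵐ x, |x| < δ → ‖h x - g x‖ ≤ ε) (η : ℝ) (hη : 0 < η) :
    ∃ ρ > 0, (∀ x, |x| < ρ → x ∈ D) ∧ ∃ M : ℝ, ∀ᵐ x, |x| < ρ → ‖h x - M‖ ≤ η := by
  obtain ⟨ε, hε, hε1, hε2, hε3⟩ : ∃ ε > 0, ε ≤ 1 ∧ ε * (60 * H + 1) ≤ η ^ 2 ∧ 3 * ε ≤ η := by
    refine ⟨min 1 (min (η ^ 2 / (60 * H + 1)) (η / 3)), by positivity, min_le_left _ _, ?_, ?_⟩
    · rw [← le_div_iff₀ (by positivity)]
      exact (min_le_right _ _).trans (min_le_left _ _)
    · have : min 1 (min (η ^ 2 / (60 * H + 1)) (η / 3)) ≤ η / 3 :=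
        (min_le_right _ _).trans (min_le_right _ _)
      linarith
  obtain ⟨δ, hδ, hD, g, hg, hap⟩ := app ε hε
  set S : Set ℝ := {u | 0 ≤ u ∧ ∀ᵐ x, |x| < δ → ‖h x‖ ≤ u} with hS
  have hHS : H ∈ S := ⟨hH, Eventually.of_forall fun x hx => P.bd x (hD x hx)⟩
  have hbdd : BddBelow S := ⟨0, fun u hu => hu.1⟩
  set M := sInf S with hM
  have hMH : M ≤ H := csInf_le hbdd hHS
  have hM0 : 0 ≤ M := le_csInf ⟨H, hHS⟩ fun u hu => hu.1
  have hup : ∀ᵐ x, |x| < δ → ‖h x‖ ≤ M + ε := by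
    obtain ⟨u, hu, hu2⟩ := exists_lt_of_csInf_lt ⟨H, hHS⟩ (show sInf S < M + ε by linarith)
    filter_upwards [hu.2] with x hx hx2 using (hx hx2).trans hu2.le
  by_cases hsm : M < ε
  · refine ⟨δ, hδ, hD, M, ?_⟩
    filter_upwards [hup] with x hx hx2
    refine (norm_sub_le _ _).trans ?_
    have := hx hx2
    rw [Complex.norm_real, Real.norm_of_nonneg hM0]
    linarith
  push Not at hsm
  have hnot : ¬ ∀ᵐ x, |x| < δ → ‖h x‖ ≤ M - ε := by
    intro hc
    have : M ≤ M - ε := csInf_le hbdd ⟨by linarith, hc⟩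
    linarith
  set N : Set ℝ := {x | ¬ (|x| < δ → ‖h x‖ ≤ M + ε ∧ ‖h x - g x‖ ≤ ε)} with hN
  have hN0 : volume N = 0 := by
    have : ∀ᵐ x, |x| < δ → ‖h x‖ ≤ M + ε ∧ ‖h x - g x‖ ≤ ε := by
      filter_upwards [hup, hap] with x h1 h2 h3 using ⟨h1 h3, h2 h3⟩
    exact this
  have hNout : ∀ x, x ∉ N → |x| < δ → ‖h x‖ ≤ M + ε ∧ ‖h x - g x‖ ≤ ε := by
    intro x hx
    simpa [hN] using hx
  set W : Set ℝ := {x | |x| < δ ∧ M - 2 * ε < ‖g x‖} with hW
  have hWm : MeasurableSet W :=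
    (measurableSet_lt measurable_abs measurable_const).inter
      (measurableSet_lt measurable_const hg.norm)
  have hW0 : volume W ≠ 0 := by
    intro h0
    apply hnot
    have h1 : ∀ᵐ x, x ∉ W := measure_eq_zero_iff_ae_notMem.1 h0
    filter_upwards [h1, hap] with x h1 h2 h3
    have h4 : ‖g x‖ ≤ M - 2 * ε := by
      by_contra h5
      exact h1 ⟨h3, not_le.1 h5⟩
    have := norm_sub_norm_le (h x) (g x)
    have := h2 h3
    linarith
  obtain ⟨a, ha⟩ := exists_ball hW0 g hε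
  obtain ⟨q, hq⟩ := exists_small ha (show 0 < δ / 4 by positivity)
  obtain ⟨K, hKc, hK0, hKE, hKN⟩ := compact_sub
    ((hWm.inter (hg Metric.isOpen_ball.measurableSet)).inter Metric.isOpen_ball.measurableSet) hq hN0
  have hKa : ∀ x ∈ K, |x| < δ ∧ ‖h x - a‖ ≤ 2 * ε ∧ M - 3 * ε ≤ ‖a‖ ∧ |x - q| < δ / 4 := by
    intro x hx
    obtain ⟨⟨⟨h1, h2⟩, h3⟩, h4⟩ := hKE hx
    have h3' : ‖g x - a‖ < ε := by simpa [dist_eq_norm] using h3
    have h5 := (hNout x (hKN x hx) h1).2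
    refine ⟨h1, ?_, ?_, by simpa [Real.dist_eq] using h4⟩
    · have : h x - a = (h x - g x) + (g x - a) := by ring
      rw [this]
      refine (norm_add_le _ _).trans ?_
      linarith
    · have := norm_sub_norm_le (g x) a
      linarith
  obtain ⟨θ, hθ, hθa⟩ := Complex.exists_norm_eq_mul_self a
  obtain ⟨m, hm, hmb⟩ := big_m (-2 * ε) (16 * H) (by linarith)
  obtain ⟨ρ1, hρ1, htr1⟩ := tr hKc hK0 (m + m)
  set ρ := min (ρ1 / 2) (δ / 4) with hρ
  have hρ0 : 0 < ρ := by positivity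
  have hρa : ρ ≤ ρ1 / 2 := min_le_left _ _
  have hρb : ρ ≤ δ / 4 := min_le_right _ _
  refine ⟨ρ, hρ0, fun x hx => hD x (by linarith), M, ?_⟩
  set B : Set ℝ := {x | |x| < ρ ∧ (g x).re < M - 25 * ε} with hB
  have hBm : MeasurableSet B :=
    (measurableSet_lt measurable_abs measurable_const).inter
      (measurableSet_lt (Complex.measurable_re.comp hg) measurable_const)
  have hB0 : volume B = 0 := by
    by_contra hB0
    obtain ⟨K2, hK2c, hK20, hK2E, hK2N⟩ := compact_sub hBm hB0 hN0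
    obtain ⟨ρ2, hρ2, htr2⟩ := tr hK2c hK20 m
    have hX : volume (Metric.ball (0 : ℝ) (min ρ2 ρ)) ≠ 0 :=
      (Metric.measure_ball_pos _ _ (by positivity)).ne'
    obtain ⟨z, hz, hzN⟩ := sel hX hN0
    have hz1 : ∀ n, |z n| < ρ2 := fun n => by
      have := hz n
      simp only [Metric.mem_ball, Real.dist_eq, sub_zero] at this
      exact this.trans_le (min_le_left _ _)
    have hz2 : ∀ n, |z n| < ρ := fun n => by
      have := hz n
      simp only [Metric.mem_ball, Real.dist_eq, sub_zero] at this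
      exact this.trans_le (min_le_right _ _)
    obtain ⟨y, hy, hyN⟩ := sel (htr2 ((Finset.range m).image z)
      (Finset.card_image_le.trans (by simp)) (by
        intro s hs
        obtain ⟨n, -, rfl⟩ := Finset.mem_image.1 hs
        exact hz1 n)) hN0
    have hyz : ∀ i, ∀ j < m, y i - z j ∈ K2 := fun i j hj =>
      hy i _ (Finset.mem_image.2 ⟨j, Finset.mem_range.2 hj, rfl⟩)
    have hy2 : ∀ i, |y i - z 0| < ρ := fun i => (hK2E (hyz i 0 hm)).1
    have hy3 : ∀ i, |y i| < ρ1 := fun i => by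
      have h1 := hy2 i
      have h2 := hz2 0
      rw [abs_lt] at *
      constructor <;> linarith [h1.1, h1.2, h2.1, h2.2]
    obtain ⟨x, hx, hxN⟩ := sel (htr1 ((Finset.range m).image z ∪ (Finset.range m).image y)
      ((Finset.card_union_le _ _).trans
        (add_le_add (Finset.card_image_le.trans (by simp)) (Finset.card_image_le.trans (by simp))))
      (by
        intro s hs
        rcases Finset.mem_union.1 hs with hs | hs
        · obtain ⟨n, -, rfl⟩ := Finset.mem_image.1 hs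
          linarith [hz2 n]
        · obtain ⟨n, -, rfl⟩ := Finset.mem_image.1 hs
          exact hy3 n)) hN0
    have hxz : ∀ i, ∀ j < m, x i - z j ∈ K := fun i j hj =>
      hx i _ (Finset.mem_union.2 (Or.inl (Finset.mem_image.2 ⟨j, Finset.mem_range.2 hj, rfl⟩)))
    have hxy : ∀ i, ∀ j < m, x i - y j ∈ K := fun i j hj =>
      hx i _ (Finset.mem_union.2 (Or.inr (Finset.mem_image.2 ⟨j, Finset.mem_range.2 hj, rfl⟩)))
    have dxx : ∀ i j, |x i - x j| < δ := fun i j => by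
      have h1 := (hKa _ (hxz i 0 hm)).2.2.2
      have h2 := (hKa _ (hxz j 0 hm)).2.2.2
      rw [abs_lt] at *
      constructor <;> linarith [h1.1, h1.2, h2.1, h2.2]
    have dyy : ∀ i j, |y i - y j| < δ := fun i j => by
      have h1 := hy2 i
      have h2 := hy2 j
      rw [abs_lt] at *
      constructor <;> linarith [h1.1, h1.2, h2.1, h2.2]
    have dzz : ∀ i j, |z i - z j| < δ := fun i j => by
      have h1 := hz2 i
      have h2 := hz2 j
      rw [abs_lt] at *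
      constructor <;> linarith [h1.1, h1.2, h2.1, h2.2]
    have key := pd3 P m hm (-2 * θ) 1 1 x y z (fun i _ j _ => hD _ (dxx i j))
      (fun i _ j _ => hD _ (dyy i j)) (fun i _ j _ => hD _ (dzz i j))
      (fun i _ j hj => hD _ (hKa _ (hxy i j hj)).1) (fun i _ j hj => hD _ (hKa _ (hxz i j hj)).1)
      (fun i _ j hj => hD _ (lt_of_lt_of_le (hK2E (hyz i j hj)).1 (by linarith))) (-2 * ε) (by
        intro i hi j hj hij
        have n2 : ‖-2 * θ‖ = 2 := by rw [norm_mul, hθ]; simp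
        have a1 := (Complex.re_le_norm _).trans (hNout _ (hxN i j hij) (dxx i j)).1
        have a2 := (Complex.re_le_norm _).trans (hNout _ (hyN i j hij) (dyy i j)).1
        have a3 := (Complex.re_le_norm _).trans (hNout _ (hzN i j hij) (dzz i j)).1
        have a4 := re_le_of_close hθ hθa (hKa _ (hxy i j hj)).2.1
        have a5 := re_le_of_close hθ hθa (hKa _ (hxz i j hj)).2.1
        have a6 := (hK2E (hyz i j hj)).2
        have a7 := (Complex.re_le_norm _).trans (hNout _ (hK2N _ (hyz i j hj))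
          (lt_of_lt_of_le (hK2E (hyz i j hj)).1 (by linarith))).2
        have a8 := (hKa _ (hxy i j hj)).2.2.1
        rw [Complex.sub_re] at a7
        have a9 : ((1 : ℂ) * conj (1 : ℂ) * h (y i - z j)).re = (h (y i - z j)).re := by simp
        simp only [G, n2, norm_one, a9]
        linarith)
    have n2 : ‖-2 * θ‖ = 2 := by rw [norm_mul, hθ]; simp
    rw [n2, norm_one] at key
    linarith
  have h1 : ∀ᵐ x, x ∉ B := measure_eq_zero_iff_ae_notMem.1 hB0
  filter_upwards [h1, hup, hap] with x h1 h2 h3 h4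
  have h5 : |x| < δ := by linarith
  have h6 : M - 25 * ε ≤ (g x).re := by
    by_contra h7
    exact h1 ⟨h4, not_le.1 h7⟩
  have h7 := h2 h5
  have h8 := (Complex.abs_re_le_norm _).trans (h3 h5)
  rw [Complex.sub_re, abs_le] at h8
  have h9 : ‖h x - M‖ ^ 2 = ‖h x‖ ^ 2 - 2 * M * (h x).re + M ^ 2 := by
    rw [← Complex.normSq_eq_norm_sq, ← Complex.normSq_eq_norm_sq, Complex.normSq_apply,
      Complex.normSq_apply]
    simp
    ring
  have h10 : ‖h x‖ ^ 2 ≤ (M + ε) ^ 2 := by gcongr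
  have h11 : ‖h x - M‖ ^ 2 ≤ η ^ 2 := by
    have : M * (M - 26 * ε) ≤ M * (h x).re := by gcongr; linarith [h8.1]
    have : M * ε ≤ H * ε := by gcongr
    nlinarith
  exact abs_le_of_sq_le_sq' h11 hη.le |>.2

end Pool.Agent.Lead.MinDec
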