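import Mathlib
import Pool.Agent.Lead.MinDec2

namespace Pool.Agent.Lead.MinDec
open MeasureTheory Set Filter Topology Pointwise ComplexConjugate

lemma stage2 {D : Set ℝ} {h : ℝ → ℂ} {H : ℝ} (P : PD D h H) (hH : 0 ≤ H)
    (st1 : ∀ η > 0, ∃ ρ > 0, (∀ x, |x| < ρ → x ∈ D) ∧ ∃ M : ℝ, ∀ᵐ x, |x| < ρ → ‖h x - M‖ ≤ η)
    (η : ℝ) (hη : 0 < η) :
    ∃ ρ > 0, ∀ J : Set ℝ, J ⊆ D → (∀ x ∈ J, ∀ y ∈ J, |x - y| < ρ) →
      ∃ c : ℂ, ∀ᵐ x, x ∈ J → ‖h x - c‖ ≤ η := by
  set τ : ℝ := 1 / (H + 1) with hτ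
  have hτ0 : 0 < τ := by positivity
  have hτH : τ * H ≤ 1 := by
    rw [hτ, div_mul_eq_mul_div, div_le_one (by positivity)]; linarith
  obtain ⟨ρ, hρ, hD, M, hM⟩ := st1 (τ * η ^ 2 / 20) (by positivity)
  refine ⟨ρ, hρ, fun J hJD hJ => ?_⟩
  by_cases hJ0 : volume J = 0
  · refine ⟨0, ?_⟩
    filter_upwards [measure_eq_zero_iff_ae_notMem.1 hJ0] with x hx hx2 using absurd hx2 hx
  obtain ⟨a1, ha1⟩ := exists_ball hJ0 h (show 0 < η / 10 by positivity)
  refine ⟨a1, ?_⟩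
  by_contra hc
  have hW : volume {x | x ∈ J ∧ η < ‖h x - a1‖} ≠ 0 := by
    intro h0
    apply hc
    filter_upwards [measure_eq_zero_iff_ae_notMem.1 h0] with x hx hx2
    by_contra h3
    exact hx ⟨hx2, not_le.1 h3⟩
  obtain ⟨a2, ha2⟩ := exists_ball hW h (show 0 < η / 10 by positivity)
  set N : Set ℝ := {x | ¬ (|x| < ρ → ‖h x - M‖ ≤ τ * η ^ 2 / 20)} with hN
  have hN0 : volume N = 0 := hM
  have hNout : ∀ x, x ∉ N → |x| < ρ → ‖h x - M‖ ≤ τ * η ^ 2 / 20 := by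
    intro x hx
    simpa [hN] using hx
  set d := ‖a1 - a2‖ with hd
  obtain ⟨w, hw⟩ := nonempty_of_measure_ne_zero ha2
  have hd1 : 9 / 10 * η ≤ d := by
    have h1 := hw.1.2
    have h2 : ‖h w - a2‖ < η / 10 := by simpa [dist_eq_norm] using hw.2
    have h3 : h w - a1 = (h w - a2) - (a1 - a2) := by ring
    rw [h3] at h1
    have := norm_sub_le (h w - a2) (a1 - a2)
    linarith
  set γ : ℂ := -(τ : ℂ) * (a1 - a2) with hγ
  have hγn : ‖γ‖ = τ * d := by
    rw [hγ, norm_mul, norm_neg, Complex.norm_real, Real.norm_of_nonneg hτ0.le]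
  obtain ⟨m, hm, hmb⟩ := big_m (-(τ * η ^ 2 / 4)) ((1 + 1 + ‖γ‖) ^ 2 * H)
    (by have : 0 < τ * η ^ 2 / 4 := by positivity
        linarith)
  obtain ⟨x, hx, hxN⟩ := sel ha1 hN0
  obtain ⟨y, hy, hyN⟩ := sel (avoid ha2 hN0 ((Finset.range m).image x)) hN0
  have hxJ : ∀ i, x i ∈ J := fun i => (hx i).1
  have hyJ : ∀ i, y i ∈ J := fun i => (hy i).1.1.1
  have hxa : ∀ i, ‖h (x i) - a1‖ ≤ η / 10 := fun i => by
    have : ‖h (x i) - a1‖ < η / 10 := by simpa [dist_eq_norm] using (hx i).2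
    exact this.le
  have hya : ∀ i, ‖h (y i) - a2‖ ≤ η / 10 := fun i => by
    have : ‖h (y i) - a2‖ < η / 10 := by simpa [dist_eq_norm] using (hy i).1.2
    exact this.le
  have key := pd3 P m hm 1 (-1) γ x y (fun _ => 0) (fun i _ j _ => hD _ (hJ _ (hxJ i) _ (hxJ j)))
    (fun i _ j _ => hD _ (hJ _ (hyJ i) _ (hyJ j))) (fun i _ j _ => hD _ (by simpa using hρ))
    (fun i _ j _ => hD _ (hJ _ (hxJ i) _ (hyJ j)))
    (fun i _ j _ => by simpa using hJD (hxJ i)) (fun i _ j _ => by simpa using hJD (hyJ i))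
    (-(τ * η ^ 2 / 4)) (by
      intro i hi j hj hij
      have a1' := (Complex.abs_re_le_norm _).trans (hNout _ (hxN i j hij) (hJ _ (hxJ i) _ (hxJ j)))
      have a2' := (Complex.abs_re_le_norm _).trans (hNout _ (hyN i j hij) (hJ _ (hyJ i) _ (hyJ j)))
      have a3' := (Complex.abs_re_le_norm _).trans (hNout _
        ((hy j).2 _ (Finset.mem_image.2 ⟨i, Finset.mem_range.2 hi, rfl⟩)).2
        (hJ _ (hxJ i) _ (hyJ j)))
      rw [Complex.sub_re, Complex.ofReal_re, abs_le] at a1' a2' a3'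
      have b1 : ((1 : ℂ) * conj (-1 : ℂ) * h (x i - y j)).re = - (h (x i - y j)).re := by simp
      have b2 : ((1 : ℂ) * conj γ * h (x i - 0)).re + ((-1 : ℂ) * conj γ * h (y i - 0)).re
          ≤ - τ * d ^ 2 + 2 * (τ * d) * (η / 10) := by
        have e : (1 : ℂ) * conj γ * h (x i - 0) + (-1 : ℂ) * conj γ * h (y i - 0)
            = conj γ * (a1 - a2) + conj γ * ((h (x i) - a1) - (h (y i) - a2)) := by
          simp only [sub_zero]; ring
        rw [← Complex.add_re, e, Complex.add_re]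
        have e2 : (conj γ * (a1 - a2)).re = - τ * d ^ 2 := by
          rw [hγ, map_mul, mul_assoc, Complex.conj_mul', map_neg, Complex.conj_ofReal, hd]
          simp [← Complex.ofReal_pow]
        have e3 : (conj γ * ((h (x i) - a1) - (h (y i) - a2))).re ≤ 2 * (τ * d) * (η / 10) := by
          refine (Complex.re_le_norm _).trans ?_
          rw [norm_mul, Complex.norm_conj, hγn]
          have := norm_sub_le (h (x i) - a1) (h (y i) - a2)
          have h5 := hxa i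
          have h6 := hya i
          have : ‖(h (x i) - a1) - (h (y i) - a2)‖ ≤ 2 * (η / 10) := by linarith
          calc τ * d * ‖(h (x i) - a1) - (h (y i) - a2)‖ ≤ τ * d * (2 * (η / 10)) := by gcongr
            _ = _ := by ring
        linarith
      simp only [G, norm_one, norm_neg, b1, sub_self, P.zero, Complex.ofReal_re, hγn]
      have c1 : (τ * d) ^ 2 * H ≤ τ * d ^ 2 := by
        have : (τ * d) ^ 2 * H = τ * d ^ 2 * (τ * H) := by ring
        rw [this]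
        exact mul_le_of_le_one_right (by positivity) hτH
      have c2 : τ * (9 / 20 * η ^ 2) ≤ τ * (d * (d - 4 * (η / 10))) := by
        refine mul_le_mul_of_nonneg_left ?_ hτ0.le
        nlinarith
      nlinarith [a1'.2, a2'.2, a3'.1])
  rw [norm_neg, norm_one] at key
  linarith

theorem aemeas {D : Set ℝ} (hDm : MeasurableSet D) {h : ℝ → ℂ} {H : ℝ} (P : PD D h H) (hH : 0 ≤ H)
    (app : ∀ ε > 0, ∃ δ > 0, (∀ x, |x| < δ → x ∈ D) ∧ ∃ g : ℝ → ℂ, Measurable g ∧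
      ∀ᵐ x, |x| < δ → ‖h x - g x‖ ≤ ε) : AEMeasurable h (volume.restrict D) := by
  refine aemeasurable_of_unif_approx fun η hη => ?_
  obtain ⟨ρ, hρ, hJ⟩ := stage2 P hH (stage1 P hH app) η hη
  have : ∀ k : ℤ, ∃ c : ℂ, ∀ᵐ x, x ∈ {x | x ∈ D ∧ ⌊x / ρ⌋ = k} → ‖h x - c‖ ≤ η := by
    intro k
    refine hJ _ (fun x hx => hx.1) fun x hx y hy => ?_
    have h1 := Int.abs_sub_lt_one_of_floor_eq_floor (hx.2.trans hy.2.symm)
    rw [← sub_div, abs_div, abs_of_pos hρ, div_lt_one hρ] at h1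
    exact h1
  choose c hc using this
  refine ⟨fun x => c ⌊x / ρ⌋, ?_, ?_⟩
  · exact ((measurable_of_countable c).comp
      (Int.measurable_floor.comp (measurable_id.div_const ρ))).aemeasurable
  · rw [ae_restrict_iff' hDm]
    filter_upwards [ae_all_iff.2 hc] with x hx hxD
    rw [dist_comm, dist_eq_norm]
    exact hx _ ⟨hxD, rfl⟩

end Pool.Agent.Lead.MinDec
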