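import Mathlib

set_option autoImplicit false

namespace Pool.Agent.Lead.NullT

open Finset
open scoped RealInnerProductSpace

noncomputable def g (r : ℝ) : ℝ := Real.cos (Real.log (1 + r))

lemma log_sub_le {r r' : ℝ} (hr' : 0 ≤ r') (h : r' ≤ r) :
    |Real.log (1 + r) - Real.log (1 + r')| ≤ (r - r') / (1 + r') := by
  have h1 : 0 < 1 + r' := by linarith
  have h2 : 0 < 1 + r := by linarith
  rw [← Real.log_div h2.ne' h1.ne']
  have h3 : 1 ≤ (1 + r) / (1 + r') := by rw [le_div_iff₀ h1]; linarith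
  rw [abs_of_nonneg (Real.log_nonneg h3)]
  have := Real.log_le_sub_one_of_pos (show 0 < (1 + r) / (1 + r') by positivity)
  have e : (1 + r) / (1 + r') - 1 = (r - r') / (1 + r') := by field_simp; ring
  linarith

lemma g_lip_aux {r r' m : ℝ} (hm : 0 ≤ m) (h1 : m ≤ r) (h2 : m ≤ r') :
    |g r - g r'| ≤ |r - r'| / (1 + m) := by
  have hc : |g r - g r'| ≤ |Real.log (1 + r) - Real.log (1 + r')| := Real.abs_cos_sub_cos_le _ _
  refine hc.trans ?_
  rcases le_total r' r with h | h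
  · refine (log_sub_le (hm.trans h2) h).trans ?_
    rw [abs_of_nonneg (by linarith)]
    exact div_le_div_of_nonneg_left (by linarith) (by linarith) (by linarith)
  · rw [abs_sub_comm, abs_sub_comm r]
    refine (log_sub_le (hm.trans h1) h).trans ?_
    rw [abs_of_nonneg (by linarith)]
    exact div_le_div_of_nonneg_left (by linarith) (by linarith) (by linarith)

lemma g_lip {r r' : ℝ} (h1 : 0 ≤ r) (h2 : 0 ≤ r') : |g r - g r'| ≤ |r - r'| := by
  simpa using g_lip_aux le_rfl h1 h2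

lemma g_rel {r r' θ : ℝ} (h1 : 0 ≤ r) (hθ : 0 ≤ θ) (hθ' : θ ≤ 1 / 2) (h : |r - r'| ≤ θ * r) :
    |g r - g r'| ≤ 2 * θ := by
  have h3 := abs_le.1 h
  have h4 : θ * r ≤ r / 2 := by nlinarith
  refine (g_lip_aux (m := r / 2) (by linarith) (by linarith) (by linarith)).trans ?_
  rw [div_le_iff₀ (by linarith)]
  nlinarith

lemma g_abs (r : ℝ) : |g r| ≤ 1 := Real.abs_cos_le_one _

variable {H : Type*} [NormedAddCommGroup H] [InnerProductSpace ℝ H]

lemma perceptron {ι : Type*} (I : Finset ι) (x : ι → H) (hx : ∀ i ∈ I, ‖x i‖ ≤ 1) {η : ℝ}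
    (hη : 0 < η) (t : ℕ) : ∃ W : Finset H, W.card ≤ (2 * I.card + 1) ^ t ∧ ∀ y : H,
      (∃ w ∈ W, ∀ i ∈ I, |⟪y - w, x i⟫| ≤ η) ∨ (∃ w ∈ W, ‖y - w‖ ^ 2 ≤ ‖y‖ ^ 2 - t * η ^ 2) := by
  classical
  induction t with
  | zero => exact ⟨{0}, by simp, fun y => Or.inr ⟨0, by simp, by simp⟩⟩
  | succ t ih =>
    obtain ⟨W, hW, hy⟩ := ih
    refine ⟨W ∪ ((W ×ˢ I).image (fun p => p.1 + η • x p.2) ∪
      (W ×ˢ I).image (fun p => p.1 - η • x p.2)), ?_, fun y => ?_⟩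
    · refine (card_union_le _ _).trans ?_
      have h1 := card_union_le ((W ×ˢ I).image (fun p => p.1 + η • x p.2))
        ((W ×ˢ I).image (fun p => p.1 - η • x p.2))
      have h2 := card_image_le (s := W ×ˢ I) (f := fun p => p.1 + η • x p.2)
      have h3 := card_image_le (s := W ×ˢ I) (f := fun p => p.1 - η • x p.2)
      rw [card_product] at h2 h3
      calc _ ≤ W.card + (W.card * I.card + W.card * I.card) := by omega
        _ = W.card * (2 * I.card + 1) := by ring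
        _ ≤ (2 * I.card + 1) ^ t * (2 * I.card + 1) := Nat.mul_le_mul_right _ hW
        _ = _ := by ring
    · rcases hy y with ⟨w, hw, h⟩ | ⟨w, hw, h⟩
      · exact Or.inl ⟨w, mem_union_left _ hw, h⟩
      · by_cases hg : ∀ i ∈ I, |⟪y - w, x i⟫| ≤ η
        · exact Or.inl ⟨w, mem_union_left _ hw, hg⟩
        · push Not at hg
          obtain ⟨i, hi, hlt⟩ := hg
          have hn : ‖x i‖ ^ 2 ≤ 1 := by
            have := hx i hi
            have := norm_nonneg (x i)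
            nlinarith
          have hs : ‖η • x i‖ ^ 2 ≤ η ^ 2 := by
            rw [norm_smul, mul_pow, Real.norm_eq_abs, sq_abs]
            nlinarith [sq_nonneg η]
          right
          rcases lt_abs.1 hlt with h1 | h1
          · refine ⟨w + η • x i, mem_union_right _ (mem_union_left _
              (mem_image.2 ⟨(w, i), mem_product.2 ⟨hw, hi⟩, rfl⟩)), ?_⟩
            rw [← sub_sub, norm_sub_sq_real, inner_smul_right]
            push_cast
            nlinarith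
          · refine ⟨w - η • x i, mem_union_right _ (mem_union_right _
              (mem_image.2 ⟨(w, i), mem_product.2 ⟨hw, hi⟩, rfl⟩)), ?_⟩
            have e : y - (w - η • x i) = (y - w) + η • x i := by abel
            rw [e, norm_add_sq_real, inner_smul_right]
            push_cast
            nlinarith

lemma near_real {s s' r ρ ρ' α α' η : ℝ} (hs : 0 ≤ s) (hs' : 0 ≤ s') (hr : 0 < r) (hρ' : 0 ≤ ρ')
    (e1 : ρ ^ 2 = s ^ 2 - 2 * (s * r * α) + r ^ 2) (e2 : ρ' ^ 2 = s' ^ 2 - 2 * (s' * r * α') + r ^ 2)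
    (hα' : |α'| ≤ 1) (hαα : |α - α'| ≤ 2 * η) (hss : |s - s'| ≤ η * r)
    (h1 : s ≤ ρ) (h2 : r ≤ 2 * ρ) (hη : 0 ≤ η) (hη1 : η ≤ 1) : |ρ - ρ'| ≤ 24 * η * ρ := by
  have hρ : 0 < ρ := by linarith
  have key : |ρ ^ 2 - ρ' ^ 2| ≤ 24 * η * ρ ^ 2 := by
    have e : ρ ^ 2 - ρ' ^ 2 = (s - s') * (s + s') - 2 * r * (s * (α - α') + (s - s') * α') := by
      rw [e1, e2]; ring
    rw [e]
    have a1 : |(s - s') * (s + s')| ≤ η * r * (2 * s + η * r) := by
      rw [abs_mul, abs_of_nonneg (by linarith : 0 ≤ s + s')]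
      have := (abs_le.1 hss).1
      exact mul_le_mul hss (by linarith) (by linarith) (by positivity)
    have a2 : |s * (α - α') + (s - s') * α'| ≤ s * (2 * η) + η * r := by
      refine (abs_add_le _ _).trans ?_
      rw [abs_mul, abs_mul, abs_of_nonneg hs]
      have b1 : s * |α - α'| ≤ s * (2 * η) := mul_le_mul_of_nonneg_left hαα hs
      have b2 : |s - s'| * |α'| ≤ η * r * 1 := mul_le_mul hss hα' (abs_nonneg _) (by positivity)
      linarith
    have a3 : |2 * r * (s * (α - α') + (s - s') * α')| ≤ 2 * r * (s * (2 * η) + η * r) := by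
      rw [abs_mul, abs_of_nonneg (by positivity : 0 ≤ 2 * r)]
      exact mul_le_mul_of_nonneg_left a2 (by positivity)
    refine (abs_sub _ _).trans ?_
    have c1 : r * s ≤ 2 * ρ * ρ := mul_le_mul h2 h1 hs (by positivity)
    have c2 : r * r ≤ 2 * ρ * (2 * ρ) := mul_le_mul h2 h2 hr.le (by positivity)
    have c3 : η * (r * r) ≤ r * r := by nlinarith [mul_pos hr hr]
    have c4 : η * r * (2 * s + η * r) + 2 * r * (s * (2 * η) + η * r)
        = η * (6 * (r * s) + η * (r * r) + 2 * (r * r)) := by ring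
    have c5 : 6 * (r * s) + η * (r * r) + 2 * (r * r) ≤ 24 * ρ ^ 2 := by nlinarith
    have c6 := mul_le_mul_of_nonneg_left c5 hη
    nlinarith
  have e : ρ ^ 2 - ρ' ^ 2 = (ρ - ρ') * (ρ + ρ') := by ring
  rw [e, abs_mul, abs_of_nonneg (by linarith : 0 ≤ ρ + ρ')] at key
  have : |ρ - ρ'| * ρ ≤ (24 * η * ρ) * ρ := by
    have := mul_le_mul_of_nonneg_left (show ρ ≤ ρ + ρ' by linarith) (abs_nonneg (ρ - ρ'))
    nlinarith
  exact le_of_mul_le_mul_right this hρ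

lemma unit_norm (v : H) : ‖‖v‖⁻¹ • v‖ ≤ 1 := by
  rw [norm_smul, norm_inv, norm_norm]
  by_cases h : ‖v‖ = 0
  · simp [h]
  · rw [inv_mul_cancel₀ h]

lemma inner_unit (u v : H) : ⟪u, v⟫ = ‖u‖ * ‖v‖ * ⟪‖u‖⁻¹ • u, ‖v‖⁻¹ • v⟫ := by
  rw [inner_smul_left, inner_smul_right]
  by_cases hu : u = 0
  · simp [hu]
  by_cases hv : v = 0
  · simp [hv]
  have h1 : ‖u‖ ≠ 0 := norm_ne_zero_iff.2 hu
  have h2 : ‖v‖ ≠ 0 := norm_ne_zero_iff.2 hv
  simp only [conj_trivial]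
  field_simp

lemma floor_close {a b : ℝ} (ha : 0 ≤ a) (hb : 0 ≤ b) (h : ⌊a⌋₊ = ⌊b⌋₊) : |a - b| ≤ 1 := by
  have h1 := Nat.floor_le ha
  have h2 := Nat.floor_le hb
  have h3 := Nat.lt_floor_add_one a
  have h4 := Nat.lt_floor_add_one b
  rw [h] at h1 h3
  rw [abs_le]; constructor <;> linarith

/-- one coordinate -/
lemma one_coord {η : ℝ} (hη : 0 < η) (hη1 : η ≤ 1 / 100) (u u' v : H)
    (hm : ‖u‖ ≤ ‖u - v‖)
    (hw : |⟪‖u‖⁻¹ • u, ‖v‖⁻¹ • v⟫ - ⟪‖u'‖⁻¹ • u', ‖v‖⁻¹ • v⟫| ≤ 2 * η)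
    (hc : min ⌈1 / η ^ 2⌉₊ ⌊‖u‖ / (η * ‖v‖)⌋₊ = min ⌈1 / η ^ 2⌉₊ ⌊‖u'‖ / (η * ‖v‖)⌋₊)
    (hg : |g ‖u‖ - g ‖u'‖| ≤ η) : |g ‖u - v‖ - g ‖u' - v‖| ≤ 48 * η := by
  have far : ‖v‖ ≤ η * ‖u‖ → ‖v‖ ≤ η * ‖u'‖ → |g ‖u - v‖ - g ‖u' - v‖| ≤ 48 * η := by
    intro h1 h2
    have k : ∀ z : H, ‖v‖ ≤ η * ‖z‖ → |g ‖z‖ - g ‖z - v‖| ≤ 2 * η := by
      intro z hz
      refine g_rel (norm_nonneg _) hη.le (by linarith) (le_trans ?_ hz)
      have := abs_norm_sub_norm_le z (z - v)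
      simpa using this
    have k1 := abs_le.1 (k u h1)
    have k2 := abs_le.1 (k u' h2)
    have k3 := abs_le.1 hg
    rw [abs_le]; constructor <;> linarith
  rcases eq_or_lt_of_le (norm_nonneg v) with hv | hv
  · exact far (by rw [← hv]; positivity) (by rw [← hv]; positivity)
  have hd : 0 < η * ‖v‖ := by positivity
  by_cases hK : ⌊‖u‖ / (η * ‖v‖)⌋₊ < ⌈1 / η ^ 2⌉₊
  · have hfl : ⌊‖u‖ / (η * ‖v‖)⌋₊ = ⌊‖u'‖ / (η * ‖v‖)⌋₊ := by omega
    have h1 := floor_close (by positivity) (by positivity) hfl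
    rw [← sub_div, abs_div, abs_of_pos hd, div_le_one hd] at h1
    have e1 := norm_sub_sq_real u v
    have e2 := norm_sub_sq_real u' v
    rw [inner_unit u v] at e1
    rw [inner_unit u' v] at e2
    have hα : |⟪‖u'‖⁻¹ • u', ‖v‖⁻¹ • v⟫| ≤ 1 := by
      refine (abs_real_inner_le_norm _ _).trans ?_
      exact mul_le_one₀ (unit_norm _) (norm_nonneg _) (unit_norm _)
    have h2 : ‖v‖ ≤ 2 * ‖u - v‖ := by
      have := norm_sub_le u (u - v)
      simp only [sub_sub_cancel] at this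
      linarith
    have := near_real (norm_nonneg u) (norm_nonneg u') hv (norm_nonneg _) e1 e2 hα hw h1 hm h2
      hη.le (by linarith)
    have := g_rel (norm_nonneg (u - v)) (θ := 24 * η) (by positivity) (by linarith) this
    linarith
  · have k : ∀ s : ℝ, 0 ≤ s → ⌈1 / η ^ 2⌉₊ ≤ ⌊s / (η * ‖v‖)⌋₊ → ‖v‖ ≤ η * s := by
      intro s hs h
      have h1 : (1 / η ^ 2 : ℝ) ≤ s / (η * ‖v‖) :=
        (Nat.le_ceil _).trans ((Nat.cast_le.2 h).trans (Nat.floor_le (by positivity)))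
      rw [div_le_div_iff₀ (by positivity) hd] at h1
      have : η * ‖v‖ ≤ η * (η * s) := by nlinarith
      exact le_of_mul_le_mul_left this hη
    exact far (k _ (norm_nonneg _) (by omega)) (k _ (norm_nonneg _) (by omega))

lemma base_count {η : ℝ} (hη : 0 < η) (hη1 : η ≤ 1 / 100) {ι κ : Type*} (I : Finset ι)
    (v : ι → H) (S : Finset κ) (u : κ → H) (hm : ∀ m ∈ S, ∀ i ∈ I, ‖u m‖ ≤ ‖u m - v i‖)
    (hsep : ∀ m ∈ S, ∀ m' ∈ S, m ≠ m' → ∃ i ∈ I, 48 * η < |g ‖u m - v i‖ - g ‖u m' - v i‖|) :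
    S.card ≤ (2 * I.card + 1) ^ (⌈1 / η ^ 2⌉₊ + 1) *
      ((I.card * ⌈1 / η ^ 2⌉₊ + 1) * (⌊2 / η⌋₊ + 1)) := by
  classical
  obtain ⟨W, hW, hy⟩ := perceptron I (fun i => ‖v i‖⁻¹ • v i) (fun i _ => unit_norm _) hη
    (⌈1 / η ^ 2⌉₊ + 1)
  have hgood : ∀ m : κ, ∃ w ∈ W, ∀ i ∈ I, |⟪‖u m‖⁻¹ • u m - w, ‖v i‖⁻¹ • v i⟫| ≤ η := by
    intro m
    rcases hy (‖u m‖⁻¹ • u m) with h | ⟨w, -, h⟩
    · exact h
    · exfalso
      have h1 := unit_norm (u m)
      have h2 := norm_nonneg (‖u m‖⁻¹ • u m)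
      have h3 : (1 / η ^ 2 : ℝ) ≤ ⌈1 / η ^ 2⌉₊ := Nat.le_ceil _
      rw [div_le_iff₀ (by positivity)] at h3
      push_cast at h
      nlinarith [sq_nonneg ‖‖u m‖⁻¹ • u m - w‖, sq_pos_of_pos hη]
  choose w hwW hw using hgood
  let σ : ℝ → ℕ := fun s => ∑ i ∈ I, min ⌈1 / η ^ 2⌉₊ ⌊s / (η * ‖v i‖)⌋₊
  let c : ℝ → ℕ := fun s => ⌊(g s + 1) / η⌋₊
  have hmono : ∀ s s' : ℝ, s ≤ s' → ∀ i ∈ I,
      min ⌈1 / η ^ 2⌉₊ ⌊s / (η * ‖v i‖)⌋₊ ≤ min ⌈1 / η ^ 2⌉₊ ⌊s' / (η * ‖v i‖)⌋₊ := by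
    intro s s' h i _
    exact min_le_min_left _ (Nat.floor_le_floor (div_le_div_of_nonneg_right h (by positivity)))
  have hσ : ∀ s s' : ℝ, σ s = σ s' → ∀ i ∈ I,
      min ⌈1 / η ^ 2⌉₊ ⌊s / (η * ‖v i‖)⌋₊ = min ⌈1 / η ^ 2⌉₊ ⌊s' / (η * ‖v i‖)⌋₊ := by
    intro s s' h i hi
    rcases le_total s s' with h1 | h1
    · exact (sum_eq_sum_iff_of_le (hmono s s' h1)).1 h i hi
    · exact ((sum_eq_sum_iff_of_le (hmono s' s h1)).1 h.symm i hi).symm
  have hcard := card_le_card_of_injOn (s := S)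
    (t := W ×ˢ (range (I.card * ⌈1 / η ^ 2⌉₊ + 1) ×ˢ range (⌊2 / η⌋₊ + 1)))
    (fun m => (w m, σ ‖u m‖, c ‖u m‖)) ?_ ?_
  · rw [card_product, card_product, card_range, card_range] at hcard
    exact hcard.trans (Nat.mul_le_mul_right _ hW)
  · intro m _
    simp only [coe_product, Set.mem_prod, mem_coe, mem_range]
    refine ⟨hwW m, ?_, ?_⟩
    · have : σ ‖u m‖ ≤ ∑ i ∈ I, ⌈1 / η ^ 2⌉₊ := sum_le_sum fun i _ => min_le_left _ _
      simp only [sum_const, smul_eq_mul] at this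
      omega
    · have : c ‖u m‖ ≤ ⌊2 / η⌋₊ := by
        refine Nat.floor_le_floor (div_le_div_of_nonneg_right ?_ hη.le)
        have := (abs_le.1 (g_abs ‖u m‖)).2
        linarith
      omega
  · intro m hmS m' hm'S h
    simp only [Prod.mk.injEq] at h
    obtain ⟨h1, h2, h3⟩ := h
    by_contra hne
    obtain ⟨i, hi, hlt⟩ := hsep m hmS m' hm'S hne
    refine absurd hlt (not_lt.2 (one_coord hη hη1 _ _ _ (hm m hmS i hi) ?_ (hσ _ _ h2 i hi) ?_))
    · have a1 := abs_le.1 (hw m i hi)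
      have a2 := abs_le.1 (hw m' i hi)
      rw [inner_sub_left] at a1 a2
      rw [h1] at a1
      rw [abs_le]; constructor <;> linarith
    · have b1 := (abs_le.1 (g_abs ‖u m‖)).1
      have b2 := (abs_le.1 (g_abs ‖u m'‖)).1
      have := floor_close (div_nonneg (by linarith) hη.le) (div_nonneg (by linarith) hη.le) h3
      rw [← sub_div, abs_div, abs_of_pos hη, div_le_one hη] at this
      simpa using this

theorem hilbert_count {θ : ℝ} (hθ : 0 < θ) : ∃ C d : ℕ, ∀ {ι κ : Type} (I : Finset ι)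
    (v : ι → H) (S : Finset κ) (u : κ → H),
    (∀ m ∈ S, ∀ m' ∈ S, m ≠ m' → ∃ i ∈ I, θ ≤ |g ‖u m - v i‖ - g ‖u m' - v i‖|) →
    S.card ≤ C * (I.card + 1) ^ d := by
  classical
  set η : ℝ := min (θ / 100) (1 / 100) with hηdef
  have hη : 0 < η := lt_min (by positivity) (by norm_num)
  have hη1 : η ≤ 1 / 100 := min_le_right _ _
  have hη2 : η ≤ θ / 100 := min_le_left _ _
  set K := ⌈1 / η ^ 2⌉₊ with hK
  set J := ⌊2 / η⌋₊ + 1 with hJ
  refine ⟨2 ^ (K + 1) * (K + 1) * J, K + 3, fun I v S u hsep => ?_⟩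
  rcases I.eq_empty_or_nonempty with hI | hI
  · subst hI
    have : S.card ≤ 1 := by
      rw [card_le_one]
      intro a ha b hb
      by_contra hne
      obtain ⟨i, hi, -⟩ := hsep a ha b hb hne
      simp at hi
    refine this.trans ?_
    simp only [card_empty, zero_add, one_pow, mul_one]
    exact Nat.succ_le_of_lt (by positivity)
  have hnear : ∀ m, ∃ i0 ∈ I, ∀ i ∈ I, ‖u m - v i0‖ ≤ ‖u m - v i‖ := fun m =>
    exists_min_image I (fun i => ‖u m - v i‖) hI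
  choose i0 hi0 hmin using hnear
  have hfib := card_le_mul_card_image_of_maps_to (s := S) (t := I) (f := i0) (fun m _ => hi0 m)
    ((2 * I.card + 1) ^ (K + 1) * ((I.card * K + 1) * J)) ?_
  · refine hfib.trans ?_
    have a1 : (2 * I.card + 1) ^ (K + 1) ≤ (2 * (I.card + 1)) ^ (K + 1) :=
      Nat.pow_le_pow_left (by omega) _
    have a2 : I.card * K + 1 ≤ (K + 1) * (I.card + 1) := by nlinarith [Nat.zero_le K, Nat.zero_le I.card]
    calc _ ≤ (2 * (I.card + 1)) ^ (K + 1) * (((K + 1) * (I.card + 1)) * J) * (I.card + 1) := by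
          gcongr
          omega
      _ = _ := by rw [mul_pow]; ring
  · intro b _
    refine base_count hη hη1 I (fun i => v i - v b) _ (fun m => u m - v b) ?_ ?_
    · intro m hm i hi
      have := hmin m i hi
      rw [(mem_filter.1 hm).2] at this
      simpa using this
    · intro m hm m' hm' hne
      obtain ⟨i, hi, h⟩ := hsep m (mem_filter.1 hm).1 m' (mem_filter.1 hm').1 hne
      refine ⟨i, hi, ?_⟩
      simp only [sub_sub_sub_cancel_right]
      linarith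

end Pool.Agent.Lead.NullT
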