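import Pool.Agent.Lead.NullT1

set_option autoImplicit false

namespace Pool.Agent.Lead.NullT

open Finset Real
open scoped RealInnerProductSpace

noncomputable def a (k : ℕ) : ℝ := (Real.exp (2 * π * (k + 1)) - 1) / 2

lemma a_ge (k : ℕ) : 3 * ((k : ℝ) + 1) ≤ a k := by
  have h := Real.add_one_le_exp (2 * π * (k + 1))
  have h2 := Real.pi_gt_three
  have h3 : (0 : ℝ) ≤ k := Nat.cast_nonneg k
  unfold a
  nlinarith

lemma a_pos (k : ℕ) : 0 < a k := by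
  have := a_ge k
  have h3 : (0 : ℝ) ≤ k := Nat.cast_nonneg k
  linarith

lemma a_succ (k : ℕ) : 16 * a k ≤ a (k + 1) := by
  have h1 : 16 ≤ Real.exp (2 * π) := by
    have := Real.add_one_le_exp π
    have h2 := Real.pi_gt_three
    rw [two_mul, Real.exp_add]
    nlinarith
  have h2 : Real.exp (2 * π * (((k + 1 : ℕ) : ℝ) + 1)) =
      Real.exp (2 * π) * Real.exp (2 * π * (k + 1)) := by
    rw [← Real.exp_add]; push_cast; ring_nf
  have h3 := Real.exp_pos (2 * π * (k + 1))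
  unfold a
  rw [h2]
  nlinarith

lemma a_sum (k : ℕ) : ∑ j ∈ range k, a j ^ 2 ≤ a k ^ 2 / 100 := by
  induction k with
  | zero => simp; positivity
  | succ k ih =>
    rw [sum_range_succ]
    have h1 := a_succ k
    have h2 := a_pos k
    nlinarith

lemma g_two_a (k : ℕ) : g (2 * a k) = 1 := by
  have : 1 + 2 * a k = Real.exp (2 * π * (k + 1)) := by unfold a; ring
  unfold g
  rw [this, Real.log_exp]
  have := Real.cos_nat_mul_two_pi (k + 1)
  push_cast at this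
  rw [mul_comm]; exact this

noncomputable def c (k : ℕ) : ℕ := ⌈a k * 2 ^ k⌉₊

noncomputable def P : ℕ → ℕ
  | 0 => 1
  | k + 1 => 12 * (P k * c k)

lemma c_pos (k : ℕ) : 0 < c k := Nat.ceil_pos.2 (by have := a_pos k; positivity)

lemma P_ge (k : ℕ) : k + 1 ≤ P k := by
  induction k with
  | zero => simp [P]
  | succ k ih =>
    have := c_pos k
    simp only [P]
    nlinarith

lemma P_pos (k : ℕ) : 0 < P k := lt_of_lt_of_le (Nat.succ_pos k) (P_ge k)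

lemma P_dvd {j k : ℕ} (h : j ≤ k) : P j ∣ P k := by
  induction k, h using Nat.le_induction with
  | base => exact dvd_rfl
  | succ k _ ih => exact ih.trans ⟨12 * c k, by simp only [P]; ring⟩

lemma P_mono {j k : ℕ} (h : j ≤ k) : P j ≤ P k := Nat.le_of_dvd (P_pos k) (P_dvd h)

noncomputable def E (x : ℝ) : ℂ := Complex.exp (Complex.I * x)

lemma E_sq (x : ℝ) : ‖E x - 1‖ ^ 2 = 2 - 2 * Real.cos x := by
  unfold E
  rw [Complex.norm_exp_I_mul_ofReal_sub_one, Real.norm_eq_abs, sq_abs, mul_pow,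
    Real.sin_sq_eq_half_sub]
  ring_nf

lemma E_add (x y : ℝ) : E (x + y) = E x * E y := by
  unfold E; rw [← Complex.exp_add]; push_cast; ring_nf

lemma E_norm (x : ℝ) : ‖E x‖ = 1 := by
  unfold E; rw [mul_comm]; exact Complex.norm_exp_ofReal_mul_I x

noncomputable def φ (t : ℝ) (k : ℕ) : ℂ := (a k : ℂ) * (E (2 * π * t / P (k + 1)) - 1)

lemma φ_sq (t : ℝ) (k : ℕ) :
    ‖φ t k‖ ^ 2 = a k ^ 2 * (2 - 2 * Real.cos (2 * π * t / P (k + 1))) := by
  unfold φ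
  rw [norm_mul, mul_pow, E_sq, Complex.norm_real, Real.norm_eq_abs, sq_abs]

lemma φ_le (t : ℝ) (k : ℕ) : ‖φ t k‖ ≤ |t| / P k * (1 / 2) ^ k := by
  unfold φ
  rw [norm_mul, Complex.norm_real, Real.norm_eq_abs, abs_of_pos (a_pos k)]
  have h1 : ‖E (2 * π * t / P (k + 1)) - 1‖ ≤ ‖2 * π * t / P (k + 1)‖ :=
    Real.norm_exp_I_mul_ofReal_sub_one_le
  have hP : (0 : ℝ) < P k := by exact_mod_cast P_pos k
  have hc : a k * 2 ^ k ≤ c k := Nat.le_ceil _
  have hc0 : (0 : ℝ) < c k := by exact_mod_cast c_pos k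
  have h2 : ‖2 * π * t / P (k + 1)‖ = 2 * π * |t| / (12 * (P k * c k)) := by
    simp only [P]
    push_cast
    rw [Real.norm_eq_abs, abs_div, abs_mul, abs_of_pos (by positivity : 0 < 2 * π),
      abs_of_pos (by positivity : (0 : ℝ) < 12 * (P k * c k))]
  rw [h2] at h1
  refine (mul_le_mul_of_nonneg_left h1 (a_pos k).le).trans ?_
  have h3 := Real.pi_lt_four
  have h4 := Real.pi_pos
  have h5 := a_pos k
  rw [one_div, inv_pow, ← div_eq_mul_inv, div_div, ← mul_div_assoc,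
    div_le_div_iff₀ (by positivity) (by positivity)]
  have h6 : π * (a k * 2 ^ k) ≤ 4 * c k := mul_le_mul h3.le hc (by positivity) (by norm_num)
  have h7 : 0 ≤ |t| * P k := by positivity
  have := mul_le_mul_of_nonneg_left h6 h7
  nlinarith

lemma φ_mem (t : ℝ) : Memℓp (φ t) 2 := by
  refine memℓp_gen ?_
  simp only [ENNReal.toReal_ofNat, Real.rpow_ofNat]
  refine Summable.of_nonneg_of_le (fun k => by positivity) (fun k => ?_)
    ((summable_geometric_two).mul_left (t ^ 2))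
  have h1 := φ_le t k
  have hP : (1 : ℝ) ≤ P k := by exact_mod_cast P_pos k
  have h2 : |t| / P k ≤ |t| := div_le_self (abs_nonneg t) hP
  have h3 : (1 / 2 : ℝ) ^ k ≤ 1 := pow_le_one₀ (by norm_num) (by norm_num)
  have h4 : (0 : ℝ) < (1 / 2 : ℝ) ^ k := by positivity
  have h5 : ‖φ t k‖ ≤ |t| * (1 / 2) ^ k := h1.trans (mul_le_mul_of_nonneg_right h2 h4.le)
  calc ‖φ t k‖ ^ 2 ≤ (|t| * (1 / 2) ^ k) ^ 2 := pow_le_pow_left₀ (norm_nonneg _) h5 2
    _ = t ^ 2 * ((1 / 2) ^ k * (1 / 2) ^ k) := by rw [mul_pow, sq_abs]; ring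
    _ ≤ t ^ 2 * (1 / 2) ^ k := mul_le_mul_of_nonneg_left (by nlinarith) (sq_nonneg t)

noncomputable abbrev HH := lp (fun _ : ℕ => ℂ) 2

noncomputable def Φ (t : ℝ) : HH := ⟨φ t, φ_mem t⟩

lemma nsq (x : HH) : ‖x‖ ^ 2 = ∑' k, ‖x k‖ ^ 2 := by
  rw [← real_inner_self_eq_norm_sq, lp.inner_eq_tsum]
  simp only [real_inner_self_eq_norm_sq]

lemma nsummable (x : HH) : Summable fun k => ‖x k‖ ^ 2 := by
  have := lp.summable_inner (𝕜 := ℝ) x x
  simpa only [real_inner_self_eq_norm_sq] using this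

noncomputable def ρ (t : ℝ) : ℝ := ‖Φ t‖

lemma ρ_nonneg (t : ℝ) : 0 ≤ ρ t := norm_nonneg _

lemma ρ_add (s t : ℝ) : ρ (s + t) = ‖Φ s - Φ (-t)‖ := by
  unfold ρ
  rw [← sq_eq_sq₀ (norm_nonneg _) (norm_nonneg _), nsq, nsq]
  refine tsum_congr fun k => ?_
  congr 1
  have e1 : (Φ s - Φ (-t)) k = φ s k - φ (-t) k := rfl
  have e2 : (Φ (s + t)) k = φ (s + t) k := rfl
  have e3 : φ s k - φ (-t) k = E (2 * π * (-t) / P (k + 1)) * φ (s + t) k := by
    unfold φ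
    have : E (2 * π * s / P (k + 1)) =
        E (2 * π * (-t) / P (k + 1)) * E (2 * π * (s + t) / P (k + 1)) := by
      rw [← E_add]; congr 1; ring
    rw [this]; ring
  rw [e1, e2, e3, norm_mul, E_norm, one_mul]

lemma Φ_zero : Φ 0 = 0 := by
  ext k
  have e2 : (Φ 0) k = φ 0 k := rfl
  rw [e2]
  simp [φ, E]

lemma ρ_sub_le (s t : ℝ) : |ρ (s + t) - ρ s| ≤ ρ t := by
  have h0 : ρ t = ‖Φ (-t)‖ := by
    have := ρ_add 0 t
    rw [zero_add, Φ_zero, zero_sub, norm_neg] at this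
    exact this
  rw [ρ_add, h0]
  have := abs_norm_sub_norm_le (Φ s - Φ (-t)) (Φ s)
  simpa [ρ] using this

lemma φ_le_ρ (t : ℝ) (k : ℕ) : ‖φ t k‖ ≤ ρ t := lp.norm_apply_le_norm (by norm_num) (Φ t) k

lemma ρ_tail (t : ℝ) (k : ℕ) (ht : |t| ≤ P (k + 1)) :
    ρ t ^ 2 ≤ ∑ j ∈ range (k + 1), ‖φ t j‖ ^ 2 + (1 / 2) ^ k := by
  unfold ρ
  rw [nsq, ← (nsummable (Φ t)).sum_add_tsum_nat_add (k + 1)]
  refine add_le_add le_rfl ?_
  have hs : Summable fun i : ℕ => (1 / 2 : ℝ) ^ (k + 1) * (1 / 2) ^ i :=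
    summable_geometric_two.mul_left _
  have h1 : ∑' i : ℕ, (1 / 2 : ℝ) ^ (k + 1) * (1 / 2) ^ i = (1 / 2) ^ k := by
    rw [tsum_mul_left, tsum_geometric_two]; ring
  rw [← h1]
  refine ((summable_nat_add_iff (k + 1)).2 (nsummable (Φ t))).tsum_le_tsum (fun i => ?_) hs
  have e2 : (Φ t) (i + (k + 1)) = φ t (i + (k + 1)) := rfl
  rw [e2]
  have h2 := φ_le t (i + (k + 1))
  have hP : (0 : ℝ) < P (i + (k + 1)) := by exact_mod_cast P_pos _
  have h3 : (P (k + 1) : ℝ) ≤ P (i + (k + 1)) := by exact_mod_cast P_mono (by omega)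
  have h4 : |t| / P (i + (k + 1)) ≤ 1 := by rw [div_le_one hP]; linarith
  have h5 : (1 / 2 : ℝ) ^ (i + (k + 1)) ≤ 1 := pow_le_one₀ (by norm_num) (by norm_num)
  have h6 : (0 : ℝ) < (1 / 2 : ℝ) ^ (i + (k + 1)) := by positivity
  have h7 : ‖φ t (i + (k + 1))‖ ≤ (1 / 2 : ℝ) ^ (i + (k + 1)) := h2.trans (by nlinarith)
  have h8 : (1 / 2 : ℝ) ^ (k + 1) * (1 / 2) ^ i = (1 / 2 : ℝ) ^ (i + (k + 1)) := by ring
  rw [h8]
  nlinarith [norm_nonneg (φ t (i + (k + 1)))]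

lemma φ_dvd (n j : ℕ) (h : P (j + 1) ∣ n) : ‖φ n j‖ ^ 2 = 0 := by
  obtain ⟨d, rfl⟩ := h
  have hP : (0 : ℝ) < P (j + 1) := by exact_mod_cast P_pos _
  rw [φ_sq]
  have : 2 * π * ((P (j + 1) * d : ℕ) : ℝ) / P (j + 1) = d * (2 * π) := by
    push_cast; field_simp
  rw [this, Real.cos_nat_mul_two_pi]; ring

noncomputable def f (n : ℕ) : ℝ := g (ρ n)

lemma f_abs (n : ℕ) : |f n| ≤ 1 := g_abs _

lemma f_rigid {η : ℝ} (hη : 0 < η) (N : ℕ) : ∃ q ≥ N, ∀ n, |f (n + q) - f n| ≤ η := by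
  obtain ⟨k0, hk0⟩ := exists_pow_lt_of_lt_one (sq_pos_of_pos hη) (show (1 / 2 : ℝ) < 1 by norm_num)
  set k := max k0 N with hk
  refine ⟨P (k + 1), ?_, fun n => ?_⟩
  · have := P_ge (k + 1)
    omega
  have h1 := ρ_tail (P (k + 1) : ℕ) k (by rw [abs_of_nonneg (by positivity)])
  rw [sum_eq_zero (fun j hj => φ_dvd _ j (P_dvd (by simp at hj; omega))), zero_add] at h1
  have h2 : (1 / 2 : ℝ) ^ k ≤ (1 / 2) ^ k0 :=
    pow_le_pow_of_le_one (by norm_num) (by norm_num) (le_max_left _ _)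
  have h3 : ρ (P (k + 1) : ℕ) ≤ η := by
    by_contra hc
    push Not at hc
    nlinarith
  unfold f
  refine (g_lip (ρ_nonneg _) (ρ_nonneg _)).trans ?_
  push_cast
  exact (ρ_sub_le _ _).trans h3

lemma f_window {η : ℝ} (hη : 0 < η) (L : ℕ) : ∃ m, ∀ l < L, |f (m + l) - 1| ≤ η := by
  set B : ℝ := 1 + ∑ l ∈ range L, ρ l with hB
  have hB0 : 0 ≤ ∑ l ∈ range L, ρ l := sum_nonneg fun l _ => ρ_nonneg _
  set θ : ℝ := min (1 / 2) (η / 2) with hθ
  have hθ0 : 0 < θ := lt_min (by norm_num) (by positivity)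
  obtain ⟨k, hk⟩ := exists_nat_ge (B / θ)
  rw [div_le_iff₀ hθ0] at hk
  have ha := a_ge k
  have ha0 := a_pos k
  refine ⟨6 * (P k * c k), fun l hl => ?_⟩
  have hb : (0 : ℝ) < P k * c k := by exact_mod_cast Nat.mul_pos (P_pos k) (c_pos k)
  have e : ‖φ (6 * (P k * c k) : ℕ) k‖ ^ 2 = (2 * a k) ^ 2 := by
    rw [φ_sq]
    have : 2 * π * ((6 * (P k * c k) : ℕ) : ℝ) / P (k + 1) = π := by
      simp only [P]; push_cast
      rw [div_eq_iff (by positivity)]; ring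
    rw [this, Real.cos_pi]; ring
  have h1 := ρ_tail (6 * (P k * c k) : ℕ) k (by
    rw [abs_of_nonneg (by positivity)]; simp only [P]; push_cast; linarith)
  rw [sum_range_succ, sum_eq_zero (fun j hj => φ_dvd _ j
    ((P_dvd (k := k) (by simp at hj; omega)).trans ⟨6 * c k, by ring⟩)), zero_add, e] at h1
  have h2 : (1 / 2 : ℝ) ^ k ≤ 1 := pow_le_one₀ (by norm_num) (by norm_num)
  have h3 := φ_le_ρ (6 * (P k * c k) : ℕ) k
  rw [(sq_eq_sq₀ (norm_nonneg _) (by positivity)).1 e] at h3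
  have h4 : ρ (6 * (P k * c k) : ℕ) ≤ 2 * a k + 1 := by
    by_contra hc
    push Not at hc
    nlinarith
  have h5 := abs_le.1 (ρ_sub_le (6 * (P k * c k) : ℕ) l)
  have h6 : ρ l ≤ ∑ l ∈ range L, ρ l :=
    single_le_sum (f := fun l : ℕ => ρ l) (fun l _ => ρ_nonneg _) (mem_range.2 hl)
  have h7 : |2 * a k - ρ ((6 * (P k * c k) + l : ℕ))| ≤ θ * (2 * a k) := by
    have h8 : B ≤ θ * (2 * a k) := by nlinarith
    rw [Nat.cast_add, abs_le]; constructor <;> linarith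
  have h9 := g_rel (by positivity) hθ0.le (min_le_left _ _) h7
  rw [g_two_a, abs_sub_comm] at h9
  have : θ ≤ η / 2 := min_le_right _ _
  unfold f
  linarith

lemma f_away : ∃ ε : ℝ, 0 < ε ∧ ∀ N : ℕ, ∃ b ≥ N, ∀ n, 2 * b ≤ n → n ≤ 3 * b → f n ≤ 1 - ε := by
  have hl0 : 0 < Real.log (10 / 9) := Real.log_pos (by norm_num)
  have hl2 : Real.log 2 ≤ π := by
    have := Real.log_le_sub_one_of_pos (show (0 : ℝ) < 2 by norm_num)
    have := Real.pi_gt_three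
    linarith
  have hl1 : Real.log (10 / 9) ≤ π := (Real.log_le_log (by norm_num) (by norm_num)).trans hl2
  refine ⟨1 - Real.cos (Real.log (10 / 9)), ?_, fun k => ⟨P k * c k, ?_, fun n h1 h2 => ?_⟩⟩
  · have := Real.cos_lt_cos_of_nonneg_of_le_pi le_rfl hl1 hl0
    rw [Real.cos_zero] at this
    linarith
  · have := P_ge k
    have := c_pos k
    nlinarith
  have ha := a_ge k
  have hk0 : (0 : ℝ) ≤ k := Nat.cast_nonneg k
  have ha0 := a_pos k
  have hb : (0 : ℝ) < P k * c k := by exact_mod_cast Nat.mul_pos (P_pos k) (c_pos k)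
  have h1' : 2 * ((P k : ℝ) * c k) ≤ n := by exact_mod_cast h1
  have h2' : (n : ℝ) ≤ 3 * ((P k : ℝ) * c k) := by exact_mod_cast h2
  have hpi := Real.pi_pos
  have hP : (P (k + 1) : ℝ) = 12 * (P k * c k) := by simp only [P]; push_cast; ring
  have t1 : π / 3 ≤ 2 * π * n / P (k + 1) := by
    rw [hP, le_div_iff₀ (by positivity)]; nlinarith
  have t2 : 2 * π * n / P (k + 1) ≤ π / 2 := by
    rw [hP, div_le_iff₀ (by positivity)]; nlinarith
  have c1 : Real.cos (2 * π * n / P (k + 1)) ≤ 1 / 2 := by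
    rw [← Real.cos_pi_div_three]
    exact Real.cos_le_cos_of_nonneg_of_le_pi (by positivity) (by linarith) t1
  have c2 : 0 ≤ Real.cos (2 * π * n / P (k + 1)) :=
    Real.cos_nonneg_of_neg_pi_div_two_le_of_le (by linarith) t2
  have e := φ_sq n k
  have h3 := ρ_tail n k (by rw [abs_of_nonneg (by positivity), hP]; linarith)
  have h4 : ∑ j ∈ range k, ‖φ n j‖ ^ 2 ≤ ∑ j ∈ range k, 4 * a j ^ 2 := by
    refine sum_le_sum fun j _ => ?_
    rw [φ_sq]
    nlinarith [Real.neg_one_le_cos (2 * π * n / P (j + 1)), sq_nonneg (a j)]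
  rw [← mul_sum] at h4
  have h5 := a_sum k
  rw [sum_range_succ] at h3
  have h6 : (1 / 2 : ℝ) ^ k ≤ 1 := pow_le_one₀ (by norm_num) (by norm_num)
  have h7 := φ_le_ρ n k
  have hρ := ρ_nonneg n
  have u1 : a k ≤ ρ n := by
    have : a k ^ 2 ≤ ‖φ n k‖ ^ 2 := by rw [e]; nlinarith [sq_nonneg (a k)]
    exact (abs_le_of_sq_le_sq' this (norm_nonneg _)).2.trans h7
  have u2 : ρ n ≤ 1.6 * a k := by
    have : ρ n ^ 2 ≤ (1.6 * a k) ^ 2 := by nlinarith [sq_nonneg (a k)]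
    exact (abs_le_of_sq_le_sq' this (by positivity)).2
  have e2 : 1 + 2 * a k = Real.exp (2 * π * (k + 1)) := by unfold a; ring
  have e3 : f n = Real.cos (Real.log ((1 + 2 * a k) / (1 + ρ n))) := by
    rw [Real.log_div (by positivity) (by positivity), e2, Real.log_exp]
    have := Real.cos_nat_mul_two_pi_sub (Real.log (1 + ρ n)) (k + 1)
    push_cast at this
    unfold f g
    rw [← this]; ring_nf
  rw [e3, sub_sub_cancel]
  refine Real.cos_le_cos_of_nonneg_of_le_pi hl0.le (le_trans ?_ hl2) ?_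
  · refine Real.log_le_log (by positivity) ?_
    rw [div_le_iff₀ (by positivity)]; linarith
  · refine Real.log_le_log (by positivity) ?_
    rw [le_div_iff₀ (by positivity)]; linarith

lemma f_count {θ : ℝ} (hθ : 0 < θ) : ∃ C d : ℕ, ∀ I S : Finset ℕ,
    (∀ m ∈ S, ∀ m' ∈ S, m ≠ m' → ∃ i ∈ I, θ ≤ |f (m + i) - f (m' + i)|) →
    S.card ≤ C * (I.card + 1) ^ d := by
  obtain ⟨C, d, h⟩ := hilbert_count (H := HH) hθ
  refine ⟨C, d, fun I S hs => h I (fun i => Φ (-(i : ℝ))) S (fun m => Φ (m : ℝ)) ?_⟩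
  intro m hm m' hm' hne
  obtain ⟨i, hi, h⟩ := hs m hm m' hm' hne
  refine ⟨i, hi, ?_⟩
  unfold f at h
  push_cast at h
  rwa [ρ_add, ρ_add] at h

end Pool.Agent.Lead.NullT
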