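import Mathlib

set_option autoImplicit false

open Module Submodule Finset

namespace Pool.Agent.Lead.Par

/-- first-order perturbation lemma -/
theorem pert {ι W : Type} [Fintype ι] [NormedAddCommGroup W] [NormedSpace ℝ W]
    [FiniteDimensional ℝ W] (R B : ι → W)
    (h : ∀ t : ℝ, finrank ℝ (span ℝ (Set.range (fun e => R e + t • B e))) ≤
      finrank ℝ (span ℝ (Set.range R)))
    (ω : ι → ℝ) (hω : ∑ e, ω e • R e = 0) : ∑ e, ω e • B e ∈ span ℝ (Set.range R) := by
  classical
  by_contra hb
  obtain ⟨κ, a, ha, hsp, hli⟩ := exists_linearIndependent' ℝ R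
  have : Finite κ := Finite.of_injective a ha
  have : Fintype κ := Fintype.ofFinite κ
  set b := ∑ e, ω e • B e with hbdef
  let f : ℝ → Option κ → W := fun t o => Option.casesOn' o b (fun k => R (a k) + t • B (a k))
  have hf0 : LinearIndependent ℝ (f 0) := by
    have : f 0 = fun o => Option.casesOn' o b (R ∘ a) := by
      funext o; cases o <;> simp [f]
    rw [this, linearIndependent_option']
    exact ⟨hli, by rwa [hsp]⟩
  have hc : Continuous f := by
    refine continuous_pi fun o => ?_
    cases o with
    | none => exact continuous_const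
    | some k => simp only [f, Option.casesOn'_some]; fun_prop
  have hev : ∀ᶠ t in nhds (0:ℝ), LinearIndependent ℝ (f t) :=
    hc.continuousAt.eventually (isOpen_setOfPred_linearIndependent.mem_nhds hf0)
  have hev2 : ∀ᶠ t in nhdsWithin (0:ℝ) {0}ᶜ, LinearIndependent ℝ (f t) ∧ t ≠ 0 :=
    (hev.filter_mono nhdsWithin_le_nhds).and self_mem_nhdsWithin
  obtain ⟨t, hlt, ht0⟩ := hev2.exists
  have h1 := finrank_span_eq_card hlt
  have h2 := finrank_span_eq_card hli
  rw [hsp] at h2
  have hle : span ℝ (Set.range (f t)) ≤ span ℝ (Set.range (fun e => R e + t • B e)) := by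
    rw [span_le]
    rintro _ ⟨o, rfl⟩
    cases o with
    | none =>
      have : f t none = ∑ e, (t⁻¹ * ω e) • (R e + t • B e) := by
        simp only [f, Option.casesOn'_none, smul_add, Finset.sum_add_distrib, mul_smul]
        rw [← Finset.smul_sum, hω, smul_zero, zero_add, hbdef]
        refine Finset.sum_congr rfl fun e _ => ?_
        rw [smul_smul, smul_smul]
        congr 1; field_simp
      rw [this]
      exact sum_mem fun e _ => smul_mem _ _ (subset_span ⟨e, rfl⟩)
    | some k => exact subset_span ⟨a k, rfl⟩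
  have h3 := Submodule.finrank_mono hle
  have h4 := h t
  rw [h1, Fintype.card_option] at h3
  omega

/-- genericity certificate -/
theorem gen_cert {σ ι γ : Type} [Fintype ι] [Fintype γ] (P : ι → γ → MvPolynomial σ ℚ)
    (a' : σ → ℝ) : ∃ G : MvPolynomial σ ℚ, MvPolynomial.aeval a' G ≠ 0 ∧
      ∀ a : σ → ℝ, MvPolynomial.aeval a G ≠ 0 →
        finrank ℝ (span ℝ (Set.range (fun e c => MvPolynomial.aeval a' (P e c)))) ≤
        finrank ℝ (span ℝ (Set.range (fun e c => MvPolynomial.aeval a (P e c)))) := by
  classical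
  obtain ⟨κ, s, hs, hsp, hli⟩ :=
    exists_linearIndependent' ℝ (fun e c => MvPolynomial.aeval a' (P e c) : ι → γ → ℝ)
  have : Finite κ := Finite.of_injective s hs
  have : Fintype κ := Fintype.ofFinite κ
  let Q : Matrix κ γ (MvPolynomial σ ℚ) := fun k c => P (s k) c
  have key : ∀ a : σ → ℝ, MvPolynomial.aeval a (Q * Q.transpose).det =
      ((Q.map (MvPolynomial.aeval a)) * (Q.map (MvPolynomial.aeval a)).transpose).det := by
    intro a
    rw [AlgHom.map_det]
    congr 1
    ext i j
    simp [Matrix.mul_apply]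
  refine ⟨(Q * Q.transpose).det, ?_, ?_⟩
  · rw [key]
    set M : Matrix κ γ ℝ := Q.map (MvPolynomial.aeval a') with hM
    have h1 : M.rank = Fintype.card κ := by
      rw [Matrix.rank_eq_finrank_span_row]
      exact finrank_span_eq_card hli
    have h2 : (M * M.transpose).rank = Fintype.card κ := by
      rw [Matrix.rank_self_mul_transpose, h1]
    rw [Matrix.rank_eq_finrank_span_row] at h2
    have h3 : LinearIndependent ℝ (M * M.transpose).row :=
      linearIndependent_iff_card_eq_finrank_span.2 h2.symm
    have h4 := Matrix.linearIndependent_rows_iff_isUnit.1 h3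
    exact ((Matrix.isUnit_iff_isUnit_det _).1 h4).ne_zero
  · intro a ha
    rw [key] at ha
    set M : Matrix κ γ ℝ := Q.map (MvPolynomial.aeval a) with hM
    have h4 : IsUnit (M * M.transpose) := (Matrix.isUnit_iff_isUnit_det _).2 (Ne.isUnit ha)
    have h2 := Matrix.rank_of_isUnit _ h4
    rw [Matrix.rank_self_mul_transpose, Matrix.rank_eq_finrank_span_row] at h2
    rw [← hsp, finrank_span_eq_card hli, ← h2]
    apply Submodule.finrank_mono
    apply span_mono
    rintro _ ⟨k, rfl⟩
    exact ⟨s k, rfl⟩

end Pool.Agent.Lead.Par
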