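import Mathlib
import Pool.Agent.Lead.Par1

set_option autoImplicit false
set_option linter.unusedSectionVars false

open Module Submodule Finset

namespace Pool.Agent.Lead.Par

variable {V F C : Type} [Fintype V] [Fintype F] [Fintype C]
  [DecidableEq V] [DecidableEq F] [DecidableEq C]

def row (N : F → C → ℝ) (e : V × F) : F ⊕ (V × C) → ℝ :=
  Sum.elim (fun j => if j = e.2 then 1 else 0) (fun q => if q.1 = e.1 then N e.2 q.2 else 0)

noncomputable def mrow (N : F → C → ℝ) (J : Finset (V × F)) (e : V × F) : F ⊕ (V × C) → ℝ :=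
  if e ∈ J then row N e else 0

noncomputable def rk (N : F → C → ℝ) (J : Finset (V × F)) : ℕ :=
  finrank ℝ (span ℝ (Set.range (mrow N J)))

theorem span_mrow (N : F → C → ℝ) (J : Finset (V × F)) :
    span ℝ (Set.range (mrow N J)) = span ℝ (row N '' (J : Set (V × F))) := by
  apply le_antisymm
  · rw [span_le]; rintro _ ⟨e, rfl⟩
    unfold mrow
    split_ifs with h
    · exact subset_span ⟨e, h, rfl⟩
    · exact zero_mem _
  · apply span_mono
    rintro _ ⟨e, he, rfl⟩
    exact ⟨e, by simp [mrow, Finset.mem_coe.1 he]⟩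

theorem row_dot (N : F → C → ℝ) (e : V × F) (x : F ⊕ (V × C) → ℝ) :
    row N e ⬝ᵥ x = x (Sum.inl e.2) + ∑ c, N e.2 c * x (Sum.inr (e.1, c)) := by
  simp only [dotProduct, row, Fintype.sum_sum_type, Sum.elim_inl, Sum.elim_inr,
    Fintype.sum_prod_type, ite_mul, one_mul, zero_mul]
  congr 1
  · simp
  · rw [Finset.sum_eq_single e.1] <;> simp +contextual

def Stress (N : F → C → ℝ) (ω : V × F → ℝ) : Prop :=
  (∀ j, ∑ i, ω (i, j) = 0) ∧ ∀ i c, ∑ j, ω (i, j) * N j c = 0

theorem stress_iff (N : F → C → ℝ) (ω : V × F → ℝ) :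
    Stress N ω ↔ ∑ e, ω e • row N e = 0 := by
  have h1 : ∀ j, (∑ e, ω e • row N e) (Sum.inl j) = ∑ i, ω (i, j) := by
    intro j
    simp [Finset.sum_apply, row, Fintype.sum_prod_type]
  have h2 : ∀ i c, (∑ e, ω e • row N e) (Sum.inr (i, c)) = ∑ j, ω (i, j) * N j c := by
    intro i c
    simp only [Finset.sum_apply, row, Fintype.sum_prod_type, Pi.smul_apply, Sum.elim_inr,
      smul_eq_mul, mul_ite, mul_zero]
    rw [Finset.sum_eq_single i]
    · simp
    · intro b _ hb; simp [Ne.symm hb]
    · simp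
  constructor
  · rintro ⟨a, b⟩
    funext q
    rcases q with j | ⟨i, c⟩
    · rw [h1, a]; rfl
    · rw [h2, b]; rfl
  · intro h
    exact ⟨fun j => by rw [← h1, h]; rfl, fun i c => by rw [← h2, h]; rfl⟩

def Gen (V : Type) [Fintype V] [DecidableEq V] (N : F → C → ℝ) (c0 : C) : Prop :=
  (∀ j, N j c0 = 1) ∧ ∀ (J : Finset (V × F)) (N' : F → C → ℝ), (∀ j, N' j c0 = 1) →
    rk N' J ≤ rk N J

def Motion (N : F → C → ℝ) (J : Finset (V × F)) (x : F ⊕ (V × C) → ℝ) : Prop :=
  ∀ e ∈ J, row N e ⬝ᵥ x = 0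

theorem dot_span {N : F → C → ℝ} {J : Finset (V × F)} {x : F ⊕ (V × C) → ℝ}
    (hx : Motion N J x) {y : F ⊕ (V × C) → ℝ} (hy : y ∈ span ℝ (Set.range (mrow N J))) :
    y ⬝ᵥ x = 0 := by
  induction hy using Submodule.span_induction with
  | mem y hy =>
    obtain ⟨e, rfl⟩ := hy
    unfold mrow; split_ifs with h
    · exact hx e h
    · simp
  | zero => simp
  | add a b _ _ ha hb => rw [add_dotProduct, ha, hb, add_zero]
  | smul r a _ ha => rw [smul_dotProduct, ha, smul_zero]

theorem orth1 {N : F → C → ℝ} {c0 : C} (hG : Gen V N c0) {J : Finset (V × F)}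
    {ω : V × F → ℝ} (hs : ∀ e, e ∉ J → ω e = 0) (hω : Stress N ω)
    {x : F ⊕ (V × C) → ℝ} (hx : Motion N J x) (j : F) (c : C) (hc : c ≠ c0) :
    ∑ i, ω (i, j) * x (Sum.inr (i, c)) = 0 := by
  let B : V × F → F ⊕ (V × C) → ℝ := fun e => if e ∈ J then
    Sum.elim (fun _ => 0) (fun q => if q.1 = e.1 then (if e.2 = j ∧ q.2 = c then 1 else 0) else 0)
    else 0
  have h := pert (mrow N J) B (fun t => by
    have := hG.2 J (fun j' c' => N j' c' + t * (if j' = j ∧ c' = c then 1 else 0))
      (fun j' => by simp [hG.1, Ne.symm hc])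
    unfold rk at this
    suffices hh : (fun e => mrow N J e + t • B e) =
        mrow (fun j' c' => N j' c' + t * (if j' = j ∧ c' = c then 1 else 0)) J by
      rw [hh]; exact this
    funext e
    simp only [mrow, B]
    split_ifs with he
    · funext q
      rcases q with j' | ⟨i, c'⟩
      · simp [row]
      · simp only [row, Pi.add_apply, Sum.elim_inr, Pi.smul_apply, smul_eq_mul]
        split_ifs <;> simp
    · simp) ω (by
      rw [← (stress_iff N ω).1 hω]
      refine Finset.sum_congr rfl fun e _ => ?_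
      unfold mrow; split_ifs with he
      · rfl
      · simp [hs e he])
  have h2 := dot_span hx h
  rw [← h2, sum_dotProduct, Fintype.sum_prod_type]
  refine Finset.sum_congr rfl fun i _ => ?_
  rw [Finset.sum_eq_single j]
  · by_cases he : (i, j) ∈ J
    · simp only [B, he, if_true, smul_dotProduct, smul_eq_mul]
      congr 1
      simp only [dotProduct, Fintype.sum_sum_type, Sum.elim_inl, Sum.elim_inr,
        Fintype.sum_prod_type, ite_mul, one_mul, zero_mul, true_and]
      rw [Finset.sum_eq_single i] <;> simp +contextual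
    · simp [hs _ he]
  · intro b _ hb
    by_cases he : (i, b) ∈ J
    · simp [B, he, hb, dotProduct]
    · simp [hs _ he]
  · simp

theorem orth {N : F → C → ℝ} {c0 : C} (hG : Gen V N c0) {J : Finset (V × F)}
    {ω : V × F → ℝ} (hs : ∀ e, e ∉ J → ω e = 0) (hω : Stress N ω)
    {x : F ⊕ (V × C) → ℝ} (hx : Motion N J x) (j : F) (c : C) :
    ∑ i, ω (i, j) * x (Sum.inr (i, c)) = 0 := by
  by_cases hc : c = c0
  · subst hc
    have h1 : ∀ i, ω (i, j) * x (Sum.inr (i, c)) = - (ω (i, j) * x (Sum.inl j)) -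
        ∑ c' ∈ univ.erase c, N j c' * (ω (i, j) * x (Sum.inr (i, c'))) := by
      intro i
      by_cases he : (i, j) ∈ J
      · have := hx _ he
        rw [row_dot, ← Finset.add_sum_erase _ _ (Finset.mem_univ c), hG.1] at this
        simp only at this
        have h3 : ∑ c' ∈ univ.erase c, N j c' * (ω (i, j) * x (Sum.inr (i, c'))) =
            ω (i, j) * ∑ c' ∈ univ.erase c, N j c' * x (Sum.inr (i, c')) := by
          rw [Finset.mul_sum]; exact Finset.sum_congr rfl fun _ _ => by ring
        rw [h3]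
        linear_combination ω (i, j) * this
      · simp [hs _ he]
    simp_rw [h1]
    rw [Finset.sum_sub_distrib, Finset.sum_neg_distrib, ← Finset.sum_mul, hω.1, Finset.sum_comm]
    simp only [zero_mul, neg_zero, zero_sub, neg_eq_zero]
    refine Finset.sum_eq_zero fun c' hc' => ?_
    rw [← Finset.mul_sum, orth1 hG hs hω hx j c' (Finset.ne_of_mem_erase hc'), mul_zero]
  · exact orth1 hG hs hω hx j c hc

theorem stress_mul {N : F → C → ℝ} {c0 : C} (hG : Gen V N c0) {J : Finset (V × F)}
    {ω : V × F → ℝ} (hs : ∀ e, e ∉ J → ω e = 0) (hω : Stress N ω)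
    {x : F ⊕ (V × C) → ℝ} (hx : Motion N J x) (c : C) (T : Finset ℝ) :
    Stress N (fun e => ω e * ∏ s ∈ T, (x (Sum.inr (e.1, c)) - s)) := by
  classical
  induction T using Finset.induction_on with
  | empty => simpa using hω
  | insert s T hsT ih =>
    have ho := orth hG (J := J) (ω := fun e => ω e * ∏ s ∈ T, (x (Sum.inr (e.1, c)) - s))
      (fun e he => by simp [hs e he]) ih hx
    constructor
    · intro j
      have h1 := ho j c
      have h2 := ih.1 j
      simp only [Finset.prod_insert hsT] at h1 h2 ⊢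
      have : ∀ i, ω (i, j) * ((x (Sum.inr (i, c)) - s) * ∏ s ∈ T, (x (Sum.inr (i, c)) - s)) =
          ω (i, j) * (∏ s ∈ T, (x (Sum.inr (i, c)) - s)) * x (Sum.inr (i, c)) -
          s * (ω (i, j) * ∏ s ∈ T, (x (Sum.inr (i, c)) - s)) := fun i => by ring
      simp_rw [this]
      rw [Finset.sum_sub_distrib, h1, ← Finset.mul_sum, h2]; simp
    · intro i c'
      have h2 := ih.2 i c'
      simp only [Finset.prod_insert hsT] at h2 ⊢
      have : ∀ j, ω (i, j) * ((x (Sum.inr (i, c)) - s) * ∏ s ∈ T, (x (Sum.inr (i, c)) - s)) *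
          N j c' = (x (Sum.inr (i, c)) - s) *
          (ω (i, j) * (∏ s ∈ T, (x (Sum.inr (i, c)) - s)) * N j c') := fun j => by ring
      simp_rw [this]
      rw [← Finset.mul_sum, h2, mul_zero]

theorem stress_restrict {N : F → C → ℝ} {c0 : C} (hG : Gen V N c0) {J : Finset (V × F)}
    {ω : V × F → ℝ} (hs : ∀ e, e ∉ J → ω e = 0) (hω : Stress N ω)
    {x : F ⊕ (V × C) → ℝ} (hx : Motion N J x) (c : C) (s : ℝ) :
    ∑ e, (if x (Sum.inr (e.1, c)) = s then ω e else 0) • row N e = 0 := by
  classical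
  let T : Finset ℝ := (univ.image (fun i : V => x (Sum.inr (i, c)))).erase s
  have h := (stress_iff _ _).1 (stress_mul hG hs hω hx c T)
  have hk : (∏ s' ∈ T, (s - s')) ≠ 0 :=
    Finset.prod_ne_zero_iff.2 fun s' hs' => sub_ne_zero.2 (Finset.ne_of_mem_erase hs').symm
  have : ∑ e, (ω e * ∏ s ∈ T, (x (Sum.inr (e.1, c)) - s)) • row N e =
      (∏ s' ∈ T, (s - s')) • ∑ e, (if x (Sum.inr (e.1, c)) = s then ω e else 0) • row N e := by
    rw [Finset.smul_sum]
    refine Finset.sum_congr rfl fun e _ => ?_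
    rw [smul_smul]
    congr 1
    split_ifs with he
    · rw [he, mul_comm]
    · rw [mul_zero]
      refine mul_eq_zero_of_right _ (Finset.prod_eq_zero (i := x (Sum.inr (e.1, c))) ?_ (sub_self _))
      exact Finset.mem_erase.2 ⟨he, Finset.mem_image.2 ⟨e.1, Finset.mem_univ _, rfl⟩⟩
  rw [this] at h
  exact (smul_eq_zero.1 h).resolve_left hk

open Classical in
theorem split {N : F → C → ℝ} {c0 : C} (hG : Gen V N c0) {J : Finset (V × F)}
    {x : F ⊕ (V × C) → ℝ} (hx : Motion N J x) (c : C) (s : ℝ) :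
    rk N (J.filter fun e => x (Sum.inr (e.1, c)) = s) +
      rk N (J.filter fun e => ¬ x (Sum.inr (e.1, c)) = s) ≤ rk N J := by
  set J1 := J.filter fun e => x (Sum.inr (e.1, c)) = s with hJ1
  set J2 := J.filter fun e => ¬ x (Sum.inr (e.1, c)) = s with hJ2
  unfold rk
  rw [← Submodule.finrank_sup_add_finrank_inf_eq]
  have hinf : span ℝ (Set.range (mrow N J1)) ⊓ span ℝ (Set.range (mrow N J2)) = ⊥ := by
    rw [eq_bot_iff]
    rintro y ⟨h1, h2⟩
    obtain ⟨α, hα⟩ := (Submodule.mem_span_range_iff_exists_fun ℝ).1 h1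
    obtain ⟨β, hβ⟩ := (Submodule.mem_span_range_iff_exists_fun ℝ).1 h2
    let ω : V × F → ℝ := fun e => (if e ∈ J1 then α e else 0) - (if e ∈ J2 then β e else 0)
    have hα' : ∑ e, (if e ∈ J1 then α e else 0) • row N e = y := by
      rw [← hα]; refine Finset.sum_congr rfl fun e _ => ?_
      unfold mrow; split_ifs <;> simp
    have hβ' : ∑ e, (if e ∈ J2 then β e else 0) • row N e = y := by
      rw [← hβ]; refine Finset.sum_congr rfl fun e _ => ?_
      unfold mrow; split_ifs <;> simp
    have hω : Stress N ω := by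
      rw [stress_iff]
      simp only [ω, sub_smul, Finset.sum_sub_distrib, hα', hβ', sub_self]
    have hs : ∀ e, e ∉ J → ω e = 0 := fun e he => by
      simp [ω, hJ1, hJ2, he]
    have := stress_restrict hG hs hω hx c s
    rw [Submodule.mem_bot, ← hα', ← this]
    refine Finset.sum_congr rfl fun e _ => ?_
    congr 1
    by_cases he : x (Sum.inr (e.1, c)) = s <;> simp [ω, hJ1, hJ2, he]
  rw [hinf, finrank_bot, add_zero]
  apply Submodule.finrank_mono
  rw [span_mrow, span_mrow, span_mrow]
  refine sup_le (span_mono (Set.image_mono ?_)) (span_mono (Set.image_mono ?_))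
  · exact Finset.coe_subset.2 (Finset.filter_subset _ _)
  · exact Finset.coe_subset.2 (Finset.filter_subset _ _)

theorem rk_add_ker (N : F → C → ℝ) (J : Finset (V × F)) :
    rk N J + finrank ℝ (LinearMap.ker (Matrix.mulVecLin (Matrix.of (mrow N J)))) =
      Fintype.card F + Fintype.card V * Fintype.card C := by
  have h1 := LinearMap.finrank_range_add_finrank_ker (Matrix.mulVecLin (Matrix.of (mrow N J)))
  have h2 := Matrix.rank_eq_finrank_span_row (Matrix.of (mrow N J))
  unfold Matrix.rank at h2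
  rw [h2] at h1
  rw [Module.finrank_fintype_fun_eq_card, Fintype.card_sum, Fintype.card_prod] at h1
  exact h1

theorem mem_ker_iff (N : F → C → ℝ) (J : Finset (V × F)) (x : F ⊕ (V × C) → ℝ) :
    x ∈ LinearMap.ker (Matrix.mulVecLin (Matrix.of (mrow N J))) ↔ Motion N J x := by
  rw [LinearMap.mem_ker, Matrix.mulVecLin_apply]
  constructor
  · intro h e he
    have := congrFun h e
    simpa [Matrix.mulVec, mrow, he] using this
  · intro h
    funext e
    by_cases he : e ∈ J
    · simpa [Matrix.mulVec, mrow, he] using h e he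
    · simp [Matrix.mulVec, mrow, he]

open Classical in
/-- faces meeting `U` -/
noncomputable def FU (I : Finset (V × F)) (U : Finset V) : Finset F :=
  univ.filter fun j => ∃ i ∈ U, (i, j) ∈ I

open Classical in
noncomputable def Fint (I : Finset (V × F)) (U : Finset V) : Finset F :=
  univ.filter fun j => (∃ i ∈ U, (i, j) ∈ I) ∧ ∀ i, (i, j) ∈ I → i ∈ U

open Classical in
noncomputable def Nb (I : Finset (V × F)) (U : Finset V) : Finset F :=
  univ.filter fun j => (∃ i ∈ U, (i, j) ∈ I) ∧ ∃ i, (i, j) ∈ I ∧ i ∉ U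

theorem card_FU (I : Finset (V × F)) (U : Finset V) :
    (FU I U).card = (Fint I U).card + (Nb I U).card := by
  classical
  unfold FU Fint Nb
  simp only [Finset.card_filter]
  rw [← Finset.sum_add_distrib]
  refine Finset.sum_congr rfl fun j _ => ?_
  by_cases h1 : ∃ i ∈ U, (i, j) ∈ I <;> by_cases h2 : ∀ i, (i, j) ∈ I → i ∈ U
  · have : ¬ ∃ i, (i, j) ∈ I ∧ i ∉ U := by push Not; exact h2
    simp only [h1, this, true_and, if_true, if_false, if_pos h2]
  · have : ∃ i, (i, j) ∈ I ∧ i ∉ U := by push Not at h2; exact h2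
    simp only [h1, this, true_and, if_true, if_neg h2]
  · simp only [h1, false_and, if_false]
  · simp only [h1, false_and, if_false]

theorem subadd (I : Finset (V × F)) (U : Finset V) (p : V → Prop) [DecidablePred p] :
    (FU I U).card + (Fint I U).card ≤
      ((FU I (U.filter p)).card + (Fint I (U.filter p)).card) +
      ((FU I (U.filter fun i => ¬ p i)).card + (Fint I (U.filter fun i => ¬ p i)).card) := by
  classical
  unfold FU Fint
  simp only [Finset.card_filter]
  simp only [← Finset.sum_add_distrib]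
  refine Finset.sum_le_sum fun j _ => ?_
  by_cases h1 : ∃ i ∈ U.filter p, (i, j) ∈ I <;>
    by_cases h2 : ∃ i ∈ U.filter (fun i => ¬ p i), (i, j) ∈ I
  · simp only [h1, h2, true_and, if_true]; split_ifs <;> omega
  · simp only [h1, h2, true_and, if_true, false_and, if_false]
    have : ((∃ i ∈ U, (i, j) ∈ I) ∧ ∀ i, (i, j) ∈ I → i ∈ U) →
        ∀ i, (i, j) ∈ I → i ∈ U.filter p := by
      rintro ⟨_, h⟩ i hi
      by_contra hc
      apply h2
      refine ⟨i, Finset.mem_filter.2 ⟨h i hi, fun hp => hc (Finset.mem_filter.2 ⟨h i hi, hp⟩)⟩, hi⟩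
    by_cases h3 : ((∃ i ∈ U, (i, j) ∈ I) ∧ ∀ i, (i, j) ∈ I → i ∈ U)
    · rw [if_pos h3, if_pos (this h3)]; split_ifs <;> omega
    · rw [if_neg h3]; split_ifs <;> omega
  · simp only [h1, h2, true_and, if_true, false_and, if_false]
    have : ((∃ i ∈ U, (i, j) ∈ I) ∧ ∀ i, (i, j) ∈ I → i ∈ U) →
        ∀ i, (i, j) ∈ I → i ∈ U.filter (fun i => ¬ p i) := by
      rintro ⟨_, h⟩ i hi
      by_contra hc
      apply h1
      refine ⟨i, Finset.mem_filter.2 ⟨h i hi, ?_⟩, hi⟩
      by_contra hp
      exact hc (Finset.mem_filter.2 ⟨h i hi, hp⟩)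
    by_cases h3 : ((∃ i ∈ U, (i, j) ∈ I) ∧ ∀ i, (i, j) ∈ I → i ∈ U)
    · rw [if_pos h3, if_pos (this h3)]; split_ifs <;> omega
    · rw [if_neg h3]; split_ifs <;> omega
  · have : ¬ ∃ i ∈ U, (i, j) ∈ I := by
      rintro ⟨i, hi, hij⟩
      by_cases hp : p i
      · exact h1 ⟨i, Finset.mem_filter.2 ⟨hi, hp⟩, hij⟩
      · exact h2 ⟨i, Finset.mem_filter.2 ⟨hi, hp⟩, hij⟩
    simp only [this, false_and, if_false]; omega

theorem base (N : F → C → ℝ) (I : Finset (V × F)) (U : Finset V) (i0 : V) (hi0 : i0 ∈ U)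
    (hc : ∀ x, Motion N (I.filter fun e => e.1 ∈ U) x → ∀ i ∈ U, ∀ i' ∈ U, ∀ c,
      x (Sum.inr (i, c)) = x (Sum.inr (i', c))) :
    U.card * Fintype.card C + (FU I U).card ≤
      rk N (I.filter fun e => e.1 ∈ U) + Fintype.card C := by
  classical
  set J := I.filter fun e => e.1 ∈ U with hJ
  let g : C ⊕ ((Uᶜ : Finset V) × C) ⊕ ((FU I U)ᶜ : Finset F) → F ⊕ (V × C) :=
    Sum.elim (fun c => Sum.inr (i0, c))
      (Sum.elim (fun q => Sum.inr (q.1.1, q.2)) (fun j => Sum.inl j.1))
  let φ := (LinearMap.funLeft ℝ ℝ g) ∘ₗ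
    (LinearMap.ker (Matrix.mulVecLin (Matrix.of (mrow N J)))).subtype
  have hφ : Function.Injective φ := by
    rw [injective_iff_map_eq_zero]
    rintro ⟨x, hx⟩ h0
    have hm := (mem_ker_iff N J x).1 hx
    have hg : ∀ q, x (g q) = 0 := fun q => congrFun h0 q
    have hV : ∀ i c, x (Sum.inr (i, c)) = 0 := by
      intro i c
      by_cases hi : i ∈ U
      · rw [hc x hm i hi i0 hi0 c]; exact hg (Sum.inl c)
      · exact hg (Sum.inr (Sum.inl (⟨i, Finset.mem_compl.2 hi⟩, c)))
    ext q
    rcases q with j | ⟨i, c⟩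
    · by_cases hj : j ∈ FU I U
      · obtain ⟨i, hi, hij⟩ := (Finset.mem_filter.1 hj).2
        have := hm (i, j) (Finset.mem_filter.2 ⟨hij, hi⟩)
        rw [row_dot] at this
        simpa [hV] using this
      · exact hg (Sum.inr (Sum.inr ⟨j, Finset.mem_compl.2 hj⟩))
    · exact hV i c
  have h1 := LinearMap.finrank_le_finrank_of_injective hφ
  have h2 := rk_add_ker N J
  rw [Module.finrank_fintype_fun_eq_card] at h1
  simp only [Fintype.card_sum, Fintype.card_prod, Fintype.card_coe] at h1
  have h3 := Finset.card_add_card_compl U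
  have h4 := Finset.card_add_card_compl (FU I U)
  rw [← h3, add_mul] at h2
  omega

theorem step {N : F → C → ℝ} {c0 : C} (hG : Gen V N c0) (I : Finset (V × F)) (U : Finset V)
    (ih : ∀ U' : Finset V, U'.card < U.card → U'.Nonempty →
      2 * (U'.card * Fintype.card C) + ((FU I U').card + (Fint I U').card) ≤
        2 * rk N (I.filter fun e => e.1 ∈ U'))
    {x : F ⊕ (V × C) → ℝ} (hx : Motion N (I.filter fun e => e.1 ∈ U) x) {i i' : V}
    (hi : i ∈ U) (hi' : i' ∈ U) {c : C} (hne : x (Sum.inr (i, c)) ≠ x (Sum.inr (i', c))) :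
    2 * (U.card * Fintype.card C) + ((FU I U).card + (Fint I U).card) ≤
        2 * rk N (I.filter fun e => e.1 ∈ U) := by
  classical
  let p : V → Prop := fun k => x (Sum.inr (k, c)) = x (Sum.inr (i, c))
  have hs := split hG hx c (x (Sum.inr (i, c)))
  have e1 : (I.filter fun e => e.1 ∈ U).filter (fun e => x (Sum.inr (e.1, c)) = x (Sum.inr (i, c)))
      = I.filter fun e => e.1 ∈ U.filter p := by
    ext e; simp [p, and_assoc]
  have e2 : (I.filter fun e => e.1 ∈ U).filter
      (fun e => ¬ x (Sum.inr (e.1, c)) = x (Sum.inr (i, c)))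
      = I.filter fun e => e.1 ∈ U.filter (fun k => ¬ p k) := by
    ext e; simp [p, and_assoc]
  rw [e1, e2] at hs
  have n1 : (U.filter p).Nonempty := ⟨i, Finset.mem_filter.2 ⟨hi, rfl⟩⟩
  have n2 : (U.filter fun k => ¬ p k).Nonempty := ⟨i', Finset.mem_filter.2 ⟨hi', Ne.symm hne⟩⟩
  have hcard := Finset.card_filter_add_card_filter_not (s := U) p
  have p1 := n1.card_pos
  have p2 := n2.card_pos
  have a1 := ih _ (by omega) n1
  have a2 := ih _ (by omega) n2
  have a3 := subadd I U p
  rw [← hcard, add_mul]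
  omega

theorem proper {N : F → C → ℝ} {c0 : C} (hG : Gen V N c0) (I : Finset (V × F))
    (hN : ∀ U : Finset V, U.Nonempty → U.card < Fintype.card V →
      2 * Fintype.card C ≤ (Nb I U).card) (n : ℕ) :
    ∀ U : Finset V, U.card < n → U.card < Fintype.card V → U.Nonempty →
      2 * (U.card * Fintype.card C) + ((FU I U).card + (Fint I U).card) ≤
        2 * rk N (I.filter fun e => e.1 ∈ U) := by
  induction n with
  | zero => intro U h; omega
  | succ n ih =>
    intro U h1 h2 h3
    by_cases hc : ∀ x, Motion N (I.filter fun e => e.1 ∈ U) x → ∀ i ∈ U, ∀ i' ∈ U, ∀ c,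
      x (Sum.inr (i, c)) = x (Sum.inr (i', c))
    · obtain ⟨i0, hi0⟩ := h3
      have b := base N I U i0 hi0 hc
      have := hN U ⟨i0, hi0⟩ h2
      have := card_FU I U
      omega
    · push Not at hc
      obtain ⟨x, hx, i, hi, i', hi', c, hne⟩ := hc
      exact step hG I U (fun U' a b => ih U' (by omega) (by omega) b) hx hi hi' hne

theorem core {N : F → C → ℝ} {c0 : C} (hG : Gen V N c0) (I : Finset (V × F))
    (hN : ∀ U : Finset V, U.Nonempty → U.card < Fintype.card V →
      2 * Fintype.card C ≤ (Nb I U).card)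
    (hF : ∀ (_ : V) (j : F), ∃ i, (i, j) ∈ I) : rk N I = rk N (univ : Finset (V × F)) := by
  classical
  have hI : (I.filter fun e => e.1 ∈ (univ : Finset V)) = I := by simp
  have hc : ∀ x, Motion N I x → ∀ i i' c, x (Sum.inr (i, c)) = x (Sum.inr (i', c)) := by
    intro x hx i i' c
    by_contra hne
    have := step hG I univ (fun U' a b => proper hG I hN _ U' a (by simpa using a) b)
      (by rw [hI]; exact hx) (Finset.mem_univ i) (Finset.mem_univ i') hne
    rw [hI] at this
    have f1 : FU I univ = univ := by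
      ext j; simpa [FU] using hF i j
    have f2 : Fint I univ = univ := by
      ext j; simpa [Fint] using hF i j
    rw [f1, f2] at this
    have h2 := rk_add_ker N I
    let y : F ⊕ (V × C) → ℝ := Sum.elim (fun _ => -1) (fun q => if q.2 = c0 then 1 else 0)
    have hy : y ∈ LinearMap.ker (Matrix.mulVecLin (Matrix.of (mrow N I))) := by
      rw [mem_ker_iff]
      intro e _
      rw [row_dot]
      simp [y, hG.1]
    have hpos : 0 < finrank ℝ (LinearMap.ker (Matrix.mulVecLin (Matrix.of (mrow N I)))) := by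
      rw [Module.finrank_pos_iff_exists_ne_zero]
      refine ⟨⟨y, hy⟩, fun h => ?_⟩
      have := congrFun (congrArg Subtype.val h) (Sum.inr (i, c0))
      simp [y] at this
    simp only [Finset.card_univ] at this
    omega
  have hk : LinearMap.ker (Matrix.mulVecLin (Matrix.of (mrow N I))) =
      LinearMap.ker (Matrix.mulVecLin (Matrix.of (mrow N (univ : Finset (V × F))))) := by
    ext x
    rw [mem_ker_iff, mem_ker_iff]
    constructor
    · intro hx e _
      obtain ⟨i, hi⟩ := hF e.1 e.2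
      have := hx _ hi
      rw [row_dot] at this ⊢
      simp only at this
      rw [← this]
      congr 1
      exact Finset.sum_congr rfl fun c _ => by rw [hc x hx e.1 i c]
    · intro hx e _; exact hx e (Finset.mem_univ _)
  have h1 := rk_add_ker N I
  have h2 := rk_add_ker N (univ : Finset (V × F))
  rw [hk] at h1
  omega

end Pool.Agent.Lead.Par
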