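import Mathlib
import Pool.Agent.Lead.Par2

set_option autoImplicit false
set_option linter.unusedSectionVars false

open Module Submodule Finset

namespace Pool.Agent.Lead.Par

variable {V F : Type} [Fintype V] [Fintype F] [DecidableEq V] [DecidableEq F]

/-- normals `(a_1,…,a_k,1)` -/
noncomputable def nrm {k : ℕ} (a : F × Fin k → ℝ) (j : F) (c : Fin (k + 1)) : ℝ :=
  if h : c.val < k then a (j, ⟨c.val, h⟩) else 1

noncomputable def prow {k : ℕ} (J : Finset (V × F)) (e : V × F) :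
    F ⊕ (V × Fin (k + 1)) → MvPolynomial (F × Fin k) ℚ :=
  if e ∈ J then Sum.elim (fun j => if j = e.2 then 1 else 0) (fun q => if q.1 = e.1 then
    (if h : q.2.val < k then MvPolynomial.X (e.2, ⟨q.2.val, h⟩) else 1) else 0) else 0

theorem aeval_prow {k : ℕ} (J : Finset (V × F)) (a : F × Fin k → ℝ) :
    (fun e c => MvPolynomial.aeval a (prow J e c)) = mrow (nrm a) J := by
  funext e q
  unfold prow mrow
  split_ifs with he
  · rcases q with j | ⟨i, c⟩
    · simp only [row, Sum.elim_inl]; split_ifs <;> simp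
    · simp only [row, nrm, Sum.elim_inr]; split_ifs <;> simp
  · simp

theorem cert {k : ℕ} (J : Finset (V × F)) (a' : F × Fin k → ℝ) :
    ∃ G : MvPolynomial (F × Fin k) ℚ, MvPolynomial.aeval a' G ≠ 0 ∧
      ∀ a : F × Fin k → ℝ, MvPolynomial.aeval a G ≠ 0 → rk (nrm a') J ≤ rk (nrm a) J := by
  obtain ⟨G, h1, h2⟩ := gen_cert (prow (k := k) J) a'
  refine ⟨G, h1, fun a ha => ?_⟩
  have := h2 a ha
  rwa [aeval_prow, aeval_prow] at this

theorem gen_of {k : ℕ} (a : F × Fin k → ℝ)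
    (h : ∀ (J : Finset (V × F)) (a' : F × Fin k → ℝ), rk (nrm a') J ≤ rk (nrm a) J) :
    Gen V (nrm a) (Fin.last k) := by
  refine ⟨fun j => by simp [nrm], fun J N' hN' => ?_⟩
  have : N' = nrm (fun p : F × Fin k => N' p.1 p.2.castSucc) := by
    funext j c
    unfold nrm
    split_ifs with hc
    · rfl
    · have : c = Fin.last k := by ext; have := c.2; simp; omega
      rw [this, hN']
  rw [this]
  exact h J _

theorem gen_alg {k : ℕ} (a : F × Fin k → ℝ) (ha : AlgebraicIndependent ℚ a) :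
    Gen V (nrm a) (Fin.last k) := by
  refine gen_of a fun J a' => ?_
  obtain ⟨G, h1, h2⟩ := cert J a'
  refine h2 a fun h0 => h1 ?_
  have : G = 0 := (algebraicIndependent_iff.1 ha) G h0
  rw [this, map_zero]

theorem exists_gen (k : ℕ) : ∃ a : F × Fin k → ℝ,
    ∀ (J : Finset (V × F)) (a' : F × Fin k → ℝ), rk (nrm a') J ≤ rk (nrm a) J := by
  classical
  have hmax : ∀ J : Finset (V × F), ∃ b : F × Fin k → ℝ, ∀ a' : F × Fin k → ℝ,
      rk (nrm a') J ≤ rk (nrm b) J := by
    intro J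
    have hb : BddAbove (Set.range fun a' : F × Fin k → ℝ => rk (nrm a') J) := by
      refine ⟨Fintype.card F + Fintype.card V * Fintype.card (Fin (k + 1)), ?_⟩
      rintro _ ⟨a', rfl⟩
      have := rk_add_ker (nrm a') J
      simp only
      omega
    obtain ⟨b, hb'⟩ := Nat.sSup_mem (Set.range_nonempty _) hb
    exact ⟨b, fun a' => by
      simp only at hb'
      rw [hb']; exact le_csSup hb ⟨a', rfl⟩⟩
  choose b hb using hmax
  choose G hG1 hG2 using fun J : Finset (V × F) => cert J (b J)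
  have hne : (∏ J, MvPolynomial.map (algebraMap ℚ ℝ) (G J)) ≠ 0 := by
    refine Finset.prod_ne_zero_iff.2 fun J _ h => hG1 J ?_
    rw [MvPolynomial.aeval_def, MvPolynomial.eval₂_eq_eval_map, h, map_zero]
  have : ∃ a, MvPolynomial.eval a (∏ J, MvPolynomial.map (algebraMap ℚ ℝ) (G J)) ≠ 0 := by
    by_contra h
    push Not at h
    exact hne (MvPolynomial.funext fun a => by rw [h a, map_zero])
  obtain ⟨a, ha⟩ := this
  rw [map_prod] at ha
  refine ⟨a, fun J a' => (hb J a').trans (hG2 J a ?_)⟩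
  rw [MvPolynomial.aeval_def, MvPolynomial.eval₂_eq_eval_map]
  exact Finset.prod_ne_zero_iff.1 ha J (Finset.mem_univ _)

/-- bipartite incidence graph -/
def incG (I : Finset (V × F)) : SimpleGraph (V ⊕ F) :=
  SimpleGraph.fromRel (fun a b => ∃ p ∈ I, a = Sum.inl p.1 ∧ b = Sum.inr p.2)

theorem conn_Nb (I : Finset (V × F)) (m : ℕ)
    (hc : ∀ X : Finset (V ⊕ F), X.card < m → ((incG I).induce ((↑X : Set (V ⊕ F))ᶜ)).Connected)
    (U : Finset V) (h1 : U.Nonempty) (h2 : U.card < Fintype.card V) : m ≤ (Nb I U).card := by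
  classical
  by_contra hlt
  push Not at hlt
  have hcon := hc ((Nb I U).map ⟨Sum.inr, Sum.inr_injective⟩) (by simpa using hlt)
  obtain ⟨i, hi⟩ := h1
  obtain ⟨i', hi'⟩ : ∃ i', i' ∉ U := by
    by_contra h
    push Not at h
    have : U = univ := Finset.eq_univ_of_forall h
    rw [this, Finset.card_univ] at h2
    omega
  let S : V ⊕ F → Prop := Sum.elim (fun i => i ∈ U) (fun j => ∃ i ∈ U, (i, j) ∈ I)
  have key : ∀ (u v : ↥((↑((Nb I U).map ⟨Sum.inr, Sum.inr_injective⟩ : Finset (V ⊕ F)) :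
      Set (V ⊕ F))ᶜ)), ((incG I).induce _).Walk u v → S u.1 → S v.1 := by
    intro u v w
    induction w with
    | nil => exact id
    | @cons u u' v hadj _ ih =>
      intro hu
      apply ih
      have hadj' : (incG I).Adj u.1 u'.1 := hadj
      rw [incG, SimpleGraph.fromRel_adj] at hadj'
      rcases hadj'.2 with ⟨p, hp, e1, e2⟩ | ⟨p, hp, e1, e2⟩
      · rw [e1] at hu; rw [e2]
        exact ⟨p.1, hu, hp⟩
      · have hu2 := u.2
        rw [e2] at hu hu2; rw [e1]
        by_contra hn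
        apply hu2
        simp only [Finset.coe_map, Function.Embedding.coeFn_mk, Set.mem_image, Finset.mem_coe]
        exact ⟨p.2, Finset.mem_filter.2 ⟨Finset.mem_univ _, hu, p.1, hp, hn⟩, rfl⟩
  obtain ⟨w⟩ := hcon.preconnected ⟨Sum.inl i, by simp⟩ ⟨Sum.inl i', by simp⟩
  exact hi' (key _ _ w hi)

theorem conn_F (I : Finset (V × F)) (m : ℕ) (hm : 0 < m)
    (hc : ∀ X : Finset (V ⊕ F), X.card < m → ((incG I).induce ((↑X : Set (V ⊕ F))ᶜ)).Connected)
    (i : V) (j : F) : ∃ i, (i, j) ∈ I := by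
  have hcon := hc ∅ (by simpa using hm)
  obtain ⟨w⟩ := hcon.preconnected ⟨Sum.inr j, by simp⟩ ⟨Sum.inl i, by simp⟩
  cases w with
  | cons hadj _ =>
    rename_i u _
    have hadj' : (incG I).Adj (Sum.inr j) u.1 := hadj
    rw [incG, SimpleGraph.fromRel_adj] at hadj'
    rcases hadj'.2 with ⟨p, hp, e1, e2⟩ | ⟨p, hp, e1, e2⟩
    · simp at e1
    · simp only [Sum.inr.injEq] at e2
      exact ⟨p.1, by rw [e2]; exact hp⟩

theorem main {k : ℕ} {a : F × Fin k → ℝ} (hG : Gen V (nrm a) (Fin.last k)) (I : Finset (V × F))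
    (hc : ∀ X : Finset (V ⊕ F), X.card < 2 * (k + 1) →
      ((incG I).induce ((↑X : Set (V ⊕ F))ᶜ)).Connected) :
    rk (nrm a) I = rk (nrm a) (univ : Finset (V × F)) :=
  core hG I (fun U h1 h2 => by simpa using conn_Nb I _ hc U h1 h2)
    (conn_F I _ (by omega) hc)

end Pool.Agent.Lead.Par
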