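import Mathlib

set_option autoImplicit false

namespace Pool.Agent.Lead.Pd1

variable {S : Type} [CommRing S]

/-- projective dimension at most one, in the form of the frozen statement -/
def PD (I : Ideal S) : Prop :=
  ∃ (m : ℕ) (f : (Fin m → S) →ₗ[S] ↥I), Function.Surjective f ∧
    Module.Projective S ↥(LinearMap.ker f)

theorem pd_of {m : ℕ} {K : Type} [AddCommGroup K] [Module S K] [Module.Projective S K]
    (I : Ideal S) (f : (Fin m → S) →ₗ[S] S) (hf : ∀ a, f a ∈ I) (hs : ∀ u ∈ I, ∃ a, f a = u)
    (ψ : K →ₗ[S] (Fin m → S)) (hψ : Function.Injective ψ)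
    (h1 : ∀ k, f (ψ k) = 0) (h2 : ∀ a, f a = 0 → ∃ k, ψ k = a) : PD I := by
  refine ⟨m, f.codRestrict I hf, ?_, ?_⟩
  · rintro ⟨u, hu⟩
    obtain ⟨a, ha⟩ := hs u hu
    exact ⟨a, Subtype.ext ha⟩
  · rw [LinearMap.ker_codRestrict]
    have hr : LinearMap.range ψ = LinearMap.ker f := by
      ext a
      constructor
      · rintro ⟨k, rfl⟩
        exact h1 k
      · intro ha
        exact h2 a ha
    rw [← hr]
    exact Module.Projective.of_equiv' (LinearEquiv.ofInjective ψ hψ)

theorem not_proj [IsDomain S] {x y : S} (hy : Prime y) (hyx : ¬ y ∣ x) (I : Ideal S) (N : ℕ)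
    (hx : x ^ N ∈ I) (hyI : y ^ N ∈ I) (h1 : (1 : S) ∉ I) : ¬ Module.Projective S ↥I := by
  intro hP
  obtain ⟨s, hs⟩ := Module.projective_def.1 hP
  have hyx' : ¬ y ∣ x ^ N := fun h => hyx (hy.dvd_of_dvd_pow h)
  set w : ↥I := ⟨y ^ N, hyI⟩ with hw
  set v : ↥I := ⟨x ^ N, hx⟩ with hv
  have key : ∀ p : ↥I, y ^ N ∣ s w p := by
    intro p
    have e : (x ^ N) • w = (y ^ N) • v := by
      apply Subtype.ext
      simp [hw, hv, mul_comm]
    have e2 : x ^ N * s w p = y ^ N * s v p := by
      have := congrArg (fun q => s q p) e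
      simpa using this
    exact hy.pow_dvd_of_dvd_mul_left N hyx' ⟨s v p, e2⟩
  have h2 : (w : S) ∈ Ideal.span {y ^ N} * I := by
    have := hs w
    rw [← this, Finsupp.linearCombination_apply, Finsupp.sum]
    simp only [Submodule.coe_sum]
    refine Ideal.sum_mem _ fun p _ => ?_
    simp only [id, Submodule.coe_smul, smul_eq_mul]
    exact Ideal.mul_mem_mul (Ideal.mem_span_singleton.2 (key p)) p.2
  obtain ⟨z, hz, hz2⟩ := Ideal.mem_span_singleton_mul.1 h2
  have : z = 1 := by
    have h3 : y ^ N * z = y ^ N * 1 := by rw [hz2, mul_one]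
    exact mul_left_cancel₀ (pow_ne_zero N hy.ne_zero) h3
  exact h1 (this ▸ hz)

theorem reg3 {K : Type} [AddCommGroup K] [Module S K] [hP : Module.Projective S K] {x y z : S}
    (hz : ∀ a b c : S, z * a = y * b + x * c → ∃ p q, a = x * p + y * q)
    (k1 k2 k3 : K) (h : z • k1 = y • k2 + x • k3) : ∃ p q : K, k1 = x • p + y • q := by
  obtain ⟨s, hs⟩ := Module.projective_def.1 hP
  let T : Submodule S K :=
    { carrier := {k | ∃ p q : K, k = x • p + y • q}
      add_mem' := by
        rintro _ _ ⟨p, q, rfl⟩ ⟨p', q', rfl⟩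
        exact ⟨p + p', q + q', by simp only [smul_add]; abel⟩
      zero_mem' := ⟨0, 0, by simp⟩
      smul_mem' := by
        rintro c _ ⟨p, q, rfl⟩
        exact ⟨c • p, c • q, by simp only [smul_add, smul_comm c]⟩ }
  have : k1 ∈ T := by
    have e := hs k1
    rw [← e, Finsupp.linearCombination_apply, Finsupp.sum]
    refine T.sum_mem fun j _ => ?_
    have e2 : z * s k1 j = y * s k2 j + x * s k3 j := by
      have := congrArg (fun q => s q j) h
      simpa using this
    obtain ⟨p, q, hpq⟩ := hz _ _ _ e2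
    exact ⟨p • j, q • j, by simp only [id, hpq, add_smul, mul_smul]⟩
  exact this

theorem socle [IsDomain S] {x y z : S} (hy : Prime y) (hyx : ¬ y ∣ x)
    (hz : ∀ a b c : S, z * a = y * b + x * c → ∃ p q, a = x * p + y * q)
    (I : Ideal S) (hI : PD I) (u : S) (hx : x * u ∈ I) (hyu : y * u ∈ I) (hzu : z * u ∈ I) :
    u ∈ I := by
  obtain ⟨m, f, hf, hP⟩ := hI
  obtain ⟨a, ha⟩ := hf ⟨_, hx⟩
  obtain ⟨b, hb⟩ := hf ⟨_, hyu⟩
  obtain ⟨c, hc⟩ := hf ⟨_, hzu⟩
  have hx0 : x ≠ 0 := by
    rintro rfl
    exact hyx (dvd_zero _)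
  have m1 : y • a - x • b ∈ LinearMap.ker f := by
    rw [LinearMap.mem_ker, map_sub, map_smul, map_smul, ha, hb]
    apply Subtype.ext
    simp only [Submodule.coe_sub, Submodule.coe_smul, smul_eq_mul, Submodule.coe_zero]
    ring
  have m2 : z • a - x • c ∈ LinearMap.ker f := by
    rw [LinearMap.mem_ker, map_sub, map_smul, map_smul, ha, hc]
    apply Subtype.ext
    simp only [Submodule.coe_sub, Submodule.coe_smul, smul_eq_mul, Submodule.coe_zero]
    ring
  have m3 : y • c - z • b ∈ LinearMap.ker f := by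
    rw [LinearMap.mem_ker, map_sub, map_smul, map_smul, hb, hc]
    apply Subtype.ext
    simp only [Submodule.coe_sub, Submodule.coe_smul, smul_eq_mul, Submodule.coe_zero]
    ring
  obtain ⟨p, q, hpq⟩ := reg3 hz (⟨_, m1⟩ : LinearMap.ker f) ⟨_, m2⟩ ⟨_, m3⟩ (by
    apply Subtype.ext
    funext i
    simp only [Submodule.coe_add, Submodule.coe_smul, Pi.add_apply, Pi.smul_apply, Pi.sub_apply,
      smul_eq_mul]
    ring)
  have hpq' : ∀ i, y * (a i - q.1 i) = x * (b i + p.1 i) := by
    intro i
    have := congrFun (congrArg Subtype.val hpq) i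
    simp only [Submodule.coe_add, Submodule.coe_smul, Pi.add_apply, Pi.smul_apply, Pi.sub_apply,
      smul_eq_mul] at this
    linear_combination this
  have hd : ∀ i, ∃ e, a i - q.1 i = x * e := by
    intro i
    have h1 : y ∣ x * (b i + p.1 i) := ⟨_, (hpq' i).symm⟩
    obtain ⟨e, he⟩ := (hy.dvd_or_dvd h1).resolve_left hyx
    refine ⟨e, mul_left_cancel₀ hy.ne_zero ?_⟩
    rw [hpq' i, he]
    ring
  choose e he using hd
  have h5 : a = x • e + q.1 := by
    funext i
    simp only [Pi.add_apply, Pi.smul_apply, smul_eq_mul]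
    linear_combination he i
  have h6 : x * u = x * (f e : S) := by
    have h7 : f a = x • f e := by
      rw [h5, map_add, map_smul, LinearMap.mem_ker.1 q.2, add_zero]
    have := congrArg Subtype.val (ha.symm.trans h7)
    simpa using this
  rw [mul_left_cancel₀ hx0 h6]
  exact (f e).2

/-- the ideal spanned by the monomials of degree N in x, y -/
def MM (x y : S) (N : ℕ) : Ideal S := Ideal.span {u | ∃ i j, i + j = N ∧ u = x ^ i * y ^ j}

theorem mono_mem (x y : S) {N : ℕ} (i j : ℕ) (h : i + j = N) : x ^ i * y ^ j ∈ MM x y N :=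
  Ideal.subset_span ⟨i, j, h, rfl⟩

theorem MM_mul (x y : S) (a b : ℕ) : MM x y a * MM x y b ≤ MM x y (a + b) := by
  unfold MM
  rw [Ideal.span_mul_span']
  apply Ideal.span_le.2
  rintro _ ⟨_, ⟨i, j, h, rfl⟩, _, ⟨i', j', h', rfl⟩, rfl⟩
  refine Ideal.subset_span ⟨i + i', j + j', by omega, ?_⟩
  simp only [pow_add]
  ring

theorem MM_succ (x y : S) (N : ℕ) (u : S) (hu : u ∈ MM x y (N + 1)) :
    ∃ a, ∃ v ∈ MM x y N, u = a * x ^ (N + 1) + y * v := by
  unfold MM at hu
  induction hu using Submodule.span_induction with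
  | mem u hu =>
    obtain ⟨i, j, h, rfl⟩ := hu
    rcases j with _ | j
    · obtain rfl : i = N + 1 := by omega
      exact ⟨1, 0, zero_mem _, by ring⟩
    · exact ⟨0, x ^ i * y ^ j, mono_mem x y i j (by omega), by ring⟩
  | zero => exact ⟨0, 0, zero_mem _, by ring⟩
  | add u u' _ _ h h' =>
    obtain ⟨a, v, hv, rfl⟩ := h
    obtain ⟨a', v', hv', rfl⟩ := h'
    exact ⟨a + a', v + v', add_mem hv hv', by ring⟩
  | smul c u _ h =>
    obtain ⟨a, v, hv, rfl⟩ := h
    exact ⟨c * a, c * v, Ideal.mul_mem_left _ _ hv, by simp only [smul_eq_mul]; ring⟩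

theorem pd_MM [IsDomain S] {x y : S} (hy : Prime y) (hyx : ¬ y ∣ x) (N : ℕ) : PD (MM x y N) := by
  induction N with
  | zero =>
    refine pd_of (m := 1) (K := Fin 0 → S) _ (LinearMap.proj 0) ?_ ?_ 0 ?_ ?_ ?_
    · intro a
      have := Ideal.mul_mem_left _ (a 0) (mono_mem x y (N := 0) 0 0 rfl)
      simpa using this
    · intro u _
      exact ⟨fun _ => u, rfl⟩
    · intro a b _
      exact Subsingleton.elim _ _
    · intro k
      simp
    · intro a ha
      refine ⟨0, ?_⟩
      funext i
      obtain rfl : i = 0 := Subsingleton.elim _ _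
      simpa using ha.symm
  | succ N ih =>
    obtain ⟨m, f, hf, hP⟩ := ih
    obtain ⟨v, hv⟩ := hf ⟨x ^ N * y ^ 0, mono_mem x y N 0 rfl⟩
    have hv' : (f v : S) = x ^ N := by rw [hv]; simp
    let g : (Fin (m + 1) → S) →ₗ[S] S :=
      { toFun := fun a => a 0 * x ^ (N + 1) + y * (f (fun i => a i.succ) : S)
        map_add' := by
          intro a b
          have : (fun i : Fin m => (a + b) i.succ) = (fun i => a i.succ) + fun i => b i.succ := rfl
          rw [this, map_add]
          simp only [Pi.add_apply, Submodule.coe_add]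
          ring
        map_smul' := by
          intro c a
          have : (fun i : Fin m => (c • a) i.succ) = c • (fun i => a i.succ) := rfl
          rw [this, map_smul]
          simp only [Pi.smul_apply, smul_eq_mul, Submodule.coe_smul, RingHom.id_apply]
          ring }
    let ψ : (S × ↥(LinearMap.ker f)) →ₗ[S] (Fin (m + 1) → S) :=
      { toFun := fun k => Fin.cons (k.1 * y) (fun i => k.2.1 i - k.1 * x * v i)
        map_add' := by
          intro a b
          funext i
          refine Fin.cases ?_ (fun i => ?_) i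
          · simp [add_mul]
          · simp only [Fin.cons_succ, Pi.add_apply, Prod.fst_add, Prod.snd_add, Submodule.coe_add]
            ring
        map_smul' := by
          intro c a
          funext i
          refine Fin.cases ?_ (fun i => ?_) i
          · simp [mul_assoc]
          · simp only [Fin.cons_succ, Pi.smul_apply, Prod.smul_fst, Prod.smul_snd,
              Submodule.coe_smul, smul_eq_mul, RingHom.id_apply]
            ring }
    have hg : ∀ a, g a = a 0 * x ^ (N + 1) + y * (f (fun i => a i.succ) : S) := fun a => rfl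
    have hψ0 : ∀ k, ψ k 0 = k.1 * y := fun k => rfl
    have hψs : ∀ k (i : Fin m), ψ k i.succ = k.2.1 i - k.1 * x * v i := fun k i => rfl
    refine pd_of _ g ?_ ?_ ψ ?_ ?_ ?_
    · intro a
      rw [hg]
      refine add_mem (Ideal.mul_mem_left _ _ ?_) ?_
      · simpa using mono_mem x y (N := N + 1) (N + 1) 0 rfl
      · have h1 : y ∈ MM x y 1 := by simpa using mono_mem x y (N := 1) 0 1 rfl
        have := MM_mul x y 1 N (Ideal.mul_mem_mul h1 (f (fun i => a i.succ)).2)
        rwa [add_comm] at this
    · intro u hu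
      obtain ⟨a, w, hw, rfl⟩ := MM_succ x y N u hu
      obtain ⟨b, hb⟩ := hf ⟨w, hw⟩
      refine ⟨Fin.cons a b, ?_⟩
      rw [hg]
      simp only [Fin.cons_zero, Fin.cons_succ]
      have : (fun i => b i) = b := rfl
      rw [this, hb]
    · rw [injective_iff_map_eq_zero]
      intro k hk
      have h1 : k.1 = 0 := by
        have := congrFun hk 0
        rw [hψ0] at this
        exact (mul_eq_zero.1 this).resolve_right hy.ne_zero
      have h2 : k.2 = 0 := by
        apply Subtype.ext
        funext i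
        have := congrFun hk i.succ
        rw [hψs, h1] at this
        simpa using this
      exact Prod.ext h1 h2
    · intro k
      rw [hg, hψ0]
      have : (fun i : Fin m => ψ k i.succ) = k.2.1 - (k.1 * x) • v := by
        funext i
        rw [hψs]
        simp
      rw [this, map_sub, map_smul, LinearMap.mem_ker.1 k.2.2]
      simp only [Submodule.coe_sub, Submodule.coe_smul, smul_eq_mul, Submodule.coe_zero, hv']
      ring
    · intro a ha
      rw [hg] at ha
      have h1 : y ∣ a 0 * x ^ (N + 1) := ⟨-(f (fun i => a i.succ) : S), by linear_combination ha⟩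
      obtain ⟨s, hs⟩ := (hy.dvd_or_dvd h1).resolve_right (fun h => hyx (hy.dvd_of_dvd_pow h))
      have h2 : (fun i : Fin m => a i.succ) + (s * x) • v ∈ LinearMap.ker f := by
        rw [LinearMap.mem_ker, map_add, map_smul]
        apply Subtype.ext
        simp only [Submodule.coe_add, Submodule.coe_smul, smul_eq_mul, Submodule.coe_zero, hv']
        apply mul_left_cancel₀ hy.ne_zero
        rw [hs] at ha
        linear_combination ha
      refine ⟨(s, ⟨_, h2⟩), ?_⟩
      funext i
      refine Fin.cases ?_ (fun i => ?_) i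
      · rw [hψ0, hs, mul_comm]
      · rw [hψs]
        simp

end Pool.Agent.Lead.Pd1
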