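import Mathlib
import Pool.Agent.Lead.Pd1

set_option autoImplicit false

namespace Pool.Agent.Lead.Pd1

variable {S : Type} [CommRing S]

def gen (x y z : S) : Fin 6 → S :=
  ![x ^ 7, x ^ 6 * y, x ^ 4 * y ^ 3, x * y ^ 6, y ^ 7, x ^ 3 * y ^ 5 + z * x ^ 5 * y ^ 2]

def QQ (x y z : S) : Ideal S := Ideal.span (Set.range (gen x y z))

theorem mem_QQ (x y z u : S) : u ∈ QQ x y z ↔ ∃ a : Fin 6 → S,
    a 0 * x ^ 7 + a 1 * (x ^ 6 * y) + a 2 * (x ^ 4 * y ^ 3) + a 3 * (x * y ^ 6) + a 4 * y ^ 7 +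
      a 5 * (x ^ 3 * y ^ 5 + z * x ^ 5 * y ^ 2) = u := by
  unfold QQ
  rw [Ideal.mem_span_range_iff_exists_fun]
  simp only [Fin.sum_univ_six]
  rfl

theorem gen_mem (x y z : S) (i : Fin 6) : gen x y z i ∈ QQ x y z :=
  Ideal.subset_span ⟨i, rfl⟩

theorem pd_QQ [IsDomain S] {x y : S} (z : S) (hy : Prime y) (hyx : ¬ y ∣ x) : PD (QQ x y z) := by
  let f : (Fin 6 → S) →ₗ[S] S :=
    { toFun := fun a => a 0 * x ^ 7 + a 1 * (x ^ 6 * y) + a 2 * (x ^ 4 * y ^ 3) +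
        a 3 * (x * y ^ 6) + a 4 * y ^ 7 + a 5 * (x ^ 3 * y ^ 5 + z * x ^ 5 * y ^ 2)
      map_add' := by
        intro a b
        simp only [Pi.add_apply]
        ring
      map_smul' := by
        intro c a
        simp only [Pi.smul_apply, smul_eq_mul, RingHom.id_apply]
        ring }
  let ψ : (Fin 5 → S) →ₗ[S] (Fin 6 → S) :=
    { toFun := fun s => ![y * s 0, y * (s 2 * z + y * s 1) - s 0 * x,
        y ^ 2 * s 2 - (s 3 * z + x * s 1) * x, -s 3 * x ^ 2 + y * s 4, -s 4 * x,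
        -s 2 * x + y * s 3]
      map_add' := by
        intro a b
        funext i
        fin_cases i <;> simp <;> ring
      map_smul' := by
        intro c a
        funext i
        fin_cases i <;> simp <;> ring }
  have hf : ∀ a, f a = a 0 * x ^ 7 + a 1 * (x ^ 6 * y) + a 2 * (x ^ 4 * y ^ 3) +
        a 3 * (x * y ^ 6) + a 4 * y ^ 7 + a 5 * (x ^ 3 * y ^ 5 + z * x ^ 5 * y ^ 2) :=
    fun a => rfl
  have h0 : ∀ s, ψ s 0 = y * s 0 := fun s => rfl
  have h1 : ∀ s, ψ s 1 = y * (s 2 * z + y * s 1) - s 0 * x := fun s => rfl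
  have h2 : ∀ s, ψ s 2 = y ^ 2 * s 2 - (s 3 * z + x * s 1) * x := fun s => rfl
  have h3 : ∀ s, ψ s 3 = -s 3 * x ^ 2 + y * s 4 := fun s => rfl
  have h4 : ∀ s, ψ s 4 = -s 4 * x := fun s => rfl
  have h5 : ∀ s, ψ s 5 = -s 2 * x + y * s 3 := fun s => rfl
  have hy0 := hy.ne_zero
  have hx0 : x ≠ 0 := by
    rintro rfl
    exact hyx (dvd_zero _)
  have dv : ∀ (a c : S) (n : ℕ), a * x ^ n = y * c → ∃ s, a = y * s ∧ c = s * x ^ n := by
    intro a c n h
    obtain ⟨s, hs⟩ := (hy.dvd_or_dvd ⟨c, h⟩).resolve_right (fun h => hyx (hy.dvd_of_dvd_pow h))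
    refine ⟨s, hs, mul_left_cancel₀ hy0 ?_⟩
    rw [← h, hs]
    ring
  refine pd_of _ f ?_ ?_ ψ ?_ ?_ ?_
  · intro a
    exact (mem_QQ x y z _).2 ⟨a, rfl⟩
  · intro u hu
    exact (mem_QQ x y z _).1 hu
  · rw [injective_iff_map_eq_zero]
    intro s hs
    have e0 := congrFun hs 0
    have e1 := congrFun hs 1
    have e3 := congrFun hs 3
    have e4 := congrFun hs 4
    have e5 := congrFun hs 5
    rw [h0] at e0
    rw [h1] at e1
    rw [h3] at e3
    rw [h4] at e4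
    rw [h5] at e5
    simp only [Pi.zero_apply] at e0 e1 e3 e4 e5
    have s0 : s 0 = 0 := by simpa [hy0] using e0
    have s4 : s 4 = 0 := by simpa [hx0] using e4
    have s3 : s 3 = 0 := by simpa [hx0, s4] using e3
    have s2 : s 2 = 0 := by simpa [hx0, s3] using e5
    have s1 : s 1 = 0 := by simpa [hy0, s0, s2] using e1
    funext i
    fin_cases i <;> simp [s0, s1, s2, s3, s4]
  · intro s
    rw [hf, h0, h1, h2, h3, h4, h5]
    ring
  · intro a ha
    rw [hf] at ha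
    obtain ⟨s0, e0, c0⟩ := dv (a 0) (-(a 1 * x ^ 6 + a 2 * (x ^ 4 * y ^ 2) +
        a 3 * (x * y ^ 5) + a 4 * y ^ 6 + a 5 * (x ^ 3 * y ^ 4 + z * x ^ 5 * y))) 7
        (by linear_combination ha)
    obtain ⟨s1, e1, c1⟩ := dv (s0 * x + a 1) (-(a 2 * (x ^ 4 * y) +
        a 3 * (x * y ^ 4) + a 4 * y ^ 5 + a 5 * (x ^ 3 * y ^ 3 + z * x ^ 5))) 6
        (by linear_combination -c0)
    obtain ⟨s2, e2, c2⟩ := dv (s1 * x + a 5 * z) (-(a 2 * x ^ 4 +
        a 3 * (x * y ^ 3) + a 4 * y ^ 4 + a 5 * (x ^ 3 * y ^ 2))) 5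
        (by linear_combination -c1)
    obtain ⟨s3', e3', c3'⟩ := dv (s2 * x + a 2) (-(
        a 3 * (x * y ^ 2) + a 4 * y ^ 3 + a 5 * (x ^ 3 * y))) 4
        (by linear_combination -c2)
    obtain ⟨s3, e3, c3⟩ := dv s3' (-(a 3 * (x * y) + a 4 * y ^ 2 + a 5 * x ^ 3)) 4
        (by linear_combination -c3')
    obtain ⟨s4, e4, c4⟩ := dv (s3 * x + a 5) (-(a 3 * x + a 4 * y)) 3
        (by linear_combination -c3)
    obtain ⟨s5, e5, c5⟩ := dv (s4 * x ^ 2 + a 3) (-(a 4)) 1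
        (by linear_combination -c4)
    obtain ⟨u, e6, c6⟩ := dv (s1 - s3 * z) (s2 - s4 * z) 1
        (by linear_combination e2 - z * e4)
    refine ⟨![s0, u, s3, s4, s5], ?_⟩
    funext i
    fin_cases i
    · exact e0.symm
    · show y * (s3 * z + y * u) - s0 * x = a 1
      linear_combination -e1 - y * e6
    · show y ^ 2 * s3 - (s4 * z + x * u) * x = a 2
      linear_combination -e3' - y * e3 + x * c6
    · show -s4 * x ^ 2 + y * s5 = a 3
      linear_combination -e5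
    · show -s5 * x = a 4
      linear_combination c5
    · show -s3 * x + y * s4 = a 5
      linear_combination -e4

theorem QQ_le (x y z : S) : QQ x y z ≤ MM x y 7 := by
  intro u hu
  obtain ⟨a, rfl⟩ := (mem_QQ x y z u).1 hu
  have m := fun i j (h : i + j = 7) (c : S) => Ideal.mul_mem_left _ c (mono_mem x y i j h)
  have := add_mem (add_mem (add_mem (add_mem (add_mem (add_mem (m 7 0 rfl (a 0)) (m 6 1 rfl (a 1)))
    (m 4 3 rfl (a 2))) (m 1 6 rfl (a 3))) (m 0 7 rfl (a 4))) (m 3 4 rfl (a 5 * y)))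
    (m 5 2 rfl (a 5 * z))
  convert this using 1
  ring

theorem QQ_pow_le (x y z : S) (t : ℕ) : QQ x y z ^ t ≤ MM x y (7 * t) := by
  induction t with
  | zero =>
    intro u _
    have := Ideal.mul_mem_left _ u (mono_mem x y (N := 7 * 0) 0 0 rfl)
    simpa using this
  | succ t ih =>
    rw [pow_succ]
    exact (Ideal.mul_mono ih (QQ_le x y z)).trans (MM_mul x y _ _)

theorem le_QQ_pow (x y z : S) (t : ℕ) (ht : 3 ≤ t) : MM x y (7 * t) ≤ QQ x y z ^ t := by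
  have g0 : x ^ 7 ∈ QQ x y z := gen_mem x y z 0
  have g1 : x ^ 6 * y ∈ QQ x y z := gen_mem x y z 1
  have g3 : x ^ 4 * y ^ 3 ∈ QQ x y z := gen_mem x y z 2
  have g6 : x * y ^ 6 ∈ QQ x y z := gen_mem x y z 3
  have g7 : y ^ 7 ∈ QQ x y z := gen_mem x y z 4
  induction t, ht using Nat.le_induction with
  | base =>
    have h3 : ∀ a b c, a ∈ QQ x y z → b ∈ QQ x y z → c ∈ QQ x y z →
        a * b * c ∈ QQ x y z ^ 3 := by
      intro a b c ha hb hc
      rw [pow_succ, pow_two]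
      exact Ideal.mul_mem_mul (Ideal.mul_mem_mul ha hb) hc
    apply Ideal.span_le.2
    rintro _ ⟨i, j, h, rfl⟩
    have hj : j ≤ 21 := by omega
    show x ^ i * y ^ j ∈ QQ x y z ^ 3
    interval_cases j
    · obtain rfl : i = 21 := by omega
      convert h3 _ _ _ g0 g0 g0 using 1
      ring
    · obtain rfl : i = 20 := by omega
      convert h3 _ _ _ g0 g0 g1 using 1
      ring
    · obtain rfl : i = 19 := by omega
      convert h3 _ _ _ g0 g1 g1 using 1
      ring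
    · obtain rfl : i = 18 := by omega
      convert h3 _ _ _ g0 g0 g3 using 1
      ring
    · obtain rfl : i = 17 := by omega
      convert h3 _ _ _ g0 g1 g3 using 1
      ring
    · obtain rfl : i = 16 := by omega
      convert h3 _ _ _ g1 g1 g3 using 1
      ring
    · obtain rfl : i = 15 := by omega
      convert h3 _ _ _ g0 g0 g6 using 1
      ring
    · obtain rfl : i = 14 := by omega
      convert h3 _ _ _ g0 g0 g7 using 1
      ring
    · obtain rfl : i = 13 := by omega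
      convert h3 _ _ _ g0 g1 g7 using 1
      ring
    · obtain rfl : i = 12 := by omega
      convert h3 _ _ _ g0 g3 g6 using 1
      ring
    · obtain rfl : i = 11 := by omega
      convert h3 _ _ _ g0 g3 g7 using 1
      ring
    · obtain rfl : i = 10 := by omega
      convert h3 _ _ _ g1 g3 g7 using 1
      ring
    · obtain rfl : i = 9 := by omega
      convert h3 _ _ _ g0 g6 g6 using 1
      ring
    · obtain rfl : i = 8 := by omega
      convert h3 _ _ _ g0 g6 g7 using 1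
      ring
    · obtain rfl : i = 7 := by omega
      convert h3 _ _ _ g0 g7 g7 using 1
      ring
    · obtain rfl : i = 6 := by omega
      convert h3 _ _ _ g1 g7 g7 using 1
      ring
    · obtain rfl : i = 5 := by omega
      convert h3 _ _ _ g3 g6 g7 using 1
      ring
    · obtain rfl : i = 4 := by omega
      convert h3 _ _ _ g3 g7 g7 using 1
      ring
    · obtain rfl : i = 3 := by omega
      convert h3 _ _ _ g6 g6 g6 using 1
      ring
    · obtain rfl : i = 2 := by omega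
      convert h3 _ _ _ g6 g6 g7 using 1
      ring
    · obtain rfl : i = 1 := by omega
      convert h3 _ _ _ g6 g7 g7 using 1
      ring
    · obtain rfl : i = 0 := by omega
      convert h3 _ _ _ g7 g7 g7 using 1
      ring
  | succ t ht ih =>
    apply Ideal.span_le.2
    rintro _ ⟨i, j, h, rfl⟩
    show x ^ i * y ^ j ∈ QQ x y z ^ (t + 1)
    rw [pow_succ]
    by_cases hj : 7 ≤ j
    · obtain ⟨j, rfl⟩ := Nat.exists_eq_add_of_le hj
      have := Ideal.mul_mem_mul (ih (mono_mem x y i j (by omega))) g7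
      convert this using 1
      ring
    · obtain ⟨i, rfl⟩ := Nat.exists_eq_add_of_le (show 7 ≤ i by omega)
      have := Ideal.mul_mem_mul (ih (mono_mem x y i j (by omega))) g0
      convert this using 1
      ring

theorem QQ_pow (x y z : S) (t : ℕ) (ht : 3 ≤ t) : QQ x y z ^ t = MM x y (7 * t) :=
  le_antisymm (QQ_pow_le x y z t) (le_QQ_pow x y z t ht)

theorem one_not_mem {k : Type} [CommRing k] [Nontrivial k] (x y : S) (ε : S →+* k) (hx : ε x = 0)
    (hy : ε y = 0) (N : ℕ) : (1 : S) ∉ MM x y (N + 1) := by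
  intro h
  obtain ⟨a, v, _, e⟩ := MM_succ x y N 1 h
  have := congrArg ε e
  simp [hx, hy] at this

theorem not_pd_sq [IsDomain S] {k : Type} [CommRing k] [Nontrivial k] {x y z : S} (hy : Prime y)
    (hyx : ¬ y ∣ x)
    (hz : ∀ a b c : S, z * a = y * b + x * c → ∃ p q, a = x * p + y * q)
    (ε : S →+* k) (εx : ε x = 0) (εy : ε y = 0)
    (σ : S →+* S) (σx : σ x = x) (σy : σ y = y) (σz : σ z = 0) : ¬ PD (QQ x y z ^ 2) := by
  intro h
  have g0 : x ^ 7 ∈ QQ x y z := gen_mem x y z 0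
  have g1 : x ^ 6 * y ∈ QQ x y z := gen_mem x y z 1
  have g3 : x ^ 4 * y ^ 3 ∈ QQ x y z := gen_mem x y z 2
  have g7 : y ^ 7 ∈ QQ x y z := gen_mem x y z 4
  have g5 : x ^ 3 * y ^ 5 + z * x ^ 5 * y ^ 2 ∈ QQ x y z := gen_mem x y z 5
  have hu : x ^ 9 * y ^ 5 ∈ QQ x y z ^ 2 := by
    apply socle hy hyx hz _ h
    · rw [pow_two]
      convert Ideal.mul_mem_left _ y (Ideal.mul_mem_mul g1 g3) using 1
      ring
    · rw [pow_two]
      convert Ideal.mul_mem_left _ x (Ideal.mul_mem_mul g3 g3) using 1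
      ring
    · rw [pow_two]
      convert sub_mem (Ideal.mul_mem_mul g3 g5)
        (Ideal.mul_mem_left _ x (Ideal.mul_mem_mul g1 g7)) using 1
      ring
  have key : ∀ u ∈ QQ x y z * QQ x y z, ∃ A B, σ u = A * x ^ 10 + B * y ^ 6 := by
    intro u hu
    refine Submodule.mul_induction_on hu ?_ ?_
    · intro p hp q hq
      obtain ⟨a, rfl⟩ := (mem_QQ x y z p).1 hp
      obtain ⟨b, rfl⟩ := (mem_QQ x y z q).1 hq
      refine ⟨σ (a 0) * σ (b 0) * x ^ 4 * y ^ 0 +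
        σ (a 0) * σ (b 1) * x ^ 3 * y ^ 1 +
        σ (a 0) * σ (b 2) * x ^ 1 * y ^ 3 +
        σ (a 0) * σ (b 5) * x ^ 0 * y ^ 5 +
        σ (a 1) * σ (b 0) * x ^ 3 * y ^ 1 +
        σ (a 1) * σ (b 1) * x ^ 2 * y ^ 2 +
        σ (a 1) * σ (b 2) * x ^ 0 * y ^ 4 +
        σ (a 2) * σ (b 0) * x ^ 1 * y ^ 3 +
        σ (a 2) * σ (b 1) * x ^ 0 * y ^ 4 +
        σ (a 5) * σ (b 0) * x ^ 0 * y ^ 5,
        σ (a 0) * σ (b 3) * x ^ 8 * y ^ 0 +
        σ (a 0) * σ (b 4) * x ^ 7 * y ^ 1 +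
        σ (a 1) * σ (b 3) * x ^ 7 * y ^ 1 +
        σ (a 1) * σ (b 4) * x ^ 6 * y ^ 2 +
        σ (a 1) * σ (b 5) * x ^ 9 * y ^ 0 +
        σ (a 2) * σ (b 2) * x ^ 8 * y ^ 0 +
        σ (a 2) * σ (b 3) * x ^ 5 * y ^ 3 +
        σ (a 2) * σ (b 4) * x ^ 4 * y ^ 4 +
        σ (a 2) * σ (b 5) * x ^ 7 * y ^ 2 +
        σ (a 3) * σ (b 0) * x ^ 8 * y ^ 0 +
        σ (a 3) * σ (b 1) * x ^ 7 * y ^ 1 +
        σ (a 3) * σ (b 2) * x ^ 5 * y ^ 3 +
        σ (a 3) * σ (b 3) * x ^ 2 * y ^ 6 +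
        σ (a 3) * σ (b 4) * x ^ 1 * y ^ 7 +
        σ (a 3) * σ (b 5) * x ^ 4 * y ^ 5 +
        σ (a 4) * σ (b 0) * x ^ 7 * y ^ 1 +
        σ (a 4) * σ (b 1) * x ^ 6 * y ^ 2 +
        σ (a 4) * σ (b 2) * x ^ 4 * y ^ 4 +
        σ (a 4) * σ (b 3) * x ^ 1 * y ^ 7 +
        σ (a 4) * σ (b 4) * x ^ 0 * y ^ 8 +
        σ (a 4) * σ (b 5) * x ^ 3 * y ^ 6 +
        σ (a 5) * σ (b 1) * x ^ 9 * y ^ 0 +
        σ (a 5) * σ (b 2) * x ^ 7 * y ^ 2 +
        σ (a 5) * σ (b 3) * x ^ 4 * y ^ 5 +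
        σ (a 5) * σ (b 4) * x ^ 3 * y ^ 6 +
        σ (a 5) * σ (b 5) * x ^ 6 * y ^ 4, ?_⟩
      simp only [map_mul, map_add, map_pow, σx, σy, σz]
      ring
    · rintro p q ⟨A, B, h1⟩ ⟨A', B', h2⟩
      exact ⟨A + A', B + B', by rw [map_add, h1, h2]; ring⟩
  rw [pow_two] at hu
  obtain ⟨A, B, e⟩ := key _ hu
  simp only [map_mul, map_pow, σx, σy] at e
  have hx9 : ∀ n, ¬ y ∣ x ^ n := fun n h => hyx (hy.dvd_of_dvd_pow h)
  have d1 : y ^ 5 ∣ A * x ^ 10 := ⟨x ^ 9 - B * y, by linear_combination -e⟩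
  obtain ⟨A', rfl⟩ := hy.pow_dvd_of_dvd_mul_right 5 (hx9 10) d1
  have e2 : (1 - A' * x) * x ^ 9 = y * B := by
    apply mul_left_cancel₀ (pow_ne_zero 5 hy.ne_zero)
    linear_combination e
  obtain ⟨c, hc⟩ := (hy.dvd_or_dvd ⟨B, e2⟩).resolve_right (hx9 9)
  have := congrArg ε hc
  simp [εx, εy] at this

end Pool.Agent.Lead.Pd1
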