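import Mathlib

namespace Pool.Agent.Lead.Stamp

open Filter Topology

variable {E : Type*} [NormedAddCommGroup E] [InnerProductSpace ℂ E]

/-- homogeneous variance -/
noncomputable def F (A : E →L[ℂ] E) (x : E) : ℝ := ‖A x‖ ^ 2 * ‖x‖ ^ 2 - ‖inner ℂ x (A x)‖ ^ 2

lemma F_shift (A : E →L[ℂ] E) (μ : ℂ) (x : E) : F (A - μ • (1 : E →L[ℂ] E)) x = F A x := by
  have h : (A - μ • (1 : E →L[ℂ] E)) x = A x - μ • x := by simp
  unfold F
  rw [h, @norm_sub_sq ℂ, inner_sub_right, inner_smul_right, inner_smul_right,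
    inner_self_eq_norm_sq_to_K, norm_smul, ← inner_conj_symm (A x) x]
  generalize inner ℂ x (A x) = c
  rw [mul_pow, ← Complex.normSq_eq_norm_sq μ, ← Complex.normSq_eq_norm_sq c,
    ← Complex.normSq_eq_norm_sq (c - _)]
  simp only [Complex.normSq_apply, RCLike.re_to_complex, Complex.mul_re, Complex.mul_im,
    Complex.sub_re, Complex.sub_im, Complex.conj_re, Complex.conj_im, Complex.coe_algebraMap,
    ← Complex.ofReal_pow, Complex.ofReal_re, Complex.ofReal_im]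
  ring

lemma F_smul (A : E →L[ℂ] E) (t : ℝ) (x : E) : F A ((t : ℂ) • x) = t ^ 4 * F A x := by
  unfold F
  rw [map_smul, inner_smul_left, inner_smul_right]
  simp only [norm_smul, norm_mul, Complex.norm_conj, Complex.norm_real, Real.norm_eq_abs, mul_pow,
    sq_abs]
  ring

lemma exists_max [FiniteDimensional ℂ E] [Nontrivial E] (A : E →L[ℂ] E) :
    ∃ x0 : E, ‖x0‖ = 1 ∧ ∀ x, F A x ≤ F A x0 * ‖x‖ ^ 4 := by
  haveI : ProperSpace E := FiniteDimensional.proper ℂ E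
  have hc : Continuous (F A) := by unfold F; fun_prop
  obtain ⟨x0, hx0, hmax⟩ := (isCompact_sphere (0 : E) 1).exists_isMaxOn
    (NormedSpace.sphere_nonempty.2 zero_le_one) hc.continuousOn
  refine ⟨x0, by simpa using hx0, fun x => ?_⟩
  by_cases h : x = 0
  · simp [h, F]
  have hn : ‖x‖ ≠ 0 := norm_ne_zero_iff.2 h
  have h1 : ((‖x‖⁻¹ : ℝ) : ℂ) • x ∈ Metric.sphere (0 : E) 1 := by
    simp [norm_smul, hn]
  have h2 : F A (((‖x‖⁻¹ : ℝ) : ℂ) • x) ≤ F A x0 := hmax h1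
  rw [F_smul] at h2
  have h3 : F A x = (‖x‖⁻¹ ^ 4 * F A x) * ‖x‖ ^ 4 := by field_simp
  rw [h3]
  gcongr

lemma real_linear (α β γ : ℂ) :
    (∃ ζ : ℂ, ζ * α + (starRingEnd ℂ) ζ * β + γ = 0) ∨
    (∃ ζ : ℂ, ζ ≠ 0 ∧ ζ * α + (starRingEnd ℂ) ζ * β = 0) := by
  let L : ℂ →ₗ[ℝ] ℂ :=
    { toFun := fun ζ => ζ * α + (starRingEnd ℂ) ζ * β
      map_add' := fun a b => by simp only [map_add]; ring
      map_smul' := fun a b => by
        simp only [Complex.real_smul, map_mul, Complex.conj_ofReal, RingHom.id_apply]; ring }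
  by_cases h : Function.Injective L
  · left
    obtain ⟨ζ, hζ⟩ := (LinearMap.injective_iff_surjective.1 h) (-γ)
    refine ⟨ζ, ?_⟩
    have : ζ * α + (starRingEnd ℂ) ζ * β = -γ := hζ
    rw [this]; ring
  · right
    rw [injective_iff_map_eq_zero] at h
    push Not at h
    obtain ⟨ζ, h1, h2⟩ := h
    exact ⟨ζ, h2, h1⟩

lemma norm_le (B : E →L[ℂ] E) (x0 : E) (h1 : ‖x0‖ = 1) (h0 : inner ℂ x0 (B x0) = 0)
    (hmax : ∀ x, F B x ≤ ‖B x0‖ ^ 2 * ‖x‖ ^ 4) : ‖B‖ ≤ ‖B x0‖ := by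
  set r := ‖B x0‖ with hr
  -- it suffices to treat vectors orthogonal to x0 after the first order condition
  have expand : ∀ (z : E) (ζ : ℂ), inner ℂ x0 z = 0 →
      ((‖B z‖ ^ 2 - r ^ 2 * ‖z‖ ^ 2) + 2 * ((starRingEnd ℂ) ζ * inner ℂ (B x0) (B z)).re)
        * (‖ζ‖ ^ 2 + ‖z‖ ^ 2)
      ≤ ‖ζ * inner ℂ z (B x0) + (starRingEnd ℂ) ζ * inner ℂ x0 (B z) + inner ℂ z (B z)‖ ^ 2 := by
    intro z ζ hz
    have h := hmax (ζ • x0 + z)
    have e1 : ‖ζ • x0 + z‖ ^ 2 = ‖ζ‖ ^ 2 + ‖z‖ ^ 2 := by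
      rw [@norm_add_sq ℂ, inner_smul_left, hz, norm_smul, h1]; simp
    have e2 : ‖B (ζ • x0 + z)‖ ^ 2 = ‖ζ‖ ^ 2 * r ^ 2
        + 2 * ((starRingEnd ℂ) ζ * inner ℂ (B x0) (B z)).re + ‖B z‖ ^ 2 := by
      rw [map_add, map_smul, @norm_add_sq ℂ, inner_smul_left, norm_smul, mul_pow]; simp [hr]
    have e3 : inner ℂ (ζ • x0 + z) (B (ζ • x0 + z))
        = ζ * inner ℂ z (B x0) + (starRingEnd ℂ) ζ * inner ℂ x0 (B z) + inner ℂ z (B z) := by
      rw [map_add, map_smul, inner_add_left, inner_add_right, inner_add_right, inner_smul_left,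
        inner_smul_left, inner_smul_right, inner_smul_right, h0]
      ring
    have e4 : ‖ζ • x0 + z‖ ^ 4 = (‖ζ‖ ^ 2 + ‖z‖ ^ 2) ^ 2 := by rw [← e1]; ring
    unfold F at h
    rw [e1, e2, e3, e4] at h
    nlinarith
  have first : ∀ z : E, inner ℂ x0 z = 0 → inner ℂ (B x0) (B z) = 0 := by
    intro z hz
    by_contra hk
    set κ := inner ℂ (B x0) (B z) with hκ
    set α := inner ℂ z (B x0)
    set β := inner ℂ x0 (B z)
    set γ := inner ℂ z (B z)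
    set δ := ‖B z‖ ^ 2 - r ^ 2 * ‖z‖ ^ 2
    have hk0 : 0 < ‖κ‖ := norm_pos_iff.2 hk
    set K := ‖κ‖ with hK
    set C := K * (‖α‖ + ‖β‖) + ‖γ‖ with hC
    have hC0 : 0 ≤ C := by positivity
    have key : ∀ t : ℝ, 1 ≤ t → (δ + 2 * t * K ^ 2) * (t ^ 2 * K ^ 2 + ‖z‖ ^ 2) ≤ (t * C) ^ 2 := by
      intro t ht
      have h := expand z ((t : ℂ) * κ) hz
      have e1 : ((starRingEnd ℂ) ((t : ℂ) * κ) * κ).re = t * K ^ 2 := by
        rw [map_mul, Complex.conj_ofReal, mul_assoc, Complex.conj_mul', ← Complex.ofReal_pow,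
          ← Complex.ofReal_mul, Complex.ofReal_re]
      have e2 : ‖(t : ℂ) * κ‖ = t * K := by
        rw [norm_mul, Complex.norm_real, Real.norm_eq_abs, abs_of_pos (by linarith)]
      have e3 : ‖(t : ℂ) * κ * α + (starRingEnd ℂ) ((t : ℂ) * κ) * β + γ‖ ≤ t * C := by
        calc _ ≤ ‖(t : ℂ) * κ * α‖ + ‖(starRingEnd ℂ) ((t : ℂ) * κ) * β‖ + ‖γ‖ :=
              norm_add₃_le
          _ = t * K * ‖α‖ + t * K * ‖β‖ + ‖γ‖ := by
              rw [norm_mul, norm_mul (_ : ℂ) β, Complex.norm_conj, e2]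
          _ ≤ t * C := by
              rw [hC]; nlinarith [norm_nonneg γ]
      rw [e1, e2] at h
      calc _ = (δ + 2 * (t * K ^ 2)) * ((t * K) ^ 2 + ‖z‖ ^ 2) := by ring
        _ ≤ _ := h
        _ ≤ _ := by gcongr
    have hK2 : 0 < K ^ 2 := by positivity
    set t := 1 + (|δ| + C ^ 2 / K ^ 2) / K ^ 2 with ht
    have ht1 : 1 ≤ t := by
      have : 0 ≤ (|δ| + C ^ 2 / K ^ 2) / K ^ 2 := by positivity
      linarith
    have h := key t ht1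
    have e : t * K ^ 2 = K ^ 2 + |δ| + C ^ 2 / K ^ 2 := by rw [ht]; field_simp; ring
    have hd : -|δ| ≤ δ := neg_abs_le δ
    have hq : 0 ≤ C ^ 2 / K ^ 2 := by positivity
    have hlow : K ^ 2 + C ^ 2 / K ^ 2 ≤ δ + 2 * t * K ^ 2 := by nlinarith [abs_nonneg δ]
    have hlow2 : (K ^ 2 + C ^ 2 / K ^ 2) * (t ^ 2 * K ^ 2)
        ≤ (δ + 2 * t * K ^ 2) * (t ^ 2 * K ^ 2 + ‖z‖ ^ 2) := by
      apply mul_le_mul hlow (by nlinarith [sq_nonneg ‖z‖]) (by positivity)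
      linarith
    have e5 : (K ^ 2 + C ^ 2 / K ^ 2) * (t ^ 2 * K ^ 2) = t ^ 2 * K ^ 4 + (t * C) ^ 2 := by
      field_simp
    have : 0 < t ^ 2 * K ^ 4 := by positivity
    linarith
  have second : ∀ z : E, inner ℂ x0 z = 0 → ‖B z‖ ^ 2 ≤ r ^ 2 * ‖z‖ ^ 2 := by
    intro z hz
    by_contra hcon
    have hδ : 0 < ‖B z‖ ^ 2 - r ^ 2 * ‖z‖ ^ 2 := by linarith
    have hz0 : z ≠ 0 := by
      rintro rfl
      simp at hδ
    have hzn : 0 < ‖z‖ ^ 2 := by have := norm_pos_iff.2 hz0; positivity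
    set δ := ‖B z‖ ^ 2 - r ^ 2 * ‖z‖ ^ 2
    have ex : ∀ ζ : ℂ, δ * (‖ζ‖ ^ 2 + ‖z‖ ^ 2)
      ≤ ‖ζ * inner ℂ z (B x0) + (starRingEnd ℂ) ζ * inner ℂ x0 (B z) + inner ℂ z (B z)‖ ^ 2 := by
      intro ζ
      have := expand z ζ hz
      rw [first z hz] at this
      simpa using this
    rcases real_linear (inner ℂ z (B x0)) (inner ℂ x0 (B z)) (inner ℂ z (B z)) with
      ⟨ζ, hζ⟩ | ⟨ζ, hζ0, hζ⟩
    · have := ex ζ
      rw [hζ] at this
      have h2 : 0 < δ * (‖ζ‖ ^ 2 + ‖z‖ ^ 2) := by positivity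
      simp at this
      linarith
    · set G := ‖inner ℂ z (B z)‖
      have hG : 0 ≤ G := norm_nonneg _
      have hζn : 0 < ‖ζ‖ ^ 2 := by have := norm_pos_iff.2 hζ0; positivity
      set s := 1 + G ^ 2 / (δ * ‖ζ‖ ^ 2) with hs
      have hs1 : 1 ≤ s := by
        have : 0 ≤ G ^ 2 / (δ * ‖ζ‖ ^ 2) := by positivity
        linarith
      have h := ex ((s : ℂ) * ζ)
      have e1 : (s : ℂ) * ζ * inner ℂ z (B x0) + (starRingEnd ℂ) ((s : ℂ) * ζ) * inner ℂ x0 (B z)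
          = 0 := by
        rw [map_mul, Complex.conj_ofReal, mul_assoc, mul_assoc, ← mul_add, hζ, mul_zero]
      rw [e1, zero_add, norm_mul, Complex.norm_real, Real.norm_eq_abs, mul_pow, sq_abs] at h
      have e2 : s * (δ * ‖ζ‖ ^ 2) = δ * ‖ζ‖ ^ 2 + G ^ 2 := by rw [hs]; field_simp
      have e3 : 0 < δ * ‖ζ‖ ^ 2 := by positivity
      have e4 : s * (δ * ‖ζ‖ ^ 2) ≤ s ^ 2 * (δ * ‖ζ‖ ^ 2) := by
        apply mul_le_mul_of_nonneg_right _ e3.le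
        nlinarith
      have e5 : 0 < δ * ‖z‖ ^ 2 := by positivity
      nlinarith
  refine ContinuousLinearMap.opNorm_le_bound _ (norm_nonneg _) fun x => ?_
  set c := inner ℂ x0 x
  have hz : inner ℂ x0 (x - c • x0) = 0 := by
    rw [inner_sub_right, inner_smul_right, inner_self_eq_norm_sq_to_K, h1]; simp [c]
  set z := x - c • x0 with hzdef
  have hx : x = c • x0 + z := by rw [hzdef]; abel
  have e1 : ‖x‖ ^ 2 = ‖c‖ ^ 2 + ‖z‖ ^ 2 := by
    conv_lhs => rw [hx]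
    rw [@norm_add_sq ℂ, inner_smul_left, hz, norm_smul, h1]; simp
  have e2 : ‖B x‖ ^ 2 = ‖c‖ ^ 2 * r ^ 2 + ‖B z‖ ^ 2 := by
    conv_lhs => rw [hx]
    rw [map_add, map_smul, @norm_add_sq ℂ, inner_smul_left, first z hz, norm_smul, mul_pow]
    simp [hr]
  have h3 := second z hz
  have h4 : ‖B x‖ ^ 2 ≤ (r * ‖x‖) ^ 2 := by rw [mul_pow, e1, e2]; linarith
  exact (pow_le_pow_iff_left₀ (norm_nonneg _) (by positivity) two_ne_zero).1 h4

/-- Stampfli centre of mass -/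
theorem stampfli [FiniteDimensional ℂ E] [Nontrivial E] (A : E →L[ℂ] E) :
    ∃ (μ : ℂ) (x0 : E), ‖x0‖ = 1 ∧ inner ℂ x0 ((A - μ • (1 : E →L[ℂ] E)) x0) = 0 ∧
      ‖A - μ • (1 : E →L[ℂ] E)‖ ≤ ‖(A - μ • (1 : E →L[ℂ] E)) x0‖ := by
  obtain ⟨x0, h1, hmax⟩ := exists_max A
  have h0 : inner ℂ x0 ((A - (inner ℂ x0 (A x0)) • (1 : E →L[ℂ] E)) x0) = 0 := by
    have h : (A - (inner ℂ x0 (A x0)) • (1 : E →L[ℂ] E)) x0 = A x0 - (inner ℂ x0 (A x0)) • x0 := by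
      simp
    rw [h, inner_sub_right, inner_smul_right, inner_self_eq_norm_sq_to_K, h1]; simp
  refine ⟨inner ℂ x0 (A x0), x0, h1, h0, norm_le _ x0 h1 h0 fun x => ?_⟩
  have h2 := hmax x
  rw [← F_shift A (inner ℂ x0 (A x0)) x, ← F_shift A (inner ℂ x0 (A x0)) x0] at h2
  refine h2.trans (le_of_eq ?_)
  congr 1
  unfold F
  rw [h0, h1]; simp

end Pool.Agent.Lead.Stamp
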