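import Mathlib

namespace Pool.Agent.Lead.VN

open Finset Filter Topology

variable {E : Type*} [NormedAddCommGroup E] [InnerProductSpace ℂ E]

lemma root_sum {N : ℕ} {ζ : ℂ} (hζ : IsPrimitiveRoot ζ N) (m : ℕ) (h0 : 0 < m) (h2 : m < 2 * N) :
    ∑ i ∈ range N, (ζ ^ i) ^ m = if m = N then (N : ℂ) else 0 := by
  split_ifs with h
  · subst h
    have : ∀ i ∈ range m, (ζ ^ i) ^ m = 1 := by
      intro i _
      rw [← pow_mul, mul_comm, pow_mul, hζ.pow_eq_one, one_pow]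
    rw [Finset.sum_congr rfl this]; simp
  · have h1 : ζ ^ m ≠ 1 := by
      intro h1
      obtain ⟨c, hc⟩ := (hζ.pow_eq_one_iff_dvd m).1 h1
      rcases c with _ | _ | c
      · omega
      · omega
      · nlinarith
    have : ∀ i ∈ range N, (ζ ^ i) ^ m = (ζ ^ m) ^ i := by
      intro i _
      rw [← pow_mul, mul_comm, pow_mul]
    rw [Finset.sum_congr rfl this, geom_sum_eq h1, ← pow_mul, mul_comm, pow_mul, hζ.pow_eq_one]
    simp

/-- the defect form -/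
noncomputable def B (T : E →L[ℂ] E) (v u : E) : ℂ := inner ℂ v u - inner ℂ (T v) (T u)

lemma B_self (T : E →L[ℂ] E) (u : E) : B T u u = ((‖u‖ ^ 2 - ‖T u‖ ^ 2 : ℝ) : ℂ) := by
  simp [B, inner_self_eq_norm_sq_to_K]

lemma B_bound (T : E →L[ℂ] E) (hT : ‖T‖ ≤ 1) (v u : E) :
    ‖B T v u‖ ≤ ((‖u‖ ^ 2 - ‖T u‖ ^ 2) + (‖v‖ ^ 2 - ‖T v‖ ^ 2)) / 2 := by
  obtain ⟨c, hc, hcB⟩ : ∃ c : ℂ, ‖c‖ = 1 ∧ (c * B T v u).re = ‖B T v u‖ := by
    by_cases h : B T v u = 0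
    · exact ⟨1, by simp, by simp [h]⟩
    · refine ⟨(starRingEnd ℂ) (B T v u) / (‖B T v u‖ : ℂ), ?_, ?_⟩
      · have : ‖B T v u‖ ≠ 0 := norm_ne_zero_iff.2 h
        simp [this]
      · have hn : (‖B T v u‖ : ℂ) ≠ 0 := by exact_mod_cast norm_ne_zero_iff.2 h
        have : (starRingEnd ℂ) (B T v u) / (‖B T v u‖ : ℂ) * B T v u = (‖B T v u‖ : ℂ) := by
          field_simp
          rw [Complex.conj_mul']
        rw [this]; simp
  have h1 : ‖T (v - c • u)‖ ≤ ‖v - c • u‖ := by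
    calc _ ≤ ‖T‖ * ‖v - c • u‖ := T.le_opNorm _
      _ ≤ 1 * ‖v - c • u‖ := by gcongr
      _ = _ := one_mul _
  have h2 : ‖T (v - c • u)‖ ^ 2 ≤ ‖v - c • u‖ ^ 2 := by gcongr
  rw [map_sub, map_smul, @norm_sub_sq ℂ, @norm_sub_sq ℂ, norm_smul, norm_smul, hc,
    inner_smul_right, inner_smul_right] at h2
  rw [← hcB]
  simp only [B, mul_sub, Complex.sub_re]
  simp only [RCLike.re_to_complex] at h2
  nlinarith

/-- truncated resolvent -/
noncomputable def S (T : E →L[ℂ] E) (N : ℕ) (w : ℂ) (x : E) : E :=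
  ∑ j ∈ range N, w ^ j • (T ^ j) x

lemma S_sub (T : E →L[ℂ] E) (N : ℕ) (w : ℂ) (x : E) :
    w • T (S T N w x) = ∑ j ∈ range N, w ^ (j + 1) • (T ^ (j + 1)) x := by
  simp only [S, map_sum, map_smul, Finset.smul_sum, smul_smul]
  refine Finset.sum_congr rfl fun j _ => ?_
  rw [pow_succ' T, ContinuousLinearMap.mul_apply, pow_succ' w]

lemma S_eq (T : E →L[ℂ] E) (N : ℕ) (w : ℂ) (hw : w ^ N = 1) (x : E) :
    w • T (S T N w x) = S T N w x - (x - (T ^ N) x) := by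
  rw [S_sub]
  have h := Finset.sum_range_succ' (fun j => w ^ j • (T ^ j) x) N
  have h2 := Finset.sum_range_succ (fun j => w ^ j • (T ^ j) x) N
  simp only [pow_zero, one_smul, ContinuousLinearMap.one_apply, hw] at h h2
  rw [h] at h2
  unfold S
  rw [eq_sub_iff_add_eq, ← add_sub_assoc, h2]
  abel

lemma B_S (T : E →L[ℂ] E) (N : ℕ) (w : ℂ) (hw : w ^ N = 1) (hw1 : ‖w‖ = 1) (x y : E) :
    B T (S T N w y) (S T N w x) = inner ℂ (y - (T ^ N) y) (S T N w x)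
      + inner ℂ (∑ j ∈ range N, w ^ (j + 1) • (T ^ (j + 1)) y) (x - (T ^ N) x) := by
  have hww : (starRingEnd ℂ) w * w = 1 := by
    rw [Complex.conj_mul', hw1]; simp
  have h1 : inner ℂ (T (S T N w y)) (T (S T N w x))
      = inner ℂ (w • T (S T N w y)) (w • T (S T N w x)) := by
    rw [inner_smul_left, inner_smul_right, ← mul_assoc, hww, one_mul]
  rw [B, h1, ← S_sub, S_eq T N w hw x, S_eq T N w hw y]
  simp only [inner_sub_left, inner_sub_right]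
  ring

lemma avg (T : E →L[ℂ] E) {N : ℕ} {ζ : ℂ} (hζ : IsPrimitiveRoot ζ N) (k : ℕ) (hk : k < N) (x y : E) :
    ∑ i ∈ range N, ((starRingEnd ℂ) (ζ ^ i)) ^ k * B T (S T N (ζ ^ i) y) (S T N (ζ ^ i) x)
      = N * (inner ℂ (y - (T ^ N) y) ((T ^ k) x) + inner ℂ ((T ^ (N - k)) y) (x - (T ^ N) x)) := by
  have hN : N ≠ 0 := by omega
  have hn : ∀ i, ‖ζ ^ i‖ = 1 := fun i => by rw [norm_pow, hζ.norm'_eq_one hN, one_pow]
  have hp : ∀ i, (ζ ^ i) ^ N = 1 := fun i => by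
    rw [← pow_mul, mul_comm, pow_mul, hζ.pow_eq_one, one_pow]
  have hc : ∀ i, ((starRingEnd ℂ) (ζ ^ i)) ^ k = (ζ ^ i) ^ (N - k) := by
    intro i
    have h1 : (starRingEnd ℂ) (ζ ^ i) * ζ ^ i = 1 := by rw [Complex.conj_mul', hn]; simp
    have h2 : (ζ ^ i) ^ (N - k) * (ζ ^ i) ^ k = 1 := by rw [← pow_add, Nat.sub_add_cancel hk.le, hp]
    have h3 : ((starRingEnd ℂ) (ζ ^ i)) ^ k * (ζ ^ i) ^ k = 1 := by rw [← mul_pow, h1, one_pow]
    have h4 : (ζ ^ i) ^ k ≠ 0 := by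
      intro h; rw [h, mul_zero] at h2; exact zero_ne_one h2
    exact mul_right_cancel₀ h4 (h3.trans h2.symm)
  have e1 : ∑ i ∈ range N, ((starRingEnd ℂ) (ζ ^ i)) ^ k • S T N (ζ ^ i) x = (N : ℂ) • (T ^ k) x := by
    simp only [S, Finset.smul_sum, smul_smul, hc, ← pow_add]
    rw [Finset.sum_comm]
    simp only [← Finset.sum_smul]
    rw [Finset.sum_eq_single k]
    · rw [root_sum hζ _ (by omega) (by omega), if_pos (by omega)]
    · intro j hj hjk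
      rw [Finset.mem_range] at hj
      rw [root_sum hζ _ (by omega) (by omega), if_neg (by omega), zero_smul]
    · intro h; exact absurd (Finset.mem_range.2 hk) h
  have e2 : ∑ i ∈ range N, (ζ ^ i) ^ k • (∑ j ∈ range N, (ζ ^ i) ^ (j + 1) • (T ^ (j + 1)) y)
      = (N : ℂ) • (T ^ (N - k)) y := by
    simp only [Finset.smul_sum, smul_smul, ← pow_add]
    rw [Finset.sum_comm]
    simp only [← Finset.sum_smul]
    rw [Finset.sum_eq_single (N - k - 1)]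
    · rw [root_sum hζ _ (by omega) (by omega), if_pos (by omega)]
      congr 3; omega
    · intro j hj hjk
      rw [Finset.mem_range] at hj
      rw [root_sum hζ _ (by omega) (by omega), if_neg (by omega), zero_smul]
    · intro h; exact absurd (Finset.mem_range.2 (by omega)) h
  have e3 : ∀ i ∈ range N, ((starRingEnd ℂ) (ζ ^ i)) ^ k * B T (S T N (ζ ^ i) y) (S T N (ζ ^ i) x)
      = inner ℂ (y - (T ^ N) y) (((starRingEnd ℂ) (ζ ^ i)) ^ k • S T N (ζ ^ i) x)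
        + inner ℂ ((ζ ^ i) ^ k • (∑ j ∈ range N, (ζ ^ i) ^ (j + 1) • (T ^ (j + 1)) y))
          (x - (T ^ N) x) := by
    intro i _
    rw [B_S T N _ (hp i) (hn i), inner_smul_right, inner_smul_left,
      map_pow (starRingEnd ℂ) (ζ ^ i) k, mul_add]
  rw [Finset.sum_congr rfl e3, Finset.sum_add_distrib, ← inner_sum, ← sum_inner, e1, e2,
    inner_smul_right, inner_smul_left, map_natCast, mul_add]

lemma avg_self (T : E →L[ℂ] E) {N : ℕ} {ζ : ℂ} (hζ : IsPrimitiveRoot ζ N) (hN : 0 < N) (x : E) :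
    ∑ i ∈ range N, (‖S T N (ζ ^ i) x‖ ^ 2 - ‖T (S T N (ζ ^ i) x)‖ ^ 2) ≤ N * ‖x‖ ^ 2 := by
  have h := avg T hζ 0 hN x x
  simp only [pow_zero, one_mul, B_self, ContinuousLinearMap.one_apply, Nat.sub_zero] at h
  have h2 : inner ℂ (x - (T ^ N) x) x + inner ℂ ((T ^ N) x) (x - (T ^ N) x)
      = ((‖x‖ ^ 2 - ‖(T ^ N) x‖ ^ 2 : ℝ) : ℂ) := by
    simp only [inner_sub_left, inner_sub_right, inner_self_eq_norm_sq_to_K]
    push_cast
    simp
  rw [h2, ← Complex.ofReal_sum, ← Complex.ofReal_natCast, ← Complex.ofReal_mul,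
    Complex.ofReal_inj] at h
  rw [h]
  have : (0 : ℝ) ≤ N := Nat.cast_nonneg _
  nlinarith [sq_nonneg ‖(T ^ N) x‖]

lemma finite_bound (T : E →L[ℂ] E) (hT : ‖T‖ ≤ 1) (a : ℕ → ℂ) (d N : ℕ) (hd : d ≤ N) (hN : 0 < N)
    (M : ℝ) (hM : ∀ z : ℂ, ‖z‖ = 1 → ‖∑ k ∈ range d, a k * z ^ k‖ ≤ M) (x y : E) :
    ‖∑ k ∈ range d, a k * (inner ℂ (y - (T ^ N) y) ((T ^ k) x)
      + inner ℂ ((T ^ (N - k)) y) (x - (T ^ N) x))‖ ≤ M * ((‖x‖ ^ 2 + ‖y‖ ^ 2) / 2) := by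
  have hζ := Complex.isPrimitiveRoot_exp N hN.ne'
  set ζ := Complex.exp (2 * Real.pi * Complex.I / N)
  have hn : ∀ i, ‖ζ ^ i‖ = 1 := fun i => by rw [norm_pow, hζ.norm'_eq_one hN.ne', one_pow]
  have hM0 : 0 ≤ M := (norm_nonneg _).trans (hM 1 (by simp))
  have hNpos : (0 : ℝ) < N := by exact_mod_cast hN
  have key : (N : ℂ) * ∑ k ∈ range d, a k * (inner ℂ (y - (T ^ N) y) ((T ^ k) x)
      + inner ℂ ((T ^ (N - k)) y) (x - (T ^ N) x))
      = ∑ i ∈ range N, (∑ k ∈ range d, a k * ((starRingEnd ℂ) (ζ ^ i)) ^ k)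
          * B T (S T N (ζ ^ i) y) (S T N (ζ ^ i) x) := by
    simp only [Finset.sum_mul, mul_assoc]
    rw [Finset.sum_comm, Finset.mul_sum]
    refine Finset.sum_congr rfl fun k hk => ?_
    rw [← Finset.mul_sum, avg T hζ k (by have := Finset.mem_range.1 hk; omega)]
    ring
  have h2 : (N : ℝ) * ‖∑ k ∈ range d, a k * (inner ℂ (y - (T ^ N) y) ((T ^ k) x)
      + inner ℂ ((T ^ (N - k)) y) (x - (T ^ N) x))‖ ≤ N * (M * ((‖x‖ ^ 2 + ‖y‖ ^ 2) / 2)) := by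
    have := congrArg norm key
    rw [norm_mul, Complex.norm_natCast] at this
    rw [this]
    calc _ ≤ ∑ i ∈ range N, M * (((‖S T N (ζ ^ i) x‖ ^ 2 - ‖T (S T N (ζ ^ i) x)‖ ^ 2)
            + (‖S T N (ζ ^ i) y‖ ^ 2 - ‖T (S T N (ζ ^ i) y)‖ ^ 2)) / 2) := by
          refine (norm_sum_le _ _).trans (Finset.sum_le_sum fun i _ => ?_)
          rw [norm_mul]
          exact mul_le_mul (hM _ (by rw [Complex.norm_conj, hn])) (B_bound T hT _ _)
            (norm_nonneg _) hM0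
      _ ≤ _ := by
          rw [← Finset.mul_sum, ← Finset.sum_div, Finset.sum_add_distrib]
          have h1 := avg_self T hζ hN x
          have h2 := avg_self T hζ hN y
          nlinarith
  exact le_of_mul_le_mul_left h2 hNpos

lemma strict_bound (T : E →L[ℂ] E) (hT : ‖T‖ < 1) (a : ℕ → ℂ) (d : ℕ)
    (M : ℝ) (hM : ∀ z : ℂ, ‖z‖ = 1 → ‖∑ k ∈ range d, a k * z ^ k‖ ≤ M) (x y : E) :
    ‖∑ k ∈ range d, a k * inner ℂ y ((T ^ k) x)‖ ≤ M * ((‖x‖ ^ 2 + ‖y‖ ^ 2) / 2) := by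
  have h0 : Tendsto (fun N : ℕ => T ^ N) atTop (𝓝 0) :=
    tendsto_pow_atTop_nhds_zero_of_norm_lt_one hT
  have h1 : ∀ v : E, Tendsto (fun N : ℕ => (T ^ N) v) atTop (𝓝 0) := by
    intro v
    have := ((ContinuousLinearMap.apply ℂ E v).continuous.tendsto 0).comp h0
    rw [map_zero] at this
    exact this
  have h2 : ∀ k, Tendsto (fun N : ℕ => (T ^ (N - k)) y) atTop (𝓝 0) := fun k =>
    (h1 y).comp (tendsto_sub_atTop_nat k)
  have h3 : Tendsto (fun N : ℕ => ‖∑ k ∈ range d, a k * (inner ℂ (y - (T ^ N) y) ((T ^ k) x)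
      + inner ℂ ((T ^ (N - k)) y) (x - (T ^ N) x))‖) atTop
      (𝓝 ‖∑ k ∈ range d, a k * (inner ℂ (y - 0) ((T ^ k) x) + inner ℂ (0 : E) (x - 0))‖) := by
    refine Tendsto.norm (tendsto_finset_sum _ fun k _ => Tendsto.const_mul _ (Tendsto.add ?_ ?_))
    · exact Tendsto.inner (tendsto_const_nhds.sub (h1 y)) tendsto_const_nhds
    · exact Tendsto.inner (h2 k) (tendsto_const_nhds.sub (h1 x))
  simp only [sub_zero, inner_zero_left, add_zero] at h3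
  refine le_of_tendsto h3 ?_
  filter_upwards [eventually_ge_atTop (d + 1)] with N hN
  exact finite_bound T hT.le a d N (by omega) (by omega) M hM x y

lemma weak_bound (T : E →L[ℂ] E) (hT : ‖T‖ ≤ 1) (a : ℕ → ℂ) (d : ℕ)
    (M : ℝ) (hM : ∀ z : ℂ, ‖z‖ = 1 → ‖∑ k ∈ range d, a k * z ^ k‖ ≤ M) (x y : E) :
    ‖∑ k ∈ range d, a k * inner ℂ y ((T ^ k) x)‖ ≤ M * ((‖x‖ ^ 2 + ‖y‖ ^ 2) / 2) := by
  have hc : Continuous fun t : ℝ => ‖∑ k ∈ range d, a k * ((t : ℂ) ^ k * inner ℂ y ((T ^ k) x))‖ := by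
    fun_prop
  have h3 := (hc.tendsto 1).mono_left (nhdsWithin_le_nhds (s := Set.Iio 1))
  simp only [Complex.ofReal_one, one_pow, one_mul] at h3
  refine le_of_tendsto h3 ?_
  filter_upwards [Ioo_mem_nhdsLT (show (0 : ℝ) < 1 by norm_num)] with t ht
  have h := strict_bound ((t : ℂ) • T) (by
    rw [norm_smul, Complex.norm_real, Real.norm_eq_abs, abs_of_pos ht.1]
    nlinarith [ht.1, ht.2, norm_nonneg T]) a d M hM x y
  simpa only [smul_pow, ContinuousLinearMap.smul_apply, inner_smul_right] using h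

/-- von Neumann's inequality -/
theorem von_neumann (T : E →L[ℂ] E) (hT : ‖T‖ ≤ 1) (p : Polynomial ℂ)
    (M : ℝ) (hM : ∀ z : ℂ, ‖z‖ = 1 → ‖p.eval z‖ ≤ M) : ‖Polynomial.aeval T p‖ ≤ M := by
  have hM0 : 0 ≤ M := (norm_nonneg _).trans (hM 1 (by simp))
  have h : ∀ x y : E, ‖inner ℂ y ((Polynomial.aeval T p) x)‖ ≤ M * ((‖x‖ ^ 2 + ‖y‖ ^ 2) / 2) := by
    intro x y
    have := weak_bound T hT p.coeff (p.natDegree + 1) M (fun z hz => by
      rw [← Polynomial.eval_eq_sum_range]; exact hM z hz) x y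
    rw [Polynomial.aeval_eq_sum_range]
    simpa only [ContinuousLinearMap.sum_apply, ContinuousLinearMap.smul_apply, inner_sum,
      inner_smul_right] using this
  refine ContinuousLinearMap.opNorm_le_of_unit_norm hM0 fun x hx => ?_
  set v := (Polynomial.aeval T p) x with hv
  by_cases h0 : v = 0
  · rw [h0, norm_zero]; exact hM0
  have hn : ‖v‖ ≠ 0 := norm_ne_zero_iff.2 h0
  have h1 := h x (((‖v‖⁻¹ : ℝ) : ℂ) • v)
  rw [← hv, inner_smul_left, inner_self_eq_norm_sq_to_K, norm_smul, hx] at h1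
  simp only [Complex.ofReal_inv, map_inv₀, Complex.conj_ofReal, norm_mul, norm_inv,
    Complex.norm_real, norm_norm, norm_pow, Complex.coe_algebraMap] at h1
  rw [inv_mul_cancel₀ hn] at h1
  have h2 : ‖v‖⁻¹ * ‖v‖ ^ 2 = ‖v‖ := by field_simp
  rw [h2] at h1
  linarith

end Pool.Agent.Lead.VN
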