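import Mathlib

set_option autoImplicit false

namespace Pool.Agent.Lead.Wedge3

open ExteriorAlgebra

variable {W : Type} [AddCommGroup W] [Module ℝ W]

noncomputable def ctr (α : W →ₗ[ℝ] ℝ) : ExteriorAlgebra ℝ W →ₗ[ℝ] ExteriorAlgebra ℝ W :=
  CliffordAlgebra.contractLeft (Q := (0 : QuadraticForm ℝ W)) α

theorem ctr_mul (α : W →ₗ[ℝ] ℝ) (a : W) (b : ExteriorAlgebra ℝ W) :
    ctr α (ι ℝ a * b) = α a • b - ι ℝ a * ctr α b :=
  CliffordAlgebra.contractLeft_ι_mul α a b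

theorem ctr_ι (α : W →ₗ[ℝ] ℝ) (a : W) : ctr α (ι ℝ a) = α a • (1 : ExteriorAlgebra ℝ W) := by
  have := CliffordAlgebra.contractLeft_ι (0 : QuadraticForm ℝ W) α a
  rw [Algebra.algebraMap_eq_smul_one] at this
  exact this

theorem ctr_one (α : W →ₗ[ℝ] ℝ) : ctr α (1 : ExteriorAlgebra ℝ W) = 0 :=
  CliffordAlgebra.contractLeft_one _ α

noncomputable def Φ (α β γ : W →ₗ[ℝ] ℝ) : ExteriorAlgebra ℝ W →ₗ[ℝ] ℝ :=
  (algebraMapInv (R := ℝ) (M := W)).toLinearMap ∘ₗ ctr γ ∘ₗ ctr β ∘ₗ ctr α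

theorem inv_ι (a : W) : algebraMapInv (ι ℝ a) = (0 : ℝ) := by simp [algebraMapInv]

theorem Φ_apply (α β γ : W →ₗ[ℝ] ℝ) (u v w : W) :
    Φ α β γ (ι ℝ u * (ι ℝ v * ι ℝ w)) =
      α u * (β v * γ w - γ v * β w) - α v * (β u * γ w - γ u * β w)
        + α w * (β u * γ v - γ u * β v) := by
  simp only [Φ, LinearMap.comp_apply, ctr_mul, ctr_ι, map_sub, map_smul, mul_sub, mul_smul_comm,
    mul_one, ctr_one, AlgHom.toLinearMap_apply, map_one, smul_eq_mul, mul_zero, map_zero,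
    smul_zero, sub_zero]
  ring

theorem swap (a b : W) (x : ExteriorAlgebra ℝ W) :
    ι ℝ a * (ι ℝ b * x) = - (ι ℝ b * (ι ℝ a * x)) := by
  rw [← mul_assoc, ← mul_assoc, ← neg_mul, eq_neg_of_add_eq_zero_left (ι_add_mul_swap a b)]

theorem swap' (a b : W) : ι ℝ a * ι ℝ b = - (ι ℝ b * ι ℝ a) :=
  eq_neg_of_add_eq_zero_left (ι_add_mul_swap a b)

theorem sq' (a : W) (x : ExteriorAlgebra ℝ W) : ι ℝ a * (ι ℝ a * x) = 0 := by
  rw [← mul_assoc, ι_sq_zero, zero_mul]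

theorem zero_of_span (u p q : W) (s t : ℝ) (h : u = s • p + t • q) :
    ι ℝ u * (ι ℝ p * ι ℝ q) = 0 := by
  rw [h, map_add, map_smul, map_smul, add_mul, smul_mul_assoc, smul_mul_assoc, sq', swap q p,
    ι_sq_zero]
  simp

end Pool.Agent.Lead.Wedge3
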